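import Mathlib

/-!
# Places, normalised absolute values and local heights on projective space
-/

namespace Pool.Agent.Lib.MP_17a322_nt

open NumberField

/-- The set `M_k` of places of a number field `k`: infinite places and finite places. -/
abbrev Place (k : Type*) [Field k] [NumberField k] := InfinitePlace k ⊕ FinitePlace k

variable {k : Type*} [Field k] [NumberField k]

/-- The absolute value attached to a place `v` in the usual (unnormalised, for complex places)
form. -/
noncomputable def absAt (v : Place k) (x : k) : ℝ :=
  match v with
  | .inl w => w x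
  | .inr w => w x

/-- The exponent `[k_v : ℝ]` for an infinite place and `1` for a finite place (Mathlib's absolute
value at a finite place is already normalised by the norm of the prime ideal). -/
noncomputable def expAt (v : Place k) : ℕ :=
  match v with
  | .inl w => w.mult
  | .inr _ => 1

/-- `[k : ℚ]` times `d_v * λ_{D,v}(x)`, where `λ_{D,v}` is the standard local Weil height on
projective space for the effective divisor `D : F = 0`, `F` homogeneous of degree `d`:
`e_v * (d * log max_i |x_i|_v - log |F(x)|_v)`. -/
noncomputable def locHt {n : ℕ} (v : Place k) (F : MvPolynomial (Fin (n + 1)) k)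
    (x : Fin (n + 1) → k) : ℝ :=
  expAt v * (F.totalDegree * Real.log (⨆ i, absAt v (x i)) -
    Real.log (absAt v (MvPolynomial.eval x F)))

/-- The linear form with coefficients `l` as a polynomial. -/
noncomputable def lin {k : Type*} [Field k] {n : ℕ} (l : Fin (n + 1) → k) :
    MvPolynomial (Fin (n + 1)) k :=
  ∑ m, MvPolynomial.C (l m) * MvPolynomial.X m

/-- The value `∑ l_m x_m` of the linear form with coefficients `l` at `x`. -/
def dot {k : Type*} [Field k] {n : ℕ} (l x : Fin (n + 1) → k) : k := ∑ m, l m * x m

/-- `[k : ℚ] d_v` times the local height of the line `dot a x = dot b x = 0`: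
`e_v (log max_i |x_i|_v - log max(|a·x|_v, |b·x|_v))`. -/
noncomputable def lineHt (v : Place k) {n : ℕ} (a b x : Fin (n + 1) → k) : ℝ :=
  expAt v * (Real.log (⨆ i, absAt v (x i)) -
    Real.log (max (absAt v (dot a x)) (absAt v (dot b x))))

/-- The embedding `σ : k → L` induces the place `v` (for instance `L = k_v`, the completion). -/
def Induces (v : Place k) {L : Type*} [NormedField L] (σ : k →+* L) : Prop :=
  ∀ a, ‖σ a‖ = absAt v a

open Classical in
/-- The indices `i` such that the hypersurface `F i = 0` passes through `P`. -/
noncomputable def through {L : Type*} [Field L] (σ : k →+* L) {n : ℕ} {ι : Type*} [Fintype ι]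
    (F : ι → MvPolynomial (Fin (n + 1)) k) (P : Fin (n + 1) → L) : Finset ι :=
  Finset.univ.filter fun i => MvPolynomial.eval₂ σ P (F i) = 0

/-- `n = 2`, exactly two of the curves pass through `P`, both have degree `2`, they meet
transversally at `P` (their gradients at `P` are linearly independent), and `P` lies on a line
defined over `k`. -/
def ConicCrossing {L : Type*} [Field L] (σ : k →+* L) {n : ℕ} {ι : Type*} [Fintype ι]
    (F : ι → MvPolynomial (Fin (n + 1)) k) (d : ι → ℕ) (P : Fin (n + 1) → L) : Prop :=
  n = 2 ∧ (∃ i j : ι, i ≠ j ∧ (∀ a, a ∈ through σ F P ↔ a = i ∨ a = j) ∧ d i = 2 ∧ d j = 2 ∧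
    LinearIndependent L ![fun m => MvPolynomial.eval₂ σ P (MvPolynomial.pderiv m (F i)),
      fun m => MvPolynomial.eval₂ σ P (MvPolynomial.pderiv m (F j))]) ∧
    ∃ l : Fin (n + 1) → k, l ≠ 0 ∧ ∑ m, σ (l m) * P m = 0

end Pool.Agent.Lib.MP_17a322_nt
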