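import Mathlib
import Pool.Agent.Lib.MP_17a322_nt.Defs

namespace Pool.Agent.Lib.MP_17a322_nt

open NumberField MvPolynomial Height Function

variable {k : Type*} [Field k] [NumberField k]

/-- ratio at a place -/
noncomputable def ratio {n : ℕ} (F : MvPolynomial (Fin (n + 1)) k) (d : ℕ) (v : Place k)
    (x : Fin (n + 1) → k) : ℝ :=
  absAt v (eval x F) / (⨆ i, absAt v (x i)) ^ d

lemma sup_pos {n : ℕ} (v : Place k) {x : Fin (n + 1) → k} (hx : x ≠ 0) :
    0 < ⨆ i, absAt v (x i) := by
  obtain ⟨j, hj⟩ := Function.ne_iff.mp hx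
  have h1 : 0 < absAt v (x j) := by
    match v with
    | .inl w => exact w.pos_iff.mpr hj
    | .inr w => exact w.pos_iff.mpr hj
  exact lt_of_lt_of_le h1 (Finite.le_ciSup (fun i => absAt v (x i)) j)

lemma absAt_pos (v : Place k) {x : k} (hx : x ≠ 0) : 0 < absAt v x := by
  match v with
  | .inl w => exact w.pos_iff.mpr hx
  | .inr w => exact w.pos_iff.mpr hx

lemma absAt_nonneg (v : Place k) (x : k) : 0 ≤ absAt v x := by
  match v with
  | .inl w => exact apply_nonneg w x
  | .inr w => exact apply_nonneg w x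

lemma ratio_pos {n : ℕ} (F : MvPolynomial (Fin (n + 1)) k) (d : ℕ) (v : Place k)
    {x : Fin (n + 1) → k} (hx : x ≠ 0) (hF : eval x F ≠ 0) : 0 < ratio F d v x :=
  div_pos (absAt_pos v hF) (pow_pos (sup_pos v hx) d)

/-- upper bound for the ratio -/
noncomputable def bd {n : ℕ} (F : MvPolynomial (Fin (n + 1)) k) (v : Place k) : ℝ :=
  match v with
  | .inl w => max 1 ((AddMonoidAlgebra.coeff F).sum (fun _ c ↦ w c))
  | .inr w => max 1 (⨆ s : F.support, w (coeff s F))

lemma ratio_le {n : ℕ} {F : MvPolynomial (Fin (n + 1)) k} {d : ℕ} (hF : F.IsHomogeneous d)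
    (v : Place k) {x : Fin (n + 1) → k} (hx : x ≠ 0) : ratio F d v x ≤ bd F v := by
  unfold ratio
  rw [div_le_iff₀ (pow_pos (sup_pos v hx) d)]
  match v with
  | .inl w =>
    refine (AbsoluteValue.eval_mvPolynomial_le w.val hF x).trans ?_
    apply mul_le_mul_of_nonneg_right (le_max_right _ _)
    exact pow_nonneg (sup_pos (Sum.inl w) hx).le d
  | .inr w =>
    have hv : IsNonarchimedean (w.val : AbsoluteValue k ℝ) := FinitePlace.add_le w
    refine (IsNonarchimedean.eval_mvPolynomial_le hv hF x).trans ?_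
    apply mul_le_mul_of_nonneg_right (le_max_right _ _)
    exact pow_nonneg (sup_pos (Sum.inr w) hx).le d

lemma one_le_bd {n : ℕ} (F : MvPolynomial (Fin (n + 1)) k) (v : Place k) : 1 ≤ bd F v := by
  match v with
  | .inl w => exact le_max_left _ _
  | .inr w => exact le_max_left _ _


lemma fin_sup {n : ℕ} {x : Fin (n + 1) → k} (hx : x ≠ 0) :
    HasFiniteMulSupport (fun w : FinitePlace k => ⨆ i, w (x i)) := by
  have : Nonempty {j // x j ≠ 0} := nonempty_subtype.mpr <| Function.ne_iff.mp hx
  have h1 : HasFiniteMulSupport (fun w : FinitePlace k => ⨆ i : {j // x j ≠ 0}, w (x i)) :=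
    .iSup fun i => FinitePlace.hasFiniteMulSupport i.2
  have h2 : (fun w : FinitePlace k => ⨆ i, w (x i)) =
      (fun w : FinitePlace k => ⨆ i : {j // x j ≠ 0}, w (x i)) := by
    funext w
    exact Finite.iSup_eq_iSup_subtype hx
  rw [h2]
  exact h1

lemma fin_bd {n : ℕ} (F : MvPolynomial (Fin (n + 1)) k) :
    HasFiniteMulSupport (fun w : FinitePlace k => bd F (Sum.inr w)) := by
  unfold bd
  simp only
  rcases isEmpty_or_nonempty F.support with h | h
  · simp only [Real.iSup_of_isEmpty]
    have : (fun _ : FinitePlace k => max (1 : ℝ) 0) = 1 := by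
      funext w; simp
    rw [this]
    exact Function.hasFiniteMulSupport_fun_one
  · refine Function.HasFiniteMulSupport.max Function.hasFiniteMulSupport_fun_one ?_
    refine Function.HasFiniteMulSupport.iSup fun s => FinitePlace.hasFiniteMulSupport ?_
    exact mem_support_iff.mp s.2

/-- exponent-weighted ratio -/
noncomputable def wratio {n : ℕ} (F : MvPolynomial (Fin (n + 1)) k) (d : ℕ) (v : Place k)
    (x : Fin (n + 1) → k) : ℝ := (ratio F d v x) ^ (expAt v)

lemma prod_ratio {n : ℕ} {F : MvPolynomial (Fin (n + 1)) k} {d : ℕ}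
    {x : Fin (n + 1) → k} (hx : x ≠ 0) (hF : eval x F ≠ 0) :
    (∏ w : InfinitePlace k, wratio F d (Sum.inl w) x) *
      ∏ᶠ w : FinitePlace k, wratio F d (Sum.inr w) x = (mulHeight x ^ d)⁻¹ := by
  have h1 := prod_abs_eq_one hF
  have h2 := NumberField.mulHeight_eq hx
  unfold wratio ratio expAt absAt
  simp only [pow_one, div_pow, Finset.prod_div_distrib]
  have h3 : HasFiniteMulSupport (fun w : FinitePlace k => (⨆ i, w (x i)) ^ d) := (fin_sup hx).pow d
  have e : ∏ᶠ w : FinitePlace k, w ((MvPolynomial.eval x) F) / (⨆ i, w (x i)) ^ d =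
      (∏ᶠ w : FinitePlace k, w ((MvPolynomial.eval x) F)) /
        (∏ᶠ w : FinitePlace k, ⨆ i, w (x i)) ^ d := by
    rw [finprod_pow (fin_sup hx)]
    exact finprod_div_distrib (FinitePlace.hasFiniteMulSupport hF) h3
  rw [e, h2, mul_pow, div_mul_div_comm, h1, ← Finset.prod_pow]
  simp only [← pow_mul, mul_comm d]
  rw [one_div]

lemma wratio_pos {n : ℕ} (F : MvPolynomial (Fin (n + 1)) k) (d : ℕ) (v : Place k)
    {x : Fin (n + 1) → k} (hx : x ≠ 0) (hF : eval x F ≠ 0) : 0 < wratio F d v x :=
  pow_pos (ratio_pos F d v hx hF) _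

/-- the constant in the Liouville inequality -/
noncomputable def lconst {n : ℕ} (F : MvPolynomial (Fin (n + 1)) k) : ℝ :=
  (∏ w : InfinitePlace k, bd F (Sum.inl w) ^ w.mult) * ∏ᶠ w : FinitePlace k, bd F (Sum.inr w)

lemma fin_wratio {n : ℕ} {F : MvPolynomial (Fin (n + 1)) k} {d : ℕ}
    {x : Fin (n + 1) → k} (hx : x ≠ 0) (hF : eval x F ≠ 0) :
    HasFiniteMulSupport (fun w : FinitePlace k => wratio F d (Sum.inr w) x) := by
  unfold wratio ratio expAt absAt
  simp only [pow_one]
  exact (FinitePlace.hasFiniteMulSupport hF).div ((fin_sup hx).pow d)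

open Classical in
/-- Product form of the Liouville inequality for a finite set of places. -/
lemma liouville_prod {n : ℕ} {F : MvPolynomial (Fin (n + 1)) k} {d : ℕ} (hF : F.IsHomogeneous d)
    (S : Finset (Place k)) {x : Fin (n + 1) → k} (hx : x ≠ 0) (hFx : eval x F ≠ 0) :
    (mulHeight x ^ d)⁻¹ ≤ lconst F * ∏ v ∈ S, wratio F d v x := by
  rw [← prod_ratio hx hFx]
  -- auxiliary function
  let h : Place k → ℝ := fun v => if v ∈ S then wratio F d v x else 1
  have hpos : ∀ v, 0 < h v := by
    intro v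
    by_cases hv : v ∈ S
    · simp only [h, if_pos hv]; exact wratio_pos F d v hx hFx
    · simp only [h, if_neg hv]; exact one_pos
  have hbd : ∀ v, 1 ≤ bd F v ^ expAt v := fun v => one_le_pow₀ (one_le_bd F v)
  have hle : ∀ v, wratio F d v x ≤ bd F v ^ expAt v * h v := by
    intro v
    by_cases hv : v ∈ S
    · simp only [h, if_pos hv]
      exact le_mul_of_one_le_left (wratio_pos F d v hx hFx).le (hbd v)
    · simp only [h, if_neg hv, mul_one]
      exact pow_le_pow_left₀ (ratio_pos F d v hx hFx).le (ratio_le hF v hx) _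
  have hinf : ∏ w : InfinitePlace k, wratio F d (Sum.inl w) x ≤
      (∏ w : InfinitePlace k, bd F (Sum.inl w) ^ w.mult) * ∏ w : InfinitePlace k, h (Sum.inl w) := by
    rw [← Finset.prod_mul_distrib]
    refine Finset.prod_le_prod (fun w _ => (wratio_pos F d _ hx hFx).le) fun w _ => hle (Sum.inl w)
  have hhfin : HasFiniteMulSupport (fun w : FinitePlace k => h (Sum.inr w)) := by
    refine Set.Finite.subset (Set.Finite.preimage Sum.inr_injective.injOn S.finite_toSet) ?_
    intro w hw
    rw [Function.mem_mulSupport] at hw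
    by_contra hcon
    apply hw
    simp only [h]
    rw [if_neg]
    exact hcon
  have hfin : ∏ᶠ w : FinitePlace k, wratio F d (Sum.inr w) x ≤
      (∏ᶠ w : FinitePlace k, bd F (Sum.inr w)) * ∏ᶠ w : FinitePlace k, h (Sum.inr w) := by
    rw [← finprod_mul_distrib (fin_bd F) hhfin]
    refine finprod_le_finprod (fin_wratio hx hFx) (fun w => (wratio_pos F d _ hx hFx).le)
      ((fin_bd F).mul hhfin) fun w => ?_
    have := hle (Sum.inr w)
    simpa [expAt] using this
  have hprod : (∏ w : InfinitePlace k, h (Sum.inl w)) * ∏ᶠ w : FinitePlace k, h (Sum.inr w) =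
      ∏ v ∈ S, wratio F d v x := by
    have e1 : ∏ᶠ w : FinitePlace k, h (Sum.inr w) =
        ∏ w ∈ (S.preimage Sum.inr Sum.inr_injective.injOn), h (Sum.inr w) := by
      refine finprod_eq_prod_of_mulSupport_subset _ ?_
      intro w hw
      rw [Function.mem_mulSupport] at hw
      rw [Finset.mem_coe, Finset.mem_preimage]
      by_contra hcon
      apply hw
      simp only [h]
      rw [if_neg hcon]
    have e2 : ∏ w : InfinitePlace k, h (Sum.inl w) =
        ∏ w ∈ (S.preimage Sum.inl Sum.inl_injective.injOn), h (Sum.inl w) := by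
      symm
      refine Finset.prod_subset (Finset.subset_univ _) ?_
      intro w _ hw
      rw [Finset.mem_preimage] at hw
      simp only [h]
      rw [if_neg hw]
    rw [e1, e2]
    have e3 : ∏ v ∈ S, wratio F d v x = ∏ v ∈ S, h v :=
      Finset.prod_congr rfl fun v hv => by simp only [h]; rw [if_pos hv]
    rw [e3, ← Finset.prod_filter_mul_prod_filter_not S (fun v => v.isLeft)]
    congr 1
    · refine Finset.prod_bij (fun w _ => Sum.inl w) ?_ ?_ ?_ ?_
      · intro w hw
        rw [Finset.mem_preimage] at hw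
        simp [hw]
      · intro a _ b _ hab
        exact Sum.inl_injective hab
      · intro v hv
        rw [Finset.mem_filter] at hv
        match v, hv with
        | .inl w, hv => exact ⟨w, by rw [Finset.mem_preimage]; exact hv.1, rfl⟩
        | .inr w, hv => simp at hv
      · intro w _; rfl
    · refine Finset.prod_bij (fun w _ => Sum.inr w) ?_ ?_ ?_ ?_
      · intro w hw
        rw [Finset.mem_preimage] at hw
        simp [hw]
      · intro a _ b _ hab
        exact Sum.inr_injective hab
      · intro v hv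
        rw [Finset.mem_filter] at hv
        match v, hv with
        | .inr w, hv => exact ⟨w, by rw [Finset.mem_preimage]; exact hv.1, rfl⟩
        | .inl w, hv => simp at hv
      · intro w _; rfl
  calc _ ≤ ((∏ w : InfinitePlace k, bd F (Sum.inl w) ^ w.mult) *
          ∏ w : InfinitePlace k, h (Sum.inl w)) *
        ((∏ᶠ w : FinitePlace k, bd F (Sum.inr w)) * ∏ᶠ w : FinitePlace k, h (Sum.inr w)) := by
        refine mul_le_mul hinf hfin ?_ ?_
        · exact finprod_nonneg fun w => (wratio_pos F d _ hx hFx).le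
        · refine mul_nonneg ?_ ?_
          · exact Finset.prod_nonneg fun w _ => pow_nonneg (zero_le_one.trans (one_le_bd F _)) _
          · exact Finset.prod_nonneg fun w _ => (hpos _).le
    _ = _ := by
        rw [← hprod]; unfold lconst; ring

lemma lconst_pos {n : ℕ} (F : MvPolynomial (Fin (n + 1)) k) : 0 < lconst F := by
  unfold lconst
  refine mul_pos (Finset.prod_pos fun w _ => pow_pos (zero_lt_one.trans_le (one_le_bd F _)) _) ?_
  exact zero_lt_one.trans_le (one_le_finprod fun w => one_le_bd F _)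

lemma locHt_eq {n : ℕ} {F : MvPolynomial (Fin (n + 1)) k} {d : ℕ} (hF : F.IsHomogeneous d)
    (v : Place k) {x : Fin (n + 1) → k} (hx : x ≠ 0) (hFx : eval x F ≠ 0) :
    locHt v F x = - Real.log (wratio F d v x) := by
  have hF0 : F ≠ 0 := by
    rintro rfl
    simp at hFx
  unfold locHt wratio ratio
  rw [hF.totalDegree hF0, Real.log_pow, Real.log_div (absAt_pos v hFx).ne'
    (pow_pos (sup_pos v hx) d).ne', Real.log_pow]
  ring

/-- **Liouville inequality**: the sum over a finite set of places of the local heights of a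
hypersurface of degree `d` is at most `d` times the height, up to a constant. -/
theorem liouville {n : ℕ} {F : MvPolynomial (Fin (n + 1)) k} {d : ℕ} (hF : F.IsHomogeneous d)
    (S : Finset (Place k)) {x : Fin (n + 1) → k} (hx : x ≠ 0) (hFx : eval x F ≠ 0) :
    ∑ v ∈ S, locHt v F x ≤ d * logHeight x + Real.log (lconst F) := by
  have h1 := liouville_prod hF S hx hFx
  have h2 : ∑ v ∈ S, locHt v F x = - Real.log (∏ v ∈ S, wratio F d v x) := by
    rw [Real.log_prod (fun v _ => (wratio_pos F d v hx hFx).ne'), ← Finset.sum_neg_distrib]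
    exact Finset.sum_congr rfl fun v _ => locHt_eq hF v hx hFx
  have hp : 0 < ∏ v ∈ S, wratio F d v x := Finset.prod_pos fun v _ => wratio_pos F d v hx hFx
  have h3 := Real.log_le_log (inv_pos.mpr (pow_pos (mulHeight_pos x) d)) h1
  rw [Real.log_inv, Real.log_pow, Real.log_mul (lconst_pos F).ne' hp.ne'] at h3
  rw [h2, logHeight_eq_log_mulHeight]
  linarith

/-- local heights are bounded below -/
lemma locHt_ge {n : ℕ} {F : MvPolynomial (Fin (n + 1)) k} {d : ℕ} (hF : F.IsHomogeneous d)
    (v : Place k) {x : Fin (n + 1) → k} (hx : x ≠ 0) (hFx : eval x F ≠ 0) :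
    - (expAt v * Real.log (bd F v)) ≤ locHt v F x := by
  rw [locHt_eq hF v hx hFx]
  unfold wratio
  rw [Real.log_pow]
  have h1 := Real.log_le_log (ratio_pos F d v hx hFx) (ratio_le hF v hx)
  have h2 : (0 : ℝ) ≤ expAt v := Nat.cast_nonneg _
  nlinarith

omit [NumberField k] in
lemma eval₂_smul_hom {L : Type*} [CommRing L] {n : ℕ} {F : MvPolynomial (Fin (n + 1)) k} {d : ℕ}
    (hF : F.IsHomogeneous d) (σ : k →+* L) (c : L) (P : Fin (n + 1) → L) :
    eval₂ σ (c • P) F = c ^ d * eval₂ σ P F := by
  rw [eval₂_eq', eval₂_eq', Finset.mul_sum]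
  refine Finset.sum_congr rfl fun m hm => ?_
  have h1 : d = ∑ i, m i := by
    rw [hF.degree_eq_sum_deg_support hm]
    refine Finset.sum_subset (Finset.subset_univ _) ?_
    intro i _ hi
    exact Finsupp.notMem_support_iff.mp hi
  have h2 : ∏ i, (c • P) i ^ m i = c ^ d * ∏ i, P i ^ m i := by
    simp only [Pi.smul_apply, smul_eq_mul, mul_pow, Finset.prod_mul_distrib,
      Finset.prod_pow_eq_pow_sum, ← h1]
  rw [h2]; ring

lemma eval_smul_hom {n : ℕ} {F : MvPolynomial (Fin (n + 1)) k} {d : ℕ}
    (hF : F.IsHomogeneous d) (c : k) (P : Fin (n + 1) → k) :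
    eval (c • P) F = c ^ d * eval P F := eval₂_smul_hom hF (RingHom.id k) c P

lemma absAt_mul (v : Place k) (a b : k) : absAt v (a * b) = absAt v a * absAt v b := by
  match v with
  | .inl w => exact map_mul w a b
  | .inr w => exact map_mul w a b

lemma absAt_pow (v : Place k) (a : k) (d : ℕ) : absAt v (a ^ d) = absAt v a ^ d := by
  match v with
  | .inl w => exact map_pow w a d
  | .inr w => exact map_pow w a d

lemma sup_smul {n : ℕ} (v : Place k) (c : k) (x : Fin (n + 1) → k) :
    (⨆ i, absAt v ((c • x) i)) = absAt v c * ⨆ i, absAt v (x i) := by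
  simp only [Pi.smul_apply, smul_eq_mul, absAt_mul]
  rw [Real.mul_iSup_of_nonneg (absAt_nonneg v c)]

/-- scaling invariance -/
lemma locHt_smul {n : ℕ} {F : MvPolynomial (Fin (n + 1)) k} {d : ℕ} (hF : F.IsHomogeneous d)
    (v : Place k) {x : Fin (n + 1) → k} (hx : x ≠ 0) (hFx : eval x F ≠ 0) {c : k} (hc : c ≠ 0) :
    locHt v F (c • x) = locHt v F x := by
  have hcx : c • x ≠ 0 := smul_ne_zero hc hx
  have hev : eval (c • x) F = c ^ d * eval x F := eval_smul_hom hF c x
  have hFcx : eval (c • x) F ≠ 0 := by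
    rw [hev]; exact mul_ne_zero (pow_ne_zero _ hc) hFx
  rw [locHt_eq hF v hcx hFcx, locHt_eq hF v hx hFx]
  have h1 : ratio F d v (c • x) = ratio F d v x := by
    unfold ratio
    rw [hev, sup_smul, absAt_mul, absAt_pow, mul_pow]
    have := (absAt_pos v hc).ne'
    rw [mul_div_mul_left _ _ (pow_ne_zero _ this)]
  unfold wratio
  rw [h1]

end Pool.Agent.Lib.MP_17a322_nt
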