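import Mathlib
import Pool.Agent.Lib.MP_17a322_nt.Liouville

namespace Pool.Agent.Lib.MP_17a322_nt

open NumberField MvPolynomial Height Function Filter Topology

variable {k : Type*} [Field k] [NumberField k]

section

variable {L : Type*} [NontriviallyNormedField L] {v : Place k} {σ : k →+* L}

lemma norm_eval (hσ : ∀ a, ‖σ a‖ = absAt v a) {n : ℕ} (F : MvPolynomial (Fin (n + 1)) k)
    (x : Fin (n + 1) → k) : absAt v (eval x F) = ‖eval₂ σ (σ ∘ x) F‖ := by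
  rw [← hσ]
  congr 1
  have := eval₂_comp_left σ (RingHom.id k) x F
  rw [RingHom.comp_id] at this
  exact this

omit [NumberField k] in
lemma cont_eval {n : ℕ} (F : MvPolynomial (Fin (n + 1)) k) :
    Continuous (fun Q : Fin (n + 1) → L => eval₂ σ Q F) := by
  simp only [eval₂_eq_eval_map]
  exact MvPolynomial.continuous_eval _

lemma sup_le_norm (hσ : ∀ a, ‖σ a‖ = absAt v a) {n : ℕ} (x : Fin (n + 1) → k) :
    (⨆ i, absAt v (x i)) ≤ ‖σ ∘ x‖ := by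
  refine ciSup_le fun i => ?_
  rw [← hσ]
  exact norm_le_pi_norm (σ ∘ x) i

/-- Bound for the local height from bounds for the norms. -/
lemma locHt_le_of (hσ : ∀ a, ‖σ a‖ = absAt v a) {n : ℕ} {F : MvPolynomial (Fin (n + 1)) k} {d : ℕ}
    (hF : F.IsHomogeneous d) {x : Fin (n + 1) → k} (hx : x ≠ 0) (hFx : eval x F ≠ 0)
    {B c : ℝ} (hc : 0 < c) (h1 : ‖σ ∘ x‖ ≤ B) (h2 : c ≤ ‖eval₂ σ (σ ∘ x) F‖) :
    locHt v F x ≤ expAt v * (d * Real.log B - Real.log c) := by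
  have hF0 : F ≠ 0 := by
    rintro rfl
    simp at hFx
  unfold locHt
  rw [hF.totalDegree hF0]
  apply mul_le_mul_of_nonneg_left _ (Nat.cast_nonneg _)
  have h3 : Real.log (⨆ i, absAt v (x i)) ≤ Real.log B :=
    Real.log_le_log (sup_pos v hx) ((sup_le_norm hσ x).trans h1)
  have h4 : Real.log c ≤ Real.log (absAt v (eval x F)) := by
    rw [norm_eval hσ]
    exact Real.log_le_log hc h2
  have h5 : (0 : ℝ) ≤ d := Nat.cast_nonneg _
  nlinarith

/-- Away from the zero set the local height is bounded. -/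
lemma locHt_bdd_near (hσ : ∀ a, ‖σ a‖ = absAt v a) {n : ℕ} {F : MvPolynomial (Fin (n + 1)) k} {d : ℕ}
    (hF : F.IsHomogeneous d) {P : Fin (n + 1) → L} (hP : eval₂ σ P F ≠ 0) :
    ∃ C : ℝ, ∀ᶠ Q in 𝓝 P, ∀ x : Fin (n + 1) → k, x ≠ 0 → σ ∘ x = Q → eval x F ≠ 0 →
      locHt v F x ≤ C := by
  refine ⟨expAt v * (d * Real.log (‖P‖ + 1) - Real.log (‖eval₂ σ P F‖ / 2)), ?_⟩
  have hpos : 0 < ‖eval₂ σ P F‖ := norm_pos_iff.mpr hP
  have h1 : ∀ᶠ Q in 𝓝 P, ‖eval₂ σ P F‖ / 2 < ‖eval₂ σ Q F‖ :=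
    ((cont_eval F).norm.tendsto P).eventually (lt_mem_nhds (half_lt_self hpos))
  have h2 : ∀ᶠ Q in 𝓝 P, ‖Q‖ < ‖P‖ + 1 :=
    (continuous_norm.tendsto P).eventually (gt_mem_nhds (lt_add_one _))
  filter_upwards [h1, h2] with Q hQ1 hQ2 x hx hxQ hFx
  subst hxQ
  exact locHt_le_of hσ hF hx hFx (half_pos hpos) hQ2.le hQ1.le

end

end Pool.Agent.Lib.MP_17a322_nt
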