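import Mathlib
import Pool.Agent.Lib.MP_17a322_nt.Liouville

namespace Pool.Agent.Lib.MP_17a322_nt

open NumberField MvPolynomial Height Function Filter Topology

section
variable {k : Type*} [Field k]
variable {L : Type*} [NontriviallyNormedField L] {σ : k →+* L}

/-- differential of a polynomial function -/
noncomputable def dEval (σ : k →+* L) {N : ℕ} (F : MvPolynomial (Fin N) k) (P : Fin N → L) :
    (Fin N → L) →L[L] L :=
  ∑ m, (eval₂ σ P (pderiv m F)) • (ContinuousLinearMap.proj m : (Fin N → L) →L[L] L)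

lemma dEval_apply {N : ℕ} (F : MvPolynomial (Fin N) k) (P y : Fin N → L) :
    dEval σ F P y = ∑ m, eval₂ σ P (pderiv m F) * y m := by
  simp [dEval]

lemma hasFDeriv_eval {N : ℕ} (F : MvPolynomial (Fin N) k) (P : Fin N → L) :
    HasFDerivAt (fun Q : Fin N → L => eval₂ σ Q F) (dEval σ F P) P := by
  induction F using MvPolynomial.induction_on with
  | C a =>
    have h : (fun Q : Fin N → L => eval₂ σ Q (C a)) = fun _ => σ a := by
      funext Q; rw [eval₂_C]
    rw [h]
    refine (hasFDerivAt_const _ _).congr_fderiv ?_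
    ext y
    rw [dEval_apply]
    simp
  | add p q hp hq =>
    have h : (fun Q : Fin N → L => eval₂ σ Q (p + q)) =
        fun Q => eval₂ σ Q p + eval₂ σ Q q := by
      funext Q; rw [eval₂_add]
    rw [h]
    refine (HasFDerivAt.fun_add hp hq).congr_fderiv ?_
    ext y
    rw [add_apply, dEval_apply, dEval_apply, dEval_apply,
      ← Finset.sum_add_distrib]
    refine Finset.sum_congr rfl fun m _ => ?_
    rw [map_add, eval₂_add, add_mul]
  | mul_X p i hp =>
    have h1 : HasFDerivAt (fun Q : Fin N → L => Q i)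
        (ContinuousLinearMap.proj i : (Fin N → L) →L[L] L) P :=
      (ContinuousLinearMap.proj i : (Fin N → L) →L[L] L).hasFDerivAt
    have h : (fun Q : Fin N → L => eval₂ σ Q (p * X i)) =
        fun Q => eval₂ σ Q p * Q i := by
      funext Q; rw [eval₂_mul, eval₂_X]
    rw [h]
    refine (hp.mul h1).congr_fderiv ?_
    ext y
    rw [dEval_apply]
    have h3 : ∀ m, eval₂ σ P (pderiv m (p * X i)) * y m =
        P i * (eval₂ σ P (pderiv m p) * y m) + if m = i then eval₂ σ P p * y i else 0 := by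
      intro m
      rw [pderiv_mul, eval₂_add, eval₂_mul, eval₂_mul, eval₂_X, pderiv_X, Pi.single_apply]
      split_ifs with h4 h5 h5
      · subst h4; simp; ring
      · exact absurd h4.symm h5
      · exact absurd h5.symm h4
      · simp; ring
    rw [Finset.sum_congr rfl fun m _ => h3 m, Finset.sum_add_distrib, ← Finset.mul_sum,
      Finset.sum_ite_eq' Finset.univ i, if_pos (Finset.mem_univ i)]
    simp [dEval_apply]
    ring

lemma euler_zero {N : ℕ} {F : MvPolynomial (Fin N) k} {d : ℕ} (hF : F.IsHomogeneous d)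
    {P : Fin N → L} (hP : eval₂ σ P F = 0) : dEval σ F P P = 0 := by
  have h := hF.sum_X_mul_pderiv
  have h2 := congrArg (eval₂ σ P) h
  rw [dEval_apply]
  rw [eval₂_sum] at h2
  have h3 : eval₂ σ P (d • F) = 0 := by
    rw [nsmul_eq_mul, eval₂_mul, hP, mul_zero]
  rw [h3] at h2
  rw [← h2]
  refine Finset.sum_congr rfl fun m _ => ?_
  rw [eval₂_mul, eval₂_X, mul_comm]

/-- algebra in dimension three -/
lemma cross_aux {f g P y : Fin 3 → L} (hfg : LinearIndependent L ![f, g])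
    (hfP : ∑ m, f m * P m = 0) (hgP : ∑ m, g m * P m = 0)
    (hfy : ∑ m, f m * y m = 0) (hgy : ∑ m, g m * y m = 0) {j : Fin 3} (hPj : P j ≠ 0)
    (hyj : y j = 0) : y = 0 := by
  have hc := crossProduct_ne_zero_iff_linearIndependent.mpr hfg
  rw [cross_apply] at hc
  set c : Fin 3 → L := ![f 1 * g 2 - f 2 * g 1, f 2 * g 0 - f 0 * g 2, f 0 * g 1 - f 1 * g 0]
    with hcdef
  have key : ∀ w : Fin 3 → L, ∑ m, f m * w m = 0 → ∑ m, g m * w m = 0 →
      ∀ a b, c a * w b = c b * w a := by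
    intro w h1 h2 a b
    rw [Fin.sum_univ_three] at h1 h2
    fin_cases a <;> fin_cases b <;> simp only [hcdef, Fin.zero_eta, Fin.mk_one, Fin.reduceFinMk,
        Matrix.cons_val_zero, Matrix.cons_val_one, Matrix.cons_val] <;>
      first
        | ring1
        | linear_combination (g 0) * h1 - (f 0) * h2
        | linear_combination (f 0) * h2 - (g 0) * h1
        | linear_combination (g 1) * h1 - (f 1) * h2
        | linear_combination (f 1) * h2 - (g 1) * h1
        | linear_combination (g 2) * h1 - (f 2) * h2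
        | linear_combination (f 2) * h2 - (g 2) * h1
  obtain ⟨a, ha⟩ := Function.ne_iff.mp hc
  have ha' : c a ≠ 0 := ha
  have hcj : c j ≠ 0 := by
    intro h
    have := key P hfP hgP a j
    rw [h, zero_mul] at this
    exact (mul_ne_zero ha' hPj) this
  funext b
  have := key y hfy hgy j b
  rw [hyj, mul_zero] at this
  simpa using (mul_eq_zero.mp this).resolve_left hcj

/-- If two plane curves meet transversally at `P` and a line defined over `k` passes through `P`,
then near `P` the linear form is bounded by the maximum of the two forms. -/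
lemma transversal [CompleteSpace L] {F G : MvPolynomial (Fin 3) k} {a b : ℕ}
    (hF : F.IsHomogeneous a) (hG : G.IsHomogeneous b) {P : Fin 3 → L} (hP : P ≠ 0)
    (hFP : eval₂ σ P F = 0) (hGP : eval₂ σ P G = 0)
    (hind : LinearIndependent L
      ![fun m => eval₂ σ P (pderiv m F), fun m => eval₂ σ P (pderiv m G)])
    (l : Fin 3 → k) (hl : ∑ m, σ (l m) * P m = 0) :
    ∃ K : ℝ, 0 < K ∧ ∀ᶠ Q in 𝓝 P, ‖∑ m, σ (l m) * Q m‖ ≤
      K * max ‖eval₂ σ Q F‖ ‖eval₂ σ Q G‖ := by
  obtain ⟨j, hj⟩ := Function.ne_iff.mp hP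
  have hj' : P j ≠ 0 := hj
  let T : (Fin 3 → L) →ₗ[L] (L × L × L) :=
    ((dEval σ F P : (Fin 3 → L) →L[L] L) : (Fin 3 → L) →ₗ[L] L).prod
      (((dEval σ G P : (Fin 3 → L) →L[L] L) : (Fin 3 → L) →ₗ[L] L).prod (LinearMap.proj j))
  have hT : ∀ y, T y = (dEval σ F P y, dEval σ G P y, y j) := fun y => rfl
  have hker : T.ker = ⊥ := by
    rw [LinearMap.ker_eq_bot']
    intro y hy
    rw [hT] at hy
    obtain ⟨h1, h2⟩ := Prod.mk.inj hy
    obtain ⟨h2, h3⟩ := Prod.mk.inj h2
    refine cross_aux (P := P) hind ?_ ?_ ?_ ?_ hj' h3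
    · have := euler_zero hF hFP
      rwa [dEval_apply] at this
    · have := euler_zero hG hGP
      rwa [dEval_apply] at this
    · rwa [dEval_apply] at h1
    · rwa [dEval_apply] at h2
  obtain ⟨K, hK, hanti⟩ := T.exists_antilipschitzWith hker
  have hK' : (0 : ℝ) < K := hK
  have hanti' : ∀ y, ‖y‖ ≤ K * ‖T y‖ := by
    intro y
    have := hanti.le_mul_dist y 0
    rwa [map_zero, dist_zero_right, dist_zero_right] at this
  set ε : ℝ := 1 / (2 * K) with hε
  have hεpos : 0 < ε := by positivity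
  have dF := (hasFDeriv_eval (σ := σ) F P).isLittleO.bound hεpos
  have dG := (hasFDeriv_eval (σ := σ) G P).isLittleO.bound hεpos
  -- rescaling map
  let s : (Fin 3 → L) → (Fin 3 → L) := fun Q => (P j / Q j) • Q
  have hsP : s P = P := by
    simp only [s]; rw [div_self hj', one_smul]
  have hcj : Tendsto (fun Q : Fin 3 → L => Q j) (𝓝 P) (𝓝 (P j)) := (continuous_apply j).tendsto P
  have hct : Tendsto (fun Q : Fin 3 → L => P j / Q j) (𝓝 P) (𝓝 1) := by
    have := (tendsto_const_nhds (x := P j)).div hcj hj'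
    rwa [div_self hj'] at this
  have hs : Tendsto s (𝓝 P) (𝓝 P) := by
    have := hct.smul (tendsto_id (x := 𝓝 P))
    simpa using this
  have hn1 : ∀ᶠ Q in 𝓝 P, ‖P j / Q j‖ < 2 := by
    have := hct.norm.eventually (gt_mem_nhds (show ‖(1 : L)‖ < 2 by rw [norm_one]; norm_num))
    exact this
  have hn2 : ∀ᶠ Q in 𝓝 P, 1 / 2 < ‖P j / Q j‖ := by
    have := hct.norm.eventually (lt_mem_nhds (show 1 / 2 < ‖(1 : L)‖ by rw [norm_one]; norm_num))
    exact this
  set Cl : ℝ := ∑ m, ‖σ (l m)‖ with hCl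
  have hCl0 : 0 ≤ Cl := Finset.sum_nonneg fun m _ => norm_nonneg _
  set M : ℝ := max (2 ^ a) (2 ^ b) with hM
  have hMpos : 0 < M := lt_max_of_lt_left (by positivity)
  refine ⟨2 * (Cl * (2 * K * M)) + 1, by positivity, ?_⟩
  filter_upwards [hs.eventually dF, hs.eventually dG, hn1, hn2,
    hcj.eventually_ne hj'] with Q h1 h2 h3 h4 h5
  set t := P j / Q j with ht
  set Q' := s Q with hQ'
  have hQt : Q' = t • Q := rfl
  set y := Q' - P with hy
  have hyj : y j = 0 := by
    rw [hy, hQt, Pi.sub_apply, Pi.smul_apply, smul_eq_mul, ht, div_mul_cancel₀ _ h5, sub_self]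
  rw [hFP, sub_zero] at h1
  rw [hGP, sub_zero] at h2
  have e1 : eval₂ σ Q' F = t ^ a * eval₂ σ Q F := eval₂_smul_hom (n := 2) hF σ t Q
  have e2 : eval₂ σ Q' G = t ^ b * eval₂ σ Q G := eval₂_smul_hom (n := 2) hG σ t Q
  set m0 := max ‖eval₂ σ Q F‖ ‖eval₂ σ Q G‖ with hm0
  have hm0' : 0 ≤ m0 := le_max_of_le_left (norm_nonneg _)
  have b1 : ‖eval₂ σ Q' F‖ ≤ M * m0 := by
    rw [e1, norm_mul, norm_pow]
    refine mul_le_mul ?_ (le_max_left _ _) (norm_nonneg _) hMpos.le
    exact (pow_le_pow_left₀ (norm_nonneg _) h3.le a).trans (le_max_left _ _)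
  have b2 : ‖eval₂ σ Q' G‖ ≤ M * m0 := by
    rw [e2, norm_mul, norm_pow]
    refine mul_le_mul ?_ (le_max_right _ _) (norm_nonneg _) hMpos.le
    exact (pow_le_pow_left₀ (norm_nonneg _) h3.le b).trans (le_max_right _ _)
  have c1 : ‖dEval σ F P y‖ ≤ M * m0 + ε * ‖y‖ := by
    have : ‖dEval σ F P y‖ ≤ ‖eval₂ σ Q' F‖ + ‖eval₂ σ Q' F - dEval σ F P y‖ := by
      have := norm_sub_le (eval₂ σ Q' F) (eval₂ σ Q' F - dEval σ F P y)
      rwa [sub_sub_cancel] at this
    linarith
  have c2 : ‖dEval σ G P y‖ ≤ M * m0 + ε * ‖y‖ := by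
    have : ‖dEval σ G P y‖ ≤ ‖eval₂ σ Q' G‖ + ‖eval₂ σ Q' G - dEval σ G P y‖ := by
      have := norm_sub_le (eval₂ σ Q' G) (eval₂ σ Q' G - dEval σ G P y)
      rwa [sub_sub_cancel] at this
    linarith
  have c3 : ‖T y‖ ≤ M * m0 + ε * ‖y‖ := by
    rw [hT, Prod.norm_mk, Prod.norm_mk, hyj, norm_zero]
    refine max_le c1 (max_le c2 ?_)
    positivity
  have c4 : ‖y‖ ≤ 2 * K * (M * m0) := by
    have h6 := hanti' y
    have h7 : K * ‖T y‖ ≤ K * (M * m0 + ε * ‖y‖) := mul_le_mul_of_nonneg_left c3 hK'.le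
    have h8 : K * (ε * ‖y‖) = ‖y‖ / 2 := by
      rw [hε]; field_simp
    nlinarith
  -- the linear form
  have l1 : ∑ m, σ (l m) * Q' m = ∑ m, σ (l m) * y m := by
    have : ∑ m, σ (l m) * Q' m = ∑ m, σ (l m) * y m + ∑ m, σ (l m) * P m := by
      rw [← Finset.sum_add_distrib]
      refine Finset.sum_congr rfl fun m _ => ?_
      rw [hy, Pi.sub_apply]; ring
    rw [this, hl, add_zero]
  have l2 : ‖∑ m, σ (l m) * y m‖ ≤ Cl * ‖y‖ := by
    refine (norm_sum_le _ _).trans ?_
    rw [hCl, Finset.sum_mul]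
    refine Finset.sum_le_sum fun m _ => ?_
    rw [norm_mul]
    exact mul_le_mul_of_nonneg_left (norm_le_pi_norm y m) (norm_nonneg _)
  have l3 : ∑ m, σ (l m) * Q' m = t * ∑ m, σ (l m) * Q m := by
    rw [Finset.mul_sum]
    refine Finset.sum_congr rfl fun m _ => ?_
    rw [hQt, Pi.smul_apply, smul_eq_mul]; ring
  have l4 : ‖t‖ * ‖∑ m, σ (l m) * Q m‖ ≤ Cl * (2 * K * (M * m0)) := by
    rw [← norm_mul, ← l3, l1]
    exact l2.trans (mul_le_mul_of_nonneg_left c4 hCl0)
  have l5 : 1 / 2 * ‖∑ m, σ (l m) * Q m‖ ≤ ‖t‖ * ‖∑ m, σ (l m) * Q m‖ :=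
    mul_le_mul_of_nonneg_right h4.le (norm_nonneg _)
  nlinarith

end
end Pool.Agent.Lib.MP_17a322_nt
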