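import Mathlib
import Pool.Agent.Lib.MP_17a322_nt.Near
import Pool.Agent.Lib.MP_17a322_nt.Transversal

namespace Pool.Agent.Lib.MP_17a322_nt

open NumberField MvPolynomial Height Function Filter Topology

variable {k : Type*} [Field k] [NumberField k]

omit [NumberField k] in
lemma lin_hom {n : ℕ} (l : Fin (n + 1) → k) : (lin l).IsHomogeneous 1 := by
  unfold lin
  refine IsHomogeneous.sum _ _ _ fun m _ => ?_
  have := (isHomogeneous_C (Fin (n + 1)) (l m)).mul (isHomogeneous_X k m)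
  simpa using this

omit [NumberField k] in
lemma eval_lin {n : ℕ} (l x : Fin (n + 1) → k) : eval x (lin l) = ∑ m, l m * x m := by
  simp [lin]

section

variable {L : Type*} [NontriviallyNormedField L] {v : Place k} {σ : k →+* L}
variable {n : ℕ} {ι : Type*} [Fintype ι]

/-- The inequality holds on the set `s` with some finite exceptional set of hyperplanes. -/
def Good (v : Place k) (σ : k →+* L) (F : ι → MvPolynomial (Fin (n + 1)) k)
    (s : Set (Fin (n + 1) → L)) : Prop :=
  ∃ (Z : Finset (Fin (n + 1) → k)) (C : ℝ), (∀ l ∈ Z, l ≠ 0) ∧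
    ∀ x : Fin (n + 1) → k, x ≠ 0 → σ ∘ x ∈ s → (∀ i, eval x (F i) ≠ 0) →
      (∀ l ∈ Z, ∑ m, l m * x m ≠ 0) →
      ∑ i, locHt v (F i) x ≤ (n + 1) * logHeight x + C

lemma good_of_sum (hσ : Induces v σ) {F : ι → MvPolynomial (Fin (n + 1)) k} {d : ι → ℕ}
    (hF : ∀ i, (F i).IsHomogeneous (d i)) (P : Fin (n + 1) → L)
    (s : Set (Fin (n + 1) → L)) (hs : s ∈ 𝓝 P)
    (h : ∃ (Z : Finset (Fin (n + 1) → k)) (C : ℝ), (∀ l ∈ Z, l ≠ 0) ∧
      ∀ x : Fin (n + 1) → k, x ≠ 0 → σ ∘ x ∈ s → (∀ i, eval x (F i) ≠ 0) →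
      (∀ l ∈ Z, ∑ m, l m * x m ≠ 0) →
      ∑ i ∈ through σ F P, locHt v (F i) x ≤ (n + 1) * logHeight x + C) :
    ∃ s' ∈ 𝓝 P, Good v σ F s' := by
  classical
  obtain ⟨Z, C, hZ, hC⟩ := h
  have hb : ∀ i, ∃ Ci : ℝ, i ∉ through σ F P → ∀ᶠ Q in 𝓝 P, ∀ x : Fin (n + 1) → k, x ≠ 0 →
      σ ∘ x = Q → eval x (F i) ≠ 0 → locHt v (F i) x ≤ Ci := by
    intro i
    by_cases hi : i ∈ through σ F P
    · exact ⟨0, fun h => absurd hi h⟩
    · have : eval₂ σ P (F i) ≠ 0 := by
        intro h
        exact hi (by simp [through, h])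
      obtain ⟨Ci, hCi⟩ := locHt_bdd_near hσ (hF i) this
      exact ⟨Ci, fun _ => hCi⟩
  choose Ci hCi using hb
  have hall : ∀ᶠ Q in 𝓝 P, ∀ i, i ∉ through σ F P → ∀ x : Fin (n + 1) → k, x ≠ 0 →
      σ ∘ x = Q → eval x (F i) ≠ 0 → locHt v (F i) x ≤ Ci i := by
    rw [eventually_all]
    intro i
    by_cases hi : i ∈ through σ F P
    · exact Eventually.of_forall fun Q h => absurd hi h
    · filter_upwards [hCi i hi] with Q hQ _ using hQ
  refine ⟨s ∩ {Q | ∀ i, i ∉ through σ F P → ∀ x : Fin (n + 1) → k, x ≠ 0 →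
      σ ∘ x = Q → eval x (F i) ≠ 0 → locHt v (F i) x ≤ Ci i}, inter_mem hs hall, Z,
      C + ∑ i ∈ (through σ F P)ᶜ, Ci i, hZ, ?_⟩
  rintro x hx ⟨hx1, hx2⟩ hFx hZx
  rw [← Finset.sum_add_sum_compl (through σ F P)]
  have h1 := hC x hx hx1 hFx hZx
  have h2 : ∑ i ∈ (through σ F P)ᶜ, locHt v (F i) x ≤ ∑ i ∈ (through σ F P)ᶜ, Ci i :=
    Finset.sum_le_sum fun i hi => hx2 i (Finset.mem_compl.mp hi) x hx rfl (hFx i)
  linarith

lemma local_A (hσ : Induces v σ) {F : ι → MvPolynomial (Fin (n + 1)) k} {d : ι → ℕ}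
    (hF : ∀ i, (F i).IsHomogeneous (d i)) (P : Fin (n + 1) → L)
    (h : ∑ i ∈ through σ F P, d i ≤ n + 1) : ∃ s' ∈ 𝓝 P, Good v σ F s' := by
  refine good_of_sum hσ hF P Set.univ univ_mem ⟨∅, ∑ i ∈ through σ F P, Real.log (lconst (F i)),
    by simp, ?_⟩
  intro x hx _ hFx _
  have h1 : ∑ i ∈ through σ F P, locHt v (F i) x ≤
      ∑ i ∈ through σ F P, (d i * logHeight x + Real.log (lconst (F i))) := by
    refine Finset.sum_le_sum fun i _ => ?_
    have := liouville (hF i) {v} hx (hFx i)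
    rwa [Finset.sum_singleton] at this
  rw [Finset.sum_add_distrib, ← Finset.sum_mul] at h1
  have h2 : (∑ i ∈ through σ F P, (d i : ℝ)) ≤ n + 1 := by exact_mod_cast h
  have h3 := logHeight_nonneg x
  nlinarith

end

section

variable {L : Type*} [NontriviallyNormedField L] [CompleteSpace L] {v : Place k} {σ : k →+* L}
variable {ι : Type*} [Fintype ι]

lemma local_B (hσ : Induces v σ) {F : ι → MvPolynomial (Fin (2 + 1)) k} {d : ι → ℕ}
    (hF : ∀ i, (F i).IsHomogeneous (d i)) (P : Fin (2 + 1) → L) (hP : P ≠ 0)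
    (h : ConicCrossing σ F d P) : ∃ s' ∈ 𝓝 P, Good v σ F s' := by
  classical
  obtain ⟨_, ⟨i, j, hij, hthr, hdi, hdj, hind⟩, l, hl0, hlP⟩ := h
  have hthr' : through σ F P = {i, j} := by
    ext a; rw [hthr]; simp
  have hFi : eval₂ σ P (F i) = 0 := by
    have : i ∈ through σ F P := (hthr i).mpr (Or.inl rfl)
    simpa [through] using this
  have hFj : eval₂ σ P (F j) = 0 := by
    have : j ∈ through σ F P := (hthr j).mpr (Or.inr rfl)
    simpa [through] using this
  have hF2i : (F i).IsHomogeneous 2 := by have := hF i; rwa [hdi] at this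
  have hF2j : (F j).IsHomogeneous 2 := by have := hF j; rwa [hdj] at this
  obtain ⟨K, hK, hev⟩ := transversal hF2i hF2j hP hFi hFj hind l hlP
  have hn : ∀ᶠ Q in 𝓝 P, ‖Q‖ < ‖P‖ + 1 :=
    (continuous_norm.tendsto P).eventually (gt_mem_nhds (lt_add_one _))
  -- the constant
  set B : ℝ := expAt v * (Real.log (‖P‖ + 1) + Real.log K) with hB
  refine good_of_sum hσ hF P _ (hev.and hn) ⟨{l}, Real.log (lconst (F i)) +
    Real.log (lconst (F j)) + (Real.log (lconst (lin l)) + B) +
    |Real.log (lconst (F i))| + |Real.log (lconst (F j))|, by simpa using hl0, ?_⟩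
  rintro x hx ⟨hx1, hx2⟩ hFx hlx
  have hlx' : eval x (lin l) ≠ 0 := by
    rw [eval_lin]; exact hlx l (by simp)
  have hlv := liouville (lin_hom l) {v} hx hlx'
  rw [Finset.sum_singleton] at hlv
  have hiv := liouville hF2i {v} hx (hFx i)
  rw [Finset.sum_singleton] at hiv
  have hjv := liouville hF2j {v} hx (hFx j)
  rw [Finset.sum_singleton] at hjv
  have hsum : ∑ a ∈ through σ F P, locHt v (F a) x = locHt v (F i) x + locHt v (F j) x := by
    rw [hthr', Finset.sum_pair hij]
  rw [hsum]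
  have hlin : ‖∑ m, σ (l m) * (σ ∘ x) m‖ = absAt v (eval x (lin l)) := by
    rw [eval_lin, ← hσ, map_sum]
    congr 1
    refine Finset.sum_congr rfl fun m _ => ?_
    rw [map_mul]; rfl
  rw [hlin] at hx1
  have key : ∀ a, (F a).IsHomogeneous 2 → absAt v (eval x (lin l)) ≤ K * absAt v (eval x (F a)) →
      locHt v (F a) x ≤ logHeight x + (Real.log (lconst (lin l)) + B) := by
    intro a hFa hle
    have h1 : Real.log (absAt v (eval x (lin l))) ≤
        Real.log K + Real.log (absAt v (eval x (F a))) := by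
      rw [← Real.log_mul hK.ne' (absAt_pos v (hFx a)).ne']
      exact Real.log_le_log (absAt_pos v hlx') hle
    have h2 : Real.log (⨆ m, absAt v (x m)) ≤ Real.log (‖P‖ + 1) :=
      Real.log_le_log (sup_pos v hx) ((sup_le_norm hσ x).trans hx2.le)
    have hFa0 : F a ≠ 0 := by
      intro h0
      apply hFx a
      rw [h0]; simp
    have hl0' : lin l ≠ 0 := by
      intro h0
      apply hlx'
      rw [h0]; simp
    have h3 : locHt v (F a) x ≤ locHt v (lin l) x + B := by
      unfold locHt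
      rw [hFa.totalDegree hFa0, (lin_hom l).totalDegree hl0', hB, ← mul_add]
      apply mul_le_mul_of_nonneg_left _ (Nat.cast_nonneg _)
      push_cast
      linarith
    push_cast at hlv
    linarith
  have q1 := abs_nonneg (Real.log (lconst (F i)))
  have q2 := abs_nonneg (Real.log (lconst (F j)))
  have q3 := neg_abs_le (Real.log (lconst (F i)))
  have q4 := neg_abs_le (Real.log (lconst (F j)))
  rcases le_total (absAt v (eval x (F i))) (absAt v (eval x (F j))) with hle | hle
  · have h1 : absAt v (eval x (lin l)) ≤ K * absAt v (eval x (F j)) := by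
      refine hx1.trans ?_
      rw [← norm_eval hσ, ← norm_eval hσ, max_eq_right hle]
    have h2 := key j hF2j h1
    push_cast at hiv ⊢
    linarith
  · have h1 : absAt v (eval x (lin l)) ≤ K * absAt v (eval x (F i)) := by
      refine hx1.trans ?_
      rw [← norm_eval hσ, ← norm_eval hσ, max_eq_left hle]
    have h2 := key i hF2i h1
    push_cast at hjv ⊢
    linarith

end

/-- **One place theorem.** -/
theorem one_place {v : Place k} {L : Type*} [NontriviallyNormedField L] [ProperSpace L]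
    {σ : k →+* L} (hσ : Induces v σ) {n : ℕ} {ι : Type*} [Fintype ι]
    (F : ι → MvPolynomial (Fin (n + 1)) k) (d : ι → ℕ)
    (hF : ∀ i, (F i).IsHomogeneous (d i))
    (h : ∀ P : Fin (n + 1) → L, P ≠ 0 →
      ∑ i ∈ through σ F P, d i ≤ n + 1 ∨ ConicCrossing σ F d P) :
    ∃ (Z : Finset (Fin (n + 1) → k)) (C : ℝ), (∀ l ∈ Z, l ≠ 0) ∧
      ∀ x : Fin (n + 1) → k, x ≠ 0 → (∀ i, eval x (F i) ≠ 0) →
        (∀ l ∈ Z, ∑ m, l m * x m ≠ 0) →
        ∑ i, locHt v (F i) x ≤ (n + 1) * logHeight x + C := by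
  classical
  have hcomp : IsCompact (Metric.sphere (0 : Fin (n + 1) → L) 1) := isCompact_sphere _ _
  have hgood : Good v σ F (Metric.sphere (0 : Fin (n + 1) → L) 1) := by
    refine hcomp.induction_on (p := Good v σ F) ⟨∅, 0, by simp, by simp⟩ ?_ ?_ ?_
    · rintro s t hst ⟨Z, C, hZ, hC⟩
      exact ⟨Z, C, hZ, fun x hx hxs => hC x hx (hst hxs)⟩
    · rintro s t ⟨Z, C, hZ, hC⟩ ⟨Z', C', hZ', hC'⟩
      refine ⟨Z ∪ Z', max C C', ?_, ?_⟩
      · intro l hl
        rcases Finset.mem_union.mp hl with h | h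
        · exact hZ l h
        · exact hZ' l h
      · intro x hx hxs hFx hlx
        rcases hxs with h | h
        · have := hC x hx h hFx fun l hl => hlx l (Finset.mem_union_left _ hl)
          linarith [le_max_left C C']
        · have := hC' x hx h hFx fun l hl => hlx l (Finset.mem_union_right _ hl)
          linarith [le_max_right C C']
    · intro P hP
      have hP0 : P ≠ 0 := by
        rintro rfl
        simp at hP
      have : ∃ s' ∈ 𝓝 P, Good v σ F s' := by
        rcases h P hP0 with h1 | h1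
        · exact local_A hσ hF P h1
        · obtain ⟨hn, _⟩ := id h1
          subst hn
          exact local_B hσ hF P hP0 h1
      obtain ⟨s', hs', hg⟩ := this
      exact ⟨s', mem_nhdsWithin_of_mem_nhds hs', hg⟩
  obtain ⟨Z, C, hZ, hC⟩ := hgood
  refine ⟨Z, C, hZ, ?_⟩
  intro x hx hFx hlx
  obtain ⟨j, hj⟩ := exists_eq_ciSup_of_finite (f := fun i => absAt v (x i))
  have hsup := sup_pos v hx
  rw [← hj] at hsup
  have hxj : x j ≠ 0 := by
    intro h0
    simp only [h0] at hsup
    rw [← hσ, map_zero, norm_zero] at hsup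
    exact lt_irrefl _ hsup
  set c := (x j)⁻¹ with hc
  have hc0 : c ≠ 0 := inv_ne_zero hxj
  have hcx : c • x ≠ 0 := smul_ne_zero hc0 hx
  have hnorm : σ ∘ (c • x) ∈ Metric.sphere (0 : Fin (n + 1) → L) 1 := by
    rw [mem_sphere_zero_iff_norm]
    apply le_antisymm
    · rw [pi_norm_le_iff_of_nonneg zero_le_one]
      intro i
      have h1 : ‖(σ ∘ (c • x)) i‖ = absAt v c * absAt v (x i) := by
        rw [← absAt_mul, ← hσ]; rfl
      rw [h1]
      have h2 : absAt v (x i) ≤ absAt v (x j) := by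
        rw [hj]
        exact Finite.le_ciSup (fun i => absAt v (x i)) i
      have h3 : absAt v c * absAt v (x j) = 1 := by
        rw [← absAt_mul, hc, inv_mul_cancel₀ hxj, ← hσ, map_one, norm_one]
      rw [← h3]
      exact mul_le_mul_of_nonneg_left h2 (absAt_nonneg v c)
    · have h1 : ‖(σ ∘ (c • x)) j‖ = 1 := by
        have : (σ ∘ (c • x)) j = 1 := by
          simp [hc, hxj]
        rw [this, norm_one]
      rw [← h1]
      exact norm_le_pi_norm (σ ∘ (c • x)) j
  have hFcx : ∀ i, eval (c • x) (F i) ≠ 0 := by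
    intro i
    rw [eval_smul_hom (hF i)]
    exact mul_ne_zero (pow_ne_zero _ hc0) (hFx i)
  have hlcx : ∀ l ∈ Z, ∑ m, l m * (c • x) m ≠ 0 := by
    intro l hl
    have : ∑ m, l m * (c • x) m = c * ∑ m, l m * x m := by
      rw [Finset.mul_sum]
      refine Finset.sum_congr rfl fun m _ => ?_
      rw [Pi.smul_apply, smul_eq_mul]; ring
    rw [this]
    exact mul_ne_zero hc0 (hlx l hl)
  have := hC (c • x) hcx hnorm hFcx hlcx
  rw [logHeight_smul_eq_logHeight x hc0] at this
  rw [Finset.sum_congr rfl fun i _ => locHt_smul (hF i) v hx (hFx i) hc0] at this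
  exact this

end Pool.Agent.Lib.MP_17a322_nt
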