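import Mathlib
import Pool.Agent.Lib.MP_17a322_nt.OnePlaceMain

namespace Pool.Agent.Lib.MP_17a322_nt

open MvPolynomial Function

variable {k : Type*} [Field k]

/-- A polynomial vanishing where the coordinates in `T` vanish lies in the ideal they span. -/
lemma support_of_vanish [Infinite k] {τ : Type*} [Finite τ] {p : MvPolynomial τ k} {T : Set τ}
    (h : ∀ y : τ → k, (∀ i ∈ T, y i = 0) → eval y p = 0) :
    ∀ m ∈ p.support, ∃ i ∈ T, (m : τ →₀ ℕ) i ≠ 0 := by
  classical
  rw [← MvPolynomial.mem_ideal_span_X_image]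
  set f : τ → MvPolynomial τ k := fun i => if i ∈ T then 0 else X i with hf
  set q := aeval f p with hq
  have hq0 : q = 0 := by
    refine MvPolynomial.funext fun y => ?_
    rw [map_zero, hq]
    have h1 : eval y (aeval f p) = eval (fun i => if i ∈ T then 0 else y i) p := by
      have h2 : ((MvPolynomial.aeval y : MvPolynomial τ k →ₐ[k] k).comp (aeval f)) =
          (aeval (fun i => if i ∈ T then 0 else y i) : MvPolynomial τ k →ₐ[k] k) := by
        ext i
        simp only [AlgHom.comp_apply, aeval_X, hf]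
        split_ifs <;> simp
      have h3 := DFunLike.congr_fun h2 p
      rw [AlgHom.comp_apply] at h3
      rw [← MvPolynomial.aeval_eq_eval, ← MvPolynomial.aeval_eq_eval]
      exact h3
    rw [h1]
    exact h _ fun i hi => by simp [hi]
  set I : Ideal (MvPolynomial τ k) := Ideal.span (X '' T) with hI
  have h4 : ((Ideal.Quotient.mkₐ k I).comp (aeval f)) = Ideal.Quotient.mkₐ k I := by
    ext i
    simp only [AlgHom.comp_apply, aeval_X, hf]
    split_ifs with hi
    · rw [map_zero]
      symm
      rw [Ideal.Quotient.mkₐ_eq_mk, Ideal.Quotient.eq_zero_iff_mem]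
      exact Ideal.subset_span ⟨i, hi, rfl⟩
    · rfl
  have h5 := DFunLike.congr_fun h4 p
  rw [AlgHom.comp_apply, ← hq, hq0, map_zero] at h5
  rw [← Ideal.Quotient.eq_zero_iff_mem]
  exact h5.symm

lemma lin_eq_of_hom_one {n : ℕ} {p : MvPolynomial (Fin (n + 1)) k} (hp : p.IsHomogeneous 1) :
    ∃ c : Fin (n + 1) → k, p = lin c := by
  classical
  refine ⟨fun i => coeff (Finsupp.single i 1) p, ?_⟩
  ext m
  unfold lin
  rw [coeff_sum]
  by_cases hm : ∃ i, m = Finsupp.single i 1
  · obtain ⟨i, rfl⟩ := hm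
    rw [Finset.sum_eq_single i]
    · simp
    · intro j _ hj
      rw [coeff_C_mul, coeff_X, if_neg, mul_zero]
      intro h
      have := Finsupp.single_left_injective one_ne_zero h
      exact hj this
    · intro h; exact absurd (Finset.mem_univ i) h
  · push Not at hm
    rw [Finset.sum_eq_zero]
    · by_contra hc
      have h1 := hp hc
      have h2 : ∑ i, m i = 1 := by
        refine Eq.trans ?_ h1
        rw [Finsupp.weight_apply, Finsupp.sum_fintype]
        · simp
        · simp
      obtain ⟨i, hi⟩ : ∃ i, m i ≠ 0 := by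
        by_contra hcon
        push Not at hcon
        rw [Finset.sum_eq_zero fun i _ => hcon i] at h2
        exact zero_ne_one h2
      apply hm i
      have h3 := Finset.add_sum_erase Finset.univ (fun i => m i) (Finset.mem_univ i)
      ext j
      by_cases hj : j = i
      · subst hj
        rw [Finsupp.single_eq_same]
        omega
      · rw [Finsupp.single_eq_of_ne hj]
        have h4 : m j ≤ ∑ x ∈ Finset.univ.erase i, m x :=
          Finset.single_le_sum (fun _ _ => Nat.zero_le _)
            (Finset.mem_erase.mpr ⟨hj, Finset.mem_univ j⟩)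
        omega
    · intro j _
      rw [coeff_C_mul, coeff_X, if_neg, mul_zero]
      intro h
      exact hm j h.symm

/-- Normal form of a cubic form vanishing on the two lines `y₀ = y₁ = 0` and `y₀ = y₂ = 0`. -/
lemma cubic_standard [Infinite k] {p : MvPolynomial (Fin (3 + 1)) k} (hp : p.IsHomogeneous 3)
    (h1 : ∀ y : Fin (3 + 1) → k, y 0 = 0 → y 1 = 0 → eval y p = 0)
    (h2 : ∀ y : Fin (3 + 1) → k, y 0 = 0 → y 2 = 0 → eval y p = 0) :
    ∃ (Q : MvPolynomial (Fin (3 + 1)) k) (c : Fin (3 + 1) → k),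
      p = X 0 * Q + X 1 * X 2 * lin c := by
  classical
  have s1 : ∀ m ∈ p.support, m 0 ≠ 0 ∨ m 1 ≠ 0 := by
    intro m hm
    obtain ⟨i, hi, hmi⟩ := support_of_vanish (T := {0, 1})
      (fun y hy => h1 y (hy 0 (by simp)) (hy 1 (by simp))) m hm
    rcases hi with rfl | rfl
    · exact Or.inl hmi
    · exact Or.inr hmi
  have s2 : ∀ m ∈ p.support, m 0 ≠ 0 ∨ m 2 ≠ 0 := by
    intro m hm
    obtain ⟨i, hi, hmi⟩ := support_of_vanish (T := {0, 2})
      (fun y hy => h2 y (hy 0 (by simp)) (hy 2 (by simp))) m hm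
    rcases hi with rfl | rfl
    · exact Or.inl hmi
    · exact Or.inr hmi
  set R := p.modMonomial (Finsupp.single 0 1) with hR
  have hcoef : ∀ m, coeff m R ≠ 0 → m 0 = 0 ∧ coeff m p = coeff m R := by
    intro m hm
    by_cases hle : Finsupp.single (0 : Fin (3 + 1)) 1 ≤ m
    · exact absurd (coeff_modMonomial_of_le p hle) hm
    · refine ⟨?_, (coeff_modMonomial_of_not_le p hle).symm⟩
      rw [Finsupp.single_le_iff] at hle
      omega
  have d1 : (X 1 : MvPolynomial (Fin (3 + 1)) k) ∣ R := by
    rw [← Ideal.mem_span_singleton, ← Set.image_singleton (f := X),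
      MvPolynomial.mem_ideal_span_X_image]
    intro m hm
    obtain ⟨hm0, hmc⟩ := hcoef m (mem_support_iff.mp hm)
    refine ⟨1, rfl, (s1 m ?_).resolve_left (by simpa using hm0)⟩
    rw [mem_support_iff, hmc]
    exact mem_support_iff.mp hm
  have d2 : (X 2 : MvPolynomial (Fin (3 + 1)) k) ∣ R := by
    rw [← Ideal.mem_span_singleton, ← Set.image_singleton (f := X),
      MvPolynomial.mem_ideal_span_X_image]
    intro m hm
    obtain ⟨hm0, hmc⟩ := hcoef m (mem_support_iff.mp hm)
    refine ⟨2, rfl, (s2 m ?_).resolve_left (by simpa using hm0)⟩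
    rw [mem_support_iff, hmc]
    exact mem_support_iff.mp hm
  obtain ⟨R1, hR1⟩ := d1
  rw [hR1] at d2
  have d3 : (X 2 : MvPolynomial (Fin (3 + 1)) k) ∣ R1 := by
    rcases X_dvd_mul_iff.mp d2 with h | h
    · rw [X_dvd_X] at h
      exact absurd h (by decide)
    · exact h
  obtain ⟨R2, hR2⟩ := d3
  have hhom : R2.IsHomogeneous 1 := by
    intro m hm
    have e1 : coeff (Finsupp.single 1 1 + (Finsupp.single 2 1 + m)) R = coeff m R2 := by
      rw [hR1, hR2, coeff_X_mul, coeff_X_mul]
    have e2 := (hcoef _ (by rw [e1]; exact hm)).2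
    have e3 := hp (show coeff (Finsupp.single 1 1 + (Finsupp.single 2 1 + m)) p ≠ 0 by
      rw [e2, e1]; exact hm)
    rw [map_add, map_add] at e3
    simp only [Finsupp.weight_apply, Pi.one_apply, smul_eq_mul, mul_one] at e3 ⊢
    rw [Finsupp.sum_single_index rfl, Finsupp.sum_single_index rfl] at e3
    omega
  obtain ⟨c, hc⟩ := lin_eq_of_hom_one hhom
  refine ⟨p.divMonomial (Finsupp.single 0 1), c, ?_⟩
  have := divMonomial_add_modMonomial_single p 0
  rw [← hR, hR1, hR2, hc] at this
  refine this.symm.trans ?_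
  rw [mul_assoc]

end Pool.Agent.Lib.MP_17a322_nt
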