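import Mathlib
import Pool.Agent.Lib.MP_17a322_nt.OnePlaceMain

namespace Pool.Agent.Lib.MP_17a322_nt

open NumberField MvPolynomial Height Function

variable {k : Type*} [Field k] [NumberField k]

lemma absAt_add_le (v : Place k) (a b : k) : absAt v (a + b) ≤ absAt v a + absAt v b := by
  match v with
  | .inl w => exact w.val.add_le' a b
  | .inr w => exact w.val.add_le' a b

lemma absAt_zero (v : Place k) : absAt v (0 : k) = 0 := by
  match v with
  | .inl w => exact map_zero w
  | .inr w => exact map_zero w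

lemma absAt_one (v : Place k) : absAt v (1 : k) = 1 := by
  match v with
  | .inl w => exact map_one w
  | .inr w => exact map_one w

omit [NumberField k] in
lemma dot_add {n : ℕ} (l l' x : Fin (n + 1) → k) : dot (l + l') x = dot l x + dot l' x := by
  simp [dot, add_mul, Finset.sum_add_distrib]

omit [NumberField k] in
lemma dot_smul {n : ℕ} (c : k) (l x : Fin (n + 1) → k) : dot (c • l) x = c * dot l x := by
  simp [dot, mul_assoc, Finset.mul_sum]

/-- A linear form in the span of forms which are at most `b` is at most a constant times `b`. -/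
lemma span_bound {n : ℕ} (v : Place k) {A : Set (Fin (n + 1) → k)} {M : Fin (n + 1) → k}
    (hM : M ∈ Submodule.span k A) :
    ∃ K : ℝ, 0 ≤ K ∧ ∀ (x : Fin (n + 1) → k) (B : ℝ), 0 ≤ B →
      (∀ a ∈ A, absAt v (dot a x) ≤ B) → absAt v (dot M x) ≤ K * B := by
  induction hM using Submodule.span_induction with
  | mem a ha => exact ⟨1, zero_le_one, fun x B _ h => by rw [one_mul]; exact h a ha⟩
  | zero =>
    refine ⟨0, le_rfl, fun x B _ _ => ?_⟩
    have : dot (0 : Fin (n + 1) → k) x = 0 := by simp [dot]
    rw [this, absAt_zero, zero_mul]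
  | add a b _ _ ha hb =>
    obtain ⟨K, hK, h1⟩ := ha
    obtain ⟨K', hK', h2⟩ := hb
    refine ⟨K + K', add_nonneg hK hK', fun x B hB h => ?_⟩
    rw [dot_add, add_mul]
    exact (absAt_add_le v _ _).trans (add_le_add (h1 x B hB h) (h2 x B hB h))
  | smul c a _ ha =>
    obtain ⟨K, hK, h1⟩ := ha
    refine ⟨absAt v c * K, mul_nonneg (absAt_nonneg v c) hK, fun x B hB h => ?_⟩
    rw [dot_smul, absAt_mul, mul_assoc]
    exact mul_le_mul_of_nonneg_left (h1 x B hB h) (absAt_nonneg v c)

omit [NumberField k] in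
lemma exists_common {n : ℕ} (a b : Fin (n + 1) → (Fin (n + 1) → k))
    (ha : LinearIndependent k a) (hb : LinearIndependent k b) (i : Fin (n + 1)) :
    ∃ M : Fin (n + 1) → k, M ≠ 0 ∧ M ∈ Submodule.span k (a '' Set.Iic i) ∧
      M ∈ Submodule.span k (b '' Set.Iic (Fin.rev i)) := by
  have dim : ∀ (c : Fin (n + 1) → (Fin (n + 1) → k)), LinearIndependent k c →
      ∀ j : Fin (n + 1), Module.finrank k (Submodule.span k (c '' Set.Iic j)) = j + 1 := by
    intro c hc j
    have h1 : LinearIndependent k (fun s : Set.Iic j => c s) :=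
      hc.comp _ Subtype.val_injective
    have h2 := finrank_span_eq_card h1
    have h3 : Set.range (fun s : Set.Iic j => c s) = c '' Set.Iic j := by
      rw [Set.image_eq_range]
    rw [h3] at h2
    rw [h2]
    simp
  have h1 := dim a ha i
  have h2 := dim b hb (Fin.rev i)
  have h3 := Submodule.finrank_sup_add_finrank_inf_eq (Submodule.span k (a '' Set.Iic i))
    (Submodule.span k (b '' Set.Iic (Fin.rev i)))
  have h4 : Module.finrank k ↥(Submodule.span k (a '' Set.Iic i) ⊔
      Submodule.span k (b '' Set.Iic (Fin.rev i))) ≤ n + 1 := by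
    have := Submodule.finrank_le (Submodule.span k (a '' Set.Iic i) ⊔
      Submodule.span k (b '' Set.Iic (Fin.rev i)))
    simpa using this
  rw [h1, h2, Fin.val_rev] at h3
  have hi := i.2
  have h5 : 0 < Module.finrank k ↥(Submodule.span k (a '' Set.Iic i) ⊓
      Submodule.span k (b '' Set.Iic (Fin.rev i))) := by omega
  have h6 : (Submodule.span k (a '' Set.Iic i) ⊓
      Submodule.span k (b '' Set.Iic (Fin.rev i))) ≠ ⊥ := by
    intro h
    rw [h, finrank_bot] at h5
    exact lt_irrefl _ h5
  obtain ⟨M, hM, hM0⟩ := (Submodule.ne_bot_iff _).mp h6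
  exact ⟨M, hM0, hM.1, hM.2⟩


omit [NumberField k] in
lemma eval_lin' {n : ℕ} (l x : Fin (n + 1) → k) : eval x (lin l) = dot l x := eval_lin l x

lemma locHt_lin {n : ℕ} (v : Place k) {l x : Fin (n + 1) → k} (hl : dot l x ≠ 0) :
    locHt v (lin l) x = expAt v * (Real.log (⨆ i, absAt v (x i)) - Real.log (absAt v (dot l x))) := by
  have h0 : lin l ≠ 0 := by
    intro h
    apply hl
    rw [← eval_lin', h]; simp
  unfold locHt
  rw [(lin_hom l).totalDegree h0, eval_lin']
  push_cast
  ring

omit [NumberField k] in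
lemma ne_zero_of_dot {n : ℕ} {l x : Fin (n + 1) → k} (hl : dot l x ≠ 0) : x ≠ 0 := by
  rintro rfl
  apply hl
  simp [dot]

lemma lin_liouville {n : ℕ} (S : Finset (Place k)) {l x : Fin (n + 1) → k} (hl : dot l x ≠ 0) :
    ∑ v ∈ S, locHt v (lin l) x ≤ logHeight x + Real.log (lconst (lin l)) := by
  have := liouville (lin_hom l) S (ne_zero_of_dot hl) (by rw [eval_lin']; exact hl)
  push_cast at this
  linarith

/-- comparison of local heights -/
lemma flag_le {n : ℕ} (v : Place k) {A : Set (Fin (n + 1) → k)} {M : Fin (n + 1) → k}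
    (hM : M ∈ Submodule.span k A) :
    ∃ C : ℝ, ∀ (x b : Fin (n + 1) → k), dot M x ≠ 0 → dot b x ≠ 0 →
      (∀ a ∈ A, absAt v (dot a x) ≤ absAt v (dot b x)) →
      locHt v (lin b) x ≤ locHt v (lin M) x + C := by
  obtain ⟨K, hK, h⟩ := span_bound v hM
  refine ⟨expAt v * Real.log (K + 1), fun x b hMx hbx hA => ?_⟩
  have h1 := h x (absAt v (dot b x)) (absAt_nonneg _ _) hA
  have hb := absAt_pos v hbx
  have h2 : absAt v (dot M x) ≤ (K + 1) * absAt v (dot b x) := by nlinarith
  have h3 := Real.log_le_log (absAt_pos v hMx) h2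
  rw [Real.log_mul (by positivity) hb.ne'] at h3
  rw [locHt_lin v hMx, locHt_lin v hbx, ← mul_add]
  apply mul_le_mul_of_nonneg_left _ (Nat.cast_nonneg _)
  linarith

/-- If all forms of a spanning set are at most `b`, the local height of `b` is bounded. -/
lemma tail_le {n : ℕ} (v : Place k) {A : Set (Fin (n + 1) → k)}
    (hA : Submodule.span k A = ⊤) :
    ∃ C : ℝ, ∀ (x b : Fin (n + 1) → k), dot b x ≠ 0 →
      (∀ a ∈ A, absAt v (dot a x) ≤ absAt v (dot b x)) →
      locHt v (lin b) x ≤ C := by
  classical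
  have h1 : ∀ m : Fin (n + 1), ∃ K : ℝ, 0 ≤ K ∧ ∀ (x : Fin (n + 1) → k) (B : ℝ), 0 ≤ B →
      (∀ a ∈ A, absAt v (dot a x) ≤ B) → absAt v (x m) ≤ K * B := by
    intro m
    have hm : (Pi.single m 1 : Fin (n + 1) → k) ∈ Submodule.span k A := by
      rw [hA]; exact Submodule.mem_top
    obtain ⟨K, hK, h⟩ := span_bound v hm
    refine ⟨K, hK, fun x B hB hx => ?_⟩
    have h2 := h x B hB hx
    have h3 : dot (Pi.single m 1 : Fin (n + 1) → k) x = x m := by
      unfold dot
      rw [Finset.sum_eq_single m]
      · simp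
      · intro b _ hb; simp [hb]
      · intro h; exact absurd (Finset.mem_univ m) h
    rwa [h3] at h2
  choose K hK h using h1
  set K' : ℝ := ∑ m, K m with hK'
  have hK0 : 0 ≤ K' := Finset.sum_nonneg fun m _ => hK m
  refine ⟨expAt v * Real.log (K' + 1), fun x b hbx hx => ?_⟩
  have hb := absAt_pos v hbx
  have hx0 := ne_zero_of_dot hbx
  have h2 : (⨆ i, absAt v (x i)) ≤ (K' + 1) * absAt v (dot b x) := by
    refine ciSup_le fun m => ?_
    have h3 := h m x _ (absAt_nonneg v (dot b x)) hx
    have h4 : K m ≤ K' := Finset.single_le_sum (fun m _ => hK m) (Finset.mem_univ m)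
    nlinarith
  have h3 := Real.log_le_log (sup_pos v hx0) h2
  rw [Real.log_mul (by positivity) hb.ne'] at h3
  rw [locHt_lin v hbx]
  apply mul_le_mul_of_nonneg_left _ (Nat.cast_nonneg _)
  linarith

/-- The inequality under an extra condition on `x`. -/
def Good2 (S : Finset (Place k)) {n q : ℕ} (L : Fin q → Fin (n + 1) → k)
    (P : (Fin (n + 1) → k) → Prop) : Prop :=
  ∃ (Z : Finset (Fin (n + 1) → k)) (C : ℝ), (∀ l ∈ Z, l ≠ 0) ∧
    ∀ x : Fin (n + 1) → k, x ≠ 0 → P x → (∀ j, dot (L j) x ≠ 0) →
      (∀ l ∈ Z, dot l x ≠ 0) →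
      ∑ v ∈ S, ∑ j, locHt v (lin (L j)) x ≤ (n + 1) * logHeight x + C

lemma good2_union (S : Finset (Place k)) {n q : ℕ} (L : Fin q → Fin (n + 1) → k)
    {T : Type*} [Fintype T] (P : T → (Fin (n + 1) → k) → Prop) (h : ∀ t, Good2 S L (P t)) :
    Good2 S L (fun x => ∃ t, P t x) := by
  classical
  choose Z C hZ hC using h
  refine ⟨Finset.univ.biUnion Z, ∑ t, |C t|, ?_, ?_⟩
  · intro l hl
    obtain ⟨t, _, ht⟩ := Finset.mem_biUnion.mp hl
    exact hZ t l ht
  · rintro x hx ⟨t, ht⟩ hLx hlx
    have h1 := hC t x hx ht hLx fun l hl => hlx l (Finset.mem_biUnion.mpr ⟨t, Finset.mem_univ t, hl⟩)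
    have h2 : |C t| ≤ ∑ t, |C t| :=
      Finset.single_le_sum (fun t _ => abs_nonneg (C t)) (Finset.mem_univ t)
    linarith [le_abs_self (C t)]

/-- The forms `L` are sorted by size at `v` through the permutation `π`. -/
def SortedAt (v : Place k) {n q : ℕ} (L : Fin q → Fin (n + 1) → k) (π : Equiv.Perm (Fin q))
    (x : Fin (n + 1) → k) : Prop :=
  ∀ i j, i ≤ j → absAt v (dot (L (π i)) x) ≤ absAt v (dot (L (π j)) x)

lemma exists_sorted (v : Place k) {n q : ℕ} (L : Fin q → Fin (n + 1) → k) (x : Fin (n + 1) → k) :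
    ∃ π, SortedAt v L π x :=
  ⟨Tuple.sort (fun j => absAt v (dot (L j) x)), fun _ _ hij =>
    Tuple.monotone_sort (fun j => absAt v (dot (L j) x)) hij⟩

variable {n q : ℕ}

/-- the first `n + 1` forms -/
def firsts (hq : n + 1 ≤ q) (L : Fin q → Fin (n + 1) → k) (π : Equiv.Perm (Fin q)) :
    Fin (n + 1) → (Fin (n + 1) → k) := fun i => L (π (Fin.castLE hq i))

/-- The sum over all forms is dominated by the sum over the `n + 1` smallest ones. -/
lemma sum_le_firsts (v : Place k) (hq : n + 1 ≤ q) {L : Fin q → Fin (n + 1) → k}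
    (hL : ∀ f : Fin (n + 1) → Fin q, Injective f → LinearIndependent k (fun i => L (f i)))
    (π : Equiv.Perm (Fin q)) :
    ∃ C : ℝ, ∀ x : Fin (n + 1) → k, (∀ j, dot (L j) x ≠ 0) → SortedAt v L π x →
      ∑ j, locHt v (lin (L j)) x ≤ ∑ i, locHt v (lin (firsts hq L π i)) x + C := by
  have hli : LinearIndependent k (firsts hq L π) :=
    hL _ (π.injective.comp (Fin.castLE_injective hq))
  have htop : Submodule.span k (Set.range (firsts hq L π)) = ⊤ :=
    hli.span_eq_top_of_card_eq_finrank (by simp)
  obtain ⟨C, hC⟩ := tail_le v htop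
  refine ⟨(q - (n + 1) : ℕ) * |C|, fun x hx hs => ?_⟩
  rw [← Equiv.sum_comp π (fun j => locHt v (lin (L j)) x)]
  obtain ⟨r, rfl⟩ := Nat.exists_eq_add_of_le hq
  rw [Fin.sum_univ_add]
  have e1 : ∑ i : Fin (n + 1), locHt v (lin (L (π (Fin.castAdd r i)))) x =
      ∑ i, locHt v (lin (firsts hq L π i)) x := rfl
  rw [e1]
  have e2 : ∑ i : Fin r, locHt v (lin (L (π (Fin.natAdd (n + 1) i)))) x ≤
      ∑ _i : Fin r, |C| := by
    refine Finset.sum_le_sum fun i _ => ?_
    refine (hC x _ (hx _) ?_).trans (le_abs_self C)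
    rintro a ⟨j, rfl⟩
    refine hs _ _ ?_
    rw [Fin.le_def]
    simp only [Fin.val_castLE, Fin.val_natAdd]
    omega
  rw [Finset.sum_const, Finset.card_univ, Fintype.card_fin, nsmul_eq_mul] at e2
  have e3 : n + 1 + r - (n + 1) = r := by omega
  rw [e3]
  linarith

/-- **Two places.** -/
theorem two_places (S : Finset (Place k)) (hS : S.card ≤ 2) (L : Fin q → Fin (n + 1) → k)
    (hL : ∀ f : Fin (n + 1) → Fin q, Injective f → LinearIndependent k (fun i => L (f i))) :
    Good2 S L (fun _ => True) := by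
  classical
  rcases lt_or_ge q (n + 1) with hq | hq
  · -- few hyperplanes: trivial bound
    refine ⟨∅, ∑ j, Real.log (lconst (lin (L j))), by simp, fun x hx _ hLx _ => ?_⟩
    rw [Finset.sum_comm]
    have h1 : ∑ j, ∑ v ∈ S, locHt v (lin (L j)) x ≤
        ∑ j, (logHeight x + Real.log (lconst (lin (L j)))) :=
      Finset.sum_le_sum fun j _ => lin_liouville S (hLx j)
    rw [Finset.sum_add_distrib, Finset.sum_const, Finset.card_univ, Fintype.card_fin,
      nsmul_eq_mul] at h1
    have h2 : (q : ℝ) ≤ n + 1 := by exact_mod_cast hq.le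
    have h3 := logHeight_nonneg x
    nlinarith
  · rcases Nat.lt_or_ge S.card 2 with h2 | h2
    · -- at most one place
      rcases Nat.lt_or_ge S.card 1 with h1 | h1
      · have : S = ∅ := Finset.card_eq_zero.mp (by omega)
        subst this
        refine ⟨∅, 0, by simp, fun x hx _ hLx _ => ?_⟩
        rw [Finset.sum_empty]
        have := logHeight_nonneg x
        positivity
      · obtain ⟨v, rfl⟩ := Finset.card_eq_one.mp (show S.card = 1 by omega)
        have hgood : Good2 {v} L (fun x => ∃ π, SortedAt v L π x) := by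
          refine good2_union _ _ _ fun π => ?_
          obtain ⟨C, hC⟩ := sum_le_firsts v hq hL π
          refine ⟨∅, ∑ i, Real.log (lconst (lin (firsts hq L π i))) + C, by simp,
            fun x hx hs hLx _ => ?_⟩
          rw [Finset.sum_singleton]
          have h3 := hC x hLx hs
          have h4 : ∑ i, locHt v (lin (firsts hq L π i)) x ≤
              ∑ i, (logHeight x + Real.log (lconst (lin (firsts hq L π i)))) := by
            refine Finset.sum_le_sum fun i _ => ?_
            have := lin_liouville {v} (hLx (π (Fin.castLE hq i)))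
            rwa [Finset.sum_singleton] at this
          rw [Finset.sum_add_distrib, Finset.sum_const, Finset.card_univ, Fintype.card_fin,
            nsmul_eq_mul] at h4
          push_cast at h4
          linarith
        obtain ⟨Z, C, hZ, hC⟩ := hgood
        exact ⟨Z, C, hZ, fun x hx _ => hC x hx (exists_sorted v L x)⟩
    · obtain ⟨v, w, hvw, rfl⟩ := Finset.card_eq_two.mp (show S.card = 2 by omega)
      have hgood : Good2 {v, w} L (fun x => ∃ t : Equiv.Perm (Fin q) × Equiv.Perm (Fin q),
          SortedAt v L t.1 x ∧ SortedAt w L t.2 x) := by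
        refine good2_union _ _ _ fun t => ?_
        obtain ⟨π, τ⟩ := t
        set a := firsts hq L π with ha
        set b := firsts hq L τ with hb
        have hla : LinearIndependent k a := hL _ (π.injective.comp (Fin.castLE_injective hq))
        have hlb : LinearIndependent k b := hL _ (τ.injective.comp (Fin.castLE_injective hq))
        choose M hM0 hMa hMb using fun i => exists_common a b hla hlb i
        choose Ca hCa using fun i => flag_le v (hMa i)
        choose Cb hCb using fun i => flag_le w (hMb i)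
        obtain ⟨C1, hC1⟩ := sum_le_firsts v hq hL π
        obtain ⟨C2, hC2⟩ := sum_le_firsts w hq hL τ
        refine ⟨Finset.univ.image M, ∑ i, (Real.log (lconst (lin (M i))) + Ca i + Cb i) + C1 + C2,
          ?_, fun x hx hs hLx hMx => ?_⟩
        · intro l hl
          obtain ⟨i, _, rfl⟩ := Finset.mem_image.mp hl
          exact hM0 i
        · rw [Finset.sum_pair hvw]
          have h3 := hC1 x hLx hs.1
          have h4 := hC2 x hLx hs.2
          have h5 : ∑ i, locHt w (lin (b i)) x = ∑ i, locHt w (lin (b (Fin.rev i))) x :=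
            (Equiv.sum_comp Fin.revPerm (fun i => locHt w (lin (b i)) x)).symm
          have hMx' : ∀ i, dot (M i) x ≠ 0 := fun i =>
            hMx _ (Finset.mem_image_of_mem M (Finset.mem_univ i))
          have h6 : ∀ i, locHt v (lin (a i)) x + locHt w (lin (b (Fin.rev i))) x ≤
              logHeight x + (Real.log (lconst (lin (M i))) + Ca i + Cb i) := by
            intro i
            have q1 : locHt v (lin (a i)) x ≤ locHt v (lin (M i)) x + Ca i := by
              refine hCa i x (a i) (hMx' i) (hLx _) ?_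
              rintro c ⟨j, hj, rfl⟩
              exact hs.1 _ _ hj
            have q2 : locHt w (lin (b (Fin.rev i))) x ≤ locHt w (lin (M i)) x + Cb i := by
              refine hCb i x (b (Fin.rev i)) (hMx' i) (hLx _) ?_
              rintro c ⟨j, hj, rfl⟩
              exact hs.2 _ _ hj
            have q3 := lin_liouville {v, w} (hMx' i)
            rw [Finset.sum_pair hvw] at q3
            linarith
          have h7 := Finset.sum_le_sum fun i (_ : i ∈ Finset.univ) => h6 i
          rw [Finset.sum_add_distrib, Finset.sum_add_distrib, Finset.sum_const, Finset.card_univ,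
            Fintype.card_fin, nsmul_eq_mul] at h7
          push_cast at h7
          rw [h5] at h4
          linarith
      obtain ⟨Z, C, hZ, hC⟩ := hgood
      refine ⟨Z, C, hZ, fun x hx _ => hC x hx ?_⟩
      obtain ⟨π, hπ⟩ := exists_sorted v L x
      obtain ⟨τ, hτ⟩ := exists_sorted w L x
      exact ⟨(π, τ), hπ, hτ⟩

end Pool.Agent.Lib.MP_17a322_nt
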