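import Mathlib
import Pool.Agent.Lib.MP_17a322_nt.CubicAlg
import Pool.Agent.Lib.MP_17a322_nt.TwoPlaces

namespace Pool.Agent.Lib.MP_17a322_nt

open MvPolynomial Function Module

variable {k : Type*} [Field k]

lemma eval_bind_lin {n : ℕ} (N : Matrix (Fin (n + 1)) (Fin (n + 1)) k)
    (F : MvPolynomial (Fin (n + 1)) k) (y : Fin (n + 1) → k) :
    eval y (bind₁ (fun i => lin (N i)) F) = eval (N.mulVec y) F := by
  have h1 : (fun i => (MvPolynomial.aeval y : MvPolynomial (Fin (n + 1)) k →ₐ[k] k) (lin (N i))) =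
      N.mulVec y := by
    funext i
    exact eval_lin (N i) y
  have h2 := MvPolynomial.aeval_bind₁ y (fun i => lin (N i)) F
  rw [h1] at h2
  exact h2

lemma bind_lin {n : ℕ} (M : Matrix (Fin (n + 1)) (Fin (n + 1)) k) [Infinite k]
    (c : Fin (n + 1) → k) :
    bind₁ (fun i => lin (M i)) (lin c) = lin (M.transpose.mulVec c) := by
  refine MvPolynomial.funext fun x => ?_
  rw [eval_bind_lin, eval_lin, eval_lin]
  have h1 : ∀ m, c m * M.mulVec x m = ∑ j, c m * (M m j * x j) := by
    intro m
    have h2 : M.mulVec x m = ∑ j, M m j * x j := rfl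
    rw [h2, Finset.mul_sum]
  simp only [h1]
  rw [Finset.sum_comm]
  refine Finset.sum_congr rfl fun j _ => ?_
  have h3 : M.transpose.mulVec c j = ∑ m, M m j * c m := rfl
  rw [h3, Finset.sum_mul]
  refine Finset.sum_congr rfl fun m _ => ?_
  ring

lemma exists_matrix {G a b : Fin (3 + 1) → k} (hind : LinearIndependent k ![G, a, b]) :
    ∃ M N : Matrix (Fin (3 + 1)) (Fin (3 + 1)) k, M * N = 1 ∧ N * M = 1 ∧ M 0 = G ∧ M 1 = a ∧
      M 2 = b := by
  classical
  obtain ⟨d, hd⟩ := exists_linearIndependent_snoc_of_lt_finrank hind (by simp)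
  have hd' : LinearIndependent k ![G, a, b, d] := by
    have e : (Fin.snoc ![G, a, b] d : Fin 4 → (Fin (3 + 1) → k)) = ![G, a, b, d] := by
      funext i
      fin_cases i <;> rfl
    rw [← e]
    exact hd
  have hMu : IsUnit (Matrix.of ![G, a, b, d] : Matrix (Fin (3 + 1)) (Fin (3 + 1)) k) :=
    Matrix.linearIndependent_rows_iff_isUnit.mp hd'
  obtain ⟨u, hu⟩ := hMu
  refine ⟨Matrix.of ![G, a, b, d], (↑u⁻¹ : Matrix (Fin (3 + 1)) (Fin (3 + 1)) k), ?_, ?_, rfl,
    rfl, rfl⟩
  · rw [← hu, Units.mul_inv]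
  · rw [← hu, Units.inv_mul]

lemma dot_row {n : ℕ} (M : Matrix (Fin (n + 1)) (Fin (n + 1)) k) (i : Fin (n + 1))
    (x : Fin (n + 1) → k) : dot (M i) x = M.mulVec x i := rfl

lemma cubic_decomp [Infinite k] {F : MvPolynomial (Fin (3 + 1)) k} (hF : F.IsHomogeneous 3)
    {G a b : Fin (3 + 1) → k} (hind : LinearIndependent k ![G, a, b])
    (h1 : ∀ x, dot G x = 0 → dot a x = 0 → eval x F = 0)
    (h2 : ∀ x, dot G x = 0 → dot b x = 0 → eval x F = 0) :
    ∃ (Q : MvPolynomial (Fin (3 + 1)) k) (c : Fin (3 + 1) → k),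
      F = lin G * Q + lin a * lin b * lin c := by
  obtain ⟨M, N, hMN, hNM, rfl, rfl, rfl⟩ := exists_matrix hind
  have hev : ∀ y, eval y (bind₁ (fun i => lin (N i)) F) = eval (N.mulVec y) F :=
    fun y => eval_bind_lin N F y
  have hhom : (bind₁ (fun i => lin (N i)) F).IsHomogeneous 3 := by
    have := hF.aeval (fun i => lin (N i)) (fun i => lin_hom (N i))
    rw [one_mul] at this
    exact this
  have hMNy : ∀ y, M.mulVec (N.mulVec y) = y := by
    intro y
    rw [Matrix.mulVec_mulVec, hMN, Matrix.one_mulVec]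
  have h1' : ∀ y : Fin (3 + 1) → k, y 0 = 0 → y 1 = 0 →
      eval y (bind₁ (fun i => lin (N i)) F) = 0 := by
    intro y hy0 hy1
    rw [hev]
    apply h1
    · rw [dot_row, hMNy, hy0]
    · rw [dot_row, hMNy, hy1]
  have h2' : ∀ y : Fin (3 + 1) → k, y 0 = 0 → y 2 = 0 →
      eval y (bind₁ (fun i => lin (N i)) F) = 0 := by
    intro y hy0 hy2
    rw [hev]
    apply h2
    · rw [dot_row, hMNy, hy0]
    · rw [dot_row, hMNy, hy2]
  obtain ⟨Q, c, hQ⟩ := cubic_standard hhom h1' h2'
  have hback : F = bind₁ (fun i => lin (M i)) (bind₁ (fun i => lin (N i)) F) := by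
    refine MvPolynomial.funext fun x => ?_
    rw [eval_bind_lin, hev, Matrix.mulVec_mulVec, hNM, Matrix.one_mulVec]
  refine ⟨bind₁ (fun i => lin (M i)) Q, M.transpose.mulVec c, ?_⟩
  rw [hQ] at hback
  rw [map_add, map_mul, map_mul, map_mul, bind₁_X_right, bind₁_X_right, bind₁_X_right,
    bind_lin] at hback
  exact hback

/-- dual map -/
noncomputable def dualOf {n : ℕ} (l : Fin (n + 1) → k) : (Fin (n + 1) → k) →ₗ[k] k where
  toFun x := dot l x
  map_add' x y := by simp [dot, mul_add, Finset.sum_add_distrib]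
  map_smul' c x := by
    simp only [dot, Pi.smul_apply, smul_eq_mul, RingHom.id_apply, Finset.mul_sum]
    exact Finset.sum_congr rfl fun m _ => by ring

lemma dualOf_apply {n : ℕ} (l x : Fin (n + 1) → k) : dualOf l x = dot l x := rfl

lemma dot_single' {n : ℕ} (l : Fin (n + 1) → k) (m : Fin (n + 1)) :
    dot l (Pi.single m 1) = l m := by
  unfold dot
  rw [Finset.sum_eq_single m]
  · simp
  · intro b _ hb; simp [hb]
  · intro h; exact absurd (Finset.mem_univ m) h

lemma mem_pair_of_vanish {n : ℕ} {A B w : Fin (n + 1) → k}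
    (h : ∀ x, dot A x = 0 → dot B x = 0 → dot w x = 0) :
    w ∈ Submodule.span k {A, B} := by
  have h1 : dualOf w ∈ Submodule.span k (Set.range ![dualOf A, dualOf B]) := by
    apply mem_span_of_iInf_ker_le_ker
    intro x hx
    rw [Submodule.mem_iInf] at hx
    have h0 := hx 0
    have h1 := hx 1
    exact h x h0 h1
  have h2 : Set.range ![dualOf A, dualOf B] = {dualOf A, dualOf B} := by
    simp [Matrix.range_cons, Matrix.range_empty]
    rw [Set.pair_comm]
  rw [h2, Submodule.mem_span_pair] at h1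
  obtain ⟨α, β, hαβ⟩ := h1
  rw [Submodule.mem_span_pair]
  refine ⟨α, β, ?_⟩
  funext m
  have := LinearMap.congr_fun hαβ (Pi.single m 1)
  rw [LinearMap.add_apply, LinearMap.smul_apply, LinearMap.smul_apply, dualOf_apply, dualOf_apply,
    dualOf_apply, dot_single', dot_single', dot_single'] at this
  exact this

lemma finrank_pair {V : Type*} [AddCommGroup V] [Module k V] {A B : V}
    (h : LinearIndependent k ![A, B]) : finrank k (Submodule.span k {A, B}) = 2 := by
  have h1 := finrank_span_eq_card h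
  have h2 : Set.range ![A, B] = {A, B} := by
    simp [Matrix.range_cons, Matrix.range_empty]
    rw [Set.pair_comm]
  rw [h2] at h1
  simpa using h1

/-- pairing over the extension -/
def dotL {L : Type*} [Field L] (σ : k →+* L) {n : ℕ} (w : Fin (n + 1) → k)
    (P : Fin (n + 1) → L) : L := ∑ m, σ (w m) * P m

lemma dotL_add {L : Type*} [Field L] (σ : k →+* L) {n : ℕ} (w w' : Fin (n + 1) → k)
    (P : Fin (n + 1) → L) : dotL σ (w + w') P = dotL σ w P + dotL σ w' P := by
  simp [dotL, add_mul, Finset.sum_add_distrib]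

lemma dotL_smul {L : Type*} [Field L] (σ : k →+* L) {n : ℕ} (c : k) (w : Fin (n + 1) → k)
    (P : Fin (n + 1) → L) : dotL σ (c • w) P = σ c * dotL σ w P := by
  simp [dotL, mul_assoc, Finset.mul_sum]

lemma dotL_single {L : Type*} [Field L] (σ : k →+* L) {n : ℕ} (m : Fin (n + 1))
    (P : Fin (n + 1) → L) : dotL σ (Pi.single m 1) P = P m := by
  unfold dotL
  rw [Finset.sum_eq_single m]
  · simp
  · intro b _ hb; simp [hb]
  · intro h; exact absurd (Finset.mem_univ m) h

/-- the forms vanishing at `P` -/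
def annih {L : Type*} [Field L] (σ : k →+* L) {n : ℕ} (P : Fin (n + 1) → L) :
    Submodule k (Fin (n + 1) → k) where
  carrier := {w | dotL σ w P = 0}
  add_mem' := by
    intro a b ha hb
    show dotL σ (a + b) P = 0
    rw [dotL_add, show dotL σ a P = 0 from ha, show dotL σ b P = 0 from hb, add_zero]
  zero_mem' := by simp [dotL]
  smul_mem' := by
    intro c a ha
    show dotL σ (c • a) P = 0
    rw [dotL_smul, show dotL σ a P = 0 from ha, mul_zero]

lemma annih_ne_top {L : Type*} [Field L] (σ : k →+* L) {n : ℕ} {P : Fin (n + 1) → L}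
    (hP : P ≠ 0) : annih σ P ≠ ⊤ := by
  intro h
  apply hP
  funext m
  have : (Pi.single m 1 : Fin (n + 1) → k) ∈ annih σ P := by rw [h]; exact Submodule.mem_top
  have h2 : dotL σ (Pi.single m 1) P = 0 := this
  rw [dotL_single] at h2
  exact h2

/-- Two distinct lines through a common point span a plane. -/
lemma exists_plane {L : Type*} [Field L] (σ : k →+* L) {P : Fin (3 + 1) → L} (hP : P ≠ 0)
    {W W' : Submodule k (Fin (3 + 1) → k)} (hW : finrank k W = 2) (hW' : finrank k W' = 2)
    (hne : W ≠ W') (h1 : W ≤ annih σ P) (h2 : W' ≤ annih σ P) :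
    ∃ G a b : Fin (3 + 1) → k, LinearIndependent k ![G, a, b] ∧ W = Submodule.span k {G, a} ∧
      W' = Submodule.span k {G, b} := by
  have hlt : finrank k ↥(W ⊔ W') < 4 := by
    have h3 : W ⊔ W' < ⊤ := lt_of_le_of_lt (sup_le h1 h2) (lt_top_iff_ne_top.mpr (annih_ne_top σ hP))
    have h4 := Submodule.finrank_lt_finrank_of_lt h3
    rw [finrank_top] at h4
    simpa using h4
  have h5 := Submodule.finrank_sup_add_finrank_inf_eq W W'
  rw [hW, hW'] at h5
  have h6 : 0 < finrank k ↥(W ⊓ W') := by omega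
  have h7 : W ⊓ W' ≠ ⊥ := by
    intro h
    rw [h, finrank_bot] at h6
    exact lt_irrefl _ h6
  obtain ⟨G, hG, hG0⟩ := (Submodule.ne_bot_iff _).mp h7
  have hsp : finrank k (Submodule.span k {G}) = 1 := finrank_span_singleton hG0
  have key : ∀ V : Submodule k (Fin (3 + 1) → k), finrank k V = 2 → G ∈ V →
      ∃ a ∈ V, a ∉ Submodule.span k {G} ∧ V = Submodule.span k {G, a} := by
    intro V hV hGV
    have h8 : ∃ a ∈ V, a ∉ Submodule.span k {G} := by
      by_contra hcon
      push Not at hcon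
      have h9 : V ≤ Submodule.span k {G} := fun x hx => hcon x hx
      have := Submodule.finrank_mono h9
      omega
    obtain ⟨a, haV, ha⟩ := h8
    refine ⟨a, haV, ha, ?_⟩
    have hli : LinearIndependent k ![G, a] := by
      rw [LinearIndependent.pair_iff' hG0]
      intro c hc
      exact ha (Submodule.mem_span_singleton.mpr ⟨c, hc⟩)
    symm
    apply Submodule.eq_of_le_of_finrank_eq
    · rw [Submodule.span_le]
      rintro x (rfl | rfl)
      · exact hGV
      · exact haV
    · rw [finrank_pair hli, hV]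
  obtain ⟨a, haW, ha, hWa⟩ := key W hW hG.1
  obtain ⟨b, hbW, hb, hWb⟩ := key W' hW' hG.2
  refine ⟨G, a, b, ?_, hWa, hWb⟩
  have hbn : b ∉ W := by
    intro hbW1
    apply hne
    symm
    apply Submodule.eq_of_le_of_finrank_eq
    · rw [hWb, Submodule.span_le]
      rintro x (rfl | rfl)
      · exact hG.1
      · exact hbW1
    · rw [hW, hW']
  rw [Fintype.linearIndependent_iff]
  intro c hc
  rw [Fin.sum_univ_three] at hc
  simp only [Matrix.cons_val_zero, Matrix.cons_val_one, Matrix.cons_val] at hc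
  have hc2 : c 2 = 0 := by
    by_contra h
    apply hbn
    have e : b = -((c 2)⁻¹ * c 0) • G + -((c 2)⁻¹ * c 1) • a := by
      have h8 : c 2 • b = -(c 0 • G + c 1 • a) := by
        rw [eq_neg_iff_add_eq_zero]
        exact (add_comm _ _).trans hc
      have h9 := congrArg (fun z => (c 2)⁻¹ • z) h8
      simp only [smul_smul, inv_mul_cancel₀ h, one_smul] at h9
      rw [h9, smul_neg, smul_add, smul_smul, smul_smul, neg_smul, neg_smul]
      abel
    rw [e]
    exact W.add_mem (W.smul_mem _ hG.1) (W.smul_mem _ haW)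
  have hc1 : c 1 = 0 := by
    by_contra h
    apply ha
    rw [hc2, zero_smul, add_zero] at hc
    rw [Submodule.mem_span_singleton]
    refine ⟨-((c 1)⁻¹ * c 0), ?_⟩
    have h8 : c 1 • a = -(c 0 • G) := by
      rw [eq_neg_iff_add_eq_zero]
      exact (add_comm _ _).trans hc
    have h9 := congrArg (fun z => (c 1)⁻¹ • z) h8
    simp only [smul_smul, inv_mul_cancel₀ h, one_smul] at h9
    rw [h9, smul_neg, smul_smul, neg_smul]
  have hc0 : c 0 = 0 := by
    rw [hc2, hc1, zero_smul, zero_smul, add_zero, add_zero] at hc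
    exact (smul_eq_zero.mp hc).resolve_right hG0
  intro i
  fin_cases i
  · exact hc0
  · exact hc1
  · exact hc2

end Pool.Agent.Lib.MP_17a322_nt
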