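import Mathlib
import Pool.Agent.Lib.MP_17a322_nt.CubicLin

namespace Pool.Agent.Lib.MP_17a322_nt

open MvPolynomial Function Module

variable {k : Type*} [Field k] {L : Type*} [Field L]

lemma eval₂_lin (σ : k →+* L) {n : ℕ} (w : Fin (n + 1) → k) (P : Fin (n + 1) → L) :
    eval₂ σ P (lin w) = dotL σ w P := by
  unfold lin dotL
  rw [← coe_eval₂Hom, map_sum]
  refine Finset.sum_congr rfl fun m _ => ?_
  rw [map_mul, coe_eval₂Hom, eval₂_C, eval₂_X]

lemma pderiv_lin {n : ℕ} (w : Fin (n + 1) → k) (m : Fin (n + 1)) :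
    pderiv m (lin w) = C (w m) := by
  classical
  unfold lin
  rw [map_sum, Finset.sum_eq_single m]
  · rw [pderiv_C_mul, pderiv_X_self, mul_one]
  · intro j _ hj
    rw [pderiv_C_mul, pderiv_X_of_ne hj, mul_zero]
  · intro h; exact absurd (Finset.mem_univ _) h

lemma grad_at (σ : k →+* L) {n : ℕ} {F Q : MvPolynomial (Fin (n + 1)) k}
    {G a b c : Fin (n + 1) → k} (hF : F = lin G * Q + lin a * lin b * lin c)
    {P : Fin (n + 1) → L} (hG : dotL σ G P = 0) (ha : dotL σ a P = 0) (hb : dotL σ b P = 0)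
    (m : Fin (n + 1)) : eval₂ σ P (pderiv m F) = σ (G m) * eval₂ σ P Q := by
  rw [hF]
  simp only [map_add, pderiv_mul, pderiv_lin]
  rw [← coe_eval₂Hom]
  simp only [map_add, map_mul]
  simp only [coe_eval₂Hom, eval₂_lin, hG, ha, hb, eval₂_C]
  ring

/-- A cubic form together with lines on it. -/
structure Cfg (σ : k →+* L) {ι : Type*} (F : MvPolynomial (Fin (3 + 1)) k)
    (A B : ι → Fin (3 + 1) → k) : Prop where
  hom : F.IsHomogeneous 3
  ind : ∀ i, LinearIndependent k ![A i, B i]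
  ne : ∀ i j, i ≠ j → Submodule.span k {A i, B i} ≠ Submodule.span k {A j, B j}
  lies : ∀ i x, dot (A i) x = 0 → dot (B i) x = 0 → eval x F = 0
  smooth : ∀ P : Fin (3 + 1) → L, P ≠ 0 → eval₂ σ P F = 0 → ∃ m, eval₂ σ P (pderiv m F) ≠ 0

variable {σ : k →+* L} {ι : Type*} {F : MvPolynomial (Fin (3 + 1)) k}
  {A B : ι → Fin (3 + 1) → k}

lemma le_annih {i : ι} {P : Fin (3 + 1) → L} (h1 : dotL σ (A i) P = 0)
    (h2 : dotL σ (B i) P = 0) : Submodule.span k {A i, B i} ≤ annih σ P := by
  rw [Submodule.span_le]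
  rintro x (rfl | rfl)
  · exact h1
  · exact h2

omit [Field L] in
lemma dot_eq_zero_of_mem {n : ℕ} {u w z : Fin (n + 1) → k} (h : z ∈ Submodule.span k {u, w})
    {x : Fin (n + 1) → k} (h1 : dot u x = 0) (h2 : dot w x = 0) : dot z x = 0 := by
  obtain ⟨α, β, rfl⟩ := Submodule.mem_span_pair.mp h
  rw [dot_add, dot_smul, dot_smul, h1, h2, mul_zero, mul_zero, add_zero]

/-- The tangent plane at the intersection point of two of the lines. -/
lemma pair_data [Infinite k] (H : Cfg σ F A B) {P : Fin (3 + 1) → L} (hP : P ≠ 0)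
    {i j : ι} (hij : i ≠ j) (hi1 : dotL σ (A i) P = 0) (hi2 : dotL σ (B i) P = 0)
    (hj1 : dotL σ (A j) P = 0) (hj2 : dotL σ (B j) P = 0) (hFP : eval₂ σ P F = 0) :
    ∃ (G a b c : Fin (3 + 1) → k) (Q : MvPolynomial (Fin (3 + 1)) k),
      LinearIndependent k ![G, a, b] ∧ Submodule.span k {A i, B i} = Submodule.span k {G, a} ∧
      Submodule.span k {A j, B j} = Submodule.span k {G, b} ∧
      F = lin G * Q + lin a * lin b * lin c ∧ eval₂ σ P Q ≠ 0 ∧
      ∀ m, eval₂ σ P (pderiv m F) = σ (G m) * eval₂ σ P Q := by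
  obtain ⟨G, a, b, hind, hWi, hWj⟩ := exists_plane σ hP (finrank_pair (H.ind i))
    (finrank_pair (H.ind j)) (H.ne i j hij) (le_annih hi1 hi2) (le_annih hj1 hj2)
  have hAi : A i ∈ Submodule.span k {G, a} := by
    rw [← hWi]; exact Submodule.subset_span (by simp)
  have hBi : B i ∈ Submodule.span k {G, a} := by
    rw [← hWi]; exact Submodule.subset_span (by simp)
  have hAj : A j ∈ Submodule.span k {G, b} := by
    rw [← hWj]; exact Submodule.subset_span (by simp)
  have hBj : B j ∈ Submodule.span k {G, b} := by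
    rw [← hWj]; exact Submodule.subset_span (by simp)
  obtain ⟨Q, c, hQ⟩ := cubic_decomp H.hom hind
    (fun x h1 h2 => H.lies i x (dot_eq_zero_of_mem hAi h1 h2) (dot_eq_zero_of_mem hBi h1 h2))
    (fun x h1 h2 => H.lies j x (dot_eq_zero_of_mem hAj h1 h2) (dot_eq_zero_of_mem hBj h1 h2))
  have hGi : G ∈ Submodule.span k {A i, B i} := by
    rw [hWi]; exact Submodule.subset_span (by simp)
  have hai : a ∈ Submodule.span k {A i, B i} := by
    rw [hWi]; exact Submodule.subset_span (by simp)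
  have hbj : b ∈ Submodule.span k {A j, B j} := by
    rw [hWj]; exact Submodule.subset_span (by simp)
  have hGP : dotL σ G P = 0 := le_annih hi1 hi2 hGi
  have haP : dotL σ a P = 0 := le_annih hi1 hi2 hai
  have hbP : dotL σ b P = 0 := le_annih hj1 hj2 hbj
  have hgrad := grad_at σ hQ hGP haP hbP
  refine ⟨G, a, b, c, Q, hind, hWi, hWj, hQ, ?_, hgrad⟩
  intro h0
  obtain ⟨m, hm⟩ := H.smooth P hP hFP
  apply hm
  rw [hgrad m, h0, mul_zero]

/-- A third line through the same point lies in the tangent plane, and the residual linear form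
vanishes on it. -/
lemma third_line [Infinite k] (H : Cfg σ F A B) {P : Fin (3 + 1) → L} (hP : P ≠ 0)
    {i j l : ι} (hij : i ≠ j) (hli : l ≠ i) (hlj : l ≠ j)
    (hi1 : dotL σ (A i) P = 0) (hi2 : dotL σ (B i) P = 0)
    (hl1 : dotL σ (A l) P = 0) (hl2 : dotL σ (B l) P = 0) (hFP : eval₂ σ P F = 0)
    {G a b c : Fin (3 + 1) → k} {Q : MvPolynomial (Fin (3 + 1)) k}
    (hWi : Submodule.span k {A i, B i} = Submodule.span k {G, a})
    (hWj : Submodule.span k {A j, B j} = Submodule.span k {G, b})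
    (hF : F = lin G * Q + lin a * lin b * lin c) (hQP : eval₂ σ P Q ≠ 0)
    (hgrad : ∀ m, eval₂ σ P (pderiv m F) = σ (G m) * eval₂ σ P Q) :
    G ∈ Submodule.span k {A l, B l} ∧ c ∈ Submodule.span k {A l, B l} := by
  obtain ⟨G', a', b', c', Q', hind', hWi', hWl', hF', hQP', hgrad'⟩ :=
    pair_data H hP hli.symm hi1 hi2 hl1 hl2 hFP
  have hG'l : G' ∈ Submodule.span k {A l, B l} := by
    rw [hWl']; exact Submodule.subset_span (by simp)
  have hG'0 : G' ≠ 0 := by
    have := hind'.ne_zero 0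
    simpa using this
  obtain ⟨m₀, hm₀⟩ := Function.ne_iff.mp hG'0
  rw [Pi.zero_apply] at hm₀
  have hprop : G = (G m₀ / G' m₀) • G' := by
    funext m
    have e1 : σ (G m) * eval₂ σ P Q = σ (G' m) * eval₂ σ P Q' := by rw [← hgrad, ← hgrad']
    have e2 : σ (G m₀) * eval₂ σ P Q = σ (G' m₀) * eval₂ σ P Q' := by rw [← hgrad, ← hgrad']
    have hs0 : σ (G' m₀) ≠ 0 := by
      rwa [Ne, map_eq_zero]
    apply σ.injective
    rw [Pi.smul_apply, smul_eq_mul, map_mul, map_div₀]
    have e3 : σ (G m) * σ (G' m₀) * eval₂ σ P Q = σ (G m₀) * σ (G' m) * eval₂ σ P Q := by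
      linear_combination σ (G' m₀) * e1 - σ (G' m) * e2
    have e4 := mul_right_cancel₀ hQP e3
    field_simp
    linear_combination e4
  have hGl : G ∈ Submodule.span k {A l, B l} := by
    rw [hprop]; exact Submodule.smul_mem _ _ hG'l
  refine ⟨hGl, ?_⟩
  -- the submodule of points of the line
  let V : Submodule k (Fin (3 + 1) → k) := LinearMap.ker (dualOf (A l)) ⊓ LinearMap.ker (dualOf (B l))
  have hV : ∀ x, x ∈ V ↔ dot (A l) x = 0 ∧ dot (B l) x = 0 := fun x => Iff.rfl
  have notall : ∀ (s : ι) (w : Fin (3 + 1) → k), s ≠ l →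
      Submodule.span k {A s, B s} = Submodule.span k {G, w} → ∃ x ∈ V, dualOf w x ≠ 0 := by
    intro s w hsl hWs
    by_contra hcon
    push Not at hcon
    have hw : w ∈ Submodule.span k {A l, B l} := by
      apply mem_pair_of_vanish
      intro x h1 h2
      exact hcon x ((hV x).mpr ⟨h1, h2⟩)
    apply H.ne s l hsl
    apply Submodule.eq_of_le_of_finrank_eq
    · rw [hWs, Submodule.span_le]
      rintro x (rfl | rfl)
      · exact hGl
      · exact hw
    · rw [finrank_pair (H.ind s), finrank_pair (H.ind l)]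
  apply mem_pair_of_vanish
  intro x h1 h2
  by_contra hcx
  have hex : ∀ t : Fin 3, ∃ x ∈ V, (![dualOf a, dualOf b, dualOf c] t) x ≠ 0 := by
    intro t
    fin_cases t
    · exact notall i a hli.symm hWi
    · exact notall j b hlj.symm hWj
    · exact ⟨x, (hV x).mpr ⟨h1, h2⟩, hcx⟩
  obtain ⟨y, hyV, hy⟩ := Module.Dual.exists_forall_mem_ne_zero_of_forall_exists V _ hex
  have hya : dot a y ≠ 0 := hy 0
  have hyb : dot b y ≠ 0 := hy 1
  have hyc : dot c y ≠ 0 := hy 2
  have hyF := H.lies l y ((hV y).mp hyV).1 ((hV y).mp hyV).2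
  have hyG : dot G y = 0 := dot_eq_zero_of_mem hGl ((hV y).mp hyV).1 ((hV y).mp hyV).2
  rw [hF] at hyF
  simp only [map_add, map_mul, eval_lin] at hyF
  have e1 : ∑ m, G m * y m = 0 := hyG
  rw [e1, zero_mul, zero_add] at hyF
  exact mul_ne_zero (mul_ne_zero hya hyb) hyc hyF

/-- Two further lines force the residual form to be a multiple of the tangent plane. -/
lemma fourth_line (H : Cfg σ F A B) {l l' : ι} (hll : l ≠ l') {G c : Fin (3 + 1) → k}
    (hG0 : G ≠ 0)
    (h1 : G ∈ Submodule.span k {A l, B l}) (h2 : c ∈ Submodule.span k {A l, B l})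
    (h3 : G ∈ Submodule.span k {A l', B l'}) (h4 : c ∈ Submodule.span k {A l', B l'}) :
    ∃ μ : k, c = μ • G := by
  by_contra hcon
  push Not at hcon
  have hli : LinearIndependent k ![G, c] := by
    rw [LinearIndependent.pair_iff' hG0]
    intro a ha
    exact hcon a ha.symm
  have key : ∀ s : ι, G ∈ Submodule.span k {A s, B s} → c ∈ Submodule.span k {A s, B s} →
      Submodule.span k {G, c} = Submodule.span k {A s, B s} := by
    intro s hs1 hs2
    apply Submodule.eq_of_le_of_finrank_eq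
    · rw [Submodule.span_le]
      rintro x (rfl | rfl)
      · exact hs1
      · exact hs2
    · rw [finrank_pair hli, finrank_pair (H.ind s)]
  exact H.ne l l' hll ((key l h1 h2).symm.trans (key l' h3 h4))

end Pool.Agent.Lib.MP_17a322_nt
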