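import Mathlib
import Pool.Agent.Lib.MP_17a322_nt.CubicPt
import Pool.Agent.Lib.MP_17a322_nt.Near

namespace Pool.Agent.Lib.MP_17a322_nt

open NumberField MvPolynomial Height Function Filter Topology

variable {k : Type*} [Field k] [NumberField k]

/-- distance to the line, not normalised -/
noncomputable def nl (v : Place k) {n : ℕ} (a b x : Fin (n + 1) → k) : ℝ :=
  max (absAt v (dot a x)) (absAt v (dot b x))

lemma nl_nonneg (v : Place k) {n : ℕ} (a b x : Fin (n + 1) → k) : 0 ≤ nl v a b x :=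
  (absAt_nonneg v _).trans (le_max_left _ _)

lemma nl_pos (v : Place k) {n : ℕ} {a b x : Fin (n + 1) → k}
    (h : ¬(dot a x = 0 ∧ dot b x = 0)) : 0 < nl v a b x := by
  by_cases h1 : dot a x = 0
  · have h2 : dot b x ≠ 0 := fun h2 => h ⟨h1, h2⟩
    exact (absAt_pos v h2).trans_le (le_max_right _ _)
  · exact (absAt_pos v h1).trans_le (le_max_left _ _)

lemma ne_zero_of_off {n : ℕ} {a b x : Fin (n + 1) → k}
    (h : ¬(dot a x = 0 ∧ dot b x = 0)) : x ≠ 0 := by
  rintro rfl
  apply h
  simp [dot]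

omit [NumberField k] in
lemma dot_smul_right {n : ℕ} (c : k) (l x : Fin (n + 1) → k) : dot l (c • x) = c * dot l x := by
  unfold dot
  rw [Finset.mul_sum]
  refine Finset.sum_congr rfl fun m _ => ?_
  rw [Pi.smul_apply, smul_eq_mul]; ring

lemma lineHt_smul (v : Place k) {n : ℕ} {a b x : Fin (n + 1) → k}
    (h : ¬(dot a x = 0 ∧ dot b x = 0)) {c : k} (hc : c ≠ 0) :
    lineHt v a b (c • x) = lineHt v a b x := by
  have hx := ne_zero_of_off h
  have hn : max (absAt v (dot a x)) (absAt v (dot b x)) ≠ 0 := (nl_pos v h).ne'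
  unfold lineHt
  rw [sup_smul, dot_smul_right, dot_smul_right, absAt_mul, absAt_mul,
    ← mul_max_of_nonneg _ _ (absAt_nonneg v c), Real.log_mul (absAt_pos v hc).ne'
    (sup_pos v hx).ne', Real.log_mul (absAt_pos v hc).ne' hn]
  ring

lemma single_line (v : Place k) {n : ℕ} {a b x : Fin (n + 1) → k}
    (h : ¬(dot a x = 0 ∧ dot b x = 0)) :
    lineHt v a b x ≤ logHeight x + (|Real.log (lconst (lin a))| + |Real.log (lconst (lin b))|) := by
  have q1 := abs_nonneg (Real.log (lconst (lin a)))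
  have q2 := abs_nonneg (Real.log (lconst (lin b)))
  have key : ∀ w : Fin (n + 1) → k, dot w x ≠ 0 → absAt v (dot w x) ≤ nl v a b x →
      lineHt v a b x ≤ logHeight x + |Real.log (lconst (lin w))| := by
    intro w hw hle
    have h1 := lin_liouville {v} hw
    rw [Finset.sum_singleton, locHt_lin v hw] at h1
    have h2 : lineHt v a b x ≤ expAt v * (Real.log (⨆ i, absAt v (x i)) -
        Real.log (absAt v (dot w x))) := by
      unfold lineHt
      apply mul_le_mul_of_nonneg_left _ (Nat.cast_nonneg _)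
      have := Real.log_le_log (absAt_pos v hw) hle
      unfold nl at this
      linarith
    linarith [le_abs_self (Real.log (lconst (lin w)))]
  by_cases h1 : dot a x = 0
  · have h2 : dot b x ≠ 0 := fun h2 => h ⟨h1, h2⟩
    have := key b h2 (le_max_right _ _)
    linarith
  · have := key a h1 (le_max_left _ _)
    linarith

section

variable {L : Type*} [NontriviallyNormedField L] {v : Place k} {σ : k →+* L}

lemma norm_dotL (hσ : Induces v σ) {n : ℕ} (w x : Fin (n + 1) → k) :
    ‖dotL σ w (σ ∘ x)‖ = absAt v (dot w x) := by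
  rw [← hσ]
  congr 1
  unfold dotL dot
  rw [map_sum]
  refine Finset.sum_congr rfl fun m _ => ?_
  rw [map_mul]; rfl

omit [NumberField k] in
lemma cont_dotL {n : ℕ} (w : Fin (n + 1) → k) :
    Continuous (fun Q : Fin (n + 1) → L => dotL σ w Q) := by
  unfold dotL
  fun_prop

variable {ι : Type*} [Fintype ι] {F : MvPolynomial (Fin (3 + 1)) k}
  {A B : ι → Fin (3 + 1) → k}

/-- The inequality holds on `s` for normalised points. -/
def GoodC (v : Place k) (σ : k →+* L) (F : MvPolynomial (Fin (3 + 1)) k)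
    (A B : ι → Fin (3 + 1) → k) (T : Finset ι) (s : Set (Fin (3 + 1) → L)) : Prop :=
  ∃ (Z : Finset (Fin (3 + 1) → k)) (C : ℝ), (∀ l ∈ Z, l ≠ 0) ∧
    ∀ x : Fin (3 + 1) → k, (⨆ i, absAt v (x i)) = 1 → σ ∘ x ∈ s → eval x F = 0 →
      (∀ i, ¬(dot (A i) x = 0 ∧ dot (B i) x = 0)) → (∀ l ∈ Z, dot l x ≠ 0) →
      ∑ i ∈ T, lineHt v (A i) (B i) x ≤ logHeight x + C

/-- Sum over lines dominated by one plane. -/
lemma sum_le_plane {x : Fin (3 + 1) → k} (hx : (⨆ i, absAt v (x i)) = 1)
    (hoff : ∀ i, ¬(dot (A i) x = 0 ∧ dot (B i) x = 0)) {G : Fin (3 + 1) → k}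
    (hG : dot G x ≠ 0) {T : Finset ι} {K q : ℝ} (hK : 0 < K) (hq : 0 < q)
    (h : q * absAt v (dot G x) ≤ K * ∏ i ∈ T, nl v (A i) (B i) x) :
    ∑ i ∈ T, lineHt v (A i) (B i) x ≤
      logHeight x + (Real.log (lconst (lin G)) + expAt v * (Real.log K - Real.log q)) := by
  have h1 := lin_liouville {v} hG
  rw [Finset.sum_singleton, locHt_lin v hG, hx, Real.log_one, zero_sub] at h1
  have h2 : ∑ i ∈ T, lineHt v (A i) (B i) x = expAt v * -∑ i ∈ T, Real.log (nl v (A i) (B i) x) := by
    rw [← Finset.sum_neg_distrib, Finset.mul_sum]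
    refine Finset.sum_congr rfl fun i _ => ?_
    unfold lineHt
    rw [hx, Real.log_one, zero_sub]
    rfl
  have hprod : 0 < ∏ i ∈ T, nl v (A i) (B i) x := Finset.prod_pos fun i _ => nl_pos v (hoff i)
  have h3 := Real.log_le_log (mul_pos hq (absAt_pos v hG)) h
  rw [Real.log_mul hq.ne' (absAt_pos v hG).ne', Real.log_mul hK.ne' hprod.ne',
    Real.log_prod (fun i _ => (nl_pos v (hoff i)).ne')] at h3
  rw [h2]
  have h4 : (expAt v : ℝ) * -∑ i ∈ T, Real.log (nl v (A i) (B i) x) ≤
      expAt v * (-Real.log (absAt v (dot G x)) + (Real.log K - Real.log q)) := by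
    apply mul_le_mul_of_nonneg_left _ (Nat.cast_nonneg _)
    linarith
  rw [mul_add] at h4
  linarith

lemma near_members (hσ : Induces v σ) (H : Cfg σ F A B) {P : Fin (3 + 1) → L} (hP : P ≠ 0)
    (hFP : eval₂ σ P F = 0) (I : Finset ι)
    (hI : ∀ i, i ∈ I ↔ dotL σ (A i) P = 0 ∧ dotL σ (B i) P = 0) :
    ∃ s ∈ 𝓝 P, GoodC v σ F A B I s := by
  classical
  rcases Nat.lt_or_ge 1 I.card with hcard | hcard
  · obtain ⟨i, hi, j, hj, hij⟩ := Finset.one_lt_card.mp hcard
    obtain ⟨hi1, hi2⟩ := (hI i).mp hi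
    obtain ⟨hj1, hj2⟩ := (hI j).mp hj
    obtain ⟨G, a, b, c, Q, hind, hWi, hWj, hF, hQP, hgrad⟩ :=
      pair_data H hP hij hi1 hi2 hj1 hj2 hFP
    have hG0 : G ≠ 0 := by
      have := hind.ne_zero 0
      simpa using this
    have hai : a ∈ Submodule.span k {A i, B i} := by
      rw [hWi]; exact Submodule.subset_span (by simp)
    have hbj : b ∈ Submodule.span k {A j, B j} := by
      rw [hWj]; exact Submodule.subset_span (by simp)
    set q : ℝ := ‖eval₂ σ P Q‖ / 2 with hq
    have hq0 : 0 < ‖eval₂ σ P Q‖ := norm_pos_iff.mpr hQP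
    have hqpos : 0 < q := half_pos hq0
    have hnear : ∀ᶠ R in 𝓝 P, q < ‖eval₂ σ R Q‖ :=
      ((cont_eval Q).norm.tendsto P).eventually (lt_mem_nhds (half_lt_self hq0))
    -- the relation on the surface
    have hrel : ∀ x : Fin (3 + 1) → k, eval x F = 0 →
        absAt v (dot G x) * ‖eval₂ σ (σ ∘ x) Q‖ =
          absAt v (dot a x) * absAt v (dot b x) * absAt v (dot c x) := by
      intro x hx
      rw [hF] at hx
      simp only [map_add, map_mul, eval_lin'] at hx
      have e1 : dot G x * eval x Q = -(dot a x * dot b x * dot c x) :=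
        eq_neg_of_add_eq_zero_left hx
      rw [← norm_eval hσ, ← absAt_mul, e1, ← absAt_mul, ← absAt_mul]
      rw [← hσ, ← hσ, map_neg, norm_neg]
    obtain ⟨Ka, hKa, hKa'⟩ := span_bound v hai
    obtain ⟨Kb, hKb, hKb'⟩ := span_bound v hbj
    have hba : ∀ x, absAt v (dot a x) ≤ (Ka + 1) * nl v (A i) (B i) x := by
      intro x
      have h1 := hKa' x _ (nl_nonneg v (A i) (B i) x) (by
        rintro y (rfl | rfl)
        · exact le_max_left _ _
        · exact le_max_right _ _)
      have h2 := nl_nonneg v (A i) (B i) x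
      nlinarith
    have hbb : ∀ x, absAt v (dot b x) ≤ (Kb + 1) * nl v (A j) (B j) x := by
      intro x
      have h1 := hKb' x _ (nl_nonneg v (A j) (B j) x) (by
        rintro y (rfl | rfl)
        · exact le_max_left _ _
        · exact le_max_right _ _)
      have h2 := nl_nonneg v (A j) (B j) x
      nlinarith
    set J := (I.erase i).erase j with hJ
    have hprodI : ∀ x, ∏ s ∈ I, nl v (A s) (B s) x =
        nl v (A i) (B i) x * (nl v (A j) (B j) x * ∏ s ∈ J, nl v (A s) (B s) x) := by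
      intro x
      rw [← Finset.mul_prod_erase I _ hi, ← Finset.mul_prod_erase (I.erase i) _
        (Finset.mem_erase.mpr ⟨hij.symm, hj⟩)]
    have hJmem : ∀ l ∈ J, l ≠ i ∧ l ≠ j ∧ dotL σ (A l) P = 0 ∧ dotL σ (B l) P = 0 := by
      intro l hl
      rw [hJ, Finset.mem_erase, Finset.mem_erase] at hl
      exact ⟨hl.2.1, hl.1, (hI l).mp hl.2.2⟩
    have hthird : ∀ l ∈ J, G ∈ Submodule.span k {A l, B l} ∧ c ∈ Submodule.span k {A l, B l} := by
      intro l hl
      obtain ⟨h1, h2, h3, h4⟩ := hJmem l hl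
      exact third_line H hP hij h1 h2 hi1 hi2 h3 h4 hFP hWi hWj hF hQP hgrad
    -- general conclusion from a bound for c
    have concl : ∀ (Kc : ℝ), 0 < Kc → (∀ x : Fin (3 + 1) → k, (⨆ i, absAt v (x i)) = 1 →
        absAt v (dot c x) ≤ Kc * ∏ s ∈ J, nl v (A s) (B s) x) →
        ∃ s ∈ 𝓝 P, GoodC v σ F A B I s := by
      intro Kc hKc hc
      refine ⟨_, hnear, {G}, Real.log (lconst (lin G)) + expAt v *
        (Real.log ((Ka + 1) * (Kb + 1) * Kc) - Real.log q), by simpa using hG0, ?_⟩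
      intro x hx1 hxs hFx hoff hZ
      have hGx : dot G x ≠ 0 := hZ G (by simp)
      refine sum_le_plane hx1 hoff hGx (by positivity) hqpos ?_
      have h1 := hrel x hFx
      have hxs' : q < ‖eval₂ σ (σ ∘ x) Q‖ := hxs
      have h2 : q * absAt v (dot G x) ≤ absAt v (dot G x) * ‖eval₂ σ (σ ∘ x) Q‖ := by
        rw [mul_comm]
        exact mul_le_mul_of_nonneg_left hxs'.le (absAt_nonneg _ _)
      refine h2.trans ?_
      rw [h1, hprodI x]
      have n1 := nl_nonneg v (A i) (B i) x
      have n2 := nl_nonneg v (A j) (B j) x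
      have n3 : 0 ≤ ∏ s ∈ J, nl v (A s) (B s) x :=
        Finset.prod_nonneg fun s _ => nl_nonneg _ _ _ _
      calc absAt v (dot a x) * absAt v (dot b x) * absAt v (dot c x) ≤
            ((Ka + 1) * nl v (A i) (B i) x) * ((Kb + 1) * nl v (A j) (B j) x) *
              (Kc * ∏ s ∈ J, nl v (A s) (B s) x) := by
            refine mul_le_mul (mul_le_mul (hba x) (hbb x) (absAt_nonneg _ _) (by positivity))
              (hc x hx1) (absAt_nonneg _ _) (by positivity)
        _ = _ := by ring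
    rcases Nat.lt_or_ge 1 J.card with hJc | hJc
    · -- four lines: no points near P off the plane
      obtain ⟨l, hl, l', hl', hll⟩ := Finset.one_lt_card.mp hJc
      obtain ⟨μ, hμ⟩ := fourth_line H hll hG0 (hthird l hl).1 (hthird l hl).2 (hthird l' hl').1
        (hthird l' hl').2
      have haP : dotL σ a P = 0 := le_annih hi1 hi2 hai
      have hnear2 : ∀ᶠ R in 𝓝 P, ‖dotL σ a R‖ * ‖dotL σ b R‖ * ‖σ μ‖ < q := by
        have hcont : Continuous (fun R : Fin (3 + 1) → L =>
            ‖dotL σ a R‖ * ‖dotL σ b R‖ * ‖σ μ‖) :=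
          (((cont_dotL a).norm).mul ((cont_dotL b).norm)).mul continuous_const
        have := hcont.tendsto P
        simp only [haP, norm_zero, zero_mul] at this
        exact this.eventually (gt_mem_nhds hqpos)
      refine ⟨_, hnear.and hnear2, {G}, 0, by simpa using hG0, ?_⟩
      rintro x hx1 ⟨hxs1, hxs2⟩ hFx hoff hZ
      exfalso
      have hGx : dot G x ≠ 0 := hZ G (by simp)
      have hxs1' : q < ‖eval₂ σ (σ ∘ x) Q‖ := hxs1
      have hxs2' : ‖dotL σ a (σ ∘ x)‖ * ‖dotL σ b (σ ∘ x)‖ * ‖σ μ‖ < q := hxs2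
      rw [norm_dotL hσ, norm_dotL hσ, hσ] at hxs2'
      have h1 := hrel x hFx
      rw [hμ, dot_smul, absAt_mul] at h1
      have h2 : absAt v (dot G x) * ‖eval₂ σ (σ ∘ x) Q‖ =
          absAt v (dot G x) * (absAt v (dot a x) * absAt v (dot b x) * absAt v μ) := by
        rw [h1]; ring
      have h3 := mul_left_cancel₀ (absAt_pos v hGx).ne' h2
      rw [h3] at hxs1'
      exact lt_asymm hxs1' hxs2'
    · rcases Nat.lt_or_ge 0 J.card with hJ0 | hJ0
      · obtain ⟨l, hl⟩ := Finset.card_eq_one.mp (show J.card = 1 by omega)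
        have hlJ : l ∈ J := by rw [hl]; simp
        obtain ⟨Kc, hKc, hKc'⟩ := span_bound v (hthird l hlJ).2
        refine concl (Kc + 1) (by linarith) fun x _ => ?_
        rw [hl, Finset.prod_singleton]
        have h1 := hKc' x _ (nl_nonneg v (A l) (B l) x) (by
          rintro y (rfl | rfl)
          · exact le_max_left _ _
          · exact le_max_right _ _)
        have h2 := nl_nonneg v (A l) (B l) x
        nlinarith
      · have hJe : J = ∅ := Finset.card_eq_zero.mp (by omega)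
        -- c bounded by the maximum
        refine concl (∑ m, absAt v (c m) + 1) ?_ fun x hx => ?_
        · have : 0 ≤ ∑ m, absAt v (c m) := Finset.sum_nonneg fun m _ => absAt_nonneg _ _
          linarith
        · rw [hJe, Finset.prod_empty, mul_one]
          have habs : ∀ (s : Finset (Fin (3 + 1))) (f : Fin (3 + 1) → k),
              absAt v (∑ i ∈ s, f i) ≤ ∑ i ∈ s, absAt v (f i) := by
            intro s f
            induction s using Finset.induction_on with
            | empty => simp [absAt_zero]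
            | insert a s ha ih =>
              rw [Finset.sum_insert ha, Finset.sum_insert ha]
              exact (absAt_add_le v _ _).trans (add_le_add le_rfl ih)
          refine (habs _ _).trans ?_
          have h1 : ∑ m, absAt v (c m * x m) ≤ ∑ m, absAt v (c m) := by
            refine Finset.sum_le_sum fun m _ => ?_
            rw [absAt_mul]
            have h2 : absAt v (x m) ≤ 1 := by
              rw [← hx]; exact Finite.le_ciSup (fun i => absAt v (x i)) m
            exact mul_le_of_le_one_right (absAt_nonneg _ _) h2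
          linarith
  · -- at most one line
    refine ⟨Set.univ, univ_mem, ∅, ∑ i ∈ I, (|Real.log (lconst (lin (A i)))| +
      |Real.log (lconst (lin (B i)))|), by simp, ?_⟩
    intro x _ _ _ hoff _
    have h1 : ∑ i ∈ I, lineHt v (A i) (B i) x ≤ ∑ i ∈ I, (logHeight x +
        (|Real.log (lconst (lin (A i)))| + |Real.log (lconst (lin (B i)))|)) :=
      Finset.sum_le_sum fun i _ => single_line v (hoff i)
    rw [Finset.sum_add_distrib, Finset.sum_const, nsmul_eq_mul] at h1
    have h2 : (I.card : ℝ) ≤ 1 := by exact_mod_cast hcard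
    have h3 := logHeight_nonneg x
    nlinarith

lemma near_all (hσ : Induces v σ) (H : Cfg σ F A B) {P : Fin (3 + 1) → L} (hP : P ≠ 0) :
    ∃ s ∈ 𝓝 P, GoodC v σ F A B Finset.univ s := by
  classical
  by_cases hFP : eval₂ σ P F = 0
  · set I : Finset ι := Finset.univ.filter fun i => dotL σ (A i) P = 0 ∧ dotL σ (B i) P = 0 with hI
    obtain ⟨s, hs, Z, C, hZ, hC⟩ := near_members hσ H hP hFP I (fun i => by simp [hI])
    -- the other lines
    have hb : ∀ i : ι, ∃ Ci : ℝ, i ∉ I → ∀ᶠ R in 𝓝 P, ∀ x : Fin (3 + 1) → k,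
        (⨆ i, absAt v (x i)) = 1 → σ ∘ x = R → lineHt v (A i) (B i) x ≤ Ci := by
      intro i
      by_cases hi : i ∈ I
      · exact ⟨0, fun h => absurd hi h⟩
      · set r : ℝ := max ‖dotL σ (A i) P‖ ‖dotL σ (B i) P‖ with hr
        have hr0 : 0 < r := by
          by_contra hcon
          apply hi
          rw [hI, Finset.mem_filter]
          have h1 : ‖dotL σ (A i) P‖ ≤ 0 := (le_max_left _ _).trans (not_lt.mp hcon)
          have h2 : ‖dotL σ (B i) P‖ ≤ 0 := (le_max_right _ _).trans (not_lt.mp hcon)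
          exact ⟨Finset.mem_univ _, norm_le_zero_iff.mp h1, norm_le_zero_iff.mp h2⟩
        refine ⟨expAt v * (0 - Real.log (r / 2)), fun _ => ?_⟩
        have hcont : Continuous (fun R : Fin (3 + 1) → L =>
            max ‖dotL σ (A i) R‖ ‖dotL σ (B i) R‖) :=
          ((cont_dotL (A i)).norm).max ((cont_dotL (B i)).norm)
        have hev : ∀ᶠ R in 𝓝 P, r / 2 < max ‖dotL σ (A i) R‖ ‖dotL σ (B i) R‖ :=
          (hcont.tendsto P).eventually (lt_mem_nhds (half_lt_self hr0))
        filter_upwards [hev] with R hR x hx hxR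
        subst hxR
        rw [norm_dotL hσ, norm_dotL hσ] at hR
        unfold lineHt
        rw [hx, Real.log_one]
        apply mul_le_mul_of_nonneg_left _ (Nat.cast_nonneg _)
        have := Real.log_le_log (half_pos hr0) hR.le
        linarith
    choose Ci hCi using hb
    have hall : ∀ᶠ R in 𝓝 P, ∀ i, i ∉ I → ∀ x : Fin (3 + 1) → k,
        (⨆ i, absAt v (x i)) = 1 → σ ∘ x = R → lineHt v (A i) (B i) x ≤ Ci i := by
      rw [eventually_all]
      intro i
      by_cases hi : i ∈ I
      · exact Eventually.of_forall fun R h => absurd hi h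
      · filter_upwards [hCi i hi] with R hR _ using hR
    refine ⟨s ∩ {R | ∀ i, i ∉ I → ∀ x : Fin (3 + 1) → k,
        (⨆ i, absAt v (x i)) = 1 → σ ∘ x = R → lineHt v (A i) (B i) x ≤ Ci i},
      inter_mem hs hall, Z, C + ∑ i ∈ Iᶜ, Ci i, hZ, ?_⟩
    rintro x hx ⟨hx1, hx2⟩ hFx hoff hZx
    rw [← Finset.sum_add_sum_compl I]
    have h1 := hC x hx hx1 hFx hoff hZx
    have h2 : ∑ i ∈ Iᶜ, lineHt v (A i) (B i) x ≤ ∑ i ∈ Iᶜ, Ci i :=
      Finset.sum_le_sum fun i hi => hx2 i (Finset.mem_compl.mp hi) x hx rfl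
    linarith
  · have hpos : 0 < ‖eval₂ σ P F‖ := norm_pos_iff.mpr hFP
    have hev : ∀ᶠ R in 𝓝 P, 0 < ‖eval₂ σ R F‖ :=
      ((cont_eval F).norm.tendsto P).eventually (lt_mem_nhds hpos)
    refine ⟨_, hev, ∅, 0, by simp, ?_⟩
    intro x _ hxs hFx _ _
    exfalso
    have hxs' : 0 < ‖eval₂ σ (σ ∘ x) F‖ := hxs
    rw [← norm_eval hσ, hFx, absAt_zero] at hxs'
    exact lt_irrefl _ hxs'

end

/-- **Cubic surfaces.** -/
theorem cubic_lines {v : Place k} {L : Type*} [NontriviallyNormedField L] [ProperSpace L]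
    {σ : k →+* L} (hσ : Induces v σ) {ι : Type*} [Fintype ι]
    {F : MvPolynomial (Fin (3 + 1)) k} {A B : ι → Fin (3 + 1) → k} (H : Cfg σ F A B) :
    ∃ (Z : Finset (Fin (3 + 1) → k)) (C : ℝ), (∀ l ∈ Z, l ≠ 0) ∧
      ∀ x : Fin (3 + 1) → k, x ≠ 0 → eval x F = 0 →
        (∀ i, ¬(dot (A i) x = 0 ∧ dot (B i) x = 0)) → (∀ l ∈ Z, dot l x ≠ 0) →
        ∑ i, lineHt v (A i) (B i) x ≤ logHeight x + C := by
  classical
  have hcomp : IsCompact (Metric.sphere (0 : Fin (3 + 1) → L) 1) := isCompact_sphere _ _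
  have hgood : GoodC v σ F A B Finset.univ (Metric.sphere (0 : Fin (3 + 1) → L) 1) := by
    refine hcomp.induction_on (p := GoodC v σ F A B Finset.univ) ⟨∅, 0, by simp, by simp⟩ ?_ ?_ ?_
    · rintro s t hst ⟨Z, C, hZ, hC⟩
      exact ⟨Z, C, hZ, fun x hx hxs => hC x hx (hst hxs)⟩
    · rintro s t ⟨Z, C, hZ, hC⟩ ⟨Z', C', hZ', hC'⟩
      refine ⟨Z ∪ Z', max C C', ?_, ?_⟩
      · intro l hl
        rcases Finset.mem_union.mp hl with h | h
        · exact hZ l h
        · exact hZ' l h
      · intro x hx hxs hFx hoff hlx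
        rcases hxs with h | h
        · have := hC x hx h hFx hoff fun l hl => hlx l (Finset.mem_union_left _ hl)
          linarith [le_max_left C C']
        · have := hC' x hx h hFx hoff fun l hl => hlx l (Finset.mem_union_right _ hl)
          linarith [le_max_right C C']
    · intro P hP
      have hP0 : P ≠ 0 := by
        rintro rfl
        simp at hP
      obtain ⟨s', hs', hg⟩ := near_all hσ H hP0
      exact ⟨s', mem_nhdsWithin_of_mem_nhds hs', hg⟩
  obtain ⟨Z, C, hZ, hC⟩ := hgood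
  refine ⟨Z, C, hZ, ?_⟩
  intro x hx hFx hoff hlx
  obtain ⟨j, hj⟩ := exists_eq_ciSup_of_finite (f := fun i => absAt v (x i))
  have hsup := sup_pos v hx
  rw [← hj] at hsup
  have hxj : x j ≠ 0 := by
    intro h0
    simp only [h0] at hsup
    rw [← hσ, map_zero, norm_zero] at hsup
    exact lt_irrefl _ hsup
  set c := (x j)⁻¹ with hc
  have hc0 : c ≠ 0 := inv_ne_zero hxj
  have hsup1 : (⨆ i, absAt v ((c • x) i)) = 1 := by
    rw [sup_smul, ← hj]
    show absAt v c * absAt v (x j) = 1
    rw [← absAt_mul, hc, inv_mul_cancel₀ hxj, ← hσ, map_one, norm_one]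
  have hnorm : σ ∘ (c • x) ∈ Metric.sphere (0 : Fin (3 + 1) → L) 1 := by
    rw [mem_sphere_zero_iff_norm]
    apply le_antisymm
    · rw [pi_norm_le_iff_of_nonneg zero_le_one]
      intro i
      have h1 : ‖(σ ∘ (c • x)) i‖ = absAt v ((c • x) i) := by rw [← hσ]; rfl
      rw [h1, ← hsup1]
      exact Finite.le_ciSup (fun i => absAt v ((c • x) i)) i
    · have h1 : ‖(σ ∘ (c • x)) j‖ = 1 := by
        have : (σ ∘ (c • x)) j = 1 := by
          simp [hc, hxj]
        rw [this, norm_one]
      rw [← h1]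
      exact norm_le_pi_norm (σ ∘ (c • x)) j
  have hFcx : eval (c • x) F = 0 := by
    rw [eval_smul_hom H.hom, hFx, mul_zero]
  have hoffc : ∀ i, ¬(dot (A i) (c • x) = 0 ∧ dot (B i) (c • x) = 0) := by
    rintro i ⟨h1, h2⟩
    rw [dot_smul_right, mul_eq_zero] at h1 h2
    exact hoff i ⟨h1.resolve_left hc0, h2.resolve_left hc0⟩
  have hlcx : ∀ l ∈ Z, dot l (c • x) ≠ 0 := by
    intro l hl
    rw [dot_smul_right]
    exact mul_ne_zero hc0 (hlx l hl)
  have := hC (c • x) hsup1 hnorm hFcx hoffc hlcx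
  rw [logHeight_smul_eq_logHeight x hc0] at this
  rw [Finset.sum_congr rfl fun i _ => lineHt_smul v (hoff i) hc0] at this
  exact this

end Pool.Agent.Lib.MP_17a322_nt
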