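import Mathlib
import Pool.Agent.Lib.MP_17a322_nt.CubicMain

/-!
# Vojta's inequality for cubic surfaces, one place, `D` any set of lines

`X : F = 0` is a cubic surface over the number field `k` without singular points over the locally
compact field `L` (for instance `L = k_v`), and `A i = B i = 0` are finitely many distinct lines
over `k` on `X` (up to all 27 lines). The canonical divisor is `-H`. Off finitely many planes the
sum of the local heights at `v` of the lines is at most `h + O(1)`.
-/

namespace Pool.Agent.Results.MP_17a322_nt.CubicSurfaceLines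

open Pool.Agent.Lib.MP_17a322_nt NumberField MvPolynomial Height

theorem result {k : Type*} [Field k] [NumberField k] {v : Place k}
    {L : Type*} [NontriviallyNormedField L] [ProperSpace L]
    {σ : k →+* L} (hσ : Induces v σ)
    {F : MvPolynomial (Fin (3 + 1)) k} (hF : F.IsHomogeneous 3)
    (hsm : ∀ P : Fin (3 + 1) → L, P ≠ 0 → eval₂ σ P F = 0 →
      ∃ m, eval₂ σ P (pderiv m F) ≠ 0)
    {ι : Type*} [Fintype ι] (A B : ι → Fin (3 + 1) → k)
    (hind : ∀ i, LinearIndependent k ![A i, B i])
    (hne : ∀ i j, i ≠ j → Submodule.span k {A i, B i} ≠ Submodule.span k {A j, B j})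
    (hX : ∀ i x, dot (A i) x = 0 → dot (B i) x = 0 → eval x F = 0) :
    ∃ (Z : Finset (Fin (3 + 1) → k)) (C : ℝ), (∀ l ∈ Z, l ≠ 0) ∧
      ∀ x : Fin (3 + 1) → k, x ≠ 0 → eval x F = 0 →
        (∀ i, ¬(dot (A i) x = 0 ∧ dot (B i) x = 0)) → (∀ l ∈ Z, dot l x ≠ 0) →
        ∑ i, lineHt v (A i) (B i) x ≤ logHeight x + C :=
  cubic_lines hσ ⟨hF, hind, hne, hX, hsm⟩

end Pool.Agent.Results.MP_17a322_nt.CubicSurfaceLines
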