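import Mathlib

set_option autoImplicit false

namespace Pool.Agent.Lib.MP_17a322_nt.DiagonalsOnePlaceThm

open Height NumberField Projectivization Module

noncomputable section

/-! ## Part 1: a counting lemma -/

private theorem count_sum {𝓔 ι : Type*} [Fintype 𝓔] [Fintype ι] [DecidableEq ι] (w : 𝓔 → ℝ)
    (s : ι → ℝ) (t0 : ℝ) (ht0 : 0 ≤ t0) (hs : ∀ i, 0 ≤ s i)
    (H : ∀ t, t0 ≤ t → (Finset.univ.filter (fun e => t ≤ w e)).card ≤
      (Finset.univ.filter (fun i => t ≤ s i)).card) :
    ∑ e, w e ≤ ∑ i, s i + Fintype.card 𝓔 * t0 := by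
  classical
  let N : {e : 𝓔 // t0 ≤ w e} → Finset ι := fun e => Finset.univ.filter (fun i => w e.1 ≤ s i)
  have hall : ∀ A : Finset {e : 𝓔 // t0 ≤ w e}, A.card ≤ (A.biUnion N).card := by
    intro A
    rcases A.eq_empty_or_nonempty with rfl | hA
    · simp
    obtain ⟨e0, he0, hmin⟩ := A.exists_min_image (fun e => w e.1) hA
    have h1 : A.card ≤ (Finset.univ.filter (fun e => w e0.1 ≤ w e)).card := by
      rw [← Finset.card_map (Function.Embedding.subtype _)]
      apply Finset.card_le_card
      intro e he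
      rw [Finset.mem_map] at he
      obtain ⟨e', he', rfl⟩ := he
      simpa using hmin e' he'
    refine h1.trans ((H _ e0.2).trans (Finset.card_le_card ?_))
    intro i hi
    rw [Finset.mem_biUnion]
    exact ⟨e0, he0, hi⟩
  obtain ⟨φ, hφ, hφN⟩ := (Finset.all_card_le_biUnion_card_iff_exists_injective N).1 hall
  have hsplit : ∑ e, w e = ∑ e ∈ Finset.univ.filter (fun e => t0 ≤ w e), w e +
      ∑ e ∈ Finset.univ.filter (fun e => ¬ t0 ≤ w e), w e :=
    (Finset.sum_filter_add_sum_filter_not _ _ _).symm
  have h2 : ∑ e ∈ Finset.univ.filter (fun e => ¬ t0 ≤ w e), w e ≤ Fintype.card 𝓔 * t0 := by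
    calc ∑ e ∈ Finset.univ.filter (fun e => ¬ t0 ≤ w e), w e
        ≤ ∑ e ∈ Finset.univ.filter (fun e => ¬ t0 ≤ w e), t0 := by
          apply Finset.sum_le_sum
          intro e he
          rw [Finset.mem_filter] at he
          exact (not_le.1 he.2).le
      _ = (Finset.univ.filter (fun e => ¬ t0 ≤ w e)).card * t0 := by
          rw [Finset.sum_const, nsmul_eq_mul]
      _ ≤ Fintype.card 𝓔 * t0 := by
          apply mul_le_mul_of_nonneg_right _ ht0
          exact_mod_cast Finset.card_le_univ _
  have h3 : ∑ e ∈ Finset.univ.filter (fun e => t0 ≤ w e), w e ≤ ∑ i, s i := by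
    have e1 : ∑ e ∈ Finset.univ.filter (fun e => t0 ≤ w e), w e =
        ∑ e : {e : 𝓔 // t0 ≤ w e}, w e.1 := by
      rw [Finset.sum_subtype (p := fun e => t0 ≤ w e)]
      intro e
      simp
    rw [e1]
    calc ∑ e : {e : 𝓔 // t0 ≤ w e}, w e.1 ≤ ∑ e : {e : 𝓔 // t0 ≤ w e}, s (φ e) := by
          apply Finset.sum_le_sum
          intro e _
          have := hφN e
          simp only [N, Finset.mem_filter] at this
          exact this.2
      _ = ∑ i ∈ Finset.univ.image φ, s i := by
          rw [Finset.sum_image (fun a _ b _ h => hφ h)]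
      _ ≤ ∑ i, s i := Finset.sum_le_univ_sum_of_nonneg hs
  linarith

/-! ## Part 2: the chordal distance -/

/-- The `K`-rational points of the projective line. -/
abbrev P1 (K : Type*) [Field K] : Type _ := Projectivization K (Fin 2 → K)

variable {K : Type*} [Field K]

/-- The bihomogeneous form which defines the diagonal of `ℙ¹ × ℙ¹`. -/
def det2 (x y : Fin 2 → K) : K := x 0 * y 1 - x 1 * y 0

/-- The maximum norm. -/
def nrm (v : AbsoluteValue K ℝ) (x : Fin 2 → K) : ℝ := max (v (x 0)) (v (x 1))

private theorem nrm_pos (v : AbsoluteValue K ℝ) {x : Fin 2 → K} (hx : x ≠ 0) : 0 < nrm v x := by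
  by_contra hcon
  apply hx
  have h := max_le_iff.1 (not_lt.1 hcon)
  funext i
  fin_cases i
  · exact (v.eq_zero).1 (le_antisymm h.1 (v.nonneg _))
  · exact (v.eq_zero).1 (le_antisymm h.2 (v.nonneg _))

private theorem eq_of_det {x y : P1 K} (h : det2 x.rep y.rep = 0) : x = y := by
  rw [← x.mk_rep, ← y.mk_rep, Projectivization.mk_eq_mk_iff']
  have hy := y.rep_nonzero
  unfold det2 at h
  by_cases h0 : y.rep 0 = 0
  · have h1 : y.rep 1 ≠ 0 := by
      intro h1
      apply hy
      funext i
      fin_cases i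
      · exact h0
      · exact h1
    refine ⟨x.rep 1 / y.rep 1, ?_⟩
    have hx0 : x.rep 0 = 0 := by
      rw [h0, mul_zero, sub_zero] at h
      exact (mul_eq_zero.1 h).resolve_right h1
    funext i
    fin_cases i
    · simp [h0, hx0]
    · simp [h1]
  · refine ⟨x.rep 0 / y.rep 0, ?_⟩
    funext i
    fin_cases i
    · simp [h0]
    · simp only [Fin.mk_one, Pi.smul_apply, smul_eq_mul]
      rw [div_mul_eq_mul_div, div_eq_iff h0]
      linear_combination h

private theorem det_self (x : Fin 2 → K) : det2 x x = 0 := by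
  unfold det2; ring

/-- the triangle inequality for the chordal distance -/
private theorem det_tri (v : AbsoluteValue K ℝ) (x y z : Fin 2 → K) :
    v (det2 x z) * nrm v y ≤ v (det2 x y) * nrm v z + v (det2 y z) * nrm v x := by
  have key : ∀ i : Fin 2, v (det2 x z) * v (y i) ≤
      v (det2 x y) * nrm v z + v (det2 y z) * nrm v x := by
    intro i
    have e : det2 x z * y i = det2 x y * z i + det2 y z * x i := by
      unfold det2
      fin_cases i <;> simp <;> ring
    have hz : v (z i) ≤ nrm v z := by
      fin_cases i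
      · exact le_max_left _ _
      · exact le_max_right _ _
    have hx : v (x i) ≤ nrm v x := by
      fin_cases i
      · exact le_max_left _ _
      · exact le_max_right _ _
    calc v (det2 x z) * v (y i) = v (det2 x y * z i + det2 y z * x i) := by
          rw [← map_mul, e]
      _ ≤ v (det2 x y * z i) + v (det2 y z * x i) := v.add_le _ _
      _ = v (det2 x y) * v (z i) + v (det2 y z) * v (x i) := by rw [map_mul, map_mul]
      _ ≤ _ := add_le_add (mul_le_mul_of_nonneg_left hz (v.nonneg _))
          (mul_le_mul_of_nonneg_left hx (v.nonneg _))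
  unfold nrm at *
  rcases le_total (v (y 0)) (v (y 1)) with h | h
  · rw [max_eq_right h]
    exact key 1
  · rw [max_eq_left h]
    exact key 0

/-- The chordal distance. -/
def chd (v : AbsoluteValue K ℝ) (x y : Fin 2 → K) : ℝ := v (det2 x y) / (nrm v x * nrm v y)

private theorem chd_tri (v : AbsoluteValue K ℝ) {x y z : Fin 2 → K} (hx : x ≠ 0) (hy : y ≠ 0)
    (hz : z ≠ 0) : chd v x z ≤ chd v x y + chd v y z := by
  have h1 := nrm_pos v hx
  have h2 := nrm_pos v hy
  have h3 := nrm_pos v hz
  have h4 := det_tri v x y z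
  unfold chd
  rw [div_add_div _ _ (by positivity) (by positivity), div_le_div_iff₀ (by positivity)
    (by positivity)]
  calc v (det2 x z) * (nrm v x * nrm v y * (nrm v y * nrm v z))
      = (v (det2 x z) * nrm v y) * (nrm v x * nrm v y * nrm v z) := by ring
    _ ≤ (v (det2 x y) * nrm v z + v (det2 y z) * nrm v x) * (nrm v x * nrm v y * nrm v z) :=
        mul_le_mul_of_nonneg_right h4 (by positivity)
    _ = _ := by ring

private theorem chd_self (v : AbsoluteValue K ℝ) (x : Fin 2 → K) : chd v x x = 0 := by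
  unfold chd; rw [det_self]; simp

private theorem chd_pos (v : AbsoluteValue K ℝ) {x y : P1 K} (h : x ≠ y) :
    0 < chd v x.rep y.rep := by
  have hd : det2 x.rep y.rep ≠ 0 := fun h0 => h (eq_of_det h0)
  exact div_pos (v.pos hd) (mul_pos (nrm_pos v x.rep_nonzero) (nrm_pos v y.rep_nonzero))

/-- chains -/
private theorem chd_walk {W : Type*} (v : AbsoluteValue K ℝ) (pt : W → P1 K) (η : ℝ)
    (G : SimpleGraph W) (hG : ∀ u w, G.Adj u w → chd v (pt u).rep (pt w).rep ≤ η) {u w : W}
    (p : G.Walk u w) : chd v (pt u).rep (pt w).rep ≤ p.length * η := by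
  induction p with
  | nil => simp [chd_self]
  | @cons a b c hadj p ih =>
    rw [SimpleGraph.Walk.length_cons]
    push_cast
    have h1 := chd_tri v (pt a).rep_nonzero (pt b).rep_nonzero (pt c).rep_nonzero
    have h2 := hG a b hadj
    linarith

/-! ## Part 3: places, local heights and the inequality of Liouville -/

section NF

variable (K) [NumberField K]

/-- The places of the number field `K`. -/
inductive Place
  | inf (v : InfinitePlace K)
  | fin (v : FinitePlace K)

variable {K}

/-- The absolute value of the place. (For a finite place it is normalised, `|x| = N(𝔭)^(-ord x)`.) -/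
def Place.abv : Place K → AbsoluteValue K ℝ
  | .inf v => v.val
  | .fin v => v.val

/-- The exponent of the absolute value in the product formula. -/
def Place.mult : Place K → ℕ
  | .inf v => v.mult
  | .fin _ => 1

/-- The local height `d_v λ_v` of the pair `(x, y)` with respect to the diagonal of `ℙ¹ × ℙ¹`, where
`d_v = [K_v : ℚ_v] / [K : ℚ]`. For fixed `y` it is the local height of `x` with respect to the
divisor `y` of `ℙ¹`. -/
def lam (v : Place K) (x y : P1 K) : ℝ :=
  (v.mult : ℝ) / (Module.finrank ℚ K : ℝ) * (Real.log (nrm v.abv x.rep) + Real.log (nrm v.abv y.rep) -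
    Real.log (v.abv (det2 x.rep y.rep)))

/-- The absolute logarithmic Weil height on `ℙ¹(K)`. -/
def hgt (x : P1 K) : ℝ := Height.logHeight x.rep / (Module.finrank ℚ K : ℝ)

private theorem iSup_two (f : Fin 2 → ℝ) : ⨆ i, f i = max (f 0) (f 1) := by
  apply le_antisymm
  · apply ciSup_le
    intro i
    fin_cases i
    · exact le_max_left _ _
    · exact le_max_right _ _
  · have hb : BddAbove (Set.range f) := (Set.finite_range f).bddAbove
    exact max_le (le_ciSup hb 0) (le_ciSup hb 1)

private theorem nrm_support {x : Fin 2 → K} (hx : x ≠ 0) :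
    (Function.mulSupport (fun w : FinitePlace K => nrm w.val x)).Finite := by
  have hcase : ∀ z : K, z ≠ 0 → (Function.mulSupport (fun w : FinitePlace K => w z)).Finite :=
    fun z hz => FinitePlace.hasFiniteMulSupport hz
  have hex : x 0 ≠ 0 ∨ x 1 ≠ 0 := by
    by_contra hcon
    push Not at hcon
    apply hx
    funext i
    fin_cases i
    · exact hcon.1
    · exact hcon.2
  by_cases h0 : x 0 = 0
  · have h1 : x 1 ≠ 0 := by tauto
    refine (hcase _ h1).subset ?_
    intro w hw
    rw [Function.mem_mulSupport] at hw ⊢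
    intro h
    apply hw
    unfold nrm
    rw [h0, map_zero]
    change max 0 (w (x 1)) = 1
    rw [h]
    exact max_eq_right zero_le_one
  by_cases h1 : x 1 = 0
  · refine (hcase _ h0).subset ?_
    intro w hw
    rw [Function.mem_mulSupport] at hw ⊢
    intro h
    apply hw
    unfold nrm
    rw [h1, map_zero]
    change max (w (x 0)) 0 = 1
    rw [h]
    exact max_eq_left zero_le_one
  refine ((hcase _ h0).union (hcase _ h1)).subset ?_
  intro w hw
  by_contra hcon
  rw [Set.mem_union, not_or, Function.notMem_mulSupport, Function.notMem_mulSupport] at hcon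
  apply hw
  change max (w (x 0)) (w (x 1)) = 1
  rw [hcon.1, hcon.2, max_self]

private theorem det_le_arch (v : AbsoluteValue K ℝ) (x y : Fin 2 → K) :
    v (det2 x y) ≤ 2 * (nrm v x * nrm v y) := by
  have h0 : ∀ i, v (x i) ≤ nrm v x := by
    intro i; fin_cases i
    · exact le_max_left _ _
    · exact le_max_right _ _
  have h1 : ∀ i, v (y i) ≤ nrm v y := by
    intro i; fin_cases i
    · exact le_max_left _ _
    · exact le_max_right _ _
  have hn : 0 ≤ nrm v x := (v.nonneg _).trans (h0 0)
  unfold det2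
  calc v (x 0 * y 1 - x 1 * y 0) ≤ v (x 0 * y 1) + v (x 1 * y 0) := by
        have := v.add_le (x 0 * y 1) (-(x 1 * y 0))
        rwa [← sub_eq_add_neg, v.map_neg] at this
    _ = v (x 0) * v (y 1) + v (x 1) * v (y 0) := by rw [map_mul, map_mul]
    _ ≤ nrm v x * nrm v y + nrm v x * nrm v y :=
        add_le_add (mul_le_mul (h0 0) (h1 1) (v.nonneg _) hn)
          (mul_le_mul (h0 1) (h1 0) (v.nonneg _) hn)
    _ = _ := by ring

private theorem det_le_fin (v : FinitePlace K) (x y : Fin 2 → K) :
    v.val (det2 x y) ≤ nrm v.val x * nrm v.val y := by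
  have h0 : ∀ i, v.val (x i) ≤ nrm v.val x := by
    intro i; fin_cases i
    · exact le_max_left _ _
    · exact le_max_right _ _
  have h1 : ∀ i, v.val (y i) ≤ nrm v.val y := by
    intro i; fin_cases i
    · exact le_max_left _ _
    · exact le_max_right _ _
  have hn : 0 ≤ nrm v.val x := (v.val.nonneg _).trans (h0 0)
  unfold det2
  have h3 : v.val (x 0 * y 1 - x 1 * y 0) ≤ max (v.val (x 0 * y 1)) (v.val (x 1 * y 0)) := by
    have := FinitePlace.add_le v (x 0 * y 1) (-(x 1 * y 0))
    rw [← sub_eq_add_neg] at this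
    have e : v (-(x 1 * y 0)) = v (x 1 * y 0) := v.val.map_neg _
    rw [e] at this
    exact this
  refine h3.trans (max_le ?_ ?_)
  · rw [map_mul]
    exact mul_le_mul (h0 0) (h1 1) (v.val.nonneg _) hn
  · rw [map_mul]
    exact mul_le_mul (h0 1) (h1 0) (v.val.nonneg _) hn

private theorem single_le {ι : Type*} [DecidableEq ι] (T : Finset ι) (f : ι → ℝ)
    (hf : ∀ i ∈ T, 1 ≤ f i) {i : ι} (hi : i ∈ T) : f i ≤ ∏ j ∈ T, f j := by
  rw [← Finset.mul_prod_erase T f hi]
  have h1 : 1 ≤ ∏ j ∈ T.erase i, f j := by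
    rw [← Finset.prod_const_one (s := T.erase i)]
    apply Finset.prod_le_prod
    · intro _ _; exact zero_le_one
    · intro j hj
      exact hf j (Finset.mem_of_mem_erase hj)
  exact le_mul_of_one_le_right (zero_le_one.trans (hf i hi)) h1

private theorem one_le_prodR {ι : Type*} (T : Finset ι) (f : ι → ℝ)
    (hf : ∀ i ∈ T, 1 ≤ f i) : 1 ≤ ∏ j ∈ T, f j := by
  rw [← Finset.prod_const_one (s := T)]
  apply Finset.prod_le_prod
  · intro _ _; exact zero_le_one
  · exact hf

/-- the inequality of Liouville -/
private theorem liouville_mul (v : Place K) {x y : Fin 2 → K} (hx : x ≠ 0) (hy : y ≠ 0)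
    (hd : det2 x y ≠ 0) :
    (nrm v.abv x * nrm v.abv y / v.abv (det2 x y)) ^ v.mult ≤
      2 ^ Module.finrank ℚ K * (Height.mulHeight x * Height.mulHeight y) := by
  classical
  set d := det2 x y with hddef
  have hdfin : (Function.mulSupport (fun w : FinitePlace K => w d)).Finite :=
    FinitePlace.hasFiniteMulSupport hd
  let T : Finset (FinitePlace K) := (nrm_support hx).toFinset ∪ (nrm_support hy).toFinset ∪
    hdfin.toFinset ∪
      (match v with | .inf _ => ∅ | .fin w => {w})
  have hTx : Function.mulSupport (fun w : FinitePlace K => nrm w.val x) ⊆ T := by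
    intro w hw
    simp only [T, Finset.coe_union, Set.Finite.coe_toFinset]
    exact Or.inl (Or.inl (Or.inl hw))
  have hTy : Function.mulSupport (fun w : FinitePlace K => nrm w.val y) ⊆ T := by
    intro w hw
    simp only [T, Finset.coe_union, Set.Finite.coe_toFinset]
    exact Or.inl (Or.inl (Or.inr hw))
  have hTd : Function.mulSupport (fun w : FinitePlace K => w d) ⊆ T := by
    intro w hw
    simp only [T, Finset.coe_union, Set.Finite.coe_toFinset]
    exact Or.inl (Or.inr hw)
  have eH : ∀ z : Fin 2 → K, z ≠ 0 → Function.mulSupport (fun w : FinitePlace K => nrm w.val z) ⊆ T →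
      Height.mulHeight z = (∏ w : InfinitePlace K, nrm w.val z ^ w.mult) * ∏ w ∈ T, nrm w.val z := by
    intro z hz hT
    rw [NumberField.mulHeight_eq hz, ← finprod_eq_prod_of_mulSupport_subset _ hT]
    congr 1
    · apply Finset.prod_congr rfl
      intro w _
      rw [iSup_two]
      rfl
    · apply finprod_congr
      intro w
      rw [iSup_two]
      rfl
  have eD : (∏ w : InfinitePlace K, w.val d ^ w.mult) * ∏ w ∈ T, w.val d = 1 := by
    have h := NumberField.prod_abs_eq_one hd
    rw [finprod_eq_prod_of_mulSupport_subset _ hTd] at h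
    exact h
  have hdpos : ∀ u : AbsoluteValue K ℝ, 0 < u d := fun u => u.pos hd
  let f : InfinitePlace K → ℝ := fun w => (2 * (nrm w.val x * nrm w.val y / w.val d)) ^ w.mult
  let g : FinitePlace K → ℝ := fun w => nrm w.val x * nrm w.val y / w.val d
  have hf1 : ∀ w, 1 ≤ f w := by
    intro w
    apply one_le_pow₀
    rw [mul_div_assoc', le_div_iff₀ (hdpos _), one_mul]
    exact det_le_arch w.val x y
  have hg1 : ∀ w, 1 ≤ g w := by
    intro w
    change 1 ≤ nrm w.val x * nrm w.val y / w.val d
    rw [le_div_iff₀ (hdpos _), one_mul]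
    exact det_le_fin w x y
  have hprod : (∏ w : InfinitePlace K, f w) * ∏ w ∈ T, g w =
      2 ^ Module.finrank ℚ K * (Height.mulHeight x * Height.mulHeight y) := by
    have e1 : ∏ w : InfinitePlace K, f w = 2 ^ Module.finrank ℚ K *
        ((∏ w : InfinitePlace K, nrm w.val x ^ w.mult) *
        (∏ w : InfinitePlace K, nrm w.val y ^ w.mult)) / (∏ w : InfinitePlace K, w.val d ^ w.mult) := by
      rw [← InfinitePlace.sum_mult_eq, ← Finset.prod_pow_eq_pow_sum, ← Finset.prod_mul_distrib,
        ← Finset.prod_mul_distrib, ← Finset.prod_div_distrib]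
      apply Finset.prod_congr rfl
      intro w _
      simp only [f]
      rw [mul_pow, div_pow, mul_pow]
      ring
    have e2 : ∏ w ∈ T, g w = (∏ w ∈ T, nrm w.val x) * (∏ w ∈ T, nrm w.val y) / ∏ w ∈ T, w.val d := by
      rw [← Finset.prod_mul_distrib, ← Finset.prod_div_distrib]
    rw [e1, e2, eH x hx hTx, eH y hy hTy]
    have p1 : (∏ w : InfinitePlace K, w.val d ^ w.mult) ≠ 0 := by
      apply Finset.prod_ne_zero_iff.2
      intro w _
      exact pow_ne_zero _ (hdpos _).ne'
    have p2 : (∏ w ∈ T, w.val d) ≠ 0 := by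
      apply Finset.prod_ne_zero_iff.2
      intro w _
      exact (hdpos _).ne'
    rw [div_mul_div_comm, eD, div_one]
    ring
  rw [← hprod]
  cases v with
  | inf w =>
    change (nrm w.val x * nrm w.val y / w.val d) ^ w.mult ≤ _
    have h1 : (nrm w.val x * nrm w.val y / w.val d) ^ w.mult ≤ f w := by
      apply pow_le_pow_left₀
      · apply div_nonneg _ (hdpos _).le
        exact mul_nonneg (nrm_pos _ hx).le (nrm_pos _ hy).le
      · have h0 : 0 ≤ nrm w.val x * nrm w.val y / w.val d := by
          apply div_nonneg _ (hdpos _).le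
          exact mul_nonneg (nrm_pos _ hx).le (nrm_pos _ hy).le
        linarith
    refine h1.trans ?_
    have h2 : f w ≤ ∏ w : InfinitePlace K, f w :=
      single_le Finset.univ f (fun i _ => hf1 i) (Finset.mem_univ w)
    refine h2.trans ?_
    exact le_mul_of_one_le_right (zero_le_one.trans (one_le_prodR _ _ (fun i _ => hf1 i)))
      (one_le_prodR _ _ (fun i _ => hg1 i))
  | fin w =>
    change (nrm w.val x * nrm w.val y / w.val d) ^ 1 ≤ _
    rw [pow_one]
    have hw : w ∈ T := by simp [T]
    have h2 : g w ≤ ∏ w ∈ T, g w := single_le T g (fun i _ => hg1 i) hw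
    refine h2.trans ?_
    exact le_mul_of_one_le_left (zero_le_one.trans (one_le_prodR _ _ (fun i _ => hg1 i)))
      (one_le_prodR _ _ (fun i _ => hf1 i))

private theorem deg_pos : (0 : ℝ) < Module.finrank ℚ K := by
  exact_mod_cast Module.finrank_pos

private theorem mult_pos (v : Place K) : 0 < v.mult := by
  cases v with
  | inf w => exact w.mult_pos
  | fin w => exact one_pos

private theorem lam_eq (v : Place K) {x y : P1 K} (h : x ≠ y) :
    lam v x y = (v.mult : ℝ) / (Module.finrank ℚ K : ℝ) * -Real.log (chd v.abv x.rep y.rep) := by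
  have h1 := nrm_pos v.abv x.rep_nonzero
  have h2 := nrm_pos v.abv y.rep_nonzero
  have h3 : 0 < v.abv (det2 x.rep y.rep) := v.abv.pos (fun h0 => h (eq_of_det h0))
  unfold lam chd
  rw [Real.log_div h3.ne' (by positivity), Real.log_mul h1.ne' h2.ne']
  ring

private theorem liouville (v : Place K) {x y : P1 K} (h : x ≠ y) :
    lam v x y ≤ hgt x + hgt y + Real.log 2 := by
  have h1 := nrm_pos v.abv x.rep_nonzero
  have h2 := nrm_pos v.abv y.rep_nonzero
  have hd : det2 x.rep y.rep ≠ 0 := fun h0 => h (eq_of_det h0)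
  have h3 : 0 < v.abv (det2 x.rep y.rep) := v.abv.pos hd
  have hL := liouville_mul v x.rep_nonzero y.rep_nonzero hd
  have hdeg := deg_pos (K := K)
  have hmx := Height.mulHeight_pos x.rep
  have hmy := Height.mulHeight_pos y.rep
  have h4 := Real.log_le_log (by positivity) hL
  rw [Real.log_pow, Real.log_div (by positivity) h3.ne', Real.log_mul h1.ne' h2.ne',
    Real.log_mul (by positivity) (by positivity), Real.log_mul hmx.ne' hmy.ne', Real.log_pow] at h4
  unfold lam hgt
  rw [Height.logHeight_eq_log_mulHeight, Height.logHeight_eq_log_mulHeight, div_mul_eq_mul_div,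
    ← add_div, div_add' _ _ _ hdeg.ne', div_le_div_iff_of_pos_right hdeg]
  linarith

private theorem hgt_nonneg (x : P1 K) : 0 ≤ hgt x :=
  div_nonneg (Height.logHeight_nonneg _) deg_pos.le

private theorem chd_comm (v : AbsoluteValue K ℝ) (x y : Fin 2 → K) : chd v x y = chd v y x := by
  unfold chd
  have e : det2 x y = -det2 y x := by unfold det2; ring
  rw [e, v.map_neg, mul_comm]

/-! ## Part 4: the divisors -/

variable {n : ℕ}

/-- The components of the divisor `D = ∑_{(i, j) ∈ E} {x_i = x_j} + ∑_{(i, a) ∈ F} {x_i = a}` of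
`(ℙ¹)ⁿ`. -/
abbrev Comp (E : Finset (Fin n × Fin n)) (F : Finset (Fin n × P1 K)) : Type _ :=
  {e // e ∈ E} ⊕ {f // f ∈ F}

/-- The component passes through the point `p` of `(ℙ¹)ⁿ`. -/
def Through {E : Finset (Fin n × Fin n)} {F : Finset (Fin n × P1 K)} (p : Fin n → P1 K) :
    Comp E F → Prop
  | .inl e => p e.1.1 = p e.1.2
  | .inr f => p f.1.1 = f.1.2

/-- The differential at a point of the component of a local equation of the component, with respect
to the local coordinates `t_1, …, t_n` where `t_i` is a local coordinate of `ℙ¹` at `p_i` (the same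
for equal points): the local equation of `{x_i = x_j}` is `t_i - t_j`, the one of `{x_i = a}` is
`t_i`. -/
def vec {E : Finset (Fin n × Fin n)} {F : Finset (Fin n × P1 K)} : Comp E F → (Fin n → K)
  | .inl e => Pi.single e.1.1 1 - Pi.single e.1.2 1
  | .inr f => Pi.single f.1.1 1

/-- `D` is a normal crossing divisor: at every point the local equations of the components which
pass through the point are part of a regular system of parameters. -/
def NormalCrossing (E : Finset (Fin n × Fin n)) (F : Finset (Fin n × P1 K)) : Prop :=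
  ∀ p : Fin n → P1 K,
    LinearIndependent K (fun c : {c : Comp E F // Through p c} => vec c.1)

/-- the weights -/
private def wt (v : Place K) {E : Finset (Fin n × Fin n)} {F : Finset (Fin n × P1 K)}
    (x : Fin n → P1 K) : Comp E F → ℝ
  | .inl e => lam v (x e.1.1) (x e.1.2)
  | .inr f => lam v (x f.1.1) f.1.2

/-- `m_{S, D}` for `S = {v}`. -/
def prox (v : Place K) (E : Finset (Fin n × Fin n)) (F : Finset (Fin n × P1 K))
    (x : Fin n → P1 K) : ℝ :=
  ∑ e ∈ E, lam v (x e.1) (x e.2) + ∑ f ∈ F, lam v (x f.1) f.2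

/-- The height attached to a divisor class of multidegree `d` on `(ℙ¹)ⁿ`. -/
def hgtClass (d : Fin n → ℝ) (x : Fin n → P1 K) : ℝ := ∑ i, d i * hgt (x i)

private theorem key_bound (v : Place K) (E : Finset (Fin n × Fin n)) (F : Finset (Fin n × P1 K))
    (hnc : NormalCrossing E F) (A : Finset (P1 K)) (hA1 : ∀ f ∈ F, f.2 ∈ A)
    (hA2 : ∀ a ∈ A, ∃ f ∈ F, f.2 = a) (c t t0 S CL : ℝ)
    (hc : c = (v.mult : ℝ) / (Module.finrank ℚ K : ℝ) *
      Real.log (Fintype.card (Fin n ⊕ {a // a ∈ A})))
    (hS : ∀ a ∈ A, ∀ b ∈ A, lam v a b ≤ S)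
    (hCL : ∀ a ∈ A, hgt a + Real.log 2 ≤ CL) (hCL2 : Real.log 2 ≤ CL)
    (ht0 : c + S < t0) (ht : t0 ≤ t)
    (x : Fin n → P1 K) (hx : ∀ i j, i ≠ j → x i ≠ x j)
    (hxF : ∀ i, ∀ f ∈ F, x i ≠ f.2) :
    (Finset.univ.filter (fun e : Comp E F => t ≤ wt v x e)).card ≤
      (Finset.univ.filter (fun i => t ≤ 2 * hgt (x i) + CL + c)).card := by
  classical
  let W := Fin n ⊕ {a // a ∈ A}
  let pt : W → P1 K := Sum.elim x (fun a => a.1)
  let key : W → ℝ := Sum.elim (fun i => hgt (x i)) (fun _ => -1)
  have hpt : Function.Injective pt := by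
    rintro (i | a) (j | b) h
    · by_contra hne
      exact hx i j (fun h' => hne (by rw [h'])) h
    · exfalso
      obtain ⟨f, hf, hfb⟩ := hA2 b.1 b.2
      exact hxF i f hf (by rw [hfb]; exact h)
    · exfalso
      obtain ⟨f, hf, hfb⟩ := hA2 a.1 a.2
      exact hxF j f hf (by rw [hfb]; exact h.symm)
    · have : a = b := Subtype.ext h
      rw [this]
  set κ : ℝ := (v.mult : ℝ) / (Module.finrank ℚ K : ℝ) with hκ
  have hκ0 : 0 < κ := div_pos (by exact_mod_cast mult_pos v) deg_pos
  let G : SimpleGraph W := SimpleGraph.fromRel (fun u w => t ≤ lam v (pt u) (pt w))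
  have hlam_chd : ∀ u w : W, u ≠ w → t ≤ lam v (pt u) (pt w) →
      chd v.abv (pt u).rep (pt w).rep ≤ Real.exp (-t / κ) := by
    intro u w huw h
    have hne : pt u ≠ pt w := fun h' => huw (hpt h')
    rw [lam_eq v hne, ← hκ] at h
    have hpos := chd_pos v.abv hne
    rw [← Real.log_le_iff_le_exp hpos, le_div_iff₀ hκ0]
    linarith
  have hG : ∀ u w, G.Adj u w → chd v.abv (pt u).rep (pt w).rep ≤ Real.exp (-t / κ) := by
    intro u w h
    rw [SimpleGraph.fromRel_adj] at h
    rcases h with ⟨hne, h | h⟩
    · exact hlam_chd u w hne h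
    · rw [chd_comm]
      exact hlam_chd w u hne.symm h
  -- roots of the clusters
  have hroot : ∀ C : G.ConnectedComponent, ∃ r : W, G.connectedComponentMk r = C ∧
      ∀ u : W, G.connectedComponentMk u = C → key r ≤ key u := by
    intro C
    obtain ⟨u0, hu0⟩ : ∃ u0, G.connectedComponentMk u0 = C := C.exists_rep
    obtain ⟨r, hr, hmin⟩ := (Finset.univ.filter (fun u => G.connectedComponentMk u = C)).exists_min_image
      key ⟨u0, by simp [hu0]⟩
    refine ⟨r, by simpa using hr, ?_⟩
    intro u hu
    exact hmin u (by simp [hu])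
  choose r hr1 hr2 using hroot
  let root : W → W := fun u => r (G.connectedComponentMk u)
  have hreach : ∀ u, G.Reachable (root u) u := fun u =>
    SimpleGraph.ConnectedComponent.exact (hr1 (G.connectedComponentMk u))
  have hrootmin : ∀ u, key (root u) ≤ key u := fun u => hr2 _ u rfl
  have hrootmin' : ∀ u w, G.Reachable u w → key (root u) ≤ key w := fun u w h =>
    hr2 _ w (SimpleGraph.ConnectedComponent.sound h).symm
  have hrootadj : ∀ u w, G.Adj u w → root u = root w := fun u w h => by
    have : G.connectedComponentMk u = G.connectedComponentMk w :=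
      SimpleGraph.ConnectedComponent.sound h.reachable
    simp only [root, this]
  have hrootlam : ∀ u, root u ≠ u → t - c ≤ lam v (pt (root u)) (pt u) := by
    intro u hu
    have hne : pt (root u) ≠ pt u := fun h' => hu (hpt h')
    obtain ⟨p, hp⟩ := (hreach u).exists_isPath
    have h1 := chd_walk v.abv pt _ G hG p
    have h2 : p.length < Fintype.card W := hp.length_lt
    have hcard : (0 : ℝ) < Fintype.card W := by
      have : 0 < Fintype.card W := by omega
      exact_mod_cast this
    have h3 : chd v.abv (pt (root u)).rep (pt u).rep ≤ Fintype.card W * Real.exp (-t / κ) := by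
      refine h1.trans (mul_le_mul_of_nonneg_right ?_ (Real.exp_pos _).le)
      exact_mod_cast h2.le
    have hpos := chd_pos v.abv hne
    have h4 := Real.log_le_log hpos h3
    rw [Real.log_mul hcard.ne' (Real.exp_pos _).ne', Real.log_exp] at h4
    rw [lam_eq v hne, ← hκ, hc]
    have h5 : κ * (Real.log (chd v.abv (pt (root u)).rep (pt u).rep)) ≤
        κ * (Real.log (Fintype.card W) + -t / κ) := mul_le_mul_of_nonneg_left h4 hκ0.le
    have h6 : κ * (-t / κ) = -t := by field_simp
    have h7 : κ * (Real.log (Fintype.card W) + -t / κ) = κ * Real.log (Fintype.card W) - t := by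
      rw [mul_add, h6]; ring
    linarith
  -- the point
  let p : Fin n → P1 K := fun i => pt (root (Sum.inl i))
  have hkeynn : ∀ i : Fin n, 0 ≤ key (Sum.inl i) := fun i => hgt_nonneg (x i)
  have hrootconst : ∀ (i : Fin n) (a : {a // a ∈ A}),
      t ≤ lam v (x i) a.1 → root (Sum.inl i) = Sum.inr a := by
    intro i a h
    have hadj : G.Adj (Sum.inl i) (Sum.inr a) := by
      rw [SimpleGraph.fromRel_adj]
      exact ⟨by simp, Or.inl h⟩
    rw [hrootadj _ _ hadj]
    rcases hcase : root (Sum.inr a) with j | b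
    · exfalso
      have h1 := hrootmin (Sum.inr a)
      rw [hcase] at h1
      have h2 := hkeynn j
      have h3 : key (Sum.inr a) = -1 := rfl
      linarith
    · by_contra hne
      have hne' : root (Sum.inr a) ≠ Sum.inr a := by rw [hcase]; exact hne
      have h1 := hrootlam (Sum.inr a) hne'
      rw [hcase] at h1
      have h2 := hS b.1 b.2 a.1 a.2
      have h3 : lam v (pt (Sum.inr b)) (pt (Sum.inr a)) = lam v b.1 a.1 := rfl
      linarith
  have hthrough : ∀ e : Comp E F, t ≤ wt v x e → Through p e := by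
    rintro (e | f) h
    · change p e.1.1 = p e.1.2
      by_cases hij : e.1.1 = e.1.2
      · rw [hij]
      have hadj : G.Adj (Sum.inl e.1.1) (Sum.inl e.1.2) := by
        rw [SimpleGraph.fromRel_adj]
        exact ⟨fun h' => hij (Sum.inl_injective h'), Or.inl h⟩
      simp only [p]
      rw [hrootadj _ _ hadj]
    · change p f.1.1 = f.1.2
      have ha : f.1.2 ∈ A := hA1 _ f.2
      have := hrootconst f.1.1 ⟨f.1.2, ha⟩ h
      simp only [p]
      rw [this]
      rfl
  -- linear independence
  let J := {e : Comp E F // t ≤ wt v x e}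
  have hLI : LinearIndependent K (fun e : J => vec e.1) := by
    have h1 := hnc p
    let m : J → {c : Comp E F // Through p c} := fun e => ⟨e.1, hthrough e.1 e.2⟩
    have hm : Function.Injective m := by
      intro a b h
      apply Subtype.ext
      exact congrArg (fun c : {c : Comp E F // Through p c} => c.1) h
    exact h1.comp m hm
  let T : Finset (Fin n) := Finset.univ.filter (fun i => root (Sum.inl i) ≠ Sum.inl i)
  let ρ : W → (Fin n → K) := Sum.elim (fun j => Pi.single j 1) (fun _ => 0)
  let φ : Fin n → (Fin n → K) := fun i => Pi.single i 1 - ρ (root (Sum.inl i))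
  let U : Submodule K (Fin n → K) := Submodule.span K (T.image φ : Set (Fin n → K))
  have hφU : ∀ i, φ i ∈ U := by
    intro i
    by_cases hi : root (Sum.inl i) = Sum.inl i
    · have : φ i = 0 := by
        simp only [φ, hi, ρ, Sum.elim_inl, sub_self]
      rw [this]
      exact U.zero_mem
    · apply Submodule.subset_span
      rw [Finset.mem_coe, Finset.mem_image]
      exact ⟨i, by simp [T, hi], rfl⟩
  have hvecU : ∀ e : J, vec e.1 ∈ U := by
    rintro ⟨e | f, h⟩
    · change (Pi.single e.1.1 1 - Pi.single e.1.2 1 : Fin n → K) ∈ U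
      by_cases hij : e.1.1 = e.1.2
      · rw [hij, sub_self]
        exact U.zero_mem
      have hadj : G.Adj (Sum.inl e.1.1) (Sum.inl e.1.2) := by
        rw [SimpleGraph.fromRel_adj]
        exact ⟨fun h' => hij (Sum.inl_injective h'), Or.inl h⟩
      have he : (Pi.single e.1.1 1 - Pi.single e.1.2 1 : Fin n → K) = φ e.1.1 - φ e.1.2 := by
        simp only [φ]
        rw [hrootadj _ _ hadj]
        abel
      rw [he]
      exact U.sub_mem (hφU _) (hφU _)
    · change (Pi.single f.1.1 1 : Fin n → K) ∈ U
      have ha : f.1.2 ∈ A := hA1 _ f.2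
      have hr := hrootconst f.1.1 ⟨f.1.2, ha⟩ h
      have he : (Pi.single f.1.1 1 : Fin n → K) = φ f.1.1 := by
        simp only [φ, hr, ρ, Sum.elim_inr, sub_zero]
      rw [he]
      exact hφU _
  have hcardJ : (Finset.univ.filter (fun e : Comp E F => t ≤ wt v x e)).card = Fintype.card J :=
    (Fintype.card_subtype _).symm
  have h1 : Fintype.card J ≤ T.card := by
    have h2 : Module.finrank K (Submodule.span K (Set.range (fun e : J => vec e.1))) =
        Fintype.card J := finrank_span_eq_card hLI
    have h3 : Submodule.span K (Set.range (fun e : J => vec e.1)) ≤ U := by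
      rw [Submodule.span_le]
      rintro _ ⟨e, rfl⟩
      exact hvecU e
    have h4 := Submodule.finrank_mono h3
    have h5 : Module.finrank K U ≤ (T.image φ).card := finrank_span_finset_le_card _
    have h6 : (T.image φ).card ≤ T.card := Finset.card_image_le
    omega
  rw [hcardJ]
  refine h1.trans (Finset.card_le_card ?_)
  intro i hi
  rw [Finset.mem_filter]
  refine ⟨Finset.mem_univ _, ?_⟩
  have hi' : root (Sum.inl i) ≠ Sum.inl i := by simpa [T] using hi
  have h2 := hrootlam (Sum.inl i) hi'
  have hne : pt (root (Sum.inl i)) ≠ pt (Sum.inl i) := fun h' => hi' (hpt h')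
  have h3 := liouville v hne
  have h4 := hrootmin (Sum.inl i)
  have h5 : key (Sum.inl i) = hgt (x i) := rfl
  have h6 : pt (Sum.inl i) = x i := rfl
  rw [h6] at h2 h3
  rcases hcase : root (Sum.inl i) with j | a
  · rw [hcase] at h2 h3 h4
    have h7 : key (Sum.inl j) = hgt (pt (Sum.inl j)) := rfl
    rw [h7, h5] at h4
    linarith
  · rw [hcase] at h2 h3 h4
    have h7 : pt (Sum.inr a) = a.1 := rfl
    rw [h7] at h2 h3
    have h8 := hCL a.1 a.2
    have h9 := hgt_nonneg (x i)
    linarith

/-- **Vojta's inequality for one place**, `X = (ℙ¹)ⁿ` and `D` a normal crossing divisor whose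
components are diagonals `{x_i = x_j}` and fibres `{x_i = a}`. -/
theorem result (K : Type) [Field K] [NumberField K] (v : Place K) (n : ℕ)
    (E : Finset (Fin n × Fin n)) (F : Finset (Fin n × P1 K)) (hnc : NormalCrossing E F) :
    ∃ C : ℝ, ∀ x : Fin n → P1 K, (∀ i j, i ≠ j → x i ≠ x j) → (∀ i, ∀ f ∈ F, x i ≠ f.2) →
      prox v E F x + hgtClass (fun _ => -2) x ≤ C := by
  classical
  set c : ℝ := (v.mult : ℝ) / (Module.finrank ℚ K : ℝ) *
      Real.log (Fintype.card (Fin n ⊕ {a // a ∈ F.image Prod.snd})) with hc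
  have hc0 : 0 ≤ c := by
    apply mul_nonneg
    · exact div_nonneg (Nat.cast_nonneg _) deg_pos.le
    · exact Real.log_natCast_nonneg _
  set S : ℝ := ∑ a ∈ F.image Prod.snd, ∑ b ∈ F.image Prod.snd, |lam v a b| with hS
  have hS0 : 0 ≤ S := Finset.sum_nonneg fun _ _ => Finset.sum_nonneg fun _ _ => abs_nonneg _
  have hS' : ∀ a ∈ F.image Prod.snd, ∀ b ∈ F.image Prod.snd, lam v a b ≤ S := by
    intro a ha b hb
    calc lam v a b ≤ |lam v a b| := le_abs_self _
      _ ≤ ∑ b ∈ F.image Prod.snd, |lam v a b| :=
          Finset.single_le_sum (f := fun b => |lam v a b|) (fun _ _ => abs_nonneg _) hb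
      _ ≤ S := Finset.single_le_sum (f := fun a => ∑ b ∈ F.image Prod.snd, |lam v a b|)
          (fun _ _ => Finset.sum_nonneg fun _ _ => abs_nonneg _) ha
  set CL : ℝ := Real.log 2 + ∑ a ∈ F.image Prod.snd, hgt a with hCL
  have hsum0 : 0 ≤ ∑ a ∈ F.image Prod.snd, hgt a := Finset.sum_nonneg fun _ _ => hgt_nonneg _
  have hlog2 : 0 ≤ Real.log 2 := Real.log_nonneg (by norm_num)
  have hCL1 : ∀ a ∈ F.image Prod.snd, hgt a + Real.log 2 ≤ CL := by
    intro a ha
    have := Finset.single_le_sum (f := fun a => hgt a) (fun _ _ => hgt_nonneg _) ha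
    linarith
  have hCL2 : Real.log 2 ≤ CL := by linarith
  set t0 : ℝ := c + S + 1 with ht0
  have ht00 : 0 ≤ t0 := by linarith
  refine ⟨n * (CL + c) + Fintype.card (Comp E F) * t0, ?_⟩
  intro x hx hxF
  have hmain := count_sum (𝓔 := Comp E F) (ι := Fin n) (wt v x)
    (fun i => 2 * hgt (x i) + CL + c) t0 ht00
    (fun i => by have := hgt_nonneg (x i); linarith)
    (fun t ht => key_bound v E F hnc (F.image Prod.snd)
      (fun f hf => Finset.mem_image_of_mem _ hf) (fun a ha => Finset.mem_image.1 ha)
      c t t0 S CL hc hS' hCL1 hCL2 (by linarith) ht x hx hxF)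
  have e1 : ∑ e : Comp E F, wt v x e = prox v E F x := by
    rw [Fintype.sum_sum_type]
    unfold prox
    congr 1
    · exact Finset.sum_coe_sort E (fun e => lam v (x e.1) (x e.2))
    · exact Finset.sum_coe_sort F (fun f => lam v (x f.1) f.2)
  have e2 : ∑ i, (2 * hgt (x i) + CL + c) = 2 * ∑ i, hgt (x i) + n * (CL + c) := by
    rw [Finset.mul_sum]
    simp only [add_assoc]
    rw [Finset.sum_add_distrib, Finset.sum_const, Finset.card_univ, Fintype.card_fin, nsmul_eq_mul]
  rw [e1, e2] at hmain
  have e3 : hgtClass (fun _ => -2) x = -(2 * ∑ i, hgt (x i)) := by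
    unfold hgtClass
    rw [← Finset.mul_sum]
    ring
  rw [e3]
  linarith

end NF

end

end Pool.Agent.Lib.MP_17a322_nt.DiagonalsOnePlaceThm
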