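import Mathlib
import Pool.Agent.Lib.MP_17a322_nt.TwoPlaces

namespace Pool.Agent.Lib.MP_17a322_nt

open NumberField MvPolynomial Height Function

variable {k : Type*} [Field k] [NumberField k]

lemma fin_lt_one_iff (p : FinitePlace k) (a : 𝓞 k) :
    p (a : k) < 1 ↔ a ∈ p.maximalIdeal.asIdeal := by
  rw [← FinitePlace.norm_lt_one_iff_mem k p.maximalIdeal a, FinitePlace.norm_embedding_eq]

lemma fin_eq_one_iff (p : FinitePlace k) (a : 𝓞 k) :
    p (a : k) = 1 ↔ a ∉ p.maximalIdeal.asIdeal := by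
  rw [← FinitePlace.norm_eq_one_iff_notMem k p.maximalIdeal a, FinitePlace.norm_embedding_eq]

lemma fin_le_one (p : FinitePlace k) (a : 𝓞 k) : p (a : k) ≤ 1 := by
  rw [← FinitePlace.norm_embedding_eq]
  exact FinitePlace.norm_le_one k p.maximalIdeal a

/-- An integer whose only prime divisor is `p`. -/
lemma exists_pi (p : FinitePlace k) :
    ∃ a : 𝓞 k, a ≠ 0 ∧ p (a : k) < 1 ∧ ∀ q : FinitePlace k, q ≠ p → q (a : k) = 1 := by
  classical
  set P := p.maximalIdeal with hP
  have hP0 : P.asIdeal ≠ ⊥ := P.ne_bot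
  have hmem : P.asIdeal ∈ nonZeroDivisors (Ideal (𝓞 k)) := mem_nonZeroDivisors_of_ne_zero hP0
  set h := Fintype.card (ClassGroup (𝓞 k)) with hh
  have h1 : ClassGroup.mk0 (⟨P.asIdeal, hmem⟩ : nonZeroDivisors (Ideal (𝓞 k))) ^ h = 1 :=
    pow_card_eq_one
  rw [← map_pow, ClassGroup.mk0_eq_one_iff] at h1
  have h2 : (P.asIdeal ^ h).IsPrincipal := h1
  obtain ⟨a, ha⟩ := h2.principal
  have hh0 : h ≠ 0 := Fintype.card_ne_zero
  have ha0 : a ≠ 0 := by
    rintro rfl
    rw [Submodule.span_zero_singleton] at ha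
    exact (pow_ne_zero h hP0) ha
  have haP : a ∈ P.asIdeal := by
    have : a ∈ P.asIdeal ^ h := by
      rw [ha]; exact Submodule.mem_span_singleton_self a
    exact Ideal.pow_le_self hh0 this
  refine ⟨a, ha0, (fin_lt_one_iff p a).mpr haP, fun q hq => ?_⟩
  rw [fin_eq_one_iff]
  intro haq
  have h3 : P.asIdeal ^ h ≤ q.maximalIdeal.asIdeal := by
    rw [ha]
    exact (Ideal.span_singleton_le_iff_mem _).mpr haq
  have h4 : P.asIdeal ≤ q.maximalIdeal.asIdeal :=
    q.maximalIdeal.isPrime.le_of_pow_le h3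
  have h5 : P.asIdeal = q.maximalIdeal.asIdeal :=
    (P.isMaximal.eq_of_le q.maximalIdeal.isPrime.ne_top h4)
  apply hq
  have h6 : q.maximalIdeal = p.maximalIdeal := by
    apply IsDedekindDomain.HeightOneSpectrum.ext
    exact h5.symm
  exact (FinitePlace.maximalIdeal_inj q p).mp h6

/-- Total boundedness of bounded sets of `k` at a place. -/
lemma tot_bdd (v : Place k) {U : Set k} (hU : U.Infinite) {M δ : ℝ} (hδ : 0 < δ)
    (hM : ∀ u ∈ U, absAt v u ≤ M) :
    ∃ u₀ ∈ U, {u ∈ U | absAt v (u - u₀) < δ}.Infinite := by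
  classical
  match v with
  | .inl w =>
    set σ := w.embedding with hσ
    have hn : ∀ x, ‖σ x‖ = w x := fun x => w.norm_embedding_eq x
    have hb : TotallyBounded (Metric.closedBall (0 : ℂ) M) :=
      (isCompact_closedBall (0 : ℂ) M).totallyBounded
    obtain ⟨t, ht, hcov⟩ := Metric.totallyBounded_iff.mp hb (δ / 2) (half_pos hδ)
    have hex : ∃ y ∈ t, {u ∈ U | σ u ∈ Metric.ball y (δ / 2)}.Infinite := by
      by_contra hcon
      push Not at hcon
      have h1 : (⋃ y ∈ t, {u ∈ U | σ u ∈ Metric.ball y (δ / 2)}).Finite :=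
        ht.biUnion fun y hy => hcon y hy
      apply hU
      refine h1.subset fun u hu => ?_
      have h2 : σ u ∈ Metric.closedBall (0 : ℂ) M := by
        rw [mem_closedBall_zero_iff, hn]
        exact hM u hu
      obtain ⟨y, hy, hy2⟩ := Set.mem_iUnion₂.mp (hcov h2)
      exact Set.mem_iUnion₂.mpr ⟨y, hy, hu, hy2⟩
    obtain ⟨y, _, hy⟩ := hex
    obtain ⟨u₀, hu₀⟩ := hy.nonempty
    refine ⟨u₀, hu₀.1, hy.mono ?_⟩
    rintro u ⟨hu, hu2⟩
    refine ⟨hu, ?_⟩
    show w (u - u₀) < δ
    rw [← hn, map_sub, ← dist_eq_norm]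
    have h1 := Metric.mem_ball.mp hu2
    have h2 := Metric.mem_ball.mp hu₀.2
    calc dist (σ u) (σ u₀) ≤ dist (σ u) y + dist (σ u₀) y := dist_triangle_right _ _ _
      _ < δ := by linarith
  | .inr p =>
    obtain ⟨π, hπ0, hπ1, _⟩ := exists_pi p
    have hM' : ∀ u ∈ U, p u ≤ M := hM
    have hπpos : 0 < p (π : k) := FinitePlace.pos_iff.mpr (by simpa using hπ0)
    -- scaling factor
    obtain ⟨m, hm⟩ : ∃ m : ℕ, p (π : k) ^ m * M ≤ 1 := by
      have : Filter.Tendsto (fun m : ℕ => p (π : k) ^ m * M) Filter.atTop (nhds (0 * M)) :=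
        (tendsto_pow_atTop_nhds_zero_of_lt_one hπpos.le hπ1).mul_const M
      rw [zero_mul] at this
      exact (this.eventually_le_const zero_lt_one).exists
    set c : 𝓞 k := π ^ m with hc
    have hπk : (π : k) ≠ 0 := by
      intro h
      exact hπ0 (RingOfIntegers.ext h)
    have hc0 : (c : k) ≠ 0 := by
      have : (c : k) = (π : k) ^ m := by rw [hc]; simp
      rw [this]; exact pow_ne_zero m hπk
    have hcpos : 0 < p (c : k) := FinitePlace.pos_iff.mpr hc0
    obtain ⟨r, hr⟩ : ∃ r : ℕ, p (π : k) ^ r < δ * p (c : k) :=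
      exists_pow_lt_of_lt_one (mul_pos hδ hcpos) hπ1
    set d : 𝓞 k := π ^ r with hd
    have hd0 : d ≠ 0 := pow_ne_zero _ hπ0
    have hfin : Finite (𝓞 k ⧸ Ideal.span {d}) :=
      Ideal.finiteQuotientOfFreeOfNeBot _ (by simpa using hd0)
    have hdec : ∀ u : U, ∃ (a b : 𝓞 k), p (b : k) = 1 ∧ (c : k) * u * b = a := by
      rintro ⟨u, hu⟩
      have h1 : p ((c : k) * u) ≤ 1 := by
        rw [map_mul]
        have h2 : p (c : k) = p (π : k) ^ m := by rw [hc]; simp
        rw [h2]
        refine (mul_le_mul_of_nonneg_left (hM' u hu) (pow_nonneg hπpos.le m)).trans hm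
      have h3 : p.maximalIdeal.valuation k ((c : k) * u) ≤ 1 := by
        rw [← FinitePlace.norm_embedding_eq] at h1
        rw [FinitePlace.norm_embedding, HeightOneSpectrum.adicAbv_def] at h1
        by_contra hcon
        push Not at hcon
        have := (WithZeroMulInt.toNNReal_strictMono
          (HeightOneSpectrum.one_lt_absNorm_nnreal p.maximalIdeal)) hcon
        rw [map_one] at this
        exact absurd h1 (not_le.mpr (by exact_mod_cast this))
      obtain ⟨a, ⟨b, hb⟩, hab⟩ :=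
        IsDedekindDomain.HeightOneSpectrum.exists_primeCompl_mul_eq_of_integer p.maximalIdeal _ h3
      exact ⟨a, b, (fin_eq_one_iff p b).mpr hb, hab⟩
    choose a b hb hab using hdec
    have hUinf : Infinite U := hU.to_subtype
    obtain ⟨y, hy⟩ := Finite.exists_infinite_fiber (fun u : U =>
      (Ideal.Quotient.mk (Ideal.span {d}) (a u), Ideal.Quotient.mk (Ideal.span {d}) (b u)))
    have hy' : Set.Infinite ((fun u : U =>
      (Ideal.Quotient.mk (Ideal.span {d}) (a u), Ideal.Quotient.mk (Ideal.span {d}) (b u))) ⁻¹' {y}) :=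
      Set.infinite_coe_iff.mp hy
    obtain ⟨u₀, hu₀⟩ := hy'.nonempty
    refine ⟨u₀, u₀.2, ?_⟩
    refine (hy'.image Subtype.val_injective.injOn).mono ?_
    rintro _ ⟨u, hu, rfl⟩
    refine ⟨u.2, ?_⟩
    have he : (Ideal.Quotient.mk (Ideal.span {d}) (a u), Ideal.Quotient.mk (Ideal.span {d}) (b u)) =
      (Ideal.Quotient.mk (Ideal.span {d}) (a u₀), Ideal.Quotient.mk (Ideal.span {d}) (b u₀)) := by
      rw [Set.mem_preimage, Set.mem_singleton_iff] at hu hu₀
      exact hu.trans hu₀.symm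
    simp only [Prod.mk.injEq] at he
    obtain ⟨e1, e2⟩ := he
    rw [Ideal.Quotient.eq, Ideal.mem_span_singleton] at e1 e2
    obtain ⟨s, hs⟩ := e1
    obtain ⟨t, ht⟩ := e2
    show p ((u : k) - u₀) < δ
    have key : (c : k) * ((u : k) - u₀) * (b u * b u₀) = d * (s * b u₀ - t * a u₀) := by
      have h1 := hab u
      have h2 := hab u₀
      have h3 : (a u : k) = a u₀ + d * s := by
        have : a u = a u₀ + d * s := by rw [← hs]; ring
        rw [this]; push_cast; ring
      have h4 : (b u : k) = b u₀ + d * t := by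
        have : b u = b u₀ + d * t := by rw [← ht]; ring
        rw [this]; push_cast; ring
      have : (c : k) * ((u : k) - u₀) * (b u * b u₀) =
        ((c : k) * u * b u) * b u₀ - (c * u₀ * b u₀) * b u := by ring
      rw [this, h1, h2, h3, h4]; ring
    have h5 := congrArg p key
    rw [map_mul, map_mul, map_mul, map_mul, hb u, hb u₀, mul_one, mul_one] at h5
    have h6 : p ((s : k) * b u₀ - t * a u₀) ≤ 1 := by
      have := fin_le_one p (s * b u₀ - t * a u₀)
      simpa using this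
    have h7 : p (d : k) = p (π : k) ^ r := by rw [hd]; simp
    have h8 : p (c : k) * p ((u : k) - u₀) ≤ p (π : k) ^ r := by
      rw [h5, h7]
      exact mul_le_of_le_one_right (pow_nonneg hπpos.le r) h6
    have h9 : p (c : k) * p ((u : k) - u₀) < p (c : k) * δ := by
      rw [mul_comm _ δ]; exact h8.trans_lt hr
    exact lt_of_mul_lt_mul_left h9 hcpos.le

end Pool.Agent.Lib.MP_17a322_nt
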