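import Mathlib
import Pool.Agent.Lib.MP_17a322_nt.SUnits

namespace Pool.Agent.Lib.MP_17a322_nt

open NumberField MvPolynomial Height Function

variable {k : Type*} [Field k] [NumberField k]

lemma absAt_zpow (v : Place k) (a : k) (m : ℤ) : absAt v (a ^ m) = absAt v a ^ m := by
  match v with
  | .inl w => exact map_zpow₀ w a m
  | .inr w => exact map_zpow₀ w a m

lemma absAt_prod (v : Place k) {ι : Type*} (s : Finset ι) (f : ι → k) :
    absAt v (∏ i ∈ s, f i) = ∏ i ∈ s, absAt v (f i) := by
  match v with
  | .inl w => exact map_prod w f s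
  | .inr w => exact map_prod w f s

lemma unit_fin (p : FinitePlace k) (u : (𝓞 k)ˣ) : p ((u : 𝓞 k) : k) = 1 := by
  rw [fin_eq_one_iff]
  intro h
  exact p.maximalIdeal.isPrime.ne_top (Ideal.eq_top_of_isUnit_mem _ h u.isUnit)

/-- index set of the generators -/
abbrev Gen (S : Finset (Place k)) := Fin (Units.rank k) ⊕ {p : FinitePlace k // Sum.inr p ∈ S}

/-- the generators: fundamental units and, for each finite place of `S`, an integer whose only
prime divisor is that place -/
noncomputable def gen (S : Finset (Place k)) : Gen S → k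
  | .inl i => ((Units.fundSystem k i : (𝓞 k)ˣ) : 𝓞 k)
  | .inr p => ((exists_pi p.1).choose : 𝓞 k)

lemma gen_inr_lt (S : Finset (Place k)) (p : {p : FinitePlace k // Sum.inr p ∈ S}) :
    p.1 (gen S (Sum.inr p)) < 1 := (exists_pi p.1).choose_spec.2.1

lemma gen_inr_eq (S : Finset (Place k)) (p : {p : FinitePlace k // Sum.inr p ∈ S})
    (q : FinitePlace k) (hq : q ≠ p.1) :
    q (gen S (Sum.inr p)) = 1 := (exists_pi p.1).choose_spec.2.2 q hq

lemma gen_inl_eq (S : Finset (Place k)) (i : Fin (Units.rank k)) (q : FinitePlace k) :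
    q (gen S (Sum.inl i)) = 1 := unit_fin q _

lemma gen_ne_zero (S : Finset (Place k)) (i : Gen S) : gen S i ≠ 0 := by
  match i with
  | .inl i =>
    intro h
    have h1 := congrArg (fun x : k => x) h
    have : ((Units.fundSystem k i : (𝓞 k)ˣ) : 𝓞 k) ≠ 0 := Units.ne_zero _
    exact this (RingOfIntegers.ext h1)
  | .inr p =>
    intro h
    exact (exists_pi p.1).choose_spec.1 (RingOfIntegers.ext h)

noncomputable instance (S : Finset (Place k)) : Fintype {p : FinitePlace k // Sum.inr p ∈ S} :=
  haveI : Finite {p : FinitePlace k // (Sum.inr p : Place k) ∈ S} := by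
    have : Set.Finite {p : FinitePlace k | (Sum.inr p : Place k) ∈ S} :=
      Set.Finite.preimage Sum.inr_injective.injOn S.finite_toSet
    exact this.to_subtype
  Fintype.ofFinite _

/-- the S-unit with given exponents -/
noncomputable def sunit (S : Finset (Place k)) (e : Gen S → ℤ) : k := ∏ i, gen S i ^ e i

lemma sunit_ne_zero (S : Finset (Place k)) (e : Gen S → ℤ) : sunit S e ≠ 0 :=
  Finset.prod_ne_zero_iff.mpr fun i _ => zpow_ne_zero _ (gen_ne_zero S i)

lemma sunit_out (S : Finset (Place k)) (e : Gen S → ℤ) (q : FinitePlace k)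
    (hq : Sum.inr q ∉ S) : q (sunit S e) = 1 := by
  have : absAt (Sum.inr q) (sunit S e) = 1 := by
    unfold sunit
    rw [absAt_prod]
    refine Finset.prod_eq_one fun i _ => ?_
    rw [absAt_zpow]
    have : absAt (Sum.inr q) (gen S i) = 1 := by
      match i with
      | .inl i => exact gen_inl_eq S i q
      | .inr p =>
        refine gen_inr_eq S p q ?_
        rintro rfl
        exact hq p.2
    rw [this, one_zpow]
  exact this

lemma sunit_at (S : Finset (Place k)) (e : Gen S → ℤ) (q : {p : FinitePlace k // Sum.inr p ∈ S}) :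
    q.1 (sunit S e) = q.1 (gen S (Sum.inr q)) ^ e (Sum.inr q) := by
  have : absAt (Sum.inr q.1) (sunit S e) = absAt (Sum.inr q.1) (gen S (Sum.inr q)) ^ e (Sum.inr q) := by
    unfold sunit
    rw [absAt_prod, Finset.prod_eq_single (Sum.inr q)]
    · rw [absAt_zpow]
    · intro i _ hi
      rw [absAt_zpow]
      have : absAt (Sum.inr q.1) (gen S i) = 1 := by
        match i with
        | .inl i => exact gen_inl_eq S i q.1
        | .inr p =>
          refine gen_inr_eq S p q.1 ?_
          intro h
          apply hi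
          congr 1
          exact Subtype.ext h.symm
      rw [this, one_zpow]
    · intro h; exact absurd (Finset.mem_univ _) h
  exact this

lemma sunit_injective (S : Finset (Place k)) : Injective (sunit S) := by
  intro e e' h
  have hr : ∀ q : {p : FinitePlace k // Sum.inr p ∈ S}, e (Sum.inr q) = e' (Sum.inr q) := by
    intro q
    have h1 := congrArg q.1 h
    rw [sunit_at, sunit_at] at h1
    have h2 := gen_inr_lt S q
    have h3 : 0 < q.1 (gen S (Sum.inr q)) := FinitePlace.pos_iff.mpr (gen_ne_zero S _)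
    exact zpow_right_injective₀ h3 h2.ne h1
  have hl : (fun i => e (Sum.inl i)) = (fun i => e' (Sum.inl i)) := by
    unfold sunit at h
    rw [Fintype.prod_sum_type, Fintype.prod_sum_type] at h
    have h1 : ∏ q : {p : FinitePlace k // Sum.inr p ∈ S}, gen S (Sum.inr q) ^ e (Sum.inr q) =
        ∏ q : {p : FinitePlace k // Sum.inr p ∈ S}, gen S (Sum.inr q) ^ e' (Sum.inr q) :=
      Finset.prod_congr rfl fun q _ => by rw [hr q]
    rw [h1] at h
    have h2 : ∏ q : {p : FinitePlace k // Sum.inr p ∈ S}, gen S (Sum.inr q) ^ e' (Sum.inr q) ≠ 0 :=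
      Finset.prod_ne_zero_iff.mpr fun i _ => zpow_ne_zero _ (gen_ne_zero S _)
    have h3 := mul_right_cancel₀ h2 h
    -- lift to units
    have lift : ∀ f : Fin (Units.rank k) → ℤ, ∏ i, gen S (Sum.inl i) ^ f i =
        (((∏ i, Units.fundSystem k i ^ f i : (𝓞 k)ˣ) : 𝓞 k) : k) := by
      intro f
      have := map_prod (Units.coeHom k) (fun i => Units.map (algebraMap (𝓞 k) k).toMonoidHom
        (Units.fundSystem k i ^ f i)) Finset.univ
      have h4 : ∀ u : (𝓞 k)ˣ, ((u : 𝓞 k) : k) =
          Units.coeHom k (Units.map (algebraMap (𝓞 k) k).toMonoidHom u) := fun u => rfl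
      rw [h4, map_prod, map_prod]
      refine Finset.prod_congr rfl fun i _ => ?_
      rw [map_zpow, map_zpow]
      rfl
    rw [lift, lift] at h3
    have h5 : (∏ i, Units.fundSystem k i ^ e (Sum.inl i) : (𝓞 k)ˣ) =
        ∏ i, Units.fundSystem k i ^ e' (Sum.inl i) := by
      apply Units.ext
      exact RingOfIntegers.ext h3
    obtain ⟨ζ, _, huniq⟩ := Units.exist_unique_eq_mul_prod k
      (∏ i, Units.fundSystem k i ^ e (Sum.inl i) : (𝓞 k)ˣ)
    have h6 := huniq (1, fun i => e (Sum.inl i)) (by simp)
    have h7 := huniq (1, fun i => e' (Sum.inl i)) (by simp [h5])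
    have h8 := h6.trans h7.symm
    exact (Prod.mk.inj h8).2
  funext i
  match i with
  | .inl i => exact congrFun hl i
  | .inr q => exact hr q

/-- Infinitely many units outside `S` and the infinite places, whose absolute values are bounded
above and below at every place except `v₁` and `v₂`. -/
lemma exists_units (S : Finset (Place k)) {v₁ v₂ : Place k} (h1 : v₁ ∈ S) (h2 : v₂ ∈ S)
    (h12 : v₁ ≠ v₂) :
    ∃ (M : ℝ) (U : Set k), 0 ≤ M ∧ U.Infinite ∧ ∀ u ∈ U, u ≠ 0 ∧
      (∀ p : FinitePlace k, Sum.inr p ∉ S → p u = 1) ∧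
      ∀ v : Place k, v ≠ v₁ → v ≠ v₂ → |Real.log (absAt v u)| ≤ M := by
  classical
  -- index set of the places
  let V := InfinitePlace k ⊕ {p : FinitePlace k // Sum.inr p ∈ S}
  let j : V → Place k := Sum.map id Subtype.val
  have hj : Injective j := Sum.map_injective.mpr ⟨injective_id, Subtype.val_injective⟩
  have hjS : ∀ v ∈ S, ∃ t : V, j t = v := by
    intro v hv
    match v with
    | .inl w => exact ⟨Sum.inl w, rfl⟩
    | .inr p => exact ⟨Sum.inr ⟨p, hv⟩, rfl⟩
  obtain ⟨t₁, ht₁⟩ := hjS v₁ h1
  obtain ⟨t₂, ht₂⟩ := hjS v₂ h2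
  have ht12 : t₁ ≠ t₂ := by rintro rfl; exact h12 (ht₁.symm.trans ht₂)
  let V' := {t : V // t ≠ t₁ ∧ t ≠ t₂}
  have hcard : Fintype.card V' + 2 = Fintype.card V := by
    have e1 : Fintype.card V' = ((Finset.univ.erase t₁).erase t₂).card := by
      rw [Fintype.card_subtype]
      congr 1
      ext t
      simp [and_comm]
    rw [e1, Finset.card_erase_of_mem (by simp [ht12.symm]), Finset.card_erase_of_mem (by simp),
      Finset.card_univ]
    have : 2 ≤ Fintype.card V := by
      have : ({t₁, t₂} : Finset V).card ≤ Fintype.card V := Finset.card_le_univ _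
      rwa [Finset.card_pair ht12] at this
    omega
  have hcardV : Fintype.card V = Fintype.card (Gen S) + 1 := by
    have h0 : 0 < Fintype.card (InfinitePlace k) := Fintype.card_pos
    have hV : Fintype.card V = Fintype.card (InfinitePlace k) +
        Fintype.card {p : FinitePlace k // Sum.inr p ∈ S} := Fintype.card_sum
    have hG : Fintype.card (Gen S) = Units.rank k +
        Fintype.card {p : FinitePlace k // Sum.inr p ∈ S} := by
      rw [Fintype.card_sum, Fintype.card_fin]
    have hr : Units.rank k = Fintype.card (InfinitePlace k) - 1 := rfl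
    omega
  let A : (Gen S → ℝ) →ₗ[ℝ] (V' → ℝ) :=
    Fintype.linearCombination ℝ (fun i : Gen S => fun t : V' => Real.log (absAt (j t.1) (gen S i)))
  have hker : LinearMap.ker A ≠ ⊥ := by
    apply LinearMap.ker_ne_bot_of_finrank_lt
    rw [Module.finrank_fintype_fun_eq_card, Module.finrank_fintype_fun_eq_card]
    omega
  obtain ⟨z, hz, hz0⟩ := (Submodule.ne_bot_iff _).mp hker
  obtain ⟨i₀, hi₀⟩ := Function.ne_iff.mp hz0
  rw [Pi.zero_apply] at hi₀
  -- normalise
  set y : Gen S → ℝ := (z i₀)⁻¹ • z with hy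
  have hyk : A y = 0 := by
    rw [hy, map_smul, LinearMap.mem_ker.mp hz, smul_zero]
  have hy0 : y i₀ = 1 := by
    rw [hy, Pi.smul_apply, smul_eq_mul, inv_mul_cancel₀ hi₀]
  have hyv : ∀ t : V', ∑ i, y i * Real.log (absAt (j t.1) (gen S i)) = 0 := by
    intro t
    have := congrFun hyk t
    rw [Fintype.linearCombination_apply, Finset.sum_apply] at this
    simpa using this
  let E : ℤ → (Gen S → ℤ) := fun s i => round (s * y i)
  have hE : Injective E := by
    intro s s' h
    have := congrFun h i₀
    simpa [E, hy0] using this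
  let B : ℝ := ∑ t : V, ∑ i, |Real.log (absAt (j t) (gen S i))|
  have hB0 : 0 ≤ B := Finset.sum_nonneg fun t _ => Finset.sum_nonneg fun i _ => abs_nonneg _
  refine ⟨B, Set.range fun s : ℤ => sunit S (E s), hB0,
    Set.infinite_range_of_injective ((sunit_injective S).comp hE), ?_⟩
  rintro _ ⟨s, rfl⟩
  refine ⟨sunit_ne_zero S _, fun p hp => sunit_out S _ p hp, fun v hv1 hv2 => ?_⟩
  by_cases hv : ∃ t : V, j t = v
  · obtain ⟨t, rfl⟩ := hv
    have ht : t ≠ t₁ ∧ t ≠ t₂ := by
      constructor
      · rintro rfl; exact hv1 ht₁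
      · rintro rfl; exact hv2 ht₂
    have e1 : Real.log (absAt (j t) (sunit S (E s))) =
        ∑ i, (E s i : ℝ) * Real.log (absAt (j t) (gen S i)) := by
      unfold sunit
      rw [absAt_prod, Real.log_prod]
      · refine Finset.sum_congr rfl fun i _ => ?_
        rw [absAt_zpow, Real.log_zpow]
      · intro i _
        exact (absAt_pos _ (zpow_ne_zero _ (gen_ne_zero S i))).ne'
    have e2 : ∑ i, (s : ℝ) * y i * Real.log (absAt (j t) (gen S i)) = 0 := by
      have := hyv ⟨t, ht⟩
      simp only [mul_assoc]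
      rw [← Finset.mul_sum, this, mul_zero]
    have e3 : Real.log (absAt (j t) (sunit S (E s))) =
        ∑ i, ((E s i : ℝ) - s * y i) * Real.log (absAt (j t) (gen S i)) := by
      rw [e1]
      simp only [sub_mul, Finset.sum_sub_distrib]
      rw [e2, sub_zero]
    rw [e3]
    have e4 : |∑ i, ((E s i : ℝ) - s * y i) * Real.log (absAt (j t) (gen S i))| ≤
        ∑ i, |Real.log (absAt (j t) (gen S i))| := by
      refine (Finset.abs_sum_le_sum_abs _ _).trans (Finset.sum_le_sum fun i _ => ?_)
      rw [abs_mul]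
      have : |(E s i : ℝ) - s * y i| ≤ 1 := by
        rw [abs_sub_comm]
        exact (abs_sub_round _).trans (by norm_num)
      exact mul_le_of_le_one_left (abs_nonneg _) this
    refine e4.trans ?_
    exact Finset.single_le_sum (f := fun t : V => ∑ i, |Real.log (absAt (j t) (gen S i))|)
      (fun t _ => Finset.sum_nonneg fun i _ => abs_nonneg _) (Finset.mem_univ t)
  · match v with
    | .inl w => exact absurd ⟨Sum.inl w, rfl⟩ hv
    | .inr p =>
      have hp : Sum.inr p ∉ S := fun h => hv ⟨Sum.inr ⟨p, h⟩, rfl⟩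
      have : absAt (Sum.inr p) (sunit S (E s)) = 1 := sunit_out S _ p hp
      rw [this, Real.log_one, abs_zero]
      exact hB0

end Pool.Agent.Lib.MP_17a322_nt
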