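import Mathlib
import Pool.Agent.Lib.MP_17a322_nt.Units

namespace Pool.Agent.Lib.MP_17a322_nt

open NumberField MvPolynomial Height Function

variable {k : Type*} [Field k] [NumberField k]

lemma absAt_sub_le (v : Place k) (a b : k) : absAt v a ≤ absAt v (a - b) + absAt v b := by
  have := absAt_add_le v (a - b) b
  rwa [sub_add_cancel] at this

lemma absAt_neg (v : Place k) (a : k) : absAt v (-a) = absAt v a := by
  match v with
  | .inl w => exact w.1.map_neg a
  | .inr w => exact w.1.map_neg a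

/-- If `|S| ≥ 3` there is a place `w` of `S` where `1` is an accumulation point of units outside
`S` and infinity that are bounded above and below outside `S`. -/
lemma exists_near_one (S : Finset (Place k)) (hS : 3 ≤ S.card) :
    ∃ w ∈ S, ∃ M : ℝ, 0 ≤ M ∧ ∀ δ : ℝ, 0 < δ → ∃ U : Set k, U.Infinite ∧ ∀ u ∈ U, u ≠ 0 ∧
      (∀ p : FinitePlace k, Sum.inr p ∉ S → p u = 1) ∧
      (∀ v : Place k, v ∉ S → |Real.log (absAt v u)| ≤ M) ∧ absAt w (u - 1) < δ := by
  obtain ⟨v₁, h1, v₂, h2, w, hw, h12, h1w, h2w⟩ := Finset.two_lt_card.mp hS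
  obtain ⟨M, U, hM, hU, h⟩ := exists_units S h1 h2 h12
  refine ⟨w, hw, 2 * M, by linarith, fun δ hδ => ?_⟩
  have hbd : ∀ u ∈ U, absAt w u ≤ Real.exp M := by
    intro u hu
    obtain ⟨hu0, _, hu2⟩ := h u hu
    have := hu2 w h1w.symm h2w.symm
    rw [← Real.log_le_iff_le_exp (absAt_pos w hu0)]
    exact (le_abs_self _).trans this
  obtain ⟨u₀, hu₀, hinf⟩ := tot_bdd w hU (mul_pos hδ (Real.exp_pos (-M))) hbd
  obtain ⟨h00, h01, h02⟩ := h u₀ hu₀
  refine ⟨(fun u => u * u₀⁻¹) '' {u ∈ U | absAt w (u - u₀) < δ * Real.exp (-M)}, ?_, ?_⟩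
  · refine hinf.image ?_
    exact (mul_left_injective₀ (inv_ne_zero h00)).injOn
  · rintro _ ⟨u, ⟨hu, hlt⟩, rfl⟩
    obtain ⟨hu0, hu1, hu2⟩ := h u hu
    refine ⟨mul_ne_zero hu0 (inv_ne_zero h00), ?_, ?_, ?_⟩
    · intro p hp
      show p (u * u₀⁻¹) = 1
      rw [map_mul, map_inv₀, hu1 p hp, h01 p hp, inv_one, mul_one]
    · intro v hv
      have e : Real.log (absAt v (u * u₀⁻¹)) = Real.log (absAt v u) - Real.log (absAt v u₀) := by
        have h3 : absAt v (u * u₀⁻¹) = absAt v u * (absAt v u₀)⁻¹ := by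
          rw [absAt_mul]
          congr 1
          have := absAt_zpow v u₀ (-1)
          simpa using this
        rw [h3, Real.log_mul (absAt_pos v hu0).ne' (inv_ne_zero (absAt_pos v h00).ne'),
          Real.log_inv]
        ring
      show |Real.log (absAt v (u * u₀⁻¹))| ≤ 2 * M
      rw [e]
      have q1 := hu2 v (by rintro rfl; exact hv h1) (by rintro rfl; exact hv h2)
      have q2 := h02 v (by rintro rfl; exact hv h1) (by rintro rfl; exact hv h2)
      have := abs_sub (Real.log (absAt v u)) (Real.log (absAt v u₀))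
      linarith
    · show absAt w (u * u₀⁻¹ - 1) < δ
      have e : u * u₀⁻¹ - 1 = (u - u₀) * u₀⁻¹ := by
        rw [sub_mul, mul_inv_cancel₀ h00]
      have h3 : absAt w (u₀⁻¹) = (absAt w u₀)⁻¹ := by
        have := absAt_zpow w u₀ (-1)
        simpa using this
      rw [e, absAt_mul, h3]
      have h4 : Real.exp (-M) ≤ absAt w u₀ := by
        have q := h02 w h1w.symm h2w.symm
        rw [← Real.le_log_iff_exp_le (absAt_pos w h00)]
        linarith [neg_abs_le (Real.log (absAt w u₀))]
      have h5 : (absAt w u₀)⁻¹ ≤ Real.exp M := by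
        rw [← inv_inv (Real.exp M), ← Real.exp_neg]
        exact inv_anti₀ (Real.exp_pos _) h4
      calc absAt w (u - u₀) * (absAt w u₀)⁻¹ ≤ absAt w (u - u₀) * Real.exp M :=
            mul_le_mul_of_nonneg_left h5 (absAt_nonneg _ _)
        _ < δ * Real.exp (-M) * Real.exp M := mul_lt_mul_of_pos_right hlt (Real.exp_pos _)
        _ = δ := by rw [mul_assoc, ← Real.exp_add, neg_add_cancel, Real.exp_zero, mul_one]

/-! ### The hyperplanes -/

/-- the last form: `n x₀ - x₁ - ... - xₙ` -/
def lastForm (n : ℕ) : Fin (n + 1) → k := fun i => if i = 0 then (n : k) else -1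

/-- coordinate hyperplanes and the last form -/
noncomputable def planes (k : Type*) [Field k] (n : ℕ) : Fin (n + 2) → Fin (n + 1) → k :=
  Fin.snoc (fun i => Pi.single i 1) (lastForm n)

lemma planes_castSucc (n : ℕ) (i : Fin (n + 1)) :
    planes k n (Fin.castSucc i) = Pi.single i 1 := by
  unfold planes
  rw [Fin.snoc_castSucc]

lemma planes_last (n : ℕ) : planes k n (Fin.last (n + 1)) = lastForm n := by
  unfold planes
  rw [Fin.snoc_last]

lemma planes_general {n : ℕ} (hn : 1 ≤ n) (f : Fin (n + 1) → Fin (n + 2)) (hf : Injective f) :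
    LinearIndependent k (fun i => planes k n (f i)) := by
  rw [Fintype.linearIndependent_iff]
  intro c hc
  have hlast : ∀ m : Fin (n + 1), (lastForm n : Fin (n + 1) → k) m ≠ 0 := by
    intro m
    unfold lastForm
    split_ifs
    · exact_mod_cast (show n ≠ 0 by omega)
    · exact neg_ne_zero.mpr one_ne_zero
  have hev : ∀ m, ∑ i, c i * planes k n (f i) m = 0 := by
    intro m
    have := congrFun hc m
    simpa [Finset.sum_apply] using this
  have hne : ∀ (j : Fin (n + 2)) (m : Fin (n + 1)), j ≠ Fin.last (n + 1) → j ≠ Fin.castSucc m →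
      planes k n j m = 0 := by
    intro j m hj hm
    obtain ⟨j', rfl⟩ := Fin.exists_castSucc_eq.mpr hj
    rw [planes_castSucc, Pi.single_apply, if_neg]
    rintro rfl
    exact hm rfl
  -- coefficient at the last form vanishes
  have h1 : ∀ i, f i = Fin.last (n + 1) → c i = 0 := by
    intro i hi
    obtain ⟨j₀, hj₀⟩ : ∃ j₀, j₀ ∉ Set.range f := by
      by_contra hcon
      push Not at hcon
      have := Fintype.card_le_of_surjective f hcon
      simp at this
    have hj₀l : j₀ ≠ Fin.last (n + 1) := by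
      rintro rfl
      exact hj₀ ⟨i, hi⟩
    obtain ⟨m₀, rfl⟩ := Fin.exists_castSucc_eq.mpr hj₀l
    have h2 := hev m₀
    rw [Finset.sum_eq_single i] at h2
    · rw [hi, planes_last] at h2
      exact (mul_eq_zero.mp h2).resolve_right (hlast m₀)
    · intro i' _ hi'
      have h3 : f i' ≠ Fin.last (n + 1) := by
        intro h
        exact hi' (hf (h.trans hi.symm))
      have h4 : f i' ≠ Fin.castSucc m₀ := fun h => hj₀ ⟨i', h⟩
      rw [hne _ _ h3 h4, mul_zero]
    · intro h; exact absurd (Finset.mem_univ _) h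
  intro i
  by_cases hi : f i = Fin.last (n + 1)
  · exact h1 i hi
  · obtain ⟨m, hm⟩ := Fin.exists_castSucc_eq.mpr hi
    have h2 := hev m
    rw [Finset.sum_eq_single i] at h2
    · rw [← hm, planes_castSucc, Pi.single_eq_same, mul_one] at h2
      exact h2
    · intro i' _ hi'
      by_cases h3 : f i' = Fin.last (n + 1)
      · rw [h1 i' h3, zero_mul]
      · have h4 : f i' ≠ Fin.castSucc m := by
          intro h
          exact hi' (hf (h.trans hm))
        rw [hne _ _ h3 h4, mul_zero]
    · intro h; exact absurd (Finset.mem_univ _) h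

lemma dot_single {n : ℕ} (m : Fin (n + 1)) (x : Fin (n + 1) → k) :
    dot (Pi.single m 1) x = x m := by
  unfold dot
  rw [Finset.sum_eq_single m]
  · simp
  · intro b _ hb; simp [hb]
  · intro h; exact absurd (Finset.mem_univ m) h

lemma lastForm_sum (n : ℕ) : ∑ i, (lastForm n : Fin (n + 1) → k) i = 0 := by
  unfold lastForm
  rw [Fin.sum_univ_succ]
  simp [Fin.succ_ne_zero]

lemma lastForm_ne_zero {n : ℕ} (hn : 1 ≤ n) : (lastForm n : Fin (n + 1) → k) ≠ 0 := by
  intro h
  have := congrFun h 0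
  simp only [lastForm, if_true, Pi.zero_apply] at this
  have h2 : (n : k) ≠ 0 := by exact_mod_cast (show n ≠ 0 by omega)
  exact h2 this

/-! ### Kronecker substitution -/

lemma exists_subst {n : ℕ} {G : MvPolynomial (Fin (n + 1)) k} (hG : G ≠ 0) :
    ∃ (t : Fin (n + 1) → ℕ) (R : Finset k), ∀ u ∉ R, eval (fun i => u ^ t i) G ≠ 0 := by
  classical
  have hinf : (Set.range fun m : ℕ => (2 : k) ^ m).Infinite := by
    refine Set.infinite_range_of_injective ?_
    intro a b hab
    have h2 : ((2 : ℕ) : k) ^ a = ((2 : ℕ) : k) ^ b := by simpa using hab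
    rw [← Nat.cast_pow, ← Nat.cast_pow, Nat.cast_inj] at h2
    exact Nat.pow_right_injective le_rfl h2
  have hex : ∃ t : Fin (n + 1) → ℕ, eval (fun i => (2 : k) ^ t i) G ≠ 0 := by
    by_contra hcon
    push Not at hcon
    apply hG
    refine MvPolynomial.funext_set (fun _ => Set.range fun m : ℕ => (2 : k) ^ m)
      (fun _ => hinf) ?_
    intro x hx
    have h1 : ∀ i, ∃ m : ℕ, (2 : k) ^ m = x i := fun i => hx i (Set.mem_univ i)
    choose t ht using h1
    have h2 : x = fun i => (2 : k) ^ t i := funext fun i => (ht i).symm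
    rw [h2, hcon t, map_zero]
  obtain ⟨t, ht⟩ := hex
  let P : Polynomial k := aeval (fun i => (Polynomial.X : Polynomial k) ^ t i) G
  have hP : ∀ u : k, Polynomial.eval u P = eval (fun i => u ^ t i) G := by
    intro u
    have h1 : (Polynomial.aeval u).comp (aeval (fun i => (Polynomial.X : Polynomial k) ^ t i)) =
        (aeval (fun i => u ^ t i) : MvPolynomial (Fin (n + 1)) k →ₐ[k] k) := by
      ext i
      simp
    have h2 := DFunLike.congr_fun h1 G
    rw [AlgHom.comp_apply] at h2
    rw [← MvPolynomial.aeval_eq_eval, ← h2]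
    rfl
  have hP0 : P ≠ 0 := by
    intro h
    apply ht
    rw [← hP 2, h, Polynomial.eval_zero]
  refine ⟨t, P.roots.toFinset, fun u hu h => hu ?_⟩
  rw [Multiset.mem_toFinset, Polynomial.mem_roots hP0, Polynomial.IsRoot, hP u, h]

lemma absAt_pow_sub_one (w : Place k) {u : k} (hu : absAt w (u - 1) ≤ 1) (t : ℕ) :
    absAt w (u ^ t - 1) ≤ (t * 2 ^ t) * absAt w (u - 1) := by
  have hu2 : absAt w u ≤ 2 := by
    have := absAt_sub_le w u 1
    rw [absAt_one] at this
    linarith
  have h0 := absAt_nonneg w (u - 1)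
  induction t with
  | zero => simp [absAt_zero]
  | succ t ih =>
    have e : u ^ (t + 1) - 1 = u * (u ^ t - 1) + (u - 1) := by ring
    rw [e]
    refine (absAt_add_le w _ _).trans ?_
    rw [absAt_mul]
    have h1 : absAt w u * absAt w (u ^ t - 1) ≤ 2 * ((t * 2 ^ t) * absAt w (u - 1)) :=
      mul_le_mul hu2 ih (absAt_nonneg _ _) (by norm_num)
    have h2 : (1 : ℝ) ≤ 2 ^ (t + 1) := one_le_pow₀ (by norm_num)
    push_cast
    have h3 : absAt w (u - 1) ≤ 2 ^ (t + 1) * absAt w (u - 1) := le_mul_of_one_le_left h0 h2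
    calc _ ≤ 2 * ((t * 2 ^ t) * absAt w (u - 1)) + 2 ^ (t + 1) * absAt w (u - 1) := by linarith
      _ = _ := by ring

end Pool.Agent.Lib.MP_17a322_nt
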