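import Mathlib
import Pool.Agent.Lib.MP_17a322_nt.Sharp

namespace Pool.Agent.Lib.MP_17a322_nt

open NumberField MvPolynomial Height Function

variable {k : Type*} [Field k] [NumberField k]

lemma prod_split (S : Finset (Place k)) (h : Place k → ℝ) (h1 : ∀ v, v ∉ S → h v = 1) :
    (∏ w : InfinitePlace k, h (Sum.inl w)) * ∏ᶠ w : FinitePlace k, h (Sum.inr w) =
      ∏ v ∈ S, h v := by
  classical
  have e1 : ∏ᶠ w : FinitePlace k, h (Sum.inr w) =
      ∏ w ∈ (S.preimage Sum.inr Sum.inr_injective.injOn), h (Sum.inr w) := by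
    refine finprod_eq_prod_of_mulSupport_subset _ ?_
    intro w hw
    rw [Function.mem_mulSupport] at hw
    rw [Finset.mem_coe, Finset.mem_preimage]
    by_contra hcon
    exact hw (h1 _ hcon)
  have e2 : ∏ w : InfinitePlace k, h (Sum.inl w) =
      ∏ w ∈ (S.preimage Sum.inl Sum.inl_injective.injOn), h (Sum.inl w) := by
    symm
    refine Finset.prod_subset (Finset.subset_univ _) ?_
    intro w _ hw
    rw [Finset.mem_preimage] at hw
    exact h1 _ hw
  rw [e1, e2, ← Finset.prod_filter_mul_prod_filter_not S (fun v => v.isLeft)]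
  congr 1
  · refine Finset.prod_bij (fun w _ => Sum.inl w) ?_ ?_ ?_ ?_
    · intro w hw
      rw [Finset.mem_preimage] at hw
      simp [hw]
    · intro a _ b _ hab
      exact Sum.inl_injective hab
    · intro v hv
      rw [Finset.mem_filter] at hv
      match v, hv with
      | .inl w, hv => exact ⟨w, by rw [Finset.mem_preimage]; exact hv.1, rfl⟩
      | .inr w, hv => simp at hv
    · intro w _; rfl
  · refine Finset.prod_bij (fun w _ => Sum.inr w) ?_ ?_ ?_ ?_
    · intro w hw
      rw [Finset.mem_preimage] at hw
      simp [hw]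
    · intro a _ b _ hab
      exact Sum.inr_injective hab
    · intro v hv
      rw [Finset.mem_filter] at hv
      match v, hv with
      | .inr w, hv => exact ⟨w, by rw [Finset.mem_preimage]; exact hv.1, rfl⟩
      | .inl w, hv => simp at hv
    · intro w _; rfl

/-- the infinite places together with `S` -/
noncomputable def ext (S : Finset (Place k)) : Finset (Place k) := by
  classical
  exact S ∪ Finset.univ.image Sum.inl

lemma subset_ext (S : Finset (Place k)) : S ⊆ ext S := by
  classical
  exact Finset.subset_union_left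

lemma notMem_ext {S : Finset (Place k)} {v : Place k} (hv : v ∉ ext S) :
    ∃ p : FinitePlace k, v = Sum.inr p ∧ Sum.inr p ∉ S := by
  classical
  unfold ext at hv
  rw [Finset.mem_union, not_or] at hv
  match v with
  | .inl w => exact absurd (Finset.mem_image_of_mem _ (Finset.mem_univ w)) hv.2
  | .inr p => exact ⟨p, rfl, hv.1⟩

/-- For a point all of whose coordinates are units outside `S` and infinity, the local heights
of a coordinate hyperplane sum up to the height. -/
lemma coord_sum {n : ℕ} (S : Finset (Place k)) {x : Fin (n + 1) → k}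
    (hx : ∀ i, ∀ p : FinitePlace k, Sum.inr p ∉ S → p (x i) = 1) (m : Fin (n + 1))
    (hm : x m ≠ 0) :
    ∑ v ∈ ext S, locHt v (lin (Pi.single m 1)) x = logHeight x := by
  classical
  have hdot : dot (Pi.single m 1) x = x m := dot_single m x
  have hd0 : dot (Pi.single m 1) x ≠ 0 := by rw [hdot]; exact hm
  have hx0 := ne_zero_of_dot hd0
  have hev : eval x (lin (Pi.single m 1)) ≠ 0 := by rw [eval_lin']; exact hd0
  have h1 := prod_ratio (d := 1) hx0 hev
  rw [pow_one] at h1
  have h2 : ∀ v, v ∉ ext S → wratio (lin (Pi.single m 1)) 1 v x = 1 := by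
    intro v hv
    obtain ⟨p, rfl, hp⟩ := notMem_ext hv
    unfold wratio ratio
    rw [eval_lin', hdot]
    have h3 : (⨆ i, absAt (Sum.inr p) (x i)) = 1 := by
      have : ∀ i, absAt (Sum.inr p) (x i) = 1 := fun i => hx i p hp
      simp only [this]
      exact ciSup_const
    rw [h3]
    have h4 : absAt (Sum.inr p) (x m) = 1 := hx m p hp
    rw [h4]; simp
  rw [prod_split (ext S) (fun v => wratio (lin (Pi.single m 1)) 1 v x) h2] at h1
  have h5 : ∑ v ∈ ext S, locHt v (lin (Pi.single m 1)) x =
      - Real.log (∏ v ∈ ext S, wratio (lin (Pi.single m 1)) 1 v x) := by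
    rw [Real.log_prod (fun v _ => (wratio_pos _ 1 v hx0 hev).ne'), ← Finset.sum_neg_distrib]
    exact Finset.sum_congr rfl fun v _ => locHt_eq (lin_hom _) v hx0 hev
  rw [h5, h1, Real.log_inv, neg_neg, logHeight_eq_log_mulHeight]

lemma expAt_pos (v : Place k) : (1 : ℝ) ≤ expAt v := by
  match v with
  | .inl w =>
    have : 0 < w.mult := w.mult_pos
    exact_mod_cast this
  | .inr p => simp [expAt]

/-- **Sharpness.** For `|S| ≥ 3` and `n ≥ 1` the error term `O(1)` is impossible for the
`n + 2` hyperplanes `planes k n` in general position. -/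
theorem sharp {n : ℕ} (hn : 1 ≤ n) (S : Finset (Place k)) (hS : 3 ≤ S.card)
    {G : MvPolynomial (Fin (n + 1)) k} (hG : G ≠ 0) (C : ℝ) :
    ∃ x : Fin (n + 1) → k, eval x G ≠ 0 ∧ (∀ j, dot (planes k n j) x ≠ 0) ∧
      (n + 1) * logHeight x + C < ∑ v ∈ S, ∑ j, locHt v (lin (planes k n j)) x := by
  classical
  obtain ⟨w, hwS, M, hM, hU⟩ := exists_near_one S hS
  have hlin0 : lin (lastForm n : Fin (n + 1) → k) ≠ 0 := by
    intro h
    obtain ⟨i, hi⟩ := Function.ne_iff.mp (lastForm_ne_zero (k := k) hn)
    apply hi
    have := eval_lin' (lastForm n : Fin (n + 1) → k) (Pi.single i 1)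
    rw [h, map_zero] at this
    have h2 : dot (lastForm n : Fin (n + 1) → k) (Pi.single i 1) = lastForm n i := by
      unfold dot
      rw [Finset.sum_eq_single i]
      · simp
      · intro b _ hb; simp [hb]
      · intro h; exact absurd (Finset.mem_univ i) h
    rw [← h2, ← this]; rfl
  obtain ⟨t, R, hR⟩ := exists_subst (mul_ne_zero hG hlin0)
  set T : ℕ := ∑ i, t i with hT
  have htT : ∀ i, t i ≤ T := fun i => Finset.single_le_sum (fun _ _ => Nat.zero_le _)
    (Finset.mem_univ i)
  -- constants
  set B1 : ℝ := ∑ v ∈ ext S \ S, ∑ _i : Fin (n + 1), expAt v * (2 * (T * M)) with hB1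
  set B2 : ℝ := ∑ v ∈ S, |expAt v * Real.log (bd (lin (lastForm n : Fin (n + 1) → k)) v)| with hB2
  set K : ℝ := ∑ i, absAt w ((lastForm n : Fin (n + 1) → k) i) * (t i * 2 ^ t i) with hK
  have hK0 : 0 ≤ K := Finset.sum_nonneg fun i _ => mul_nonneg (absAt_nonneg _ _) (by positivity)
  set Q : ℝ := |C| + B1 + B2 + 1 + T * Real.log 2 with hQ
  have hB1n : 0 ≤ B1 := Finset.sum_nonneg fun v _ => Finset.sum_nonneg fun i _ => by positivity
  have hB2n : 0 ≤ B2 := Finset.sum_nonneg fun v _ => abs_nonneg _
  set δ : ℝ := min (1 / 2) (Real.exp (-Q) / (K + 1)) with hδ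
  have hδ0 : 0 < δ := lt_min (by norm_num) (div_pos (Real.exp_pos _) (by linarith))
  obtain ⟨U, hUinf, hUp⟩ := hU δ hδ0
  obtain ⟨u, huU, huR⟩ : ∃ u ∈ U, u ∉ R := by
    by_contra hcon
    push Not at hcon
    exact hUinf (R.finite_toSet.subset fun u hu => hcon u hu)
  obtain ⟨hu0, huS, huM, huw⟩ := hUp u huU
  set x : Fin (n + 1) → k := fun i => u ^ t i with hx
  have hxe := hR u huR
  rw [map_mul] at hxe
  have hGx : eval x G ≠ 0 := left_ne_zero_of_mul hxe
  have hLx : dot (lastForm n) x ≠ 0 := by
    rw [← eval_lin']; exact right_ne_zero_of_mul hxe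
  have hxi : ∀ i, x i ≠ 0 := fun i => pow_ne_zero _ hu0
  have hx0 : x ≠ 0 := ne_zero_of_dot hLx
  refine ⟨x, hGx, ?_, ?_⟩
  · intro j
    induction j using Fin.lastCases with
    | last => rw [planes_last]; exact hLx
    | cast i => rw [planes_castSucc, dot_single]; exact hxi i
  · -- coordinates
    have hxS : ∀ i, ∀ p : FinitePlace k, Sum.inr p ∉ S → p (x i) = 1 := by
      intro i p hp
      show p (u ^ t i) = 1
      rw [map_pow, huS p hp, one_pow]
    have hcoord : ∀ m : Fin (n + 1), logHeight x - ∑ v ∈ ext S \ S, expAt v * (2 * (T * M)) ≤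
        ∑ v ∈ S, locHt v (lin (Pi.single m 1)) x := by
      intro m
      have h1 := coord_sum S hxS m (hxi m)
      rw [← Finset.sum_sdiff (subset_ext S)] at h1
      have h2 : ∑ v ∈ ext S \ S, locHt v (lin (Pi.single m 1)) x ≤
          ∑ v ∈ ext S \ S, expAt v * (2 * (T * M)) := by
        refine Finset.sum_le_sum fun v hv => ?_
        have hvS : v ∉ S := (Finset.mem_sdiff.mp hv).2
        have hlog := huM v hvS
        have hdm : dot (Pi.single m 1) x ≠ 0 := by rw [dot_single]; exact hxi m
        rw [locHt_lin v hdm, dot_single]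
        apply mul_le_mul_of_nonneg_left _ (Nat.cast_nonneg _)
        have h3 : Real.log (absAt v (x m)) = t m * Real.log (absAt v u) := by
          show Real.log (absAt v (u ^ t m)) = _
          rw [absAt_pow, Real.log_pow]
        have h4 : Real.log (⨆ i, absAt v (x i)) ≤ T * M := by
          obtain ⟨j, hj⟩ := exists_eq_ciSup_of_finite (f := fun i => absAt v (x i))
          rw [← hj]
          show Real.log (absAt v (u ^ t j)) ≤ _
          rw [absAt_pow, Real.log_pow]
          have h5 : (t j : ℝ) ≤ T := by exact_mod_cast htT j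
          have h6 : (t j : ℝ) * Real.log (absAt v u) ≤ t j * M :=
            mul_le_mul_of_nonneg_left ((le_abs_self _).trans hlog) (Nat.cast_nonneg _)
          exact h6.trans (mul_le_mul_of_nonneg_right h5 hM)
        have h7 : -(T * M) ≤ Real.log (absAt v (x m)) := by
          rw [h3]
          have h5 : (t m : ℝ) ≤ T := by exact_mod_cast htT m
          have h6 : (t m : ℝ) * (-M) ≤ t m * Real.log (absAt v u) :=
            mul_le_mul_of_nonneg_left (by linarith [neg_abs_le (Real.log (absAt v u))])
              (Nat.cast_nonneg _)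
          have h8 : (t m : ℝ) * M ≤ T * M := mul_le_mul_of_nonneg_right h5 hM
          linarith
        linarith
      linarith
    -- the last form
    have hlast : -B2 + (|C| + B1 + B2 + 1) ≤ ∑ v ∈ S, locHt v (lin (lastForm n)) x := by
      have hevl : eval x (lin (lastForm n : Fin (n + 1) → k)) ≠ 0 := by
        rw [eval_lin']; exact hLx
      have h1 : ∀ v ∈ S, -|expAt v * Real.log (bd (lin (lastForm n : Fin (n + 1) → k)) v)| ≤
          locHt v (lin (lastForm n)) x := by
        intro v _
        exact (neg_le_neg (le_abs_self _)).trans (locHt_ge (lin_hom _) v hx0 hevl)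
      rw [← Finset.add_sum_erase S _ hwS]
      have h2 : -B2 ≤ ∑ v ∈ S.erase w, locHt v (lin (lastForm n)) x := by
        have h3 : ∑ v ∈ S.erase w,
            -|expAt v * Real.log (bd (lin (lastForm n : Fin (n + 1) → k)) v)| ≤
            ∑ v ∈ S.erase w, locHt v (lin (lastForm n)) x :=
          Finset.sum_le_sum fun v hv => h1 v (Finset.mem_of_mem_erase hv)
        have h4 : ∑ v ∈ S.erase w,
            |expAt v * Real.log (bd (lin (lastForm n : Fin (n + 1) → k)) v)| ≤ B2 :=
          Finset.sum_le_sum_of_subset_of_nonneg (Finset.erase_subset _ _)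
            fun v _ _ => abs_nonneg _
        rw [Finset.sum_neg_distrib] at h3
        linarith
      have h5 : |C| + B1 + B2 + 1 ≤ locHt w (lin (lastForm n)) x := by
        rw [locHt_lin w hLx]
        have hw1 : absAt w (u - 1) ≤ 1 := by
          have : δ ≤ 1 / 2 := min_le_left _ _
          linarith
        have hw2 : (1 / 2 : ℝ) ≤ absAt w u := by
          have h6 := absAt_sub_le w 1 u
          rw [absAt_one] at h6
          have h7 : absAt w (1 - u) = absAt w (u - 1) := by
            rw [← absAt_neg w (u - 1), neg_sub]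
          rw [h7] at h6
          have : δ ≤ 1 / 2 := min_le_left _ _
          linarith
        have hsup : -(T * Real.log 2) ≤ Real.log (⨆ i, absAt w (x i)) := by
          have h6 : absAt w (x 0) ≤ ⨆ i, absAt w (x i) :=
            Finite.le_ciSup (fun i => absAt w (x i)) 0
          have h7 := Real.log_le_log (absAt_pos w (hxi 0)) h6
          refine le_trans ?_ h7
          show _ ≤ Real.log (absAt w (u ^ t 0))
          rw [absAt_pow, Real.log_pow]
          have h8 : Real.log (1 / 2) ≤ Real.log (absAt w u) := Real.log_le_log (by norm_num) hw2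
          rw [one_div, Real.log_inv] at h8
          have h9 : (t 0 : ℝ) ≤ T := by exact_mod_cast htT 0
          have h10 : 0 ≤ Real.log 2 := Real.log_nonneg (by norm_num)
          have h11 : (t 0 : ℝ) * (-Real.log 2) ≤ t 0 * Real.log (absAt w u) :=
            mul_le_mul_of_nonneg_left h8 (Nat.cast_nonneg _)
          have h12 : (t 0 : ℝ) * Real.log 2 ≤ T * Real.log 2 :=
            mul_le_mul_of_nonneg_right h9 h10
          linarith
        have hdot : absAt w (dot (lastForm n) x) ≤ K * absAt w (u - 1) := by
          have e1 : dot (lastForm n) x = ∑ i, (lastForm n : Fin (n + 1) → k) i * (u ^ t i - 1) := by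
            unfold dot
            simp only [mul_sub, Finset.sum_sub_distrib, mul_one]
            rw [lastForm_sum, sub_zero]
          rw [e1]
          have habs : ∀ (s : Finset (Fin (n + 1))) (f : Fin (n + 1) → k),
              absAt w (∑ i ∈ s, f i) ≤ ∑ i ∈ s, absAt w (f i) := by
            intro s f
            induction s using Finset.induction_on with
            | empty => simp [absAt_zero]
            | insert a s ha ih =>
              rw [Finset.sum_insert ha, Finset.sum_insert ha]
              exact (absAt_add_le w _ _).trans (add_le_add le_rfl ih)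
          refine (habs _ _).trans ?_
          rw [hK, Finset.sum_mul]
          refine Finset.sum_le_sum fun i _ => ?_
          rw [absAt_mul, mul_assoc]
          exact mul_le_mul_of_nonneg_left (absAt_pow_sub_one w hw1 (t i)) (absAt_nonneg _ _)
        have hdot2 : absAt w (dot (lastForm n) x) ≤ Real.exp (-Q) := by
          have h6 : absAt w (u - 1) ≤ Real.exp (-Q) / (K + 1) := huw.le.trans (min_le_right _ _)
          have h7 : K * absAt w (u - 1) ≤ (K + 1) * (Real.exp (-Q) / (K + 1)) :=
            mul_le_mul (by linarith) h6 (absAt_nonneg _ _) (by linarith)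
          have h8 : (K + 1) * (Real.exp (-Q) / (K + 1)) = Real.exp (-Q) := by
            field_simp
          linarith
        have h6 := Real.log_le_log (absAt_pos w hLx) hdot2
        rw [Real.log_exp] at h6
        have h7 : |C| + B1 + B2 + 1 ≤ Real.log (⨆ i, absAt w (x i)) -
            Real.log (absAt w (dot (lastForm n) x)) := by linarith
        have h8 : 0 ≤ |C| + B1 + B2 + 1 := by positivity
        have h9 := expAt_pos w
        calc |C| + B1 + B2 + 1 = 1 * (|C| + B1 + B2 + 1) := by ring
          _ ≤ expAt w * (Real.log (⨆ i, absAt w (x i)) -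
            Real.log (absAt w (dot (lastForm n) x))) :=
            mul_le_mul h9 h7 h8 (by linarith)
      linarith
    have hsum : ∑ v ∈ S, ∑ j, locHt v (lin (planes k n j)) x =
        ∑ m : Fin (n + 1), ∑ v ∈ S, locHt v (lin (Pi.single m 1)) x +
          ∑ v ∈ S, locHt v (lin (lastForm n)) x := by
      rw [Finset.sum_comm, Fin.sum_univ_castSucc, planes_last]
      congr 1
      exact Finset.sum_congr rfl fun m _ => by rw [planes_castSucc]
    rw [hsum]
    have h1 := Finset.sum_le_sum fun m (_ : m ∈ Finset.univ) => hcoord m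
    rw [Finset.sum_const, Finset.card_univ, Fintype.card_fin, nsmul_eq_mul] at h1
    have h2 : B1 = ((n + 1 : ℕ) : ℝ) * ∑ v ∈ ext S \ S, expAt v * (2 * (T * M)) := by
      rw [hB1, Finset.sum_comm, Finset.sum_const, Finset.card_univ, Fintype.card_fin, nsmul_eq_mul]
    have h3 : ((n + 1 : ℕ) : ℝ) * (logHeight x - ∑ v ∈ ext S \ S, expAt v * (2 * (T * M))) =
        (n + 1) * logHeight x - B1 := by
      rw [h2]; push_cast; ring
    rw [h3] at h1
    have h4 := le_abs_self C
    linarith

end Pool.Agent.Lib.MP_17a322_nt
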