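import Mathlib
import Pool.Agent.Lib.MP_17a322_nt.SharpMain

namespace Pool.Agent.Lib.MP_17a322_nt

open NumberField MvPolynomial Height Function

variable {k : Type*} [Field k] [NumberField k]

omit [NumberField k] in
/-- `n + 2` forms in general position are the standard ones in suitable coordinates. -/
lemma exists_coords [CharZero k] {n : ℕ} (hn : 1 ≤ n) (L : Fin (n + 2) → Fin (n + 1) → k)
    (hL : ∀ f : Fin (n + 1) → Fin (n + 2), Injective f → LinearIndependent k (fun i => L (f i))) :
    ∃ (A B : Matrix (Fin (n + 1)) (Fin (n + 1)) k) (κ : Fin (n + 2) → k), A * B = 1 ∧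
      (∀ j, κ j ≠ 0) ∧ ∀ j x, dot (L j) x = κ j * dot (planes k n j) (A.mulVec x) := by
  classical
  have hb : LinearIndependent k (fun i : Fin (n + 1) => L (Fin.castSucc i)) :=
    hL _ (Fin.castSucc_injective _)
  let b : Module.Basis (Fin (n + 1)) k (Fin (n + 1) → k) :=
    basisOfLinearIndependentOfCardEqFinrank hb (by simp)
  have hbi : ∀ i, b i = L (Fin.castSucc i) := by
    intro i
    simp [b]
  set c : Fin (n + 1) → k := fun i => b.repr (L (Fin.last (n + 1))) i with hc
  have hsum : ∑ i, c i • L (Fin.castSucc i) = L (Fin.last (n + 1)) := by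
    have := b.sum_repr (L (Fin.last (n + 1)))
    simpa [hbi] using this
  have hc0 : ∀ i, c i ≠ 0 := by
    intro i hi
    have hf : Injective (fun j : Fin (n + 1) => if j = i then Fin.last (n + 1)
        else Fin.castSucc j) := by
      intro j j' h
      simp only at h
      split_ifs at h with h1 h2 h2
      · rw [h1, h2]
      · exact absurd h.symm (Fin.castSucc_lt_last _).ne
      · exact absurd h (Fin.castSucc_lt_last _).ne
      · exact Fin.castSucc_injective _ h
    have hli := Fintype.linearIndependent_iff.mp (hL _ hf) (fun j => if j = i then 1 else - c j) ?_ i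
    · simp at hli
    · rw [← Finset.add_sum_erase _ _ (Finset.mem_univ i)]
      simp only [if_true, one_smul]
      rw [← hsum, ← Finset.add_sum_erase _ _ (Finset.mem_univ i), hi, zero_smul, zero_add,
        ← Finset.sum_add_distrib]
      refine Finset.sum_eq_zero fun j hj => ?_
      have hji : j ≠ i := Finset.ne_of_mem_erase hj
      simp [hji]
  have hn0 : (n : k) ≠ 0 := by exact_mod_cast (show n ≠ 0 by omega)
  -- the scaling factors
  set s : Fin (n + 1) → k := fun i => if i = 0 then c i / n else - c i with hs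
  have hs0 : ∀ i, s i ≠ 0 := by
    intro i
    simp only [hs]
    split_ifs
    · exact div_ne_zero (hc0 i) hn0
    · exact neg_ne_zero.mpr (hc0 i)
  set A : Matrix (Fin (n + 1)) (Fin (n + 1)) k := Matrix.of fun i => s i • L (Fin.castSucc i)
    with hA
  have hAli : LinearIndependent k A.row := by
    have := hb.units_smul (fun i => Units.mk0 (s i) (hs0 i))
    exact this
  have hAu : IsUnit A := Matrix.linearIndependent_rows_iff_isUnit.mp hAli
  have hAB : A * A⁻¹ = 1 := Matrix.mul_nonsing_inv A ((Matrix.isUnit_iff_isUnit_det A).mp hAu)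
  have hAx : ∀ x i, (A.mulVec x) i = s i * dot (L (Fin.castSucc i)) x := by
    intro x i
    rw [← dot_smul]
    rfl
  refine ⟨A, A⁻¹, Fin.snoc (fun i => (s i)⁻¹) 1, hAB, ?_, ?_⟩
  · intro j
    induction j using Fin.lastCases with
    | last => rw [Fin.snoc_last]; exact one_ne_zero
    | cast i => rw [Fin.snoc_castSucc]; exact inv_ne_zero (hs0 i)
  · intro j x
    induction j using Fin.lastCases with
    | last =>
      rw [Fin.snoc_last, one_mul]
      have e1 : planes k n (Fin.last (n + 1)) = lastForm n := by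
        unfold planes; rw [Fin.snoc_last]
      rw [e1]
      have e2 : dot (L (Fin.last (n + 1))) x = ∑ i, c i * dot (L (Fin.castSucc i)) x := by
        rw [← hsum]
        unfold dot
        simp only [Finset.sum_apply, Pi.smul_apply, smul_eq_mul, Finset.sum_mul, Finset.mul_sum]
        rw [Finset.sum_comm]
        simp only [mul_assoc]
      rw [e2]
      unfold dot lastForm
      refine Finset.sum_congr rfl fun i _ => ?_
      rw [hAx, ← mul_assoc]
      congr 1
      simp only [hs]
      split_ifs
      · field_simp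
      · ring
    | cast i =>
      rw [Fin.snoc_castSucc]
      have e1 : planes k n (Fin.castSucc i) = Pi.single i 1 := by
        unfold planes; rw [Fin.snoc_castSucc]
      have e2 : dot (Pi.single i 1) (A.mulVec x) = (A.mulVec x) i := by
        unfold dot
        rw [Finset.sum_eq_single i]
        · simp
        · intro b _ hb; simp [hb]
        · intro h; exact absurd (Finset.mem_univ i) h
      rw [e1, e2, hAx, ← mul_assoc, inv_mul_cancel₀ (hs0 i), one_mul]

lemma sup_mulVec_le {n : ℕ} (v : Place k) (A : Matrix (Fin (n + 1)) (Fin (n + 1)) k) :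
    ∃ K : ℝ, 0 < K ∧ ∀ x : Fin (n + 1) → k,
      (⨆ i, absAt v (A.mulVec x i)) ≤ K * ⨆ i, absAt v (x i) := by
  classical
  refine ⟨∑ i, ∑ j, absAt v (A i j) + 1, ?_, fun x => ?_⟩
  · have : 0 ≤ ∑ i, ∑ j, absAt v (A i j) :=
      Finset.sum_nonneg fun i _ => Finset.sum_nonneg fun j _ => absAt_nonneg _ _
    linarith
  · have hsup0 : 0 ≤ ⨆ i, absAt v (x i) :=
      (absAt_nonneg v (x 0)).trans (Finite.le_ciSup (fun i => absAt v (x i)) 0)
    have habs : ∀ (s : Finset (Fin (n + 1))) (f : Fin (n + 1) → k),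
        absAt v (∑ i ∈ s, f i) ≤ ∑ i ∈ s, absAt v (f i) := by
      intro s f
      induction s using Finset.induction_on with
      | empty => simp [absAt_zero]
      | insert a s ha ih =>
        rw [Finset.sum_insert ha, Finset.sum_insert ha]
        exact (absAt_add_le v _ _).trans (add_le_add le_rfl ih)
    refine ciSup_le fun i => ?_
    have h1 : A.mulVec x i = ∑ j, A i j * x j := rfl
    rw [h1]
    refine (habs _ _).trans ?_
    have h2 : ∑ j, absAt v (A i j * x j) ≤ (∑ j, absAt v (A i j)) * ⨆ i, absAt v (x i) := by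
      rw [Finset.sum_mul]
      refine Finset.sum_le_sum fun j _ => ?_
      rw [absAt_mul]
      exact mul_le_mul_of_nonneg_left (Finite.le_ciSup (fun i => absAt v (x i)) j)
        (absAt_nonneg _ _)
    have h3 : ∑ j, absAt v (A i j) ≤ ∑ i, ∑ j, absAt v (A i j) :=
      Finset.single_le_sum (f := fun i => ∑ j, absAt v (A i j))
        (fun i _ => Finset.sum_nonneg fun j _ => absAt_nonneg _ _) (Finset.mem_univ i)
    nlinarith

/-- **Sharpness for every arrangement of at least `n + 2` hyperplanes.** -/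
theorem sharp_general {n : ℕ} (hn : 1 ≤ n) (S : Finset (Place k)) (hS : 3 ≤ S.card)
    {q : ℕ} (hq : n + 2 ≤ q) (L : Fin q → Fin (n + 1) → k)
    (hL : ∀ f : Fin (n + 1) → Fin q, Injective f → LinearIndependent k (fun i => L (f i)))
    {G : MvPolynomial (Fin (n + 1)) k} (hG : G ≠ 0) (C : ℝ) :
    ∃ x : Fin (n + 1) → k, eval x G ≠ 0 ∧ (∀ j, dot (L j) x ≠ 0) ∧
      (n + 1) * logHeight x + C < ∑ v ∈ S, ∑ j, locHt v (lin (L j)) x := by
  classical
  obtain ⟨r, rfl⟩ := Nat.exists_eq_add_of_le hq
  obtain ⟨A, B, κ, hAB, hκ, hdot⟩ := exists_coords hn (fun j => L (Fin.castAdd r j))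
    (fun f hf => hL _ ((Fin.castAdd_injective (n + 2) r).comp hf))
  have hBA : B * A = 1 := mul_eq_one_comm.mp hAB
  -- every form is nonzero
  have hL0 : ∀ j, lin (L j) ≠ 0 := by
    intro j hj
    have h1 : L j = 0 := by
      funext i
      have := eval_lin' (L j) (Pi.single i 1)
      rw [hj, map_zero] at this
      have h2 : dot (L j) (Pi.single i 1) = L j i := by
        unfold dot
        rw [Finset.sum_eq_single i]
        · simp
        · intro b _ hb; simp [hb]
        · intro h; exact absurd (Finset.mem_univ i) h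
      rw [← h2, ← this]; rfl
    -- an injective map hitting j
    obtain ⟨f, hf, i, hi⟩ : ∃ f : Fin (n + 1) → Fin (n + 2 + r), Injective f ∧ ∃ i, f i = j := by
      have hle : n + 1 ≤ n + 2 + r := by omega
      by_cases hj2 : ∃ i, Fin.castLE hle i = j
      · exact ⟨Fin.castLE hle, Fin.castLE_injective hle, hj2⟩
      · push Not at hj2
        refine ⟨fun i => if i = 0 then j else Fin.castLE hle i, ?_, 0, by simp⟩
        intro a b hab
        simp only at hab
        split_ifs at hab with h1 h2 h2
        · rw [h1, h2]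
        · exact absurd hab.symm (hj2 b)
        · exact absurd hab (hj2 a)
        · exact Fin.castLE_injective hle hab
    have h3 := (hL f hf).ne_zero i
    rw [hi] at h3
    exact h3 h1
  set G1 : MvPolynomial (Fin (n + 1)) k := G * ∏ j, lin (L j) with hG1
  have hG10 : G1 ≠ 0 := mul_ne_zero hG (Finset.prod_ne_zero_iff.mpr fun j _ => hL0 j)
  set G2 : MvPolynomial (Fin (n + 1)) k := bind₁ (fun i => lin (B i)) G1 with hG2
  have hevG2 : ∀ y, eval y G2 = eval (B.mulVec y) G1 := by
    intro y
    have h1 : (fun i => (aeval y) (lin (B i))) = B.mulVec y := by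
      funext i
      exact eval_lin' (B i) y
    have h2 := MvPolynomial.aeval_bind₁ y (fun i => lin (B i)) G1
    rw [← hG2] at h2
    have h3 : (aeval (B.mulVec y)) G1 = eval (B.mulVec y) G1 := rfl
    have h4 : (aeval y) G2 = eval y G2 := rfl
    rw [← h3, ← h4, ← h1]
    exact h2
  have hG20 : G2 ≠ 0 := by
    intro h
    apply hG10
    refine MvPolynomial.funext fun x => ?_
    have h1 := hevG2 (A.mulVec x)
    rw [Matrix.mulVec_mulVec, hBA, Matrix.one_mulVec, h, map_zero] at h1
    rw [← h1, map_zero]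
  -- constants
  obtain ⟨C0, hC0⟩ : ∃ C0 : ℝ, ∀ y : Fin (n + 1) → k, logHeight (B.mulVec y) ≤ C0 + logHeight y := by
    have := fun y => logHeight_linearMap_apply_le (fun p : Fin (n + 1) × Fin (n + 1) => B p.1 p.2) y
    exact ⟨_, fun y => this y⟩
  choose K hK0 hK using fun v : Place k => sup_mulVec_le v A
  set C1 : ℝ := ∑ v ∈ S, ∑ j : Fin (n + 2), |expAt v * (Real.log (K v) +
    Real.log (absAt v (κ j)))| with hC1
  set C2 : ℝ := ∑ v ∈ S, ∑ j : Fin r, |expAt v * Real.log (bd (lin (L (Fin.natAdd (n + 2) j))) v)|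
    with hC2
  obtain ⟨y, hGy, hplanes, hlt⟩ := sharp hn S hS hG20 (C + (n + 1) * C0 + C1 + C2)
  set x := B.mulVec y with hx
  have hAx : A.mulVec x = y := by
    rw [hx, Matrix.mulVec_mulVec, hAB, Matrix.one_mulVec]
  rw [hevG2, ← hx, hG1, map_mul, map_prod] at hGy
  have hGx : eval x G ≠ 0 := left_ne_zero_of_mul hGy
  have hLx : ∀ j, dot (L j) x ≠ 0 := by
    intro j
    have := Finset.prod_ne_zero_iff.mp (right_ne_zero_of_mul hGy) j (Finset.mem_univ j)
    rwa [eval_lin'] at this
  have hx0 : x ≠ 0 := ne_zero_of_dot (hLx (Fin.castAdd r 0))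
  refine ⟨x, hGx, hLx, ?_⟩
  have hy0 : y ≠ 0 := by
    intro h
    apply hx0
    rw [hx, h, Matrix.mulVec_zero]
  have h1 : ∀ v ∈ S, ∀ j : Fin (n + 2), locHt v (lin (planes k n j)) y -
      |expAt v * (Real.log (K v) + Real.log (absAt v (κ j)))| ≤
      locHt v (lin (L (Fin.castAdd r j))) x := by
    intro v _ j
    rw [locHt_lin v (hplanes j), locHt_lin v (hLx _)]
    have e1 : dot (L (Fin.castAdd r j)) x = κ j * dot (planes k n j) y := by
      rw [hdot j x, hAx]
    rw [e1, absAt_mul, Real.log_mul (absAt_pos v (hκ j)).ne' (absAt_pos v (hplanes j)).ne']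
    have e2 := hK v x
    rw [hAx] at e2
    have e3 := Real.log_le_log (sup_pos v hy0) e2
    rw [Real.log_mul (hK0 v).ne' (sup_pos v hx0).ne'] at e3
    have e4 := le_abs_self (expAt v * (Real.log (K v) + Real.log (absAt v (κ j))))
    have e5 := mul_le_mul_of_nonneg_left e3 (Nat.cast_nonneg (α := ℝ) (expAt v))
    nlinarith
  have h2 : ∀ v ∈ S, ∀ j : Fin r,
      -|expAt v * Real.log (bd (lin (L (Fin.natAdd (n + 2) j))) v)| ≤
      locHt v (lin (L (Fin.natAdd (n + 2) j))) x := by
    intro v _ j
    refine (neg_le_neg (le_abs_self _)).trans (locHt_ge (lin_hom _) v hx0 ?_)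
    rw [eval_lin']; exact hLx _
  have h3 : ∑ v ∈ S, ∑ j, locHt v (lin (planes k n j)) y - C1 - C2 ≤
      ∑ v ∈ S, ∑ j, locHt v (lin (L j)) x := by
    rw [hC1, hC2, ← Finset.sum_sub_distrib, ← Finset.sum_sub_distrib]
    refine Finset.sum_le_sum fun v hv => ?_
    rw [Fin.sum_univ_add (fun j => locHt v (lin (L j)) x)]
    have q1 := Finset.sum_le_sum fun j (_ : j ∈ Finset.univ) => h1 v hv j
    have q2 := Finset.sum_le_sum fun j (_ : j ∈ Finset.univ) => h2 v hv j
    rw [Finset.sum_sub_distrib] at q1
    rw [Finset.sum_neg_distrib] at q2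
    linarith
  have h4 := hC0 y
  rw [← hx] at h4
  have h5 : ((n : ℝ) + 1) * logHeight x ≤ (n + 1) * (C0 + logHeight y) :=
    mul_le_mul_of_nonneg_left h4 (by positivity)
  nlinarith

/-- **Dichotomy.** -/
theorem dichotomy {n : ℕ} (hn : 1 ≤ n) (S : Finset (Place k)) {q : ℕ}
    (L : Fin q → Fin (n + 1) → k)
    (hL : ∀ f : Fin (n + 1) → Fin q, Injective f → LinearIndependent k (fun i => L (f i))) :
    (∃ (G : MvPolynomial (Fin (n + 1)) k) (d : ℕ) (C : ℝ), G ≠ 0 ∧ G.IsHomogeneous d ∧
      ∀ x : Fin (n + 1) → k, x ≠ 0 → eval x G ≠ 0 → (∀ j, dot (L j) x ≠ 0) →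
        ∑ v ∈ S, ∑ j, locHt v (lin (L j)) x ≤ (n + 1) * logHeight x + C) ↔
      (S.card ≤ 2 ∨ q ≤ n + 1) := by
  classical
  constructor
  · rintro ⟨G, d, C, hG, _, h⟩
    by_contra hcon
    push Not at hcon
    obtain ⟨hS, hq⟩ := hcon
    obtain ⟨x, hGx, hLx, hlt⟩ := sharp_general hn S (by omega) (by omega) L hL hG C
    have hx0 : x ≠ 0 := ne_zero_of_dot (hLx ⟨0, by omega⟩)
    exact absurd (h x hx0 hGx hLx) (not_le.mpr hlt)
  · rintro (hS | hq)
    · obtain ⟨Z, C, hZ, h⟩ := two_places S hS L hL
      refine ⟨∏ l ∈ Z, lin l, ∑ l ∈ Z, 1, C, ?_, ?_, ?_⟩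
      · rw [Finset.prod_ne_zero_iff]
        intro l hl h0
        apply hZ l hl
        funext i
        have := eval_lin' l (Pi.single i 1)
        rw [h0, map_zero] at this
        have h2 : dot l (Pi.single i 1) = l i := by
          unfold dot
          rw [Finset.sum_eq_single i]
          · simp
          · intro b _ hb; simp [hb]
          · intro h; exact absurd (Finset.mem_univ i) h
        rw [← h2, ← this]; rfl
      · exact IsHomogeneous.prod Z _ _ fun l _ => lin_hom l
      · intro x hx hGx hLx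
        refine h x hx trivial hLx fun l hl => ?_
        rw [map_prod] at hGx
        have := Finset.prod_ne_zero_iff.mp hGx l hl
        rwa [eval_lin'] at this
    · refine ⟨1, 0, ∑ j, |Real.log (lconst (lin (L j)))|, one_ne_zero, isHomogeneous_one _ _, ?_⟩
      intro x hx _ hLx
      rw [Finset.sum_comm]
      have h1 : ∑ j, ∑ v ∈ S, locHt v (lin (L j)) x ≤
          ∑ j, (logHeight x + |Real.log (lconst (lin (L j)))|) :=
        Finset.sum_le_sum fun j _ => (lin_liouville S (hLx j)).trans
          (by linarith [le_abs_self (Real.log (lconst (lin (L j))))])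
      rw [Finset.sum_add_distrib, Finset.sum_const, Finset.card_univ, Fintype.card_fin,
        nsmul_eq_mul] at h1
      have h2 : (q : ℝ) ≤ n + 1 := by exact_mod_cast hq
      have h3 := logHeight_nonneg x
      nlinarith

end Pool.Agent.Lib.MP_17a322_nt
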