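import Mathlib
import Pool.Agent.Lib.MP_17a322_nt.Proj.DegSum

/-!
Vojta's inequality with `ε = 0` on complete intersections of small degree: the case in which the
components of `D` that pass through a family of local points have small total degree.
-/

namespace Pool.Agent.Lib.MP_17a322_nt.LocalDegreeCriterion

open NumberField MvPolynomial Pool.Agent.Lib.MP_17a322_nt.Proj

/-- `X ⊆ P^N` is given by forms `G 1, …, G m` of degrees `e 1, …, e m`, and `D` by forms
`F 1, …, F r` of degrees `d 1, …, d r`. `L v` is a locally compact extension of `(K, |·|_v)`,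
such as `K_v`. -/
theorem result {K : Type*} [Field K] [NumberField K] {N m r : ℕ} (S : Finset (Place K))
    (L : Place K → Type*) [∀ v, NormedField (L v)] [∀ v, ProperSpace (L v)]
    [∀ v, Algebra K (L v)] (hL : ∀ v ∈ S, ∀ a : K, ‖algebraMap K (L v) a‖ = absv v a)
    (e : Fin m → ℕ) (G : Fin m → MvPolynomial (Fin (N + 1)) K)
    (hG : ∀ j, (G j).IsHomogeneous (e j))
    (d : Fin r → ℕ) (F : Fin r → MvPolynomial (Fin (N + 1)) K)
    (hF : ∀ i, (F i).IsHomogeneous (d i))
    (H : ∀ Q : (v : Place K) → Fin (N + 1) → L v,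
      (∀ v ∈ S, Q v ≠ 0 ∧ ∀ j, aeval (Q v) (G j) = 0) →
      ∀ I : Finset (Fin r), (∀ i ∈ I, ∃ v ∈ S, aeval (Q v) (F i) = 0) →
        ∑ i ∈ I, d i + ∑ j, e j ≤ N + 1) :
    ∃ C : ℝ, ∀ x : Fin (N + 1) → K, x ≠ 0 → (∀ j, eval x (G j) = 0) →
      (∀ i, eval x (F i) ≠ 0) →
        ∑ i, proximity S (d i) (F i) x + (∑ j, (e j : ℝ) - (N + 1)) * height x ≤ C := by
  classical
  by_cases he : ∑ j, e j ≤ N + 1
  · obtain ⟨C, hC⟩ := degree_sum (K := K) S L hL (Set.range G)
      (by rintro _ ⟨j, rfl⟩; exact ⟨e j, hG j⟩) F hF (N + 1 - ∑ j, e j) (by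
        intro Q hQ I hI
        have := H Q (fun v hv => ⟨(hQ v hv).1, fun j => (hQ v hv).2 _ ⟨j, rfl⟩⟩) I hI
        omega)
    refine ⟨C, fun x hx hxX hne => ?_⟩
    have h1 := hC x hx (by rintro _ ⟨j, rfl⟩; exact hxX j) hne
    rw [Nat.cast_sub he] at h1
    push_cast at h1
    linarith
  · refine ⟨0, fun x hx hxX hne => ?_⟩
    exfalso
    apply he
    have := H (fun v => emb (L v) x) (fun v _ => ⟨?_, fun j => ?_⟩) ∅ (by simp)
    · simpa using this
    · intro h0
      apply hx
      funext i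
      have h2 : algebraMap K (L v) (x i) = 0 := congrFun h0 i
      exact (map_eq_zero _).1 h2
    · rw [aeval_emb, hxX j, map_zero]

end Pool.Agent.Lib.MP_17a322_nt.LocalDegreeCriterion
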