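import Mathlib
import Pool.Agent.Lib.MP_17a322_nt.Dichotomy

/-!
# Curves with a contact of order `n`

For distinct exponents `t₀, …, tₙ` there are nonzero coefficients `a₀, …, aₙ` such that
`∑ aᵢ u^{tᵢ}` vanishes at `u = 1` to the order `n`.
-/

namespace Pool.Agent.Lib.MP_17a322_nt

open NumberField MvPolynomial Height Function

variable {k : Type*} [Field k] [NumberField k]

omit [NumberField k] in
lemma exists_coeff [CharZero k] {n : ℕ} (t : Fin (n + 1) → ℕ) (ht : Injective t) :
    ∃ a : Fin (n + 1) → k, (∀ i, a i ≠ 0) ∧ ∀ m < n, ∑ i, a i * (t i : k) ^ m = 0 := by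
  classical
  let A : (Fin (n + 1) → k) →ₗ[k] (Fin n → k) :=
    Fintype.linearCombination k (fun i : Fin (n + 1) => fun m : Fin n => (t i : k) ^ (m : ℕ))
  have hker : LinearMap.ker A ≠ ⊥ := by
    apply LinearMap.ker_ne_bot_of_finrank_lt
    rw [Module.finrank_fintype_fun_eq_card, Module.finrank_fintype_fun_eq_card]
    simp
  obtain ⟨a, ha, ha0⟩ := (Submodule.ne_bot_iff _).mp hker
  have ham : ∀ m < n, ∑ i, a i * (t i : k) ^ m = 0 := by
    intro m hm
    have h1 : A a = 0 := LinearMap.mem_ker.mp ha
    have h2 := congrFun h1 ⟨m, hm⟩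
    rw [Fintype.linearCombination_apply, Finset.sum_apply] at h2
    simpa using h2
  refine ⟨a, ?_, ham⟩
  intro i₀ hi₀
  apply ha0
  have hv : (fun j : Fin n => a (i₀.succAbove j)) = 0 := by
    refine Matrix.eq_zero_of_forall_pow_sum_mul_pow_eq_zero
      (f := fun j : Fin n => (t (i₀.succAbove j) : k)) ?_ ?_
    · intro j j' hj
      have h3 : t (i₀.succAbove j) = t (i₀.succAbove j') := Nat.cast_injective (R := k) hj
      exact Fin.succAbove_right_injective (ht h3)
    · intro m
      have h3 := ham m m.2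
      rw [Fin.sum_univ_succAbove _ i₀, hi₀, zero_mul, zero_add] at h3
      exact h3
  funext i
  by_cases hi : i = i₀
  · rw [hi, hi₀]; rfl
  · obtain ⟨j, rfl⟩ := Fin.exists_succAbove_eq hi
    exact congrFun hv j

omit [NumberField k] in
lemma sum_choose [CharZero k] {n : ℕ} {t : Fin (n + 1) → ℕ} {a : Fin (n + 1) → k}
    (ha : ∀ m < n, ∑ i, a i * (t i : k) ^ m = 0) {m : ℕ} (hm : m < n) :
    ∑ i, a i * ((t i).choose m : k) = 0 := by
  have h1 : ∑ i, a i * (descPochhammer k m).eval (t i : k) = 0 := by
    have h2 : ∀ x : k, (descPochhammer k m).eval x =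
        ∑ j ∈ Finset.range n, (descPochhammer k m).coeff j * x ^ j := by
      intro x
      apply Polynomial.eval_eq_sum_range'
      rw [descPochhammer_natDegree]
      exact hm
    simp only [h2, Finset.mul_sum]
    rw [Finset.sum_comm]
    refine Finset.sum_eq_zero fun j hj => ?_
    have h3 := ha j (Finset.mem_range.mp hj)
    have h4 : ∑ i, a i * ((descPochhammer k m).coeff j * (t i : k) ^ j) =
        (descPochhammer k m).coeff j * ∑ i, a i * (t i : k) ^ j := by
      rw [Finset.mul_sum]
      exact Finset.sum_congr rfl fun i _ => by ring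
    rw [h4, h3, mul_zero]
  have h2 : ∀ i, (descPochhammer k m).eval (t i : k) = (m.factorial : k) * ((t i).choose m : k) := by
    intro i
    rw [descPochhammer_eval_eq_descFactorial, Nat.descFactorial_eq_factorial_mul_choose]
    push_cast
    ring
  simp only [h2] at h1
  have h3 : ∑ i, a i * ((m.factorial : k) * ((t i).choose m : k)) =
      (m.factorial : k) * ∑ i, a i * ((t i).choose m : k) := by
    rw [Finset.mul_sum]
    exact Finset.sum_congr rfl fun i _ => by ring
  rw [h3] at h1
  have h4 : (m.factorial : k) ≠ 0 := by exact_mod_cast m.factorial_ne_zero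
  exact (mul_eq_zero.mp h1).resolve_left h4

lemma absAt_sum_le (v : Place k) {ι : Type*} (s : Finset ι) (f : ι → k) :
    absAt v (∑ i ∈ s, f i) ≤ ∑ i ∈ s, absAt v (f i) := by
  classical
  induction s using Finset.induction_on with
  | empty => simp [absAt_zero]
  | insert a s ha ih =>
    rw [Finset.sum_insert ha, Finset.sum_insert ha]
    exact (absAt_add_le v _ _).trans (add_le_add le_rfl ih)

/-- contact of order `n` at `u = 1` -/
lemma contact {n : ℕ} {t : Fin (n + 1) → ℕ} {a : Fin (n + 1) → k}
    (ha : ∀ m < n, ∑ i, a i * (t i : k) ^ m = 0) (w : Place k) :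
    ∃ K : ℝ, 0 < K ∧ ∀ u : k, absAt w (u - 1) ≤ 1 →
      absAt w (dot a (fun i => u ^ t i)) ≤ K * absAt w (u - 1) ^ n := by
  classical
  set T : ℕ := ∑ i, t i with hT
  have htT : ∀ i, t i ≤ T := fun i => Finset.single_le_sum (fun _ _ => Nat.zero_le _)
    (Finset.mem_univ i)
  set c : ℕ → k := fun m => ∑ i, a i * ((t i).choose m : k) with hc
  have hsum0 : 0 ≤ ∑ m ∈ Finset.range (T + 1), absAt w (c m) :=
    Finset.sum_nonneg fun m _ => absAt_nonneg _ _
  refine ⟨∑ m ∈ Finset.range (T + 1), absAt w (c m) + 1, by linarith, fun u hu => ?_⟩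
  have h1 : dot a (fun i => u ^ t i) = ∑ m ∈ Finset.range (T + 1), (u - 1) ^ m * c m := by
    have h2 : ∀ i, u ^ t i = ∑ m ∈ Finset.range (T + 1), (u - 1) ^ m * ((t i).choose m : k) := by
      intro i
      have h3 : u ^ t i = ((u - 1) + 1) ^ t i := by rw [sub_add_cancel]
      rw [h3, add_pow]
      have h4 : Finset.range (t i + 1) ⊆ Finset.range (T + 1) :=
        Finset.range_subset_range.mpr (by have := htT i; omega)
      rw [← Finset.sum_subset h4]
      · refine Finset.sum_congr rfl fun m _ => ?_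
        rw [one_pow, mul_one]
      · intro m _ hm
        rw [Finset.mem_range, not_lt] at hm
        rw [Nat.choose_eq_zero_of_lt (by omega), Nat.cast_zero, mul_zero]
    unfold dot
    simp only [h2, Finset.mul_sum, hc]
    rw [Finset.sum_comm]
    refine Finset.sum_congr rfl fun m _ => Finset.sum_congr rfl fun i _ => by ring
  rw [h1]
  have h0 := absAt_nonneg w (u - 1)
  calc absAt w (∑ m ∈ Finset.range (T + 1), (u - 1) ^ m * c m)
      ≤ ∑ m ∈ Finset.range (T + 1), absAt w ((u - 1) ^ m * c m) := absAt_sum_le w _ _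
    _ ≤ ∑ m ∈ Finset.range (T + 1), absAt w (c m) * absAt w (u - 1) ^ n := by
        refine Finset.sum_le_sum fun m _ => ?_
        rcases Nat.lt_or_ge m n with hm | hm
        · have h2 : c m = 0 := sum_choose ha hm
          rw [h2, mul_zero, absAt_zero, zero_mul]
        · rw [absAt_mul, absAt_pow, mul_comm]
          exact mul_le_mul_of_nonneg_left (pow_le_pow_of_le_one h0 hu hm) (absAt_nonneg _ _)
    _ = (∑ m ∈ Finset.range (T + 1), absAt w (c m)) * absAt w (u - 1) ^ n := by
        rw [Finset.sum_mul]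
    _ ≤ (∑ m ∈ Finset.range (T + 1), absAt w (c m) + 1) * absAt w (u - 1) ^ n := by
        apply mul_le_mul_of_nonneg_right _ (pow_nonneg h0 n)
        linarith

/-! ### Kronecker substitution with coefficients -/

lemma exists_avoid {n : ℕ} (W : Finset (Fin (n + 1) → ℚ)) (hW : ∀ l ∈ W, l ≠ 0) :
    ∃ t : Fin (n + 1) → ℕ, ∀ l ∈ W, dot l (fun i => (t i : ℚ)) ≠ 0 := by
  classical
  have hlin : ∀ l : Fin (n + 1) → ℚ, l ≠ 0 → lin l ≠ 0 := by
    intro l hl h
    apply hl
    funext i
    have := eval_lin' l (Pi.single i 1)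
    rw [h, map_zero] at this
    have h2 : dot l (Pi.single i 1) = l i := by
      unfold dot
      rw [Finset.sum_eq_single i]
      · simp
      · intro b _ hb; simp [hb]
      · intro h; exact absurd (Finset.mem_univ i) h
    rw [← h2, ← this]; rfl
  have hprod : (∏ l ∈ W, lin l : MvPolynomial (Fin (n + 1)) ℚ) ≠ 0 :=
    Finset.prod_ne_zero_iff.mpr fun l hl => hlin l (hW l hl)
  have hinf : (Set.range fun m : ℕ => (m : ℚ)).Infinite :=
    Set.infinite_range_of_injective Nat.cast_injective
  have hex : ∃ t : Fin (n + 1) → ℕ,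
      eval (fun i => (t i : ℚ)) (∏ l ∈ W, lin l : MvPolynomial (Fin (n + 1)) ℚ) ≠ 0 := by
    by_contra hcon
    push Not at hcon
    apply hprod
    refine MvPolynomial.funext_set (fun _ => Set.range fun m : ℕ => (m : ℚ))
      (fun _ => hinf) ?_
    intro x hx
    have h1 : ∀ i, ∃ m : ℕ, (m : ℚ) = x i := fun i => hx i (Set.mem_univ i)
    choose t ht using h1
    have h2 : x = fun i => (t i : ℚ) := funext fun i => (ht i).symm
    rw [h2, hcon t, map_zero]
  obtain ⟨t, ht⟩ := hex
  refine ⟨t, fun l hl => ?_⟩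
  rw [map_prod] at ht
  have := Finset.prod_ne_zero_iff.mp ht l hl
  rwa [eval_lin'] at this

omit [NumberField k] in
lemma exists_subst2 {n : ℕ} {F : MvPolynomial (Fin (n + 1)) k} (hF : F ≠ 0) :
    ∃ t : Fin (n + 1) → ℕ, Injective t ∧ ∀ s : Fin (n + 1) → k, (∀ i, s i ≠ 0) →
      ∃ R : Finset k, ∀ u ∉ R, eval (fun i => s i * u ^ t i) F ≠ 0 := by
  classical
  set W : Finset (Fin (n + 1) → ℚ) :=
    ((F.support ×ˢ F.support).image fun p => fun i => ((p.1 i : ℚ) - (p.2 i : ℚ))).erase 0 ∪
      ((Finset.univ : Finset (Fin (n + 1) × Fin (n + 1))).image fun p =>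
        (Pi.single p.1 1 - Pi.single p.2 1 : Fin (n + 1) → ℚ)).erase 0 with hWdef
  have hW0 : ∀ l ∈ W, l ≠ 0 := by
    intro l hl
    rcases Finset.mem_union.mp hl with h | h
    · exact Finset.ne_of_mem_erase h
    · exact Finset.ne_of_mem_erase h
  obtain ⟨t, ht⟩ := exists_avoid W hW0
  have hdots : ∀ (i : Fin (n + 1)) (x : Fin (n + 1) → ℚ),
      dot (Pi.single i 1) x = x i := by
    intro i x
    unfold dot
    rw [Finset.sum_eq_single i]
    · simp
    · intro b _ hb; simp [hb]
    · intro h; exact absurd (Finset.mem_univ i) h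
  refine ⟨t, ?_, ?_⟩
  · intro i j hij
    by_contra hne
    have hmem : (Pi.single i 1 - Pi.single j 1 : Fin (n + 1) → ℚ) ∈ W := by
      apply Finset.mem_union_right
      rw [Finset.mem_erase]
      refine ⟨?_, Finset.mem_image.mpr ⟨(i, j), Finset.mem_univ _, rfl⟩⟩
      intro h
      have := congrFun h i
      simp [hne] at this
    apply ht _ hmem
    have h1 : dot (Pi.single i 1 - Pi.single j 1 : Fin (n + 1) → ℚ) (fun i => (t i : ℚ)) =
        (t i : ℚ) - t j := by
      rw [← hdots i (fun i => (t i : ℚ)), ← hdots j (fun i => (t i : ℚ))]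
      unfold dot
      rw [← Finset.sum_sub_distrib]
      exact Finset.sum_congr rfl fun m _ => by rw [Pi.sub_apply]; ring
    rw [h1, hij, sub_self]
  · intro s hs
    have hwt : ∀ p ∈ F.support, ∀ q ∈ F.support, ∑ i, p i * t i = ∑ i, q i * t i → p = q := by
      intro p hp q hq h
      by_contra hne
      have hmem : (fun i => ((p i : ℚ) - (q i : ℚ))) ∈ W := by
        apply Finset.mem_union_left
        rw [Finset.mem_erase]
        refine ⟨?_, Finset.mem_image.mpr ⟨(p, q), Finset.mem_product.mpr ⟨hp, hq⟩, rfl⟩⟩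
        intro h0
        apply hne
        ext i
        have := congrFun h0 i
        rw [Pi.zero_apply, sub_eq_zero] at this
        exact_mod_cast this
      apply ht _ hmem
      have h1 : dot (fun i => ((p i : ℚ) - (q i : ℚ))) (fun i => (t i : ℚ)) =
          ((∑ i, p i * t i : ℕ) : ℚ) - ((∑ i, q i * t i : ℕ) : ℚ) := by
        unfold dot
        push_cast
        rw [← Finset.sum_sub_distrib]
        exact Finset.sum_congr rfl fun m _ => by ring
      rw [h1, h, sub_self]
    let P : Polynomial k := ∑ p ∈ F.support,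
      Polynomial.C (F.coeff p * ∏ i, s i ^ p i) * Polynomial.X ^ (∑ i, p i * t i)
    have hP : ∀ u : k, Polynomial.eval u P = eval (fun i => s i * u ^ t i) F := by
      intro u
      rw [MvPolynomial.eval_eq', Polynomial.eval_finsetSum]
      refine Finset.sum_congr rfl fun p _ => ?_
      rw [Polynomial.eval_mul, Polynomial.eval_C, Polynomial.eval_pow, Polynomial.eval_X,
        mul_assoc]
      congr 1
      rw [← Finset.prod_pow_eq_pow_sum, ← Finset.prod_mul_distrib]
      refine Finset.prod_congr rfl fun i _ => ?_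
      rw [mul_pow, ← pow_mul, mul_comm (t i)]
    have hP0 : P ≠ 0 := by
      obtain ⟨p₀, hp₀⟩ := MvPolynomial.support_nonempty.mpr hF
      intro h
      have h1 : P.coeff (∑ i, p₀ i * t i) = F.coeff p₀ * ∏ i, s i ^ p₀ i := by
        rw [Polynomial.finsetSum_coeff, Finset.sum_eq_single p₀]
        · rw [Polynomial.coeff_C_mul_X_pow, if_pos rfl]
        · intro p hp hne
          rw [Polynomial.coeff_C_mul_X_pow, if_neg]
          intro h2
          exact hne (hwt p hp p₀ hp₀ h2.symm)
        · intro h2; exact absurd hp₀ h2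
      rw [h, Polynomial.coeff_zero] at h1
      have h2 : F.coeff p₀ * ∏ i, s i ^ p₀ i ≠ 0 :=
        mul_ne_zero (MvPolynomial.mem_support_iff.mp hp₀)
          (Finset.prod_ne_zero_iff.mpr fun i _ => pow_ne_zero _ (hs i))
      exact h2 h1.symm
    refine ⟨P.roots.toFinset, fun u hu h => hu ?_⟩
    rw [Multiset.mem_toFinset, Polynomial.mem_roots hP0, Polynomial.IsRoot, hP u, h]

/-! ### Coordinates -/

omit [NumberField k] in
/-- `n + 2` forms in general position. -/
lemma exists_coords2 {n : ℕ} (L : Fin (n + 2) → Fin (n + 1) → k)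
    (hL : ∀ f : Fin (n + 1) → Fin (n + 2), Injective f → LinearIndependent k (fun i => L (f i))) :
    ∃ (A B : Matrix (Fin (n + 1)) (Fin (n + 1)) k) (c : Fin (n + 1) → k), A * B = 1 ∧
      (∀ j, c j ≠ 0) ∧ (∀ i x, dot (L (Fin.castSucc i)) x = A.mulVec x i) ∧
      ∀ x, dot (L (Fin.last (n + 1))) x = ∑ i, c i * A.mulVec x i := by
  classical
  have hb : LinearIndependent k (fun i : Fin (n + 1) => L (Fin.castSucc i)) :=
    hL _ (Fin.castSucc_injective _)
  let b : Module.Basis (Fin (n + 1)) k (Fin (n + 1) → k) :=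
    basisOfLinearIndependentOfCardEqFinrank hb (by simp)
  have hbi : ∀ i, b i = L (Fin.castSucc i) := by
    intro i
    simp [b]
  set c : Fin (n + 1) → k := fun i => b.repr (L (Fin.last (n + 1))) i with hc
  have hsum : ∑ i, c i • L (Fin.castSucc i) = L (Fin.last (n + 1)) := by
    have := b.sum_repr (L (Fin.last (n + 1)))
    simpa [hbi] using this
  have hc0 : ∀ i, c i ≠ 0 := by
    intro i hi
    have hf : Injective (fun j : Fin (n + 1) => if j = i then Fin.last (n + 1)
        else Fin.castSucc j) := by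
      intro j j' h
      simp only at h
      split_ifs at h with h1 h2 h2
      · rw [h1, h2]
      · exact absurd h.symm (Fin.castSucc_lt_last _).ne
      · exact absurd h (Fin.castSucc_lt_last _).ne
      · exact Fin.castSucc_injective _ h
    have hli := Fintype.linearIndependent_iff.mp (hL _ hf) (fun j => if j = i then 1 else - c j) ?_ i
    · simp at hli
    · rw [← Finset.add_sum_erase _ _ (Finset.mem_univ i)]
      simp only [if_true, one_smul]
      rw [← hsum, ← Finset.add_sum_erase _ _ (Finset.mem_univ i), hi, zero_smul, zero_add,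
        ← Finset.sum_add_distrib]
      refine Finset.sum_eq_zero fun j hj => ?_
      have hji : j ≠ i := Finset.ne_of_mem_erase hj
      simp [hji]
  set A : Matrix (Fin (n + 1)) (Fin (n + 1)) k := Matrix.of fun i => L (Fin.castSucc i) with hA
  have hAli : LinearIndependent k A.row := hb
  have hAu : IsUnit A := Matrix.linearIndependent_rows_iff_isUnit.mp hAli
  have hAB : A * A⁻¹ = 1 := Matrix.mul_nonsing_inv A ((Matrix.isUnit_iff_isUnit_det A).mp hAu)
  refine ⟨A, A⁻¹, c, hAB, hc0, fun i x => rfl, fun x => ?_⟩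
  have e2 : dot (L (Fin.last (n + 1))) x = ∑ i, c i * dot (L (Fin.castSucc i)) x := by
    rw [← hsum]
    unfold dot
    simp only [Finset.sum_apply, Pi.smul_apply, smul_eq_mul, Finset.sum_mul, Finset.mul_sum]
    rw [Finset.sum_comm]
    simp only [mul_assoc]
  rw [e2]
  rfl

end Pool.Agent.Lib.MP_17a322_nt
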