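import Mathlib
import Pool.Agent.Lib.MP_17a322_nt.Sharp

/-!
# Units close to `1` at one place: a quantitative version

By the pigeonhole principle there are, for every large `N`, units `u ≠ 1` outside `S` (and
infinity) of logarithmic size `O(N)`, bounded above and below outside `S`, such that
`[k_w : ℝ] log |u - 1|_w ≤ -(|S| - 2) log N + O(1)`, where `w` is a given place of `S`.
-/

namespace Pool.Agent.Lib.MP_17a322_nt

open NumberField MvPolynomial Height Function

variable {k : Type*} [Field k] [NumberField k]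

lemma log_sunit (S : Finset (Place k)) (e : Gen S → ℤ) (v : Place k) :
    Real.log (absAt v (sunit S e)) = ∑ g, (e g : ℝ) * Real.log (absAt v (gen S g)) := by
  unfold sunit
  rw [absAt_prod, Real.log_prod]
  · refine Finset.sum_congr rfl fun i _ => ?_
    rw [absAt_zpow, Real.log_zpow]
  · intro i _
    exact (absAt_pos _ (zpow_ne_zero _ (gen_ne_zero S i))).ne'

lemma sunit_sub (S : Finset (Place k)) (e e' : Gen S → ℤ) :
    sunit S (fun g => e g - e' g) = sunit S e * (sunit S e')⁻¹ := by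
  unfold sunit
  rw [← Finset.prod_inv_distrib, ← Finset.prod_mul_distrib]
  refine Finset.prod_congr rfl fun g _ => ?_
  rw [zpow_sub₀ (gen_ne_zero S g), div_eq_mul_inv]

lemma gen_out (S : Finset (Place k)) (q : FinitePlace k) (hq : Sum.inr q ∉ S) (g : Gen S) :
    absAt (Sum.inr q) (gen S g) = 1 := by
  match g with
  | .inl i => exact gen_inl_eq S i q
  | .inr p =>
    refine gen_inr_eq S p q ?_
    rintro rfl
    exact hq p.2

lemma exists_B (S : Finset (Place k)) : ∃ B : ℕ, 1 ≤ B ∧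
    ∀ v : Place k, ∑ g, |Real.log (absAt v (gen S g))| ≤ B := by
  classical
  set T : Finset (Place k) := S ∪ Finset.univ.image Sum.inl with hT
  have h0 : ∀ v : Place k, 0 ≤ ∑ g, |Real.log (absAt v (gen S g))| := fun v =>
    Finset.sum_nonneg fun g _ => abs_nonneg _
  obtain ⟨B, hB⟩ := exists_nat_ge (∑ v ∈ T, ∑ g, |Real.log (absAt v (gen S g))|)
  refine ⟨B + 1, by omega, fun v => ?_⟩
  push_cast
  by_cases hv : v ∈ T
  · have := Finset.single_le_sum (f := fun v => ∑ g, |Real.log (absAt v (gen S g))|)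
      (fun v _ => h0 v) hv
    linarith
  · have hvS : v ∉ S := fun h => hv (Finset.mem_union_left _ h)
    match v with
    | .inl w => exact absurd (Finset.mem_union_right _ (Finset.mem_image_of_mem _
        (Finset.mem_univ w))) hv
    | .inr q =>
      have : ∀ g, absAt (Sum.inr q) (gen S g) = 1 := gen_out S q hvS
      simp only [this, Real.log_one, abs_zero, Finset.sum_const_zero]
      positivity

lemma log_sunit_le (S : Finset (Place k)) {B : ℕ}
    (hB : ∀ v : Place k, ∑ g, |Real.log (absAt v (gen S g))| ≤ B) (e : Gen S → ℤ) {N : ℝ}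
    (hN : 0 ≤ N) (he : ∀ g, |(e g : ℝ)| ≤ N) (v : Place k) :
    |Real.log (absAt v (sunit S e))| ≤ N * B := by
  rw [log_sunit]
  calc |∑ g, (e g : ℝ) * Real.log (absAt v (gen S g))|
      ≤ ∑ g, |(e g : ℝ) * Real.log (absAt v (gen S g))| := Finset.abs_sum_le_sum_abs _ _
    _ ≤ ∑ g, N * |Real.log (absAt v (gen S g))| := by
        refine Finset.sum_le_sum fun g _ => ?_
        rw [abs_mul]
        exact mul_le_mul_of_nonneg_right (he g) (abs_nonneg _)
    _ = N * ∑ g, |Real.log (absAt v (gen S g))| := by rw [Finset.mul_sum]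
    _ ≤ N * B := mul_le_mul_of_nonneg_left (hB v) hN

/-! ### Choice of the precision -/

lemma exists_m {Q e a N : ℕ} (hQ : 1 ≤ Q) (he : 1 ≤ e) (hN : Q < N ^ a) :
    ∃ m : ℕ, 1 ≤ m ∧ Q * m ^ e < N ^ a ∧ N ^ a ≤ Q * 2 ^ e * m ^ e := by
  classical
  have hex : ∃ m : ℕ, N ^ a ≤ Q * m ^ e := by
    refine ⟨N ^ a, ?_⟩
    have h1 : N ^ a ≤ (N ^ a) ^ e := Nat.le_self_pow (by omega) _
    calc N ^ a ≤ (N ^ a) ^ e := h1
      _ = 1 * (N ^ a) ^ e := (one_mul _).symm
      _ ≤ Q * (N ^ a) ^ e := Nat.mul_le_mul_right _ hQ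
  set m' := Nat.find hex with hm'
  have h1 : N ^ a ≤ Q * m' ^ e := Nat.find_spec hex
  have h2 : 2 ≤ m' := by
    by_contra hcon
    have h3 : m' = 0 ∨ m' = 1 := by omega
    rcases h3 with h3 | h3
    · rw [h3, zero_pow (by omega), mul_zero] at h1
      omega
    · rw [h3, one_pow, mul_one] at h1
      omega
  refine ⟨m' - 1, by omega, ?_, ?_⟩
  · have := Nat.find_min hex (m := m' - 1) (by omega)
    exact not_le.mp this
  · have h3 : m' ≤ 2 * (m' - 1) := by omega
    calc N ^ a ≤ Q * m' ^ e := h1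
      _ ≤ Q * (2 * (m' - 1)) ^ e := Nat.mul_le_mul_left _ (Nat.pow_le_pow_left h3 _)
      _ = Q * 2 ^ e * (m' - 1) ^ e := by rw [mul_pow, mul_assoc]

lemma exists_r {Q c a N : ℕ} (hQ : 1 ≤ Q) (hc : 2 ≤ c) (hN : Q < N ^ a) :
    ∃ r : ℕ, Q * c ^ r < N ^ a ∧ N ^ a ≤ Q * c ^ (r + 1) := by
  classical
  have hex : ∃ r : ℕ, N ^ a ≤ Q * c ^ r := by
    refine ⟨N ^ a, ?_⟩
    have h1 : N ^ a ≤ c ^ (N ^ a) := (Nat.lt_pow_self (by omega)).le
    calc N ^ a ≤ c ^ (N ^ a) := h1
      _ = 1 * c ^ (N ^ a) := (one_mul _).symm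
      _ ≤ Q * c ^ (N ^ a) := Nat.mul_le_mul_right _ hQ
  set r' := Nat.find hex with hr'
  have h1 : N ^ a ≤ Q * c ^ r' := Nat.find_spec hex
  have h2 : 1 ≤ r' := by
    by_contra hcon
    have h3 : r' = 0 := by omega
    rw [h3, pow_zero, mul_one] at h1
    omega
  refine ⟨r' - 1, ?_, ?_⟩
  · have := Nat.find_min hex (m := r' - 1) (by omega)
    exact not_le.mp this
  · have h3 : r' - 1 + 1 = r' := by omega
    rw [h3]
    exact h1

/-! ### The pigeonhole principle -/

/-- infinite places outside `S` -/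
abbrev OutInf (S : Finset (Place k)) := {v : InfinitePlace k // Sum.inl v ∉ S}

noncomputable instance (S : Finset (Place k)) : Fintype (OutInf S) := by
  classical
  infer_instance

lemma card_gen (S : Finset (Place k)) :
    Fintype.card (Gen S) + 1 = S.card + Fintype.card (OutInf S) := by
  classical
  have h0 : 0 < Fintype.card (InfinitePlace k) := Fintype.card_pos
  have hG : Fintype.card (Gen S) = Units.rank k +
      Fintype.card {p : FinitePlace k // Sum.inr p ∈ S} := by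
    rw [Fintype.card_sum, Fintype.card_fin]
  have hr : Units.rank k = Fintype.card (InfinitePlace k) - 1 := rfl
  have h1 : S.card = Fintype.card {v : InfinitePlace k // Sum.inl v ∈ S} +
      Fintype.card {p : FinitePlace k // Sum.inr p ∈ S} := by
    rw [← Fintype.card_coe S, ← Fintype.card_sum]
    refine Fintype.card_congr ?_
    refine
      { toFun := fun v => match v with
          | ⟨.inl w, h⟩ => Sum.inl ⟨w, h⟩
          | ⟨.inr w, h⟩ => Sum.inr ⟨w, h⟩
        invFun := fun v => match v with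
          | .inl w => ⟨.inl w.1, w.2⟩
          | .inr w => ⟨.inr w.1, w.2⟩
        left_inv := ?_
        right_inv := ?_ }
    · rintro ⟨v | v, h⟩ <;> rfl
    · rintro (v | v) <;> rfl
  have h2 : Fintype.card (OutInf S) = Fintype.card (InfinitePlace k) -
      Fintype.card {v : InfinitePlace k // Sum.inl v ∈ S} := by
    exact Fintype.card_subtype_compl _
  have h3 : Fintype.card {v : InfinitePlace k // Sum.inl v ∈ S} ≤
      Fintype.card (InfinitePlace k) := Fintype.card_subtype_le _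
  omega

/-- exponent vectors -/
abbrev Box (S : Finset (Place k)) (N : ℕ) := Gen S → Fin N

/-- the unit of an exponent vector -/
noncomputable def bunit (S : Finset (Place k)) {N : ℕ} (e : Box S N) : k :=
  sunit S (fun g => ((e g : ℕ) : ℤ))

lemma bunit_ne_zero (S : Finset (Place k)) {N : ℕ} (e : Box S N) : bunit S e ≠ 0 :=
  sunit_ne_zero S _

lemma log_bunit_le (S : Finset (Place k)) {B : ℕ}
    (hB : ∀ v : Place k, ∑ g, |Real.log (absAt v (gen S g))| ≤ B) {N : ℕ} (e : Box S N)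
    (v : Place k) : |Real.log (absAt v (bunit S e))| ≤ N * B := by
  refine log_sunit_le S hB _ (Nat.cast_nonneg _) (fun g => ?_) v
  have h1 : ((e g : ℕ) : ℝ) ≤ N := by exact_mod_cast (e g).2.le
  have h2 : (0 : ℝ) ≤ ((e g : ℕ) : ℝ) := Nat.cast_nonneg _
  push_cast
  rw [abs_of_nonneg h2]
  exact h1

/-- bins for real numbers of absolute value at most `A` -/
lemma floor_bin {A : ℕ} {x : ℝ} (hx : |x| ≤ A) : (⌊x⌋ + A).toNat < 2 * A + 1 := by
  have h1 : (⌊x⌋ : ℝ) ≤ x := Int.floor_le x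
  have h2 : ⌊x⌋ ≤ A := by
    have h3 : (⌊x⌋ : ℝ) ≤ ((A : ℤ) : ℝ) := by
      push_cast
      linarith [le_abs_self x]
    exact_mod_cast h3
  omega

lemma floor_bin_inj {A : ℕ} {x y : ℝ} (hx : |x| ≤ A) (hy : |y| ≤ A)
    (h : (⌊x⌋ + A).toNat = (⌊y⌋ + A).toNat) : ⌊x⌋ = ⌊y⌋ := by
  have h1 : -(A : ℤ) ≤ ⌊x⌋ := by
    rw [Int.le_floor]
    push_cast
    linarith [neg_abs_le x]
  have h2 : -(A : ℤ) ≤ ⌊y⌋ := by
    rw [Int.le_floor]
    push_cast
    linarith [neg_abs_le y]
  omega

lemma abs_sub_le_of_floor {x y : ℝ} (h : ⌊x⌋ = ⌊y⌋) : |x - y| ≤ 1 := by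
  have := Int.abs_sub_lt_one_of_floor_eq_floor h
  exact this.le

/-- Two different exponent vectors in the same class. -/
lemma pigeon (S : Finset (Place k)) {B : ℕ}
    (hB : ∀ v : Place k, ∑ g, |Real.log (absAt v (gen S g))| ≤ B) {N : ℕ}
    {γ : Type*} [Fintype γ] (c : Box S N → γ)
    (hc : (2 * (N * B) + 1) ^ Fintype.card (OutInf S) * Fintype.card γ <
      N ^ Fintype.card (Gen S)) :
    ∃ e e' : Box S N, e ≠ e' ∧ c e = c e' ∧ ∀ v : OutInf S,
      |Real.log (absAt (Sum.inl v.1) (bunit S e)) - Real.log (absAt (Sum.inl v.1) (bunit S e'))| ≤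
        1 := by
  classical
  have hb : ∀ (e : Box S N) (v : Place k),
      |Real.log (absAt v (bunit S e))| ≤ ((N * B : ℕ) : ℝ) := by
    intro e v
    have := log_bunit_le S hB e v
    push_cast
    exact this
  let f : Box S N → (OutInf S → Fin (2 * (N * B) + 1)) × γ := fun e =>
    (fun v => ⟨(⌊Real.log (absAt (Sum.inl v.1) (bunit S e))⌋ + ((N * B : ℕ) : ℤ)).toNat,
      floor_bin (hb e _)⟩, c e)
  have hcard : Fintype.card ((OutInf S → Fin (2 * (N * B) + 1)) × γ) <
      Fintype.card (Box S N) := by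
    rw [Fintype.card_prod, Fintype.card_fun, Fintype.card_fun, Fintype.card_fin, Fintype.card_fin]
    exact hc
  obtain ⟨e, e', hne, heq⟩ := Fintype.exists_ne_map_eq_of_card_lt f hcard
  have h1 := (Prod.mk.inj heq).1
  have h2 := (Prod.mk.inj heq).2
  refine ⟨e, e', hne, h2, fun v => ?_⟩
  have h3 := congrFun h1 v
  have h4 := (Fin.mk.inj_iff.mp h3)
  exact abs_sub_le_of_floor (floor_bin_inj (hb e _) (hb e' _) h4)

/-- the quotient of two units of a box -/
lemma quot_props (S : Finset (Place k)) {B : ℕ}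
    (hB : ∀ v : Place k, ∑ g, |Real.log (absAt v (gen S g))| ≤ B) {N : ℕ}
    {e e' : Box S N} (hne : e ≠ e') (h : ∀ v : OutInf S,
      |Real.log (absAt (Sum.inl v.1) (bunit S e)) - Real.log (absAt (Sum.inl v.1) (bunit S e'))| ≤
        1) {u : k} (hu : u = bunit S e * (bunit S e')⁻¹) :
    u ≠ 0 ∧ u ≠ 1 ∧ (∀ p : FinitePlace k, Sum.inr p ∉ S → p u = 1) ∧
      (∀ v : Place k, v ∉ S → |Real.log (absAt v u)| ≤ 1) ∧
      (∀ v : Place k, |Real.log (absAt v u)| ≤ 2 * B * N) := by
  have h0 := bunit_ne_zero S e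
  have h0' := bunit_ne_zero S e'
  have hlog : ∀ v : Place k, Real.log (absAt v u) =
      Real.log (absAt v (bunit S e)) - Real.log (absAt v (bunit S e')) := by
    intro v
    have h3 : absAt v ((bunit S e')⁻¹) = (absAt v (bunit S e'))⁻¹ := by
      have := absAt_zpow v (bunit S e') (-1)
      simpa using this
    rw [hu, absAt_mul, h3, Real.log_mul (absAt_pos v h0).ne'
      (inv_ne_zero (absAt_pos v h0').ne'), Real.log_inv]
    ring
  have hfin : ∀ p : FinitePlace k, Sum.inr p ∉ S → p u = 1 := by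
    intro p hp
    have h1 : p (bunit S e) = 1 := sunit_out S _ p hp
    have h2 : p (bunit S e') = 1 := sunit_out S _ p hp
    rw [hu, map_mul, map_inv₀, h1, h2, inv_one, mul_one]
  refine ⟨?_, ?_, hfin, ?_, ?_⟩
  · rw [hu]
    exact mul_ne_zero h0 (inv_ne_zero h0')
  · intro h1
    apply hne
    have h2 : bunit S e = bunit S e' := by
      rw [hu] at h1
      have := congrArg (fun z => z * bunit S e') h1
      simpa [mul_assoc, inv_mul_cancel₀ h0'] using this
    have h3 := sunit_injective S h2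
    funext g
    have h4 := congrFun h3 g
    apply Fin.ext
    exact_mod_cast h4
  · intro v hv
    match v with
    | .inl w =>
      rw [hlog]
      exact h ⟨w, hv⟩
    | .inr p =>
      have : absAt (Sum.inr p) u = 1 := hfin p hv
      rw [this, Real.log_one, abs_zero]
      exact zero_le_one
  · intro v
    rw [hlog]
    have q1 := log_bunit_le S hB e v
    have q2 := log_bunit_le S hB e' v
    have := abs_sub (Real.log (absAt v (bunit S e))) (Real.log (absAt v (bunit S e')))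
    linarith

/-- the numerical condition of the pigeonhole principle -/
lemma pigeon_card (S : Finset (Place k)) (hS : 2 ≤ S.card) {B N X Q : ℕ} (hB : 1 ≤ B)
    (hN : 1 ≤ N) (hQ : (3 * B) ^ (Fintype.card (OutInf S) + 1) ≤ Q)
    (h : Q * X < N ^ (S.card - 2)) :
    (2 * (N * B) + 1) ^ Fintype.card (OutInf S) * ((2 * (N * B) + 1) * X) <
      N ^ Fintype.card (Gen S) := by
  have hc := card_gen S
  set i := Fintype.card (OutInf S) with hi
  have h1 : Fintype.card (Gen S) = (i + 1) + (S.card - 2) := by omega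
  have hNB : 1 ≤ N * B := Nat.mul_pos hN hB
  have h2 : 2 * (N * B) + 1 ≤ 3 * B * N := by nlinarith
  calc (2 * (N * B) + 1) ^ i * ((2 * (N * B) + 1) * X)
      = (2 * (N * B) + 1) ^ (i + 1) * X := by rw [pow_succ]; ring
    _ ≤ (3 * B * N) ^ (i + 1) * X := Nat.mul_le_mul_right _ (Nat.pow_le_pow_left h2 _)
    _ = N ^ (i + 1) * ((3 * B) ^ (i + 1) * X) := by rw [mul_pow]; ring
    _ ≤ N ^ (i + 1) * (Q * X) := Nat.mul_le_mul_left _ (Nat.mul_le_mul_right _ hQ)
    _ < N ^ (i + 1) * N ^ (S.card - 2) := Nat.mul_lt_mul_of_pos_left h (pow_pos hN _)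
    _ = N ^ Fintype.card (Gen S) := by rw [h1, ← pow_add]

/-- **Units close to `1` at the place `w`.** -/
def Near (S : Finset (Place k)) (w : Place k) : Prop :=
  ∃ (M : ℝ) (N0 : ℕ), 0 ≤ M ∧ ∀ N : ℕ, N0 ≤ N → ∃ u : k, u ≠ 0 ∧ u ≠ 1 ∧
    (∀ p : FinitePlace k, Sum.inr p ∉ S → p u = 1) ∧
    (∀ v : Place k, v ∉ S → |Real.log (absAt v u)| ≤ M) ∧
    (∀ v : Place k, |Real.log (absAt v u)| ≤ M * N) ∧
    expAt w * Real.log (absAt w (u - 1)) ≤ -(((S.card : ℝ) - 2) * Real.log N) + M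

lemma exists_pow_gt (Q a : ℕ) (ha : 1 ≤ a) : ∃ N0 : ℕ, 1 ≤ N0 ∧ ∀ N, N0 ≤ N → Q < N ^ a := by
  refine ⟨Q + 1, by omega, fun N hN => ?_⟩
  calc Q < N := by omega
    _ ≤ N ^ a := Nat.le_self_pow (by omega) _

/-- the scaled point of the complex plane -/
noncomputable def zpt (w : InfinitePlace k) (u : k) : ℂ :=
  w.embedding u * ((Real.exp (-(⌊Real.log (w u)⌋ : ℝ)) : ℝ) : ℂ)

omit [NumberField k] in
lemma norm_zpt (w : InfinitePlace k) {u : k} (hu : u ≠ 0) :
    1 ≤ ‖zpt w u‖ ∧ ‖zpt w u‖ ≤ 3 := by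
  have h0 : 0 < w u := w.pos_iff.mpr hu
  have h1 : ‖zpt w u‖ = Real.exp (Real.log (w u) - ⌊Real.log (w u)⌋) := by
    unfold zpt
    rw [norm_mul, w.norm_embedding_eq, Complex.norm_real, Real.norm_eq_abs,
      abs_of_pos (Real.exp_pos _), sub_eq_add_neg, Real.exp_add, Real.exp_log h0]
  rw [h1]
  have h2 := Int.floor_le (Real.log (w u))
  have h3 := Int.lt_floor_add_one (Real.log (w u))
  constructor
  · exact Real.one_le_exp (by linarith)
  · have h4 : Real.exp (Real.log (w u) - ⌊Real.log (w u)⌋) ≤ Real.exp 1 :=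
      Real.exp_le_exp.mpr (by linarith)
    have h5 := Real.exp_one_lt_d9
    linarith

lemma coord_bound (z : ℂ) (hz : ‖z‖ ≤ 3) (m : ℕ) :
    |(m : ℝ) * z.re| ≤ ((3 * m : ℕ) : ℝ) ∧ |(m : ℝ) * z.im| ≤ ((3 * m : ℕ) : ℝ) := by
  have h1 := (Complex.abs_re_le_norm z).trans hz
  have h2 := (Complex.abs_im_le_norm z).trans hz
  have h0 : (0 : ℝ) ≤ m := Nat.cast_nonneg m
  push_cast
  rw [abs_mul, abs_mul, abs_of_nonneg h0]
  constructor <;> nlinarith

lemma near_inf (S : Finset (Place k)) (hS : 3 ≤ S.card) (w : InfinitePlace k) :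
    Near S (Sum.inl w) := by
  classical
  obtain ⟨B, hB1, hB⟩ := exists_B S
  set i := Fintype.card (OutInf S) with hi
  set Q : ℕ := (3 * B) ^ (i + 1) * 7 ^ w.mult with hQ
  have hQ1 : 1 ≤ Q := Nat.mul_pos (pow_pos (by omega) _) (pow_pos (by norm_num) _)
  have hmult : 1 ≤ w.mult := w.mult_pos
  obtain ⟨N0, hN01, hN0⟩ := exists_pow_gt Q (S.card - 2) (by omega)
  have hM1 : (0 : ℝ) ≤ Real.log ((Q * 2 ^ w.mult : ℕ) : ℝ) :=
    Real.log_natCast_nonneg _
  refine ⟨2 * B + 1 + w.mult * Real.log 2 + Real.log ((Q * 2 ^ w.mult : ℕ) : ℝ), N0, ?_, ?_⟩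
  · have := Real.log_nonneg (show (1 : ℝ) ≤ 2 by norm_num)
    positivity
  intro N hN
  have hN1 : 1 ≤ N := hN01.trans hN
  obtain ⟨m, hm1, hm2, hm3⟩ := exists_m (e := w.mult) hQ1 hmult (hN0 N hN)
  -- the bins
  have hmb : ∀ (e : Box S N) , |Real.log (w (bunit S e))| ≤ ((N * B : ℕ) : ℝ) := by
    intro e
    have := log_bunit_le S hB e (Sum.inl w)
    push_cast
    exact this
  have hz3 : ∀ e : Box S N, ‖zpt w (bunit S e)‖ ≤ 3 := fun e =>
    (norm_zpt w (bunit_ne_zero S e)).2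
  let c : Box S N → Fin (2 * (N * B) + 1) × (Fin w.mult → Fin (2 * (3 * m) + 1)) := fun e =>
    (⟨(⌊Real.log (w (bunit S e))⌋ + ((N * B : ℕ) : ℤ)).toNat, floor_bin (hmb e)⟩,
      fun t => if t.val = 0 then
        ⟨(⌊(m : ℝ) * (zpt w (bunit S e)).re⌋ + ((3 * m : ℕ) : ℤ)).toNat,
          floor_bin (coord_bound _ (hz3 e) m).1⟩
      else ⟨(⌊(m : ℝ) * (zpt w (bunit S e)).im⌋ + ((3 * m : ℕ) : ℤ)).toNat,
          floor_bin (coord_bound _ (hz3 e) m).2⟩)
  have hcard : (2 * (N * B) + 1) ^ Fintype.card (OutInf S) *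
      Fintype.card (Fin (2 * (N * B) + 1) × (Fin w.mult → Fin (2 * (3 * m) + 1))) <
      N ^ Fintype.card (Gen S) := by
    rw [Fintype.card_prod, Fintype.card_fun, Fintype.card_fin, Fintype.card_fin,
      Fintype.card_fin]
    refine pigeon_card S (by omega) hB1 hN1 (Q := (3 * B) ^ (i + 1)) le_rfl ?_
    have h1 : (2 * (3 * m) + 1) ^ w.mult ≤ (7 * m) ^ w.mult :=
      Nat.pow_le_pow_left (by omega) _
    calc (3 * B) ^ (i + 1) * (2 * (3 * m) + 1) ^ w.mult
        ≤ (3 * B) ^ (i + 1) * (7 * m) ^ w.mult := Nat.mul_le_mul_left _ h1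
      _ = Q * m ^ w.mult := by rw [hQ, mul_pow]; ring
      _ < N ^ (S.card - 2) := hm2
  obtain ⟨e, e', hne, hcc, hout⟩ := pigeon S hB c hcard
  set u : k := bunit S e * (bunit S e')⁻¹ with hu
  obtain ⟨q1, q2, q3, q4, q5⟩ := quot_props S hB hne hout hu
  have hlog2 := Real.log_nonneg (show (1 : ℝ) ≤ 2 by norm_num)
  have hext : (0 : ℝ) ≤ w.mult * Real.log 2 := mul_nonneg (Nat.cast_nonneg _) hlog2
  refine ⟨u, q1, q2, q3, ?_, ?_, ?_⟩
  · intro v hv
    have := q4 v hv
    have hB0 : (0 : ℝ) ≤ B := Nat.cast_nonneg B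
    linarith
  · intro v
    refine (q5 v).trans ?_
    have hN0' : (0 : ℝ) ≤ N := Nat.cast_nonneg N
    apply mul_le_mul_of_nonneg_right _ hN0'
    linarith
  · -- closeness
    have hfl : ⌊Real.log (w (bunit S e))⌋ = ⌊Real.log (w (bunit S e'))⌋ := by
      have h1 := (Prod.mk.inj hcc).1
      exact floor_bin_inj (hmb e) (hmb e') (Fin.mk.inj_iff.mp h1)
    have hfun := (Prod.mk.inj hcc).2
    have hm0 : (0 : ℝ) < m := by exact_mod_cast hm1
    have hre : |(zpt w (bunit S e)).re - (zpt w (bunit S e')).re| ≤ 1 / m := by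
      have h1 := congrFun hfun ⟨0, by omega⟩
      simp only [if_true] at h1
      have h2 := floor_bin_inj (coord_bound _ (hz3 e) m).1 (coord_bound _ (hz3 e') m).1
        (Fin.mk.inj_iff.mp h1)
      have h3 := abs_sub_le_of_floor h2
      rw [← mul_sub, abs_mul, abs_of_pos hm0] at h3
      rw [le_div_iff₀ hm0]
      linarith
    have him : |(zpt w (bunit S e)).im - (zpt w (bunit S e')).im| ≤ 1 / m := by
      rcases w.isReal_or_isComplex with hr | hc
      · have h1 : ∀ a : k, (zpt w a).im = 0 := by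
          intro a
          unfold zpt
          rw [← InfinitePlace.embedding_of_isReal_apply hr a, ← Complex.ofReal_mul,
            Complex.ofReal_im]
        rw [h1, h1, sub_zero, abs_zero]
        positivity
      · have hm2' : w.mult = 2 := InfinitePlace.mult_isComplex ⟨w, hc⟩
        have h1 := congrFun hfun ⟨1, by omega⟩
        simp only [one_ne_zero, if_false] at h1
        have h2 := floor_bin_inj (coord_bound _ (hz3 e) m).2 (coord_bound _ (hz3 e') m).2
          (Fin.mk.inj_iff.mp h1)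
        have h3 := abs_sub_le_of_floor h2
        rw [← mul_sub, abs_mul, abs_of_pos hm0] at h3
        rw [le_div_iff₀ hm0]
        linarith
    have hzz : ‖zpt w (bunit S e) - zpt w (bunit S e')‖ ≤ 2 / m := by
      refine (Complex.norm_le_abs_re_add_abs_im _).trans ?_
      rw [Complex.sub_re, Complex.sub_im]
      have : (2 : ℝ) / m = 1 / m + 1 / m := by ring
      linarith
    have hb0 := bunit_ne_zero S e'
    have hwu : w (u - 1) = ‖zpt w (bunit S e) - zpt w (bunit S e')‖ / ‖zpt w (bunit S e')‖ := by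
      have h1 : u - 1 = (bunit S e - bunit S e') * (bunit S e')⁻¹ := by
        rw [hu, sub_mul, mul_inv_cancel₀ hb0]
      have h2 : zpt w (bunit S e) - zpt w (bunit S e') =
          w.embedding (bunit S e - bunit S e') *
            ((Real.exp (-(⌊Real.log (w (bunit S e'))⌋ : ℝ)) : ℝ) : ℂ) := by
        unfold zpt
        rw [hfl, map_sub, sub_mul]
      have h3 : zpt w (bunit S e') = w.embedding (bunit S e') *
            ((Real.exp (-(⌊Real.log (w (bunit S e'))⌋ : ℝ)) : ℝ) : ℂ) := rfl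
      rw [h2, h3, norm_mul, norm_mul, w.norm_embedding_eq, w.norm_embedding_eq, h1, map_mul,
        map_inv₀, div_eq_mul_inv, mul_inv]
      have h4 : (0 : ℝ) < ‖((Real.exp (-(⌊Real.log (w (bunit S e'))⌋ : ℝ)) : ℝ) : ℂ)‖ := by
        rw [Complex.norm_real, Real.norm_eq_abs, abs_of_pos (Real.exp_pos _)]
        exact Real.exp_pos _
      field_simp
    have hlt : w (u - 1) ≤ 2 / m := by
      rw [hwu]
      have h1 := (norm_zpt w hb0).1
      calc ‖zpt w (bunit S e) - zpt w (bunit S e')‖ / ‖zpt w (bunit S e')‖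
          ≤ ‖zpt w (bunit S e) - zpt w (bunit S e')‖ := div_le_self (norm_nonneg _) h1
        _ ≤ 2 / m := hzz
    have hpos : 0 < w (u - 1) := w.pos_iff.mpr (sub_ne_zero.mpr q2)
    have h1 := Real.log_le_log hpos hlt
    rw [Real.log_div (by norm_num) hm0.ne'] at h1
    have h2 : (((S.card : ℝ) - 2)) * Real.log N ≤
        Real.log ((Q * 2 ^ w.mult : ℕ) : ℝ) + w.mult * Real.log m := by
      have h3 : ((N ^ (S.card - 2) : ℕ) : ℝ) ≤ ((Q * 2 ^ w.mult * m ^ w.mult : ℕ) : ℝ) := by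
        exact_mod_cast hm3
      have h4 := Real.log_le_log (by
        have : 0 < N ^ (S.card - 2) := pow_pos (by omega) _
        exact_mod_cast this) h3
      rw [Nat.cast_mul (Q * 2 ^ w.mult), Real.log_mul (by
        have : 0 < Q * 2 ^ w.mult := Nat.mul_pos hQ1 (pow_pos (by norm_num) _)
        exact_mod_cast this.ne') (by
        have : 0 < m ^ w.mult := pow_pos (by omega) _
        exact_mod_cast this.ne'), Nat.cast_pow, Nat.cast_pow, Real.log_pow, Real.log_pow] at h4
      have h5 : ((S.card - 2 : ℕ) : ℝ) = (S.card : ℝ) - 2 := by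
        rw [Nat.cast_sub (by omega)]
        norm_num
      rw [h5] at h4
      exact h4
    have h3 : expAt (Sum.inl w : Place k) * Real.log (absAt (Sum.inl w) (u - 1)) ≤
        w.mult * (Real.log 2 - Real.log m) :=
      mul_le_mul_of_nonneg_left h1 (Nat.cast_nonneg _)
    have hB0 : (0 : ℝ) ≤ B := Nat.cast_nonneg B
    have h6 : (w.mult : ℝ) * (Real.log 2 - Real.log m) =
        w.mult * Real.log 2 - w.mult * Real.log m := by ring
    rw [h6] at h3
    linarith

/-- the generators as integers -/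
noncomputable def geni (S : Finset (Place k)) : Gen S → 𝓞 k
  | .inl i => ((Units.fundSystem k i : (𝓞 k)ˣ) : 𝓞 k)
  | .inr p => (exists_pi p.1).choose

lemma coe_geni (S : Finset (Place k)) (g : Gen S) : ((geni S g : 𝓞 k) : k) = gen S g := by
  match g with
  | .inl i => rfl
  | .inr p => rfl

omit [NumberField k] in
lemma coe_prod_int {ι : Type*} (s : Finset ι) (f : ι → 𝓞 k) :
    ((∏ g ∈ s, f g : 𝓞 k) : k) = ∏ g ∈ s, (f g : k) :=
  map_prod (algebraMap (𝓞 k) k) f s

omit [NumberField k] in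
lemma coe_pow_int (a : 𝓞 k) (n : ℕ) : ((a ^ n : 𝓞 k) : k) = (a : k) ^ n :=
  map_pow (algebraMap (𝓞 k) k) a n

open Classical in
/-- the part of the unit prime to `g₀` -/
noncomputable def xpart (S : Finset (Place k)) {N : ℕ} (g₀ : Gen S) (e : Box S N) : 𝓞 k :=
  ∏ g ∈ Finset.univ.erase g₀, geni S g ^ (e g : ℕ)

lemma bunit_eq (S : Finset (Place k)) {N : ℕ} (g₀ : Gen S) (e : Box S N) :
    bunit S e = gen S g₀ ^ (e g₀ : ℕ) * ((xpart S g₀ e : 𝓞 k) : k) := by
  classical
  unfold bunit sunit xpart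
  rw [← Finset.mul_prod_erase _ _ (Finset.mem_univ g₀), coe_prod_int]
  congr 1
  · exact zpow_natCast _ _
  · refine Finset.prod_congr rfl fun g _ => ?_
    rw [zpow_natCast, coe_pow_int, coe_geni]

lemma abs_xpart (S : Finset (Place k)) {N : ℕ} (q : {p : FinitePlace k // Sum.inr p ∈ S})
    (e : Box S N) : q.1 ((xpart S (Sum.inr q) e : 𝓞 k) : k) = 1 := by
  classical
  unfold xpart
  rw [coe_prod_int, map_prod]
  refine Finset.prod_eq_one fun g hg => ?_
  have hg' : g ≠ Sum.inr q := Finset.ne_of_mem_erase hg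
  rw [coe_pow_int, map_pow]
  have h1 : q.1 ((geni S g : 𝓞 k) : k) = 1 := by
    rw [coe_geni]
    match g, hg' with
    | .inl i, _ => exact gen_inl_eq S i q.1
    | .inr p, hg' =>
      refine gen_inr_eq S p q.1 ?_
      intro h
      apply hg'
      congr 1
      exact Subtype.ext h.symm
  rw [h1, one_pow]

lemma abs_pi (w : FinitePlace k) {a : 𝓞 k} (ha : a ≠ 0)
    (h : ∀ q : FinitePlace k, q ≠ w → q (a : k) = 1) :
    w (a : k) = ((Ideal.absNorm (Ideal.span {a}) : ℕ) : ℝ)⁻¹ := by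
  have h1 := FinitePlace.prod_eq_inv_abs_norm_int ha
  rw [finprod_eq_single _ w h] at h1
  rw [h1, Ideal.absNorm_span_singleton, Nat.cast_natAbs, Int.cast_abs]

lemma near_fin (S : Finset (Place k)) (hS : 3 ≤ S.card) (w : FinitePlace k)
    (hw : Sum.inr w ∈ S) : Near S (Sum.inr w) := by
  classical
  obtain ⟨B, hB1, hB⟩ := exists_B S
  set i := Fintype.card (OutInf S) with hi
  set q : {p : FinitePlace k // Sum.inr p ∈ S} := ⟨w, hw⟩ with hq
  set π : 𝓞 k := geni S (Sum.inr q) with hπ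
  have hπk : (π : k) = gen S (Sum.inr q) := coe_geni S _
  have hπ0 : π ≠ 0 := by
    intro h
    apply gen_ne_zero S (Sum.inr q)
    rw [← hπk, h]
    rfl
  set c : ℕ := Ideal.absNorm (Ideal.span {π}) with hc
  have hwπ : w (π : k) = (c : ℝ)⁻¹ := by
    refine abs_pi w hπ0 fun p hp => ?_
    rw [hπk]
    exact gen_inr_eq S q p hp
  have hlt1 : w (π : k) < 1 := by
    rw [hπk]
    exact gen_inr_lt S q
  have hpos : 0 < w (π : k) := FinitePlace.pos_iff.mpr (by
    rw [hπk]
    exact gen_ne_zero S _)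
  have hc2 : 2 ≤ c := by
    rw [hwπ] at hlt1 hpos
    have h0 : (0 : ℝ) < c := inv_pos.mp hpos
    have h1 : (1 : ℝ) < c := (inv_lt_one₀ h0).mp hlt1
    have h2 : 1 < c := by exact_mod_cast h1
    omega
  obtain ⟨Q, hQ⟩ : ∃ Q : ℕ, Q = (3 * B) ^ (i + 1) := ⟨_, rfl⟩
  have hQ1 : 1 ≤ Q := by
    rw [hQ]
    exact Nat.one_le_pow _ _ (by omega)
  obtain ⟨N0, hN01, hN0⟩ := exists_pow_gt Q (S.card - 2) (by omega)
  have hlogQ : (0 : ℝ) ≤ Real.log Q := Real.log_natCast_nonneg _
  have hlogc : (0 : ℝ) ≤ Real.log c := Real.log_natCast_nonneg _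
  have hB0 : (0 : ℝ) ≤ B := Nat.cast_nonneg B
  refine ⟨2 * B + 1 + Real.log Q + Real.log c, N0, by positivity, ?_⟩
  intro N hN
  have hN1 : 1 ≤ N := hN01.trans hN
  obtain ⟨r, hr2, hr3⟩ := exists_r hQ1 hc2 (hN0 N hN)
  have hfin : Finite (𝓞 k ⧸ Ideal.span {π ^ r}) :=
    Ideal.finiteQuotientOfFreeOfNeBot _ (by simpa using pow_ne_zero r hπ0)
  let _ : Fintype (𝓞 k ⧸ Ideal.span {π ^ r}) := Fintype.ofFinite _
  have hcardq : Fintype.card (𝓞 k ⧸ Ideal.span {π ^ r}) = c ^ r := by
    have h1 : Ideal.absNorm (Ideal.span {π ^ r}) = c ^ r := by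
      rw [← Ideal.span_singleton_pow, map_pow]
    rw [← h1, Ideal.absNorm_apply, Submodule.cardQuot_apply, Nat.card_eq_fintype_card]
  let f : Box S N → Fin N × (𝓞 k ⧸ Ideal.span {π ^ r}) := fun e =>
    (e (Sum.inr q), Ideal.Quotient.mk _ (xpart S (Sum.inr q) e))
  have hcard : (2 * (N * B) + 1) ^ Fintype.card (OutInf S) *
      Fintype.card (Fin N × (𝓞 k ⧸ Ideal.span {π ^ r})) < N ^ Fintype.card (Gen S) := by
    rw [Fintype.card_prod, Fintype.card_fin, hcardq]
    refine lt_of_le_of_lt ?_ (pigeon_card S (by omega) hB1 hN1 (X := c ^ r) (Q := Q) hQ.ge hr2)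
    refine Nat.mul_le_mul_left _ (Nat.mul_le_mul_right _ ?_)
    nlinarith
  obtain ⟨e, e', hne, hcc, hout⟩ := pigeon S hB f hcard
  set u : k := bunit S e * (bunit S e')⁻¹ with hu
  obtain ⟨q1, q2, q3, q4, q5⟩ := quot_props S hB hne hout hu
  refine ⟨u, q1, q2, q3, ?_, ?_, ?_⟩
  · intro v hv
    have := q4 v hv
    linarith
  · intro v
    refine (q5 v).trans ?_
    have hN0' : (0 : ℝ) ≤ N := Nat.cast_nonneg N
    apply mul_le_mul_of_nonneg_right _ hN0'
    linarith
  · have h1 : e (Sum.inr q) = e' (Sum.inr q) := (Prod.mk.inj hcc).1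
    have h2 := (Prod.mk.inj hcc).2
    rw [Ideal.Quotient.eq, Ideal.mem_span_singleton] at h2
    obtain ⟨s, hs⟩ := h2
    have hx' := abs_xpart S q e'
    have hx0 : ((xpart S (Sum.inr q) e' : 𝓞 k) : k) ≠ 0 := by
      intro h
      rw [h, map_zero] at hx'
      exact zero_ne_one hx'
    have hg0 : gen S (Sum.inr q) ^ (e' (Sum.inr q) : ℕ) ≠ 0 := pow_ne_zero _ (gen_ne_zero S _)
    have hsub : (u - 1) * ((xpart S (Sum.inr q) e' : 𝓞 k) : k) = (π : k) ^ r * s := by
      have h3 : ((xpart S (Sum.inr q) e : 𝓞 k) : k) - ((xpart S (Sum.inr q) e' : 𝓞 k) : k) =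
          (π : k) ^ r * s := by
        have := congrArg (fun z : 𝓞 k => (z : k)) hs
        simpa using this
      rw [← h3, hu, bunit_eq S (Sum.inr q) e, bunit_eq S (Sum.inr q) e', h1]
      field_simp
    have hwu : w (u - 1) ≤ w (π : k) ^ r := by
      have h3 := congrArg w hsub
      rw [map_mul, map_mul, map_pow] at h3
      have h4 : w ((xpart S (Sum.inr q) e' : 𝓞 k) : k) = 1 := hx'
      rw [h4, mul_one] at h3
      rw [h3]
      exact mul_le_of_le_one_right (pow_nonneg hpos.le r) (fin_le_one w s)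
    have hposu : 0 < w (u - 1) := FinitePlace.pos_iff.mpr (sub_ne_zero.mpr q2)
    have h5 := Real.log_le_log hposu hwu
    rw [Real.log_pow, hwπ, Real.log_inv] at h5
    have h6 : ((S.card : ℝ) - 2) * Real.log N ≤ Real.log Q + (r + 1) * Real.log c := by
      have h3 : ((N ^ (S.card - 2) : ℕ) : ℝ) ≤ ((Q * c ^ (r + 1) : ℕ) : ℝ) := by
        exact_mod_cast hr3
      have h4 := Real.log_le_log (by
        have : 0 < N ^ (S.card - 2) := pow_pos (by omega) _
        exact_mod_cast this) h3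
      rw [Nat.cast_mul, Real.log_mul (by exact_mod_cast (by omega : Q ≠ 0)) (by
        have : 0 < c ^ (r + 1) := pow_pos (by omega) _
        exact_mod_cast this.ne'), Nat.cast_pow, Nat.cast_pow, Real.log_pow, Real.log_pow] at h4
      have h7 : ((S.card - 2 : ℕ) : ℝ) = (S.card : ℝ) - 2 := by
        rw [Nat.cast_sub (by omega)]
        norm_num
      rw [h7] at h4
      have h8 : ((r + 1 : ℕ) : ℝ) = (r : ℝ) + 1 := by push_cast; ring
      rw [h8] at h4
      exact h4
    have h8 : (expAt (Sum.inr w : Place k) : ℝ) = 1 := by simp [expAt]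
    rw [h8, one_mul]
    show Real.log (w (u - 1)) ≤ _
    linarith

/-- every place of `S` works -/
theorem near_all (S : Finset (Place k)) (hS : 3 ≤ S.card) (w : Place k) (hw : w ∈ S) :
    Near S w := by
  match w with
  | .inl w => exact near_inf S hS w
  | .inr w => exact near_fin S hS w hw

end Pool.Agent.Lib.MP_17a322_nt
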