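import Mathlib
import Pool.Agent.Lib.MP_17a322_nt.LogUnits
import Pool.Agent.Lib.MP_17a322_nt.LogCurve

/-!
# The error term is at least `n (|S| - 2) log h`
-/

namespace Pool.Agent.Lib.MP_17a322_nt

open NumberField MvPolynomial Height Function

variable {k : Type*} [Field k] [NumberField k]

/-- coordinate hyperplanes and the form with coefficients `a` -/
def planesA {k : Type*} [Field k] {n : ℕ} (a : Fin (n + 1) → k) : Fin (n + 2) → Fin (n + 1) → k :=
  Fin.snoc (fun i => Pi.single i 1) a

omit [NumberField k] in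
lemma planesA_castSucc {n : ℕ} (a : Fin (n + 1) → k) (i : Fin (n + 1)) :
    planesA a (Fin.castSucc i) = Pi.single i 1 := by
  unfold planesA
  rw [Fin.snoc_castSucc]

omit [NumberField k] in
lemma planesA_last {n : ℕ} (a : Fin (n + 1) → k) : planesA a (Fin.last (n + 1)) = a := by
  unfold planesA
  rw [Fin.snoc_last]

/-- The estimate for the points `(u^{t₀}, …, u^{tₙ})`. -/
lemma sharp_y {n : ℕ} (S : Finset (Place k)) {w : Place k} (hwS : w ∈ S)
    {t : Fin (n + 1) → ℕ} {a : Fin (n + 1) → k}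
    (ha : ∀ m < n, ∑ i, a i * (t i : k) ^ m = 0) {M : ℝ} (hM : 0 ≤ M) :
    ∃ C : ℝ, 0 ≤ C ∧ ∀ (N D : ℝ) (u : k), 0 ≤ N → u ≠ 0 → u ≠ 1 →
      (∀ p : FinitePlace k, Sum.inr p ∉ S → p u = 1) →
      (∀ v : Place k, v ∉ S → |Real.log (absAt v u)| ≤ M) →
      (∀ v : Place k, |Real.log (absAt v u)| ≤ M * N) →
      expAt w * Real.log (absAt w (u - 1)) ≤ -D + M → absAt w (u - 1) ≤ 1 / 2 →
      dot a (fun i => u ^ t i) ≠ 0 →
      logHeight (fun i => u ^ t i) ≤ C * N ∧
      (n + 1) * logHeight (fun i => u ^ t i) + n * D - C ≤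
        ∑ v ∈ S, ∑ j, locHt v (lin (planesA a j)) (fun i => u ^ t i) := by
  classical
  obtain ⟨K, hK0, hK⟩ := contact ha w
  set T : ℕ := ∑ i, t i with hT
  have htT : ∀ i, t i ≤ T := fun i => Finset.single_le_sum (fun _ _ => Nat.zero_le _)
    (Finset.mem_univ i)
  set B0 : ℝ := ∑ v ∈ ext S \ S, (expAt v : ℝ) * (2 * (T * M)) with hB0
  have hB0n : 0 ≤ B0 := Finset.sum_nonneg fun v _ => by positivity
  set B2 : ℝ := ∑ v ∈ S, |expAt v * Real.log (bd (lin a) v)| with hB2
  have hB2n : 0 ≤ B2 := Finset.sum_nonneg fun v _ => abs_nonneg _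
  set B3 : ℝ := ∑ v ∈ ext S, (expAt v : ℝ) * (2 * (T * M)) with hB3
  have hB3n : 0 ≤ B3 := Finset.sum_nonneg fun v _ => by positivity
  set B4 : ℝ := expAt w * (T * Real.log 2 + |Real.log K|) + n * M with hB4
  have hl2 : 0 ≤ Real.log 2 := Real.log_nonneg (by norm_num)
  have hB4n : 0 ≤ B4 := by positivity
  refine ⟨B3 + (n + 1) * B0 + B2 + B4, by positivity, ?_⟩
  intro N D u hN hu0 hu1 huS huM huN huw hw12 hLx
  set x : Fin (n + 1) → k := fun i => u ^ t i with hx
  have hxi : ∀ i, x i ≠ 0 := fun i => pow_ne_zero _ hu0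
  have hx0 : x ≠ 0 := ne_zero_of_dot hLx
  have hxS : ∀ i, ∀ p : FinitePlace k, Sum.inr p ∉ S → p (x i) = 1 := by
    intro i p hp
    show p (u ^ t i) = 1
    rw [map_pow, huS p hp, one_pow]
  -- a bound at one place
  have hloc : ∀ (v : Place k) (m : Fin (n + 1)) (b : ℝ), 0 ≤ b → |Real.log (absAt v u)| ≤ b →
      locHt v (lin (Pi.single m 1)) x ≤ expAt v * (2 * (T * b)) := by
    intro v m b hb hlog
    have hdm : dot (Pi.single m 1) x ≠ 0 := by rw [dot_single]; exact hxi m
    rw [locHt_lin v hdm, dot_single]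
    apply mul_le_mul_of_nonneg_left _ (Nat.cast_nonneg _)
    have h3 : Real.log (absAt v (x m)) = t m * Real.log (absAt v u) := by
      show Real.log (absAt v (u ^ t m)) = _
      rw [absAt_pow, Real.log_pow]
    have h4 : Real.log (⨆ i, absAt v (x i)) ≤ T * b := by
      obtain ⟨j, hj⟩ := exists_eq_ciSup_of_finite (f := fun i => absAt v (x i))
      rw [← hj]
      show Real.log (absAt v (u ^ t j)) ≤ _
      rw [absAt_pow, Real.log_pow]
      have h5 : (t j : ℝ) ≤ T := by exact_mod_cast htT j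
      have h6 : (t j : ℝ) * Real.log (absAt v u) ≤ t j * b :=
        mul_le_mul_of_nonneg_left ((le_abs_self _).trans hlog) (Nat.cast_nonneg _)
      exact h6.trans (mul_le_mul_of_nonneg_right h5 hb)
    have h7 : -(T * b) ≤ Real.log (absAt v (x m)) := by
      rw [h3]
      have h5 : (t m : ℝ) ≤ T := by exact_mod_cast htT m
      have h6 : (t m : ℝ) * (-b) ≤ t m * Real.log (absAt v u) :=
        mul_le_mul_of_nonneg_left (by linarith [neg_abs_le (Real.log (absAt v u))])
          (Nat.cast_nonneg _)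
      have h8 : (t m : ℝ) * b ≤ T * b := mul_le_mul_of_nonneg_right h5 hb
      linarith
    linarith
  have hcoord : ∀ m : Fin (n + 1), logHeight x - B0 ≤
      ∑ v ∈ S, locHt v (lin (Pi.single m 1)) x := by
    intro m
    have h1 := coord_sum S hxS m (hxi m)
    rw [← Finset.sum_sdiff (subset_ext S)] at h1
    have h2 : ∑ v ∈ ext S \ S, locHt v (lin (Pi.single m 1)) x ≤ B0 :=
      Finset.sum_le_sum fun v hv => hloc v m M hM (huM v (Finset.mem_sdiff.mp hv).2)
    linarith
  refine ⟨?_, ?_⟩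
  · -- the height
    have h1 := coord_sum S hxS 0 (hxi 0)
    have h2 : ∑ v ∈ ext S, locHt v (lin (Pi.single 0 1)) x ≤
        ∑ v ∈ ext S, (expAt v : ℝ) * (2 * (T * (M * N))) :=
      Finset.sum_le_sum fun v _ => hloc v 0 (M * N) (by positivity) (huN v)
    have h3 : ∑ v ∈ ext S, (expAt v : ℝ) * (2 * (T * (M * N))) = B3 * N := by
      rw [hB3, Finset.sum_mul]
      exact Finset.sum_congr rfl fun v _ => by ring
    rw [h1, h3] at h2
    refine h2.trans ?_
    apply mul_le_mul_of_nonneg_right _ hN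
    have : 0 ≤ ((n : ℝ) + 1) * B0 := by positivity
    linarith
  · -- the last form
    have hevl : eval x (lin a) ≠ 0 := by
      rw [eval_lin']; exact hLx
    have hlast : -B2 + (n * D - B4) ≤ ∑ v ∈ S, locHt v (lin a) x := by
      have h1 : ∀ v ∈ S, -|expAt v * Real.log (bd (lin a) v)| ≤ locHt v (lin a) x := by
        intro v _
        exact (neg_le_neg (le_abs_self _)).trans (locHt_ge (lin_hom _) v hx0 hevl)
      rw [← Finset.add_sum_erase S _ hwS]
      have h2 : -B2 ≤ ∑ v ∈ S.erase w, locHt v (lin a) x := by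
        have h3 : ∑ v ∈ S.erase w, -|expAt v * Real.log (bd (lin a) v)| ≤
            ∑ v ∈ S.erase w, locHt v (lin a) x :=
          Finset.sum_le_sum fun v hv => h1 v (Finset.mem_of_mem_erase hv)
        have h4 : ∑ v ∈ S.erase w, |expAt v * Real.log (bd (lin a) v)| ≤ B2 :=
          Finset.sum_le_sum_of_subset_of_nonneg (Finset.erase_subset _ _)
            fun v _ _ => abs_nonneg _
        rw [Finset.sum_neg_distrib] at h3
        linarith
      have h5 : n * D - B4 ≤ locHt w (lin a) x := by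
        rw [locHt_lin w hLx]
        have hw2 : (1 / 2 : ℝ) ≤ absAt w u := by
          have h6 := absAt_sub_le w 1 u
          rw [absAt_one] at h6
          have h7 : absAt w (1 - u) = absAt w (u - 1) := by
            rw [← absAt_neg w (u - 1), neg_sub]
          rw [h7] at h6
          linarith
        have hsup : -(T * Real.log 2) ≤ Real.log (⨆ i, absAt w (x i)) := by
          have h6 : absAt w (x 0) ≤ ⨆ i, absAt w (x i) :=
            Finite.le_ciSup (fun i => absAt w (x i)) 0
          have h7 := Real.log_le_log (absAt_pos w (hxi 0)) h6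
          refine le_trans ?_ h7
          show _ ≤ Real.log (absAt w (u ^ t 0))
          rw [absAt_pow, Real.log_pow]
          have h8 : Real.log (1 / 2) ≤ Real.log (absAt w u) := Real.log_le_log (by norm_num) hw2
          rw [one_div, Real.log_inv] at h8
          have h9 : (t 0 : ℝ) ≤ T := by exact_mod_cast htT 0
          have h11 : (t 0 : ℝ) * (-Real.log 2) ≤ t 0 * Real.log (absAt w u) :=
            mul_le_mul_of_nonneg_left h8 (Nat.cast_nonneg _)
          have h12 : (t 0 : ℝ) * Real.log 2 ≤ T * Real.log 2 :=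
            mul_le_mul_of_nonneg_right h9 hl2
          linarith
        have hpos1 : 0 < absAt w (u - 1) := absAt_pos w (sub_ne_zero.mpr hu1)
        have hdot := Real.log_le_log (absAt_pos w hLx) (hK u (by linarith))
        rw [Real.log_mul hK0.ne' (pow_pos hpos1 n).ne', Real.log_pow] at hdot
        have h13 : -(T * Real.log 2) - (Real.log K + n * Real.log (absAt w (u - 1))) ≤
            Real.log (⨆ i, absAt w (x i)) - Real.log (absAt w (dot a x)) := by linarith
        have h14 := mul_le_mul_of_nonneg_left h13 (Nat.cast_nonneg (α := ℝ) (expAt w))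
        refine le_trans ?_ h14
        have h15 : (expAt w : ℝ) * Real.log K ≤ expAt w * |Real.log K| :=
          mul_le_mul_of_nonneg_left (le_abs_self _) (Nat.cast_nonneg _)
        have h16 : (n : ℝ) * (expAt w * Real.log (absAt w (u - 1))) ≤ n * (-D + M) :=
          mul_le_mul_of_nonneg_left huw (Nat.cast_nonneg _)
        rw [hB4]
        linarith
      linarith
    have hsum : ∑ v ∈ S, ∑ j, locHt v (lin (planesA a j)) x =
        ∑ m : Fin (n + 1), ∑ v ∈ S, locHt v (lin (Pi.single m 1)) x +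
          ∑ v ∈ S, locHt v (lin a) x := by
      rw [Finset.sum_comm, Fin.sum_univ_castSucc, planesA_last]
      congr 1
      exact Finset.sum_congr rfl fun m _ => by rw [planesA_castSucc]
    rw [hsum]
    have h1 := Finset.sum_le_sum fun m (_ : m ∈ Finset.univ) => hcoord m
    rw [Finset.sum_const, Finset.card_univ, Fintype.card_fin, nsmul_eq_mul] at h1
    push_cast at h1
    linarith

/-- **Quantitative sharpness for every arrangement of at least `n + 2` hyperplanes.** -/
theorem sharp_general_log {n : ℕ} (S : Finset (Place k)) (hS : 3 ≤ S.card)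
    {q : ℕ} (hq : n + 2 ≤ q) (L : Fin q → Fin (n + 1) → k)
    (hL : ∀ f : Fin (n + 1) → Fin q, Injective f → LinearIndependent k (fun i => L (f i)))
    {G : MvPolynomial (Fin (n + 1)) k} (hG : G ≠ 0) :
    ∃ (C : ℝ) (N0 : ℕ), 0 ≤ C ∧ ∀ N : ℕ, N0 ≤ N →
    ∃ x : Fin (n + 1) → k, eval x G ≠ 0 ∧ (∀ j, dot (L j) x ≠ 0) ∧
      logHeight x ≤ C * N + C ∧
      (n + 1) * logHeight x + n * (((S.card : ℝ) - 2) * Real.log N) - C ≤
        ∑ v ∈ S, ∑ j, locHt v (lin (L j)) x := by
  classical
  obtain ⟨r, rfl⟩ := Nat.exists_eq_add_of_le hq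
  obtain ⟨A₀, B₀, c, hAB₀, hc0, hcs, hla⟩ := exists_coords2 (fun j => L (Fin.castAdd r j))
    (fun f hf => hL _ ((Fin.castAdd_injective (n + 2) r).comp hf))
  have hBA₀ : B₀ * A₀ = 1 := mul_eq_one_comm.mp hAB₀
  -- every form is nonzero
  have hL0 : ∀ j, lin (L j) ≠ 0 := by
    intro j hj
    have h1 : L j = 0 := by
      funext i
      have := eval_lin' (L j) (Pi.single i 1)
      rw [hj, map_zero] at this
      have h2 : dot (L j) (Pi.single i 1) = L j i := by
        unfold dot
        rw [Finset.sum_eq_single i]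
        · simp
        · intro b _ hb; simp [hb]
        · intro h; exact absurd (Finset.mem_univ i) h
      rw [← h2, ← this]; rfl
    -- an injective map hitting j
    obtain ⟨f, hf, i, hi⟩ : ∃ f : Fin (n + 1) → Fin (n + 2 + r), Injective f ∧ ∃ i, f i = j := by
      have hle : n + 1 ≤ n + 2 + r := by omega
      by_cases hj2 : ∃ i, Fin.castLE hle i = j
      · exact ⟨Fin.castLE hle, Fin.castLE_injective hle, hj2⟩
      · push Not at hj2
        refine ⟨fun i => if i = 0 then j else Fin.castLE hle i, ?_, 0, by simp⟩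
        intro a b hab
        simp only at hab
        split_ifs at hab with h1 h2 h2
        · rw [h1, h2]
        · exact absurd hab.symm (hj2 b)
        · exact absurd hab (hj2 a)
        · exact Fin.castLE_injective hle hab
    have h3 := (hL f hf).ne_zero i
    rw [hi] at h3
    exact h3 h1
  set G1 : MvPolynomial (Fin (n + 1)) k := G * ∏ j, lin (L j) with hG1
  have hG10 : G1 ≠ 0 := mul_ne_zero hG (Finset.prod_ne_zero_iff.mpr fun j _ => hL0 j)
  set G2 : MvPolynomial (Fin (n + 1)) k := bind₁ (fun i => lin (B₀ i)) G1 with hG2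
  have hevG2 : ∀ y, eval y G2 = eval (B₀.mulVec y) G1 := by
    intro y
    have h1 : (fun i => (aeval y) (lin (B₀ i))) = B₀.mulVec y := by
      funext i
      exact eval_lin' (B₀ i) y
    have h2 := MvPolynomial.aeval_bind₁ y (fun i => lin (B₀ i)) G1
    rw [← hG2] at h2
    have h3 : (aeval (B₀.mulVec y)) G1 = eval (B₀.mulVec y) G1 := rfl
    have h4 : (aeval y) G2 = eval y G2 := rfl
    rw [← h3, ← h4, ← h1]
    exact h2
  have hG20 : G2 ≠ 0 := by
    intro h
    apply hG10
    refine MvPolynomial.funext fun x => ?_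
    have h1 := hevG2 (A₀.mulVec x)
    rw [Matrix.mulVec_mulVec, hBA₀, Matrix.one_mulVec, h, map_zero] at h1
    rw [← h1, map_zero]
  obtain ⟨t, htinj, htR⟩ := exists_subst2 hG20
  obtain ⟨a, ha0, ha⟩ := exists_coeff (k := k) t htinj
  set s : Fin (n + 1) → k := fun i => a i / c i with hs
  have hs0 : ∀ i, s i ≠ 0 := fun i => div_ne_zero (ha0 i) (hc0 i)
  obtain ⟨R, hR⟩ := htR s hs0
  set A : Matrix (Fin (n + 1)) (Fin (n + 1)) k := Matrix.diagonal (fun i => (s i)⁻¹) * A₀ with hA
  set B : Matrix (Fin (n + 1)) (Fin (n + 1)) k := B₀ * Matrix.diagonal s with hB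
  have hAB : A * B = 1 := by
    have h1 : A * B = Matrix.diagonal (fun i => (s i)⁻¹) * (A₀ * B₀) * Matrix.diagonal s := by
      rw [hA, hB]
      simp only [Matrix.mul_assoc]
    rw [h1, hAB₀, Matrix.mul_one, Matrix.diagonal_mul_diagonal]
    have h2 : (fun i => (s i)⁻¹ * s i) = fun _ => (1 : k) := by
      funext i
      exact inv_mul_cancel₀ (hs0 i)
    rw [h2, Matrix.diagonal_one]
  set κ : Fin (n + 2) → k := Fin.snoc s 1 with hκdef
  have hκ : ∀ j, κ j ≠ 0 := by
    intro j
    induction j using Fin.lastCases with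
    | last => rw [hκdef, Fin.snoc_last]; exact one_ne_zero
    | cast i => rw [hκdef, Fin.snoc_castSucc]; exact hs0 i
  have hAx : ∀ x i, A.mulVec x i = (s i)⁻¹ * A₀.mulVec x i := by
    intro x i
    rw [hA, ← Matrix.mulVec_mulVec, Matrix.mulVec_diagonal]
  have hdot : ∀ j x, dot (L (Fin.castAdd r j)) x = κ j * dot (planesA a j) (A.mulVec x) := by
    intro j x
    induction j using Fin.lastCases with
    | last =>
      rw [hκdef, Fin.snoc_last, one_mul, planesA_last, hla x]
      unfold dot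
      refine Finset.sum_congr rfl fun i _ => ?_
      rw [hAx, ← mul_assoc]
      congr 1
      rw [hs]
      have h1 := ha0 i
      have h2 := hc0 i
      field_simp
    | cast i =>
      rw [hκdef, Fin.snoc_castSucc, planesA_castSucc, dot_single, hAx, ← mul_assoc,
        mul_inv_cancel₀ (hs0 i), one_mul]
      exact hcs i x
  -- the place `w`
  obtain ⟨w, hwS⟩ : ∃ w, w ∈ S := Finset.card_pos.mp (by omega)
  obtain ⟨M, N0, hM, hN0⟩ := near_all S hS w hwS
  obtain ⟨C', hC', hy⟩ := sharp_y (n := n) S hwS ha hM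
  -- `u` is close to `1`
  have hw1 := expAt_pos w
  have hS2 : (1 : ℝ) ≤ (S.card : ℝ) - 2 := by
    have : (3 : ℝ) ≤ S.card := by exact_mod_cast hS
    linarith
  obtain ⟨ε, hε0, hε⟩ : ∃ ε : ℝ, 0 < ε ∧ ε ≤ 1 / 2 ∧ ∀ z ∈ R, z ≠ 1 → ε < absAt w (z - 1) := by
    have h1 : ∀ R' : Finset k, ∃ ε : ℝ, 0 < ε ∧ ε ≤ 1 / 2 ∧
        ∀ z ∈ R', z ≠ 1 → ε < absAt w (z - 1) := by
      intro R'
      induction R' using Finset.induction_on with
      | empty => exact ⟨1 / 2, by norm_num, le_rfl, fun z hz => absurd hz (Finset.notMem_empty z)⟩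
      | insert b R' _ ih =>
        obtain ⟨ε, h1, h2, h3⟩ := ih
        by_cases hb : b = 1
        · refine ⟨ε, h1, h2, fun z hz hz1 => ?_⟩
          rcases Finset.mem_insert.mp hz with h | h
          · exact absurd (h.trans hb) hz1
          · exact h3 z h hz1
        · have hb0 : 0 < absAt w (b - 1) := absAt_pos w (sub_ne_zero.mpr hb)
          refine ⟨min ε (absAt w (b - 1) / 2), lt_min h1 (by linarith),
            (min_le_left _ _).trans h2, fun z hz hz1 => ?_⟩
          rcases Finset.mem_insert.mp hz with h | h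
          · rw [h]
            exact lt_of_le_of_lt (min_le_right _ _) (by linarith)
          · exact lt_of_le_of_lt (min_le_left _ _) (h3 z h hz1)
    exact h1 R
  obtain ⟨N1, hN1⟩ : ∃ N1 : ℕ, ∀ N : ℕ, N1 ≤ N → M - Real.log N ≤ -|Real.log ε| * expAt w := by
    have h1 : Filter.Tendsto (fun N : ℕ => Real.log (N : ℝ)) Filter.atTop Filter.atTop :=
      Real.tendsto_log_atTop.comp tendsto_natCast_atTop_atTop
    obtain ⟨N1, hN1⟩ := Filter.eventually_atTop.mp
      (h1.eventually_ge_atTop (M + |Real.log ε| * expAt w))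
    exact ⟨N1, fun N hN => by linarith [hN1 N hN]⟩
  -- constants
  obtain ⟨C0, hC0⟩ : ∃ C0 : ℝ, ∀ y : Fin (n + 1) → k, logHeight (B.mulVec y) ≤ C0 + logHeight y := by
    have := fun y => logHeight_linearMap_apply_le (fun p : Fin (n + 1) × Fin (n + 1) => B p.1 p.2) y
    exact ⟨_, fun y => this y⟩
  choose K hK0 hK using fun v : Place k => sup_mulVec_le v A
  set C1 : ℝ := ∑ v ∈ S, ∑ j : Fin (n + 2), |expAt v * (Real.log (K v) +
    Real.log (absAt v (κ j)))| with hC1
  have hC1n : 0 ≤ C1 := Finset.sum_nonneg fun v _ => Finset.sum_nonneg fun j _ => abs_nonneg _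
  set C2 : ℝ := ∑ v ∈ S, ∑ j : Fin r, |expAt v * Real.log (bd (lin (L (Fin.natAdd (n + 2) j))) v)|
    with hC2
  have hC2n : 0 ≤ C2 := Finset.sum_nonneg fun v _ => Finset.sum_nonneg fun j _ => abs_nonneg _
  refine ⟨C' + (n + 1) * |C0| + C1 + C2, max N0 (max N1 1), by positivity, ?_⟩
  intro N hN
  have hN1' : 1 ≤ N := (le_max_right _ _).trans ((le_max_right _ _).trans hN)
  have hlogN : 0 ≤ Real.log N := Real.log_natCast_nonneg N
  obtain ⟨u, hu0, hu1, huS, huM, huN, huw⟩ := hN0 N ((le_max_left _ _).trans hN)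
  have hupos : 0 < absAt w (u - 1) := absAt_pos w (sub_ne_zero.mpr hu1)
  have huε : absAt w (u - 1) ≤ ε := by
    have h1 := hN1 N ((le_max_left _ _).trans ((le_max_right _ _).trans hN))
    have h2 : Real.log (absAt w (u - 1)) ≤ -|Real.log ε| := by
      have h3 : expAt w * Real.log (absAt w (u - 1)) ≤ expAt w * (-|Real.log ε|) := by
        have h4 : 1 * Real.log N ≤ ((S.card : ℝ) - 2) * Real.log N :=
          mul_le_mul_of_nonneg_right hS2 hlogN
        linarith
      exact le_of_mul_le_mul_left h3 (by linarith)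
    have h3 : Real.log (absAt w (u - 1)) ≤ Real.log ε :=
      h2.trans (neg_abs_le _)
    exact (Real.log_le_log_iff hupos hε0).mp h3
  have huR : u ∉ R := fun h => absurd huε (not_le.mpr (hε.2 u h hu1))
  set y : Fin (n + 1) → k := fun i => u ^ t i with hydef
  set x := B.mulVec y with hx
  have hAxy : A.mulVec x = y := by
    rw [hx, Matrix.mulVec_mulVec, hAB, Matrix.one_mulVec]
  have hxB : x = B₀.mulVec (fun i => s i * u ^ t i) := by
    rw [hx, hB, ← Matrix.mulVec_mulVec]
    congr 1
    funext i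
    rw [Matrix.mulVec_diagonal]
  have hGy := hR u huR
  rw [hevG2, ← hxB, hG1, map_mul, map_prod] at hGy
  have hGx : eval x G ≠ 0 := left_ne_zero_of_mul hGy
  have hLx : ∀ j, dot (L j) x ≠ 0 := by
    intro j
    have := Finset.prod_ne_zero_iff.mp (right_ne_zero_of_mul hGy) j (Finset.mem_univ j)
    rwa [eval_lin'] at this
  have hplanes : ∀ j, dot (planesA a j) y ≠ 0 := by
    intro j h
    apply hLx (Fin.castAdd r j)
    rw [hdot j x, hAxy, h, mul_zero]
  have hx0 : x ≠ 0 := ne_zero_of_dot (hLx (Fin.castAdd r 0))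
  have hlasty : dot a y ≠ 0 := by
    have := hplanes (Fin.last (n + 1))
    rwa [planesA_last] at this
  obtain ⟨hyh, hyl⟩ := hy N (((S.card : ℝ) - 2) * Real.log N) u (Nat.cast_nonneg _) hu0 hu1 huS
    huM huN huw (huε.trans hε.1) hlasty
  rw [← hydef] at hyh hyl
  have h4 := hC0 y
  rw [← hx] at h4
  have h4' : logHeight x ≤ |C0| + logHeight y := by linarith [le_abs_self C0]
  refine ⟨x, hGx, hLx, ?_, ?_⟩
  · have h1 : (0 : ℝ) ≤ N := Nat.cast_nonneg N
    have h2 : |C0| ≤ ((n : ℝ) + 1) * |C0| := by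
      have : (0 : ℝ) ≤ n * |C0| := by positivity
      linarith
    have h3 : 0 ≤ (((n : ℝ) + 1) * |C0| + C1 + C2) * N := by positivity
    have h5 : (C' + (n + 1) * |C0| + C1 + C2) * N =
        C' * N + (((n : ℝ) + 1) * |C0| + C1 + C2) * N := by ring
    linarith
  have hy0 : y ≠ 0 := by
    intro h
    apply hx0
    rw [hx, h, Matrix.mulVec_zero]
  have h1 : ∀ v ∈ S, ∀ j : Fin (n + 2), locHt v (lin (planesA a j)) y -
      |expAt v * (Real.log (K v) + Real.log (absAt v (κ j)))| ≤
      locHt v (lin (L (Fin.castAdd r j))) x := by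
    intro v _ j
    rw [locHt_lin v (hplanes j), locHt_lin v (hLx _)]
    have e1 : dot (L (Fin.castAdd r j)) x = κ j * dot (planesA a j) y := by
      rw [hdot j x, hAxy]
    rw [e1, absAt_mul, Real.log_mul (absAt_pos v (hκ j)).ne' (absAt_pos v (hplanes j)).ne']
    have e2 := hK v x
    rw [hAxy] at e2
    have e3 := Real.log_le_log (sup_pos v hy0) e2
    rw [Real.log_mul (hK0 v).ne' (sup_pos v hx0).ne'] at e3
    have e4 := le_abs_self (expAt v * (Real.log (K v) + Real.log (absAt v (κ j))))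
    have e5 := mul_le_mul_of_nonneg_left e3 (Nat.cast_nonneg (α := ℝ) (expAt v))
    nlinarith
  have h2 : ∀ v ∈ S, ∀ j : Fin r,
      -|expAt v * Real.log (bd (lin (L (Fin.natAdd (n + 2) j))) v)| ≤
      locHt v (lin (L (Fin.natAdd (n + 2) j))) x := by
    intro v _ j
    refine (neg_le_neg (le_abs_self _)).trans (locHt_ge (lin_hom _) v hx0 ?_)
    rw [eval_lin']; exact hLx _
  have h3 : ∑ v ∈ S, ∑ j, locHt v (lin (planesA a j)) y - C1 - C2 ≤
      ∑ v ∈ S, ∑ j, locHt v (lin (L j)) x := by
    rw [hC1, hC2, ← Finset.sum_sub_distrib, ← Finset.sum_sub_distrib]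
    refine Finset.sum_le_sum fun v hv => ?_
    rw [Fin.sum_univ_add (fun j => locHt v (lin (L j)) x)]
    have q1 := Finset.sum_le_sum fun j (_ : j ∈ Finset.univ) => h1 v hv j
    have q2 := Finset.sum_le_sum fun j (_ : j ∈ Finset.univ) => h2 v hv j
    rw [Finset.sum_sub_distrib] at q1
    rw [Finset.sum_neg_distrib] at q2
    linarith
  have h5 : ((n : ℝ) + 1) * logHeight x ≤ (n + 1) * (|C0| + logHeight y) :=
    mul_le_mul_of_nonneg_left h4' (by positivity)
  linarith

end Pool.Agent.Lib.MP_17a322_nt
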