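import Mathlib
import Pool.Agent.Lib.MP_17a322_nt.LogSharp

/-!
# The logarithmic lower bound for the error term
-/

namespace Pool.Agent.Lib.MP_17a322_nt

open NumberField MvPolynomial Height Function

variable {k : Type*} [Field k] [NumberField k]

/-- For `|S| ≥ 3` and `q ≥ n + 2` hyperplanes in general position, off every hypersurface there
are points of arbitrarily large height with
`∑ ∑ ≥ (n+1) h(x) + n (|S| - 2) log h(x) - O(1)`. -/
theorem log_lower {n : ℕ} (hn : 1 ≤ n) (S : Finset (Place k)) (hS : 3 ≤ S.card)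
    {q : ℕ} (hq : n + 2 ≤ q) (L : Fin q → Fin (n + 1) → k)
    (hL : ∀ f : Fin (n + 1) → Fin q, Injective f → LinearIndependent k (fun i => L (f i)))
    {G : MvPolynomial (Fin (n + 1)) k} (hG : G ≠ 0) :
    ∃ C : ℝ, ∀ B : ℝ, ∃ x : Fin (n + 1) → k, eval x G ≠ 0 ∧ (∀ j, dot (L j) x ≠ 0) ∧
      B ≤ logHeight x ∧
      (n + 1) * logHeight x + n * ((S.card : ℝ) - 2) * Real.log (logHeight x) - C ≤
        ∑ v ∈ S, ∑ j, locHt v (lin (L j)) x := by
  classical
  obtain ⟨C, N0, hC, h⟩ := sharp_general_log S hS hq L hL hG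
  have hn1 : (1 : ℝ) ≤ n := by exact_mod_cast hn
  have hS2 : (1 : ℝ) ≤ (S.card : ℝ) - 2 := by
    have : (3 : ℝ) ≤ S.card := by exact_mod_cast hS
    linarith
  have hnS : 1 ≤ (n : ℝ) * ((S.card : ℝ) - 2) := one_le_mul_of_one_le_of_one_le hn1 hS2
  have hnS0 : 0 ≤ (n : ℝ) * ((S.card : ℝ) - 2) := by linarith
  set C1 : ℝ := ∑ j, |Real.log (lconst (lin (L j)))| with hC1
  have hq2 : (n : ℝ) + 2 ≤ q := by exact_mod_cast hq
  refine ⟨C + n * ((S.card : ℝ) - 2) * Real.log (2 * C + 1), fun B => ?_⟩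
  -- choose `N` large
  have h1 : Filter.Tendsto (fun N : ℕ => Real.log (N : ℝ)) Filter.atTop Filter.atTop :=
    Real.tendsto_log_atTop.comp tendsto_natCast_atTop_atTop
  obtain ⟨N1, hN1⟩ := Filter.eventually_atTop.mp
    (h1.eventually_ge_atTop (C + C1 + (q - n - 1) * (|B| + 1)))
  set N : ℕ := max N0 (max N1 1) with hN
  have hNN0 : N0 ≤ N := le_max_left _ _
  have hNN1 : N1 ≤ N := (le_max_left _ _).trans (le_max_right _ _)
  have hN1' : 1 ≤ N := (le_max_right _ _).trans (le_max_right _ _)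
  obtain ⟨x, hGx, hLx, hxh, hxl⟩ := h N hNN0
  have hlogN : 0 ≤ Real.log N := Real.log_natCast_nonneg N
  have hN1r : (1 : ℝ) ≤ N := by exact_mod_cast hN1'
  -- upper bound
  have h2 : ∑ v ∈ S, ∑ j, locHt v (lin (L j)) x ≤ q * logHeight x + C1 := by
    rw [Finset.sum_comm]
    have h3 : ∑ j, ∑ v ∈ S, locHt v (lin (L j)) x ≤
        ∑ j, (logHeight x + |Real.log (lconst (lin (L j)))|) :=
      Finset.sum_le_sum fun j _ => (lin_liouville S (hLx j)).trans
        (by linarith [le_abs_self (Real.log (lconst (lin (L j))))])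
    rw [Finset.sum_add_distrib, Finset.sum_const, Finset.card_univ, Fintype.card_fin,
      nsmul_eq_mul] at h3
    exact h3
  have hlow : |B| + 1 ≤ logHeight x := by
    have h3 := hN1 N hNN1
    have h4 : Real.log N ≤ n * (((S.card : ℝ) - 2) * Real.log N) := by
      have := mul_le_mul_of_nonneg_right hnS hlogN
      rw [one_mul] at this
      linarith
    have h5 : (q - n - 1) * (|B| + 1) ≤ ((q : ℝ) - n - 1) * logHeight x := by linarith
    exact le_of_mul_le_mul_left h5 (by linarith)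
  have hpos : 0 < logHeight x := by
    have := abs_nonneg B
    linarith
  refine ⟨x, hGx, hLx, by linarith [le_abs_self B], ?_⟩
  have h3 : logHeight x ≤ (2 * C + 1) * N := by
    have h4 : C ≤ C * N := le_mul_of_one_le_right hC hN1r
    nlinarith
  have h4 : Real.log (logHeight x) ≤ Real.log (2 * C + 1) + Real.log N := by
    rw [← Real.log_mul (by positivity) (by positivity)]
    exact Real.log_le_log hpos h3
  have h5 := mul_le_mul_of_nonneg_left h4 hnS0
  have h6 : (n : ℝ) * ((S.card : ℝ) - 2) * (Real.log (2 * C + 1) + Real.log N) =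
      n * ((S.card : ℝ) - 2) * Real.log (2 * C + 1) + n * (((S.card : ℝ) - 2) * Real.log N) := by
    ring
  rw [h6] at h5
  linarith

end Pool.Agent.Lib.MP_17a322_nt
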