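import Mathlib
import Pool.Agent.Lib.MP_17a322_nt.MV.FinK
import Pool.Agent.Lib.MP_17a322_nt.MV.FinS
import Pool.Agent.Lib.MP_17a322_nt.MV.FinY
import Pool.Agent.Lib.MP_17a322_nt.MV.Z2

/-!
Vojta's main conjecture (Q1), the upper bound in the conjecture of Manin and the abc conjecture in several variables:
Vojta's conjecture with `D = 0` for all projective varieties is EQUIVALENT to an upper bound of Manin type for the numbers
of the rational points of all projective varieties, over every number field; any unbounded gain over the trivial bound
suffices for it; and it is equivalent to the abc conjecture in several variables, both in a strong form (for all systems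
of forms, convergence of a series) and in a weak form (one explicit inequality for integers in each dimension).

For a projective variety `X` over a number field `K`, smooth or not, given by a homogeneous prime ideal, let `h` be the
height of the embedding and `hCan(p)` the height of the tangent space of the cone at `p` minus its dimension times
`h(p)`; for smooth `X` this is the height with respect to `K_X`. Vojta's conjecture with `D = 0` says: for every `δ > 0`,
outside a proper closed subset, `hCan(p) ≤ δ h(p) + O(1)` for the points `p` of `X` over `K` (`VojtaGauss K`, for all `X`).
In other words, the numbers `exp (hCan(p) - δ h(p))` are bounded. It implies all of Q1 over `K`, and its form with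
truncated counting functions, in particular the abc conjecture over `K`.

THE THEOREM. For all number fields `K` and `L` the following are equivalent:
* `VojtaGauss L`: Vojta's conjecture with `D = 0` for all projective varieties over `L`;
* `CountG K`: for all projective varieties over `K`, every `δ > 0`, outside a proper closed subset, there are for all `R`
  and `T` at most `A exp (R + δ T)` points `p` over `K` with `h(p) ≤ T` and `- hCan(p) ≤ R` (`- hCan` is the anticanonical
  height). For one point this is Vojta's inequality. For a Fano variety with `h = - hCan` it is the bound
  `A exp ((1 + δ) T)` for the number of the points of height at most `T`, the upper bound in Manin's conjecture up to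
  `exp (δ T)`;
* `CountRat K`: the same for rational varieties only (they may be singular);
* `SumG K`: for every `δ > 0`, outside a proper closed subset, the SUM of the numbers `exp (hCan(p) - δ h(p))` over the
  points over `K` converges;
* `SumInt`: for every form `H` in `n + 1` variables with integer coefficients, irreducible over `ℚ`, and every `ε > 0` the
  sum of the numbers `|∇H(p)| / (|p| ^ (n + ε) gcd(∇H(p)))` over the primitive integral zeros `p` of `H` outside a proper
  closed subset of `H = 0` converges;
* `AbcSeries`, the abc conjecture in several variables as the convergence of series: for finitely many forms `f_a` of one
  degree in `n + 1` variables with integer coefficients and every `ε > 0` the sum of the numbers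
  `max_s |W_s(w)| / (|w| ^ ε rad(∏ f_a(w)) gcd_s W_s(w))` over all primitive integral vectors `w` outside a hypersurface
  converges, where `W_s = det (∂ f_a / ∂ X_j)_{a ∈ s} * ∏_{a ∉ s} f_a` and `s` runs over the sets of `n + 1` of the forms.
  For `n = 1` and the forms `X`, `Y`, `X + Y` these numbers are at least `c ^ (1 - ε) / rad(a b c)`;
* `SqInt n` for all `n`: for the explicit forms `X_i ^ 2 + X_0 X_j - X_0 X_k`, `0 ≤ i, j, k ≤ n`, and every `ε > 0` these
  numbers are bounded: one explicit inequality for integers in each dimension;
* `GrowG K n α` for all `n` and all `α ≥ 0`: outside a proper closed subset at most `A exp ((α + δ) T)` points over `K`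
  satisfy `h(p) ≤ T` and `- hCan(p) ≤ α h(p)`, for the varieties of dimension `n`. (For `α = 0` this contains the bound
  `A exp (δ T)` for the number of the points with `h(p) ≤ T` on a smooth variety with `K_X = 0`.);
* `GrowG K d α` for some pairs `(d, α)` with `α ≥ 0` for which the gain `d + 1 - α` over the trivial exponent `d + 1` is
  unbounded, for instance with `α = d + 1 - log log d` for infinitely many `d`.

They imply Q1 over `K` and its form with truncated counting functions, also for the SUM over the points (`SumTrunc K n`):
for all smooth `X` of dimension `n` and all normal crossing divisors `D` the sum of the numbers
`exp (h_{K_X}(p) + h_D(p) - N^(1)_S(D, p) - δ h(p))` over the points of `X` over `K` outside a proper closed subset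
converges. For the projective line and three points: the sum of the numbers `c ^ (1 - δ) / rad(a b c)` over ALL coprime
positive integers `a + b = c` converges (`AbcSum`). The abc conjecture says that these numbers are bounded. The
convergence gives, for every `t ≥ 1`, at most `A H ^ (t - 1 + δ)` coprime `a + b = c ≤ H` with `rad(a b c) ≤ c ^ t`, the
upper bound in a question of Mazur (2000); see Kane (2015), Browning, Lichtman and Teräväinen (2024) for what is known.

They also imply Vojta's conjecture for algebraic points of bounded degree, `VojtaAlg k n d` for all number fields `k` and
all `n` and `d`: for a smooth projective variety `X` of dimension `n` over `k`, a normal crossing divisor `D = ∑ D_b`,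
`m ≠ 0` and `ε > 0`, at all points `p` of `X` over number fields `M` which contain `k`, `[M : k] ≤ d`, `M = k(p)`, outside
a proper closed subset, `h_D(p) + h_{K_X}(p) ≤ N^(1)(D, p) + log |disc M| + ε h(p) + C`, where all heights and sums over
places are those of `M` (not divided by the degree) and `N^(1)(D, p)` is the sum of `log q_v` over the finite places `v` of
`M` which do not divide `m` and at which `p` meets `D`.

Moreover, dimension by dimension and for smooth varieties only: one such bound over `K`, for ONE `d` and ONE exponent
`0 ≤ α < d + 1 - n`, where `n < d`, implies Q1 with `D = 0` for all smooth projective varieties of dimension `n` over `K`;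
if `n + 1 < d` and `α < d - n` it implies Q1 over `K` in dimension `n` for all normal crossing divisors `D`; if `n + 2 < d`
and `α < d - 1 - n` it implies its form with truncated counting functions, for `n = 1` the abc conjecture over `K`. (The
exponent `α = d + 1` is trivial, `α = d` is known, at least over `ℚ`, by the theorem on the dimension growth.) So every
unit of gain in the exponent is one dimension of the conjecture.

Nothing else is assumed, and resolution of singularities is not used. Before, that Vojta's conjecture implies such
bounds was known for K3 surfaces (McKinnon, 2011).

From the bounds to Vojta's conjecture (`MG`, `MV/S0` - `MV/S3`): for a point `p` of `X` over `K` one counts the points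
`(p, u)` of `X × ℙ^r` with `h(u) ≤ b`, `b = (hCan(p) + α h(p)) / (r + 1 - α)`. Their anticanonical heights are at most
`α h(p, u)`, and by the theorem of Schanuel there are at least a constant times `exp ((r + 1) b)` of them.

From Vojta's conjecture to the bounds over `ℚ` (`MV/A0` - `MV/E5`). Suppose that there are too many points, for a sequence
of `T`. Let `B` be the field of the classes of the sequences of rational numbers of height `O(T)` modulo an ultrafilter;
for the finitely generated subfields `E` of `B` Vojta's conjecture gives that no quotient of the space of the derivations
of `E` has negative degree (`FL`, `FQ`). One subdivides the set of the points by their residue classes modulo powers of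
`2`, and whenever many of them satisfy a new algebraic relation, one passes to a smaller variety (a space of tangent
vectors `V(p)` of smaller dimension). Points which are close to each other at the place `2` repel each other: many
points of one class, together with the base point of the class, give a point of a variety of high dimension, whose
tangent space has a quotient of negative degree. Hence the exponent of the number of points is at most
`- (hPl(V) - dim V h)`, reduced by `dim V - 1` times the fineness of the classes (`MV/D1`), and the space
`V(p)` has at least the canonical height of `X` (`MV/E5`).

From `ℚ` to `K` (`MV/W0` - `MV/W12`): the vectors over `K` which represent the points are chosen such that all their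
absolute values at the infinite places are of the same size and their coordinates have almost no common factor; their
coordinate vectors over `ℚ` give points of a projective variety `Z` over `ℚ`, the smallest one which contains a positive
proportion of them. The space over `K` spanned by the tangent space of `Z` is the tangent space of the cone over `X`; it
is obtained from the one of `Z` by adding vectors `b (D x)` with derivations `D` and constants `b` in `K`, each of which
adds at most `h(x)` to the height of the space. So the anticanonical height with respect to `Z` is at most the one
with respect to `X`, up to `o(T)`.

The abc conjecture in several variables. From `SqInt` to `VojtaGauss` (`GQ`, `FL`, `JAC`): every integral polynomial is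
computed, up to a constant, by a sequence of steps `(a, b) ↦ a ^ 2 + b` or `b - a ^ 2`; the results of the steps become new
variables, and for a given point the explicit inequality is used at a point which satisfies the relations
`x_i ^ 2 + x_j - x_k = 0` approximately, up to a number which is extremely divisible by the bad primes and extremely small;
this gives the abc inequality for all forms and then, by the choice of new variables at which the counting function is paid
by the gains of many hyperplane sections, the case `D = 0` for all rational and for all projective varieties. From
`VojtaGauss` to `AbcSeries` (`MV/Y0` - `MV/Y5`): the sum over the points of the image of a map of projective spaces, made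
injective by multiplying its forms with the variables, bounds the sum of the numbers `exp (h(minors) - r h(Φ(w)) - ε h(w))`;
for the abc inequality two further numbers are chosen for every point by the geometry of numbers, as in the case of single
points, and different points stay different. For algebraic points (`AP`): in an ultrapower of the field of the algebraic
numbers the sequences of bounded degree form an algebraic extension `B` of the field `R` of the sequences of rational
numbers; since ramification is tame there are finitely many rational numbers such that the differentials of all needed
functions are integral combinations of their logarithmic differentials at all valuation rings; they are made almost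
perfect `N`-th powers up to squarefree factors, and the sum of the `(e_v - 1) log q_v` is at most `log |disc M|`.

Conventions: see `EQ/Defs.lean`. All heights are `[K : ℚ]` times the normalised ones.
-/

universe u v

namespace Pool.Agent.Lib.MP_17a322_nt.ManinBoundThm

open Pool.Agent.Lib.MP_17a322_nt.EQ
open Pool.Agent.Lib.MP_17a322_nt.MG
open Pool.Agent.Lib.MP_17a322_nt.MV
open Pool.Agent.Lib.MP_17a322_nt.JAC (VojtaGauss)
open Pool.Agent.Lib.MP_17a322_nt.GQ (SqInt)
open Pool.Agent.Lib.MP_17a322_nt.AP (VojtaAlg)

/-- Let `K` and `L` be number fields. Vojta's conjecture with `D = 0` for all projective varieties over `L`, smooth or
not, is equivalent to each of the following statements on the points over `K` of all projective varieties over `K`: for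
every `δ > 0`, outside a proper closed subset, (1) at most `A exp (R + δ T)` points have height at most `T` and
anticanonical height at most `R`, for all `R` and `T`; (2) the same for rational varieties only; (3) the sum of the
numbers `exp (hCan(p) - δ h(p))` converges; (4) for all exponents `α ≥ 0` at most `A exp ((α + δ) T)` points have height
at most `T` and anticanonical height at most `α h(p)`; (5) the same in some dimensions `d` for some exponents `α ≥ 0` for
which the gain `d + 1 - α` is unbounded. It is also equivalent to the following statement on integers, `SumInt`: for
every form `H` in `n + 1` variables with integer coefficients, irreducible over `ℚ`, and every `ε > 0` the sum of the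
numbers `|∇H(p)| / (|p| ^ (n + ε) gcd(∇H(p)))` over the primitive integral zeros `p` of `H` outside a proper closed
subset of `H = 0` converges; to the abc conjecture in several variables as the convergence of series, `AbcSeries`; and to
the explicit inequalities `SqInt n` for integers. It implies Q1 over `K` and its form with truncated counting functions,
also for the sum over the points (`SumTrunc`), its form for algebraic points of bounded degree over all number fields
(`VojtaAlg`), and that the sum of the numbers `c ^ (1 - δ) / rad(a b c)` over all coprime positive integers `a + b = c`
converges for every `δ > 0` (`AbcSum`). For smooth varieties over `K`, a bound as in (4) in one dimension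
`d > n` with one exponent `0 ≤ α < d + 1 - n` implies Q1 with `D = 0` in dimension `n`; if `d > n + 1` and `α < d - n` it
implies Q1 in dimension `n`, if `d > n + 2` and `α < d - 1 - n` its form with truncated counting functions. -/
theorem result (K : Type u) [Field K] [NumberField K] (L : Type v) [Field L] [NumberField L] :
    ((VojtaGauss L ↔ CountG K) ∧ (VojtaGauss L ↔ CountRat K) ∧ (VojtaGauss L ↔ SumG K) ∧ (VojtaGauss L ↔ SumInt) ∧
      (VojtaGauss L ↔ AbcSeries) ∧ (VojtaGauss L ↔ ∀ n, SqInt n) ∧
      (VojtaGauss L ↔ ∀ (n : ℕ) (α : ℝ), 0 ≤ α → GrowG K n α) ∧
      (VojtaGauss L ↔ ∀ M : ℝ, ∃ (d : ℕ) (α : ℝ), 0 ≤ α ∧ α + M ≤ d + 1 ∧ GrowG K d α)) ∧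
    (VojtaGauss L → (∀ n, Vojta K n ∧ VojtaTrunc K n ∧ SumTrunc K n) ∧
      (∀ (k : Type) [Field k] [NumberField k] (n d : ℕ), VojtaAlg k n d) ∧ AbcSum) ∧
    ∀ (d : ℕ) (α : ℝ), 0 ≤ α → Grow K d α → ∀ n, n < d → (α < d + 1 - n → VojtaZero K n) ∧
      (n + 1 < d → α < d - n → Vojta K n) ∧ (n + 2 < d → α < d - 1 - n → VojtaTrunc K n) :=
  ⟨⟨gauss_iff_countK K L, gauss_iff_countRatK K L, gauss_iff_sumK K L, gauss_iff_sumInt L, gauss_iff_series L,
      gauss_iff_sqInt L, gauss_iff_growK K L, gauss_iff_gainK K L⟩,
    fun h => ⟨fun n => sumTrunc_of_gauss h K n, fun k _ _ n d => alg_of_gauss h k n d, abcSum_of_gauss h⟩,
    fun _ _ hα h n hn => ⟨fun h1 => ((staircase K hα h n hn).1 h1).1, (staircase K hα h n hn).2⟩⟩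

end Pool.Agent.Lib.MP_17a322_nt.ManinBoundThm
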