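import Mathlib.Algebra.AffineMonoid.Basic
import Mathlib.Algebra.AffineMonoid.UniqueSums
import Mathlib.Algebra.DualNumber
import Mathlib.Algebra.GroupWithZero.Submonoid.CancelMulZero
import Mathlib.Algebra.Module.StablyFree.Basic
import Mathlib.Algebra.MvPolynomial.Cardinal
import Mathlib.Algebra.MvPolynomial.Funext
import Mathlib.Algebra.Order.Sub.Prod
import Mathlib.Algebra.Ring.IsFormallyReal
import Mathlib.Analysis.Complex.ExponentialBounds
import Mathlib.Analysis.Polynomial.MahlerMeasure
import Mathlib.Analysis.SpecialFunctions.Trigonometric.Series
import Mathlib.Combinatorics.Nullstellensatz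
import Mathlib.Data.Int.Star
import Mathlib.Data.List.Indexes
import Mathlib.Data.Rat.Star
import Mathlib.FieldTheory.PurelyInseparable.Exponent
import Mathlib.GroupTheory.CosetCover
import Mathlib.GroupTheory.Descent
import Mathlib.GroupTheory.FiniteAbelian.Basic
import Mathlib.LinearAlgebra.ExteriorPower.Basis
import Mathlib.LinearAlgebra.LinearIndependent.BaseChange
import Mathlib.LinearAlgebra.Projectivization.Basic
import Mathlib.NumberTheory.Height.EllipticCurve
import Mathlib.NumberTheory.Height.NumberField
import Mathlib.NumberTheory.NumberField.ClassNumber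
import Mathlib.NumberTheory.NumberField.House
import Mathlib.NumberTheory.NumberField.Units.DirichletTheorem
import Mathlib.NumberTheory.RamificationInertia.Basic
import Mathlib.NumberTheory.RamificationInertia.Valuation
import Mathlib.Order.CompletePartialOrder
import Mathlib.Order.Filter.FilterProduct
import Mathlib.RingTheory.Artinian.Instances
import Mathlib.RingTheory.DedekindDomain.FiniteAdeleRing
import Mathlib.RingTheory.Derivation.Lie
import Mathlib.RingTheory.Etale.Weakly
import Mathlib.RingTheory.Finiteness.ModuleFinitePresentation
import Mathlib.RingTheory.Henselian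
import Mathlib.RingTheory.Ideal.Norm.RelNorm
import Mathlib.RingTheory.LocalProperties.Reduced
import Mathlib.RingTheory.MvPolynomial.EulerIdentity
import Mathlib.RingTheory.MvPolynomial.Ideal
import Mathlib.RingTheory.MvPolynomial.IrreducibleQuadratic
import Mathlib.RingTheory.Nullstellensatz
import Mathlib.RingTheory.PicardGroup
import Mathlib.RingTheory.Polynomial.IsIntegral
import Mathlib.RingTheory.Polynomial.Resultant.Basic
import Mathlib.RingTheory.PowerSeries.Derivative
import Mathlib.RingTheory.PowerSeries.Expand
import Mathlib.RingTheory.PowerSeries.Inverse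
import Mathlib.RingTheory.Prime
import Mathlib.RingTheory.RegularLocalRing.Defs
import Mathlib.RingTheory.RootsOfUnity.AlgebraicallyClosed
import Mathlib.RingTheory.SimpleRing.Principal
import Mathlib.RingTheory.TotallySplit
import Mathlib.RingTheory.Valuation.LocalSubring

/-!
The part of Mathlib that the modules of this folder use.
-/
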