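import Mathlib
import Pool.Agent.Lib.MP_17a322_nt.OnePlaceMain

/-!
# Vojta's inequality for arrangements of lines and conics in the plane, one place, no epsilon

`k` is a number field, `v` a place, `σ : k → L` an embedding into a locally compact field
inducing `v` (for instance `L = k_v`). `F i` are ternary forms over `k` of degree `d i`,
arbitrarily many. At every nonzero point `P` over `L` either the forms vanishing at `P` have total
degree at most `3`, or exactly two conics cross there transversally and `P` lies on a line over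
`k`. Then off finitely many lines the sum of the local heights at `v` is at most
`3 h(x) + O(1)`.
-/

namespace Pool.Agent.Lib.MP_17a322_nt.PlaneConicsThm

open Pool.Agent.Lib.MP_17a322_nt NumberField MvPolynomial Height

theorem result {k : Type*} [Field k] [NumberField k] {v : Place k}
    {L : Type*} [NontriviallyNormedField L] [ProperSpace L]
    {σ : k →+* L} (hσ : Induces v σ) {ι : Type*} [Fintype ι]
    (F : ι → MvPolynomial (Fin (2 + 1)) k) (d : ι → ℕ)
    (hF : ∀ i, (F i).IsHomogeneous (d i))
    (h : ∀ P : Fin (2 + 1) → L, P ≠ 0 →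
      ∑ i ∈ through σ F P, d i ≤ 3 ∨ ConicCrossing σ F d P) :
    ∃ (Z : Finset (Fin (2 + 1) → k)) (C : ℝ), (∀ l ∈ Z, l ≠ 0) ∧
      ∀ x : Fin (2 + 1) → k, x ≠ 0 → (∀ i, eval x (F i) ≠ 0) →
        (∀ l ∈ Z, ∑ m, l m * x m ≠ 0) →
        ∑ i, locHt v (F i) x ≤ 3 * logHeight x + C := by
  obtain ⟨Z, C, hZ, hC⟩ := one_place hσ F d hF h
  refine ⟨Z, C, hZ, fun x hx hFx hl => (hC x hx hFx hl).trans (le_of_eq ?_)⟩
  norm_num

end Pool.Agent.Lib.MP_17a322_nt.PlaneConicsThm
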