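import Pool.Agent.Lib.MP_17a322_nt.RO.N4

/-!
Vojta's inequality with `D = 0` on the varieties birational to a power `E ^ n` of an elliptic curve
with Mordell-Weil group of rank at most one.

Let `f`, `g` be coprime polynomials in `n` variables, `d_i` the larger of their degrees in the
`i`-th variable. For a point `P = (P_1, ..., P_n)` of `E ^ n` with affine coordinates the number
`∑ d_i h(x(P_i)) - h([f(x(P)) : g(x(P))])` is the height of `P` with respect to the closed subscheme
`f(x) = g(x) = 0` of `E ^ n` (the height of the exceptional divisor on the blow-up). The theorem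
bounds it by `ε ∑ h(x(P_i)) + C` outside a proper closed subset, for all rational points.
-/

namespace Pool.Agent.Lib.MP_17a322_nt.RankOnePowersThm

open MvPolynomial Height

/-- Let `K` be a number field and `E` an elliptic curve over `K` whose group of rational points is
`ℤ R + T` with a finite set `T` (rank at most one). For coprime `f`, `g` in `K[x_1, ..., x_n]` and
`ε > 0` there are a nonzero polynomial `G` and a constant `C` such that
`∑ d_i h(x_i) - h([f(x) : g(x)]) ≤ ε ∑ h(x_i) + C` for all affine points `(x_i, y_i)` of `E` over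
`K` with `G(x) ≠ 0`. -/
theorem result {K : Type*} [Field K] [NumberField K] [DecidableEq K] (W : WeierstrassCurve K)
    [W.IsElliptic]
    (hE : ∃ (R : W.toAffine.Point) (T : Finset W.toAffine.Point),
      ∀ P : W.toAffine.Point, ∃ m : ℤ, P - m • R ∈ T)
    (n : ℕ) (f g : MvPolynomial (Fin n) K) (hfg : IsRelPrime f g) (ε : ℝ) (hε : 0 < ε) :
    ∃ G : MvPolynomial (Fin n) K, G ≠ 0 ∧ ∃ C : ℝ, ∀ x y : Fin n → K,
      (∀ i, W.toAffine.Equation (x i) (y i)) → eval x G ≠ 0 →
        ∑ i, ((max (f.degreeOf i) (g.degreeOf i) : ℕ) : ℝ) * logHeight₁ (x i) -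
            logHeight ![eval x f, eval x g] ≤
          ε * ∑ i, logHeight₁ (x i) + C :=
  Pool.Agent.Lib.MP_17a322_nt.RO.main W hE n f g hfg ε hε

end Pool.Agent.Lib.MP_17a322_nt.RankOnePowersThm
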